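import Pool.Agent.Helper74K9.BES.APPc

/-!
# The application to Steiner triple systems
-/

set_option autoImplicit false

namespace Pool.Agent.Helper74K9.BES

open Finset Pool.Agent.W848.TreeAvg

section

variable {V : Type*} [DecidableEq V] [Fintype V]

lemma sum_choose (d : ℕ) : (2 * (d.choose 2) : ℤ) = d * (d - 1) := by
  induction d with
  | zero => simp
  | succ k ih =>
    rw [Nat.choose_succ_succ' k 1, Nat.choose_one_right]
    push_cast
    linarith

lemma cast_dd (d : ℕ) : ((2 * d * (2 * d - 2) : ℕ) : ℤ) = 4 * (d * (d - 1)) := by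
  rcases d with _ | k
  · simp
  · have : 2 * (k + 1) - 2 = 2 * k := by omega
    rw [this]
    push_cast
    ring

lemma angles_Det {C : Finset (Finset V)} (h : Lin C) (L : Finset V) :
    (2 * (angles (Det L C)).card : ℤ) = ∑ x : V, (1 - ind (x ∈ L) : ℤ) * (dg C x * (dg C x - 1)) := by
  rw [(h.Det L).card_angles, Fintype.sum_sum_type]
  have h2 : ∑ p : V × Finset V, (dg (Det L C) (Sum.inr p)).choose 2 = 0 := by
    refine sum_eq_zero fun p _ => ?_
    obtain ⟨v, k⟩ := p
    exact Nat.choose_eq_zero_of_lt (by have := dg_Det_inr L C v k; omega)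
  rw [h2, add_zero]
  push_cast
  rw [mul_sum]
  refine sum_congr rfl fun x _ => ?_
  rw [dg_Det_inl]
  by_cases hx : x ∈ L
  · rw [if_pos hx, ind_pos hx]; simp
  · rw [if_neg hx, ind_neg hx, sum_choose]; simp

lemma sum_dg {H : Finset (Finset V)} (h3 : ∀ l ∈ H, l.card = 3) :
    ∑ x, dg H x = 3 * H.card := by
  unfold dg
  simp only [card_filter]
  rw [sum_comm]
  have : ∀ l ∈ H, ∑ x, (if x ∈ l then 1 else 0) = 3 := by
    intro l hl
    rw [← card_filter, filter_mem_eq_inter, univ_inter, h3 l hl]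
  rw [sum_congr rfl this, sum_const, smul_eq_mul, mul_comm]

end

/-- the inequality at a vertex -/
lemma vertex (e m r b : ℤ) (he : 3 ≤ e) (hm : 30 * e ≤ m) (hr : 0 ≤ r) (hb : 0 ≤ b)
    (hrb : r + b = m) (i j : ℤ)
    (hi : i = 0 ∨ (i = 1 ∧ 9 * r < 2 * m + 1 + 3 * e))
    (hj : j = 0 ∨ (j = 1 ∧ 9 * b < 2 * m + 1 + 3 * e)) :
    2 * ((1 - i) * (r * (r - 1)) + (1 - j) * (b * (b - 1))) + 12 * (r * b) +
      12 * (i * (r * (r - 1)) + j * (b * (b - 1))) - 2 * m * (2 * m - 2) ≤ 2 * m := by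
  obtain rfl : b = m - r := by linarith
  rcases hi with rfl | ⟨rfl, hi⟩ <;> rcases hj with rfl | ⟨rfl, hj⟩
  · nlinarith [sq_nonneg (m - 2 * r)]
  · -- `b` small
    have h1 : 4 * (m - 2 * (m - r)) ≥ 9 * (m - r) := by linarith
    nlinarith [mul_nonneg hb (by linarith : (0:ℤ) ≤ 4 * (m - 2 * (m - r)) - 9 * (m - r)),
      mul_self_nonneg (4 * (m - 2 * (m - r)) - 9 * (m - r))]
  · have h1 : 4 * (m - 2 * r) ≥ 9 * r := by linarith
    nlinarith [mul_nonneg hr (by linarith : (0:ℤ) ≤ 4 * (m - 2 * r) - 9 * r),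
      mul_self_nonneg (4 * (m - 2 * r) - 9 * r)]
  · exfalso; linarith

lemma vertex_low (e m r b : ℤ) (he : 3 ≤ e) (hm : 30 * e ≤ m) (hr : 0 ≤ r) (hb : 0 ≤ b)
    (hrb : r + b = m) (i j : ℤ)
    (hi : i = 0 ∨ (i = 1 ∧ 9 * r < 2 * m + 1 + 3 * e))
    (hj : j = 0 ∨ (j = 1 ∧ 9 * b < 2 * m + 1 + 3 * e)) :
    m * m ≤ 8 * ((1 - i) * (r * (r - 1)) + (1 - j) * (b * (b - 1))) := by
  obtain rfl : b = m - r := by linarith
  have hr' : 0 ≤ r * (r - 1) := by
    rcases hr.eq_or_lt with h | h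
    · rw [← h]; simp
    · exact mul_nonneg hr (by linarith)
  have hb' : 0 ≤ (m - r) * (m - r - 1) := by
    rcases hb.eq_or_lt with h | h
    · rw [← h]; simp
    · exact mul_nonneg hb (by linarith)
  rcases le_total (m - r) r with h | h
  · -- `r` is the larger
    have hi0 : i = 0 := by
      rcases hi with h' | ⟨-, h'⟩
      · exact h'
      · exfalso; linarith
    subst hi0
    have hj0 : 0 ≤ (1 - j) * ((m - r) * (m - r - 1)) := by
      rcases hj with rfl | ⟨rfl, -⟩
      · simpa using hb'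
      · simp
    nlinarith
  · have hj0 : j = 0 := by
      rcases hj with h' | ⟨-, h'⟩
      · exact h'
      · exfalso; linarith
    subst hj0
    have hi0 : 0 ≤ (1 - i) * (r * (r - 1)) := by
      rcases hi with rfl | ⟨rfl, -⟩
      · simpa using hr'
      · simp
    nlinarith

theorem application (e K C : ℕ) (he : 3 ≤ e)
    (hB : ∀ (V : Type) [DecidableEq V] (H : Finset (Finset V)), Lin H → Free e H → Cond8 e H →
      3 * K * (tris H).card + (angles H).card ≤ 2 * K * (angles H).card + C * H.card) :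
    ∃ N : ℕ, ∀ n ≥ N, ∀ H : Finset (Finset (Fin n)), (∀ l ∈ H, l.card = 3) →
      (∀ x y : Fin n, x ≠ y → ∃! l, l ∈ H ∧ x ∈ l ∧ y ∈ l) →
      ∀ R ⊆ H, (∃ S ⊆ R, S.card = e ∧ (un S).card ≤ e + 3) ∨
        (∃ S ⊆ H \ R, S.card = e ∧ (un S).card ≤ e + 3) := by
  refine ⟨100 * (K + C) + 100 * e + 100, ?_⟩
  intro n hn H h3 hH R hR
  by_contra hcon
  push Not at hcon
  obtain ⟨hfR, hfQ⟩ := hcon
  set Q := H \ R with hQdef
  have hQ : Q ⊆ H := sdiff_subset
  have hlin : Lin H := by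
    refine ⟨h3, ?_⟩
    intro A hA B hB hAB
    by_contra hc
    push Not at hc
    obtain ⟨x, hx, y, hy, hxy⟩ := one_lt_card.1 hc
    obtain ⟨l, -, hu⟩ := hH x y hxy
    exact hAB ((hu A ⟨hA, (mem_inter.1 hx).1, (mem_inter.1 hy).1⟩).trans
      (hu B ⟨hB, (mem_inter.1 hx).2, (mem_inter.1 hy).2⟩).symm)
  have hlR := hlin.mono hR
  have hlQ := hlin.mono hQ
  set L : Finset (Fin n) := univ.filter (fun v => 9 * dg R v < n + 3 * e) with hL
  set M : Finset (Fin n) := univ.filter (fun v => 9 * dg Q v < n + 3 * e) with hM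
  have hcR : Cond8 e (Det L R) := by
    refine Cond8.Det he hlR hfR L ?_
    intro v hv
    rw [Fintype.card_fin]
    by_contra h
    exact hv (mem_filter.2 ⟨mem_univ _, not_le.1 h⟩)
  have hcQ : Cond8 e (Det M Q) := by
    refine Cond8.Det he hlQ hfQ M ?_
    intro v hv
    rw [Fintype.card_fin]
    by_contra h
    exact hv (mem_filter.2 ⟨mem_univ _, not_le.1 h⟩)
  have bR := hB _ (Det L R) (hlR.Det L) (Free.Det hfR L) hcR
  have bQ := hB _ (Det M Q) (hlQ.Det M) (Free.Det hfQ M) hcQ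
  rw [card_Det] at bR bQ
  have gm := goodman hR hQ (by
    intro l hl
    by_cases h : l ∈ R
    · exact Or.inl h
    · exact Or.inr (mem_sdiff.2 ⟨hl, h⟩)) hlin hH L M
  rw [Fintype.card_fin] at gm
  -- degrees
  have hdeg : ∀ x, 2 * (dg R x + dg Q x) + 1 = n := by
    intro x
    have h1 : dg H x = dg R x + dg Q x := by
      unfold dg
      rw [← card_union_of_disjoint]
      · congr 1
        rw [← filter_union, hQdef, union_sdiff_of_subset hR]
      · exact disjoint_filter_filter disjoint_sdiff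
    have h2 : nb H x = univ.erase x := by
      ext y
      rw [mem_nb, mem_erase]
      constructor
      · intro h; exact ⟨h.1.symm, mem_univ _⟩
      · rintro ⟨h, -⟩
        obtain ⟨l, hl, -⟩ := hH x y h.symm
        exact ⟨h.symm, l, hl.1, hl.2.1, hl.2.2⟩
    have h3 := hlin.card_nb x
    rw [h2, card_erase_of_mem (mem_univ _), card_univ, Fintype.card_fin, h1] at h3
    omega
  have hn0 : 0 < n := by omega
  obtain ⟨m, hm⟩ : ∃ m : ℕ, n = 2 * m + 1 := ⟨_, (hdeg ⟨0, hn0⟩).symm⟩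
  have hdeg' : ∀ x, dg R x + dg Q x = m := by
    intro x; have := hdeg x; omega
  have hm30 : 30 * e ≤ m := by omega
  -- numbers of lines
  have hcard : (H.card : ℤ) ≤ n * m := by
    have h1 := sum_dg h3
    have h2 : ∑ x, dg H x = n * m := by
      have : ∀ x, dg H x = m := by
        intro x
        rw [← hdeg' x]
        unfold dg
        rw [← card_union_of_disjoint]
        · congr 1
          rw [← filter_union, hQdef, union_sdiff_of_subset hR]
        · exact disjoint_filter_filter disjoint_sdiff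
      rw [sum_congr rfl (fun x _ => this x), sum_const, smul_eq_mul, card_univ, Fintype.card_fin]
    have h4 : H.card ≤ n * m := by omega
    exact_mod_cast h4
  have hRQc : (R.card + Q.card : ℤ) = H.card := by
    have := card_sdiff_add_card_eq_card hR
    rw [← hQdef] at this
    have h' : (Q.card : ℤ) + R.card = H.card := by exact_mod_cast this
    linarith
  -- the two vertex inequalities summed
  set iR : Fin n → ℤ := fun x => (ind (x ∈ L) : ℤ) with hiR
  set iQ : Fin n → ℤ := fun x => (ind (x ∈ M) : ℤ) with hiQ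
  have hiR' : ∀ x, iR x = 0 ∨ (iR x = 1 ∧ 9 * (dg R x : ℤ) < 2 * m + 1 + 3 * e) := by
    intro x
    by_cases hx : x ∈ L
    · right
      refine ⟨by simp only [hiR]; rw [ind_pos hx]; rfl, ?_⟩
      have := (mem_filter.1 hx).2
      have h' : 9 * dg R x < 2 * m + 1 + 3 * e := by omega
      exact_mod_cast h'
    · left; simp only [hiR]; rw [ind_neg hx]; rfl
  have hiQ' : ∀ x, iQ x = 0 ∨ (iQ x = 1 ∧ 9 * (dg Q x : ℤ) < 2 * m + 1 + 3 * e) := by
    intro x
    by_cases hx : x ∈ M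
    · right
      refine ⟨by simp only [hiQ]; rw [ind_pos hx]; rfl, ?_⟩
      have := (mem_filter.1 hx).2
      have h' : 9 * dg Q x < 2 * m + 1 + 3 * e := by omega
      exact_mod_cast h'
    · left; simp only [hiQ]; rw [ind_neg hx]; rfl
  have he' : (3 : ℤ) ≤ e := by exact_mod_cast he
  have hm' : (30 * e : ℤ) ≤ m := by exact_mod_cast hm30
  have s1 : ∑ x, (2 * ((1 - iR x) * (dg R x * (dg R x - 1)) + (1 - iQ x) * (dg Q x * (dg Q x - 1)))
      + 12 * (dg R x * dg Q x : ℤ) +
      12 * (iR x * (dg R x * (dg R x - 1)) + iQ x * (dg Q x * (dg Q x - 1)))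
      - 2 * m * (2 * m - 2)) ≤ ∑ x : Fin n, (2 * m : ℤ) := by
    refine sum_le_sum fun x _ => ?_
    exact vertex e m (dg R x) (dg Q x) he' hm' (by positivity) (by positivity)
      (by exact_mod_cast hdeg' x) (iR x) (iQ x) (hiR' x) (hiQ' x)
  have s2 : ∑ x : Fin n, (m * m : ℤ) ≤ ∑ x, 8 * ((1 - iR x) * (dg R x * (dg R x - 1)) +
      (1 - iQ x) * (dg Q x * (dg Q x - 1))) := by
    refine sum_le_sum fun x _ => ?_
    exact vertex_low e m (dg R x) (dg Q x) he' hm' (by positivity) (by positivity)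
      (by exact_mod_cast hdeg' x) (iR x) (iQ x) (hiR' x) (hiQ' x)
  have aR := angles_Det hlR L
  have aQ := angles_Det hlQ M
  set AR : ℤ := ∑ x, (1 - iR x) * (dg R x * (dg R x - 1)) with hAR
  set AQ : ℤ := ∑ x, (1 - iQ x) * (dg Q x * (dg Q x - 1)) with hAQ
  set P : ℤ := ∑ x, (dg R x * dg Q x : ℤ) with hP
  set BR : ℤ := ∑ x, iR x * (dg R x * (dg R x - 1)) with hBR
  set BQ : ℤ := ∑ x, iQ x * (dg Q x * (dg Q x - 1)) with hBQ
  simp only [sum_sub_distrib, sum_add_distrib, ← mul_sum, sum_const, card_univ, Fintype.card_fin,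
    nsmul_eq_mul] at s1 s2
  rw [← hAR, ← hAQ, ← hBR, ← hBQ, ← hP] at s1
  rw [← hAR, ← hAQ] at s2
  -- Goodman in the integers
  have gz : 2 * ((n : ℤ) * ((2 * m) * (2 * m - 2))) ≤
      2 * (6 * ((tris (Det L R)).card : ℤ)) + 2 * (6 * ((tris (Det M Q)).card : ℤ)) +
      24 * P + 6 * (4 * BR) + 6 * (4 * BQ) := by
    have c1 : ((∑ x, ind (x ∈ L) * (2 * dg R x * (2 * dg R x - 2)) : ℕ) : ℤ) = 4 * BR := by
      rw [hBR, mul_sum]
      push_cast [Nat.cast_sum]
      refine sum_congr rfl fun x _ => ?_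
      have := cast_dd (dg R x)
      push_cast at this
      simp only [hiR]
      rw [this]; ring
    have c2 : ((∑ x, ind (x ∈ M) * (2 * dg Q x * (2 * dg Q x - 2)) : ℕ) : ℤ) = 4 * BQ := by
      rw [hBQ, mul_sum]
      push_cast [Nat.cast_sum]
      refine sum_congr rfl fun x _ => ?_
      have := cast_dd (dg Q x)
      push_cast at this
      simp only [hiQ]
      rw [this]; ring
    have c3 : ((∑ x, dg R x * dg Q x : ℕ) : ℤ) = P := by
      rw [hP]; push_cast; rfl
    have c4 : n - 1 = 2 * m := by omega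
    have c5 : ((n - 3 : ℕ) : ℤ) = 2 * m - 2 := by
      have : n - 3 + 2 = 2 * m := by omega
      have h' : ((n - 3 : ℕ) : ℤ) + 2 = 2 * m := by exact_mod_cast this
      linarith
    rw [c4] at gm
    have gm' : ((2 * (n * ((2 * m) * (n - 3))) : ℕ) : ℤ) ≤
      ((2 * (6 * (tris (Det L R)).card) + 2 * (6 * (tris (Det M Q)).card) +
      24 * ∑ x, dg R x * dg Q x +
      6 * (∑ x, ind (x ∈ L) * (2 * dg R x * (2 * dg R x - 2))) +
      6 * (∑ x, ind (x ∈ M) * (2 * dg Q x * (2 * dg Q x - 2))) : ℕ) : ℤ) := by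
      exact_mod_cast gm
    rw [Nat.cast_add, Nat.cast_add, Nat.cast_add, Nat.cast_add, Nat.cast_mul 6, Nat.cast_mul 6,
      Nat.cast_mul 24, c1, c2, c3] at gm'
    rw [Nat.cast_mul, Nat.cast_mul, Nat.cast_mul, c5] at gm'
    push_cast at gm'
    linarith
  have bR' : (3 * K * ((tris (Det L R)).card : ℤ) + (angles (Det L R)).card ≤
      2 * K * (angles (Det L R)).card + C * R.card) := by exact_mod_cast bR
  have bQ' : (3 * K * ((tris (Det M Q)).card : ℤ) + (angles (Det M Q)).card ≤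
      2 * K * (angles (Det M Q)).card + C * Q.card) := by exact_mod_cast bQ
  set tR : ℤ := ((tris (Det L R)).card : ℤ) with htR
  set tQ : ℤ := ((tris (Det M Q)).card : ℤ) with htQ
  set gR : ℤ := ((angles (Det L R)).card : ℤ) with hgR
  set gQ : ℤ := ((angles (Det M Q)).card : ℤ) with hgQ
  -- final
  have f1 : 2 * (AR + AQ) - 6 * tR - 6 * tQ ≤ n * (2 * m) := by
    linarith
  have hK : (0 : ℤ) ≤ K := by positivity
  have hC : (0 : ℤ) ≤ C := by positivity
  have f2 : AR + AQ ≤ K * (2 * (AR + AQ) - 6 * tR - 6 * tQ) + 2 * C * H.card := by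
    rw [← aR, ← aQ, ← hRQc]
    linarith
  have f3 : AR + AQ ≤ K * (n * (2 * m)) + 2 * C * (n * m) := by
    have h1 := mul_le_mul_of_nonneg_left f1 hK
    have h2 := mul_le_mul_of_nonneg_left hcard (by linarith : (0:ℤ) ≤ 2 * C)
    linarith
  have f4 : (n : ℤ) * (m * m) ≤ 8 * (K * (n * (2 * m)) + 2 * C * (n * m)) := by
    linarith
  have hnm : (0 : ℤ) < n * m := by
    have : 0 < n * m := Nat.mul_pos hn0 (by omega)
    exact_mod_cast this
  have f5 : ((n : ℤ) * m) * m ≤ (n * m) * (16 * (K + C)) := by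
    linarith
  have f6 : (m : ℤ) ≤ 16 * (K + C) := le_of_mul_le_mul_left f5 hnm
  have f7 : m ≤ 16 * (K + C) := by exact_mod_cast f6
  omega

end Pool.Agent.Helper74K9.BES
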