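import Pool.Agent.Helper74K9.BES.K4

/-!
# Exact forms of the counts of triangles and faces at an angle
-/

set_option autoImplicit false

namespace Pool.Agent.Helper74K9.BES

open Finset Pool.Agent.W848.TreeAvg

variable {V : Type*} [DecidableEq V] {F : Finset (Finset V)} {S : Finset (Finset (Finset V))}

/-- two points are joined by a line -/
def Jn (F : Finset (Finset V)) (x y : V) : Prop := ∃ m ∈ F, x ∈ m ∧ y ∈ m

instance (F : Finset (Finset V)) (x y : V) : Decidable (Jn F x y) := by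
  unfold Jn; infer_instance

/-- the corners of the pair of lines `A`, `B` that are joined -/
def corners (F : Finset (Finset V)) (A B : Finset V) : Finset (V × V) :=
  ((A \ B) ×ˢ (B \ A)).filter (fun p => Jn F p.1 p.2)

lemma Lin.inter_card (h : Lin F) {A B : Finset V} (hs : ({A, B} : Finset (Finset V)) ∈ angles F) :
    (A ∩ B).card = 1 := by
  obtain ⟨hA, hB, hAB, x, hx, hx'⟩ := h.pair_mem_angles.1 hs
  have h5 := h.lin A hA B hB hAB
  have h6 : 0 < (A ∩ B).card := card_pos.2 ⟨x, mem_inter.2 ⟨hx, hx'⟩⟩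
  omega

lemma Lin.sdiff_card (h : Lin F) {A B : Finset V} (hs : ({A, B} : Finset (Finset V)) ∈ angles F) :
    (A \ B).card = 2 := by
  have h1 := h.inter_card hs
  have h2 := card_sdiff_add_card_inter A B
  rw [h1, h.h3 A (h.pair_mem_angles.1 hs).1] at h2
  omega

/-- the third line of a triangle containing the angle `{A, B}` -/
lemma Lin.tri_third (h : Lin F) {A B : Finset V} (hAB : ({A, B} : Finset (Finset V)) ∈ angles F)
    {τ : Finset (Finset V)} (hτ : τ ∈ tris F) (hsub : ({A, B} : Finset (Finset V)) ⊆ τ) :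
    ∃ C ∈ F, A ≠ C ∧ B ≠ C ∧ τ = {A, B, C} ∧
      ∃ x ∈ A \ B, ∃ y ∈ B \ A, x ∈ C ∧ y ∈ C ∧ x ≠ y := by
  obtain ⟨hA, hB, hne, w, hwA, hwB⟩ := h.pair_mem_angles.1 hAB
  obtain ⟨h1, h2, h3⟩ := mem_tris.1 hτ
  have h4 : (τ \ {A, B}).card = 1 := by
    rw [card_sdiff_of_subset hsub, h2, card_pair hne]
  obtain ⟨C, hC⟩ := card_eq_one.1 h4
  have hCτ : C ∈ τ \ {A, B} := by rw [hC]; simp
  rw [mem_sdiff] at hCτ
  simp only [mem_insert, mem_singleton, not_or] at hCτ
  have hτe : τ = {A, B, C} := by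
    rw [← union_sdiff_of_subset hsub, hC]
    ext D
    simp only [mem_union, mem_insert, mem_singleton, or_assoc]
  have hCF : C ∈ F := h1 hCτ.1
  have hAC : A ≠ C := fun h => hCτ.2.1 h.symm
  have hBC : B ≠ C := fun h => hCτ.2.2 h.symm
  refine ⟨C, hCF, hAC, hBC, hτe, ?_⟩
  have hun : un ({A, B, C} : Finset (Finset V)) = (A ∪ B) ∪ C := by
    ext v; simp [un]
  rw [hτe, hun] at h3
  have g1 := card_union_add_card_inter (A ∪ B) C
  have g2 := card_union_add_card_inter A B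
  have g3 : (A ∪ B) ∩ C = (A ∩ C) ∪ (B ∩ C) := union_inter_distrib_right _ _ _
  have g4 := card_union_add_card_inter (A ∩ C) (B ∩ C)
  have g5 := h.lin A hA C hCF hAC
  have g6 := h.lin B hB C hCF hBC
  rw [h3, g3, h.h3 C hCF] at g1
  rw [h.inter_card hAB, h.h3 A hA, h.h3 B hB] at g2
  have g7 : ((A ∩ C) ∩ (B ∩ C)).card = 0 := by omega
  have g8 : (A ∩ C).card = 1 := by omega
  have g9 : (B ∩ C).card = 1 := by omega
  obtain ⟨x, hx⟩ := card_pos.1 (show 0 < (A ∩ C).card by omega)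
  obtain ⟨y, hy⟩ := card_pos.1 (show 0 < (B ∩ C).card by omega)
  rw [card_eq_zero] at g7
  have hd : ∀ v, v ∈ A → v ∈ B → v ∈ C → False := by
    intro v a b c
    have : v ∈ (A ∩ C) ∩ (B ∩ C) := mem_inter.2 ⟨mem_inter.2 ⟨a, c⟩, mem_inter.2 ⟨b, c⟩⟩
    rw [g7] at this
    simp at this
  rw [mem_inter] at hx hy
  refine ⟨x, mem_sdiff.2 ⟨hx.1, fun hb => hd x hx.1 hb hx.2⟩, y,
    mem_sdiff.2 ⟨hy.1, fun ha => hd y ha hy.1 hy.2⟩, hx.2, hy.2, ?_⟩
  rintro rfl
  exact hd x hx.1 hy.1 hx.2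

/-- the triangles at an angle correspond to its joined corners -/
lemma tn_eq (hF : Lin F) {A B : Finset V} (hs : ({A, B} : Finset (Finset V)) ∈ angles F) :
    tn F {A, B} = (corners F A B).card := by
  classical
  obtain ⟨hAF, hBF, hAB, w, hwA, hwB⟩ := hF.pair_mem_angles.1 hs
  have hch : ∀ p : V × V, ∃ m : Finset V, Jn F p.1 p.2 → m ∈ F ∧ p.1 ∈ m ∧ p.2 ∈ m := by
    intro p
    by_cases hp : Jn F p.1 p.2
    · obtain ⟨m, h⟩ := hp
      exact ⟨m, fun _ => h⟩
    · exact ⟨∅, fun h => absurd h hp⟩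
  choose g hg using hch
  have hx : ∀ p ∈ corners F A B, p.1 ∈ A ∧ p.1 ∉ B ∧ p.2 ∈ B ∧ p.2 ∉ A ∧ Jn F p.1 p.2 := by
    intro p hp
    rw [corners, mem_filter, mem_product, mem_sdiff, mem_sdiff] at hp
    exact ⟨hp.1.1.1, hp.1.1.2, hp.1.2.1, hp.1.2.2, hp.2⟩
  have hgA : ∀ p ∈ corners F A B, A ≠ g p := by
    intro p hp h
    obtain ⟨-, -, -, h4, hJ⟩ := hx p hp
    exact h4 (h ▸ (hg p hJ).2.2)
  have hgB : ∀ p ∈ corners F A B, B ≠ g p := by
    intro p hp h
    obtain ⟨-, h2, -, -, hJ⟩ := hx p hp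
    exact h2 (h ▸ (hg p hJ).2.1)
  unfold tn
  symm
  refine card_bij (fun p _ => ({A, B, g p} : Finset (Finset V))) ?_ ?_ ?_
  · intro p hp'
    obtain ⟨a1, a2, a3, a4, hJ⟩ := hx p hp'
    obtain ⟨b1, b2, b3⟩ := hg p hJ
    have hw : w ∉ g p := by
      intro hcon
      have hne : w ≠ p.1 := by
        intro h; apply a2; rw [← h]; exact hwB
      exact hgA p hp' (hF.eq_of_two hAF b1 hne hwA a1 hcon b2)
    rw [mem_filter]
    refine ⟨hF.tri_mem hAF hBF b1 hAB (hgA p hp') (hgB p hp') (x := w) (y := p.2) (z := p.1)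
      hwA hwB hw a3 b3 a1 b2, ?_⟩
    intro D hD
    simp only [mem_insert, mem_singleton] at hD ⊢
    tauto
  · intro p hp' q hq' hpq
    have hgp : g p ∈ ({A, B, g q} : Finset (Finset V)) := by
      have : g p ∈ ({A, B, g p} : Finset (Finset V)) := by simp
      have hpq' : ({A, B, g p} : Finset (Finset V)) = {A, B, g q} := hpq
      rwa [hpq'] at this
    simp only [mem_insert, mem_singleton] at hgp
    have hgpq : g p = g q := by
      rcases hgp with h | h | h
      · exact absurd h.symm (hgA p hp')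
      · exact absurd h.symm (hgB p hp')
      · exact h
    obtain ⟨a1, a2, a3, a4, hJ⟩ := hx p hp'
    obtain ⟨a1', a2', a3', a4', hJ'⟩ := hx q hq'
    obtain ⟨b1, b2, b3⟩ := hg p hJ
    obtain ⟨b1', b2', b3'⟩ := hg q hJ'
    rw [← hgpq] at b1' b2' b3'
    apply Prod.ext
    · by_contra hne
      exact hgA p hp' (hF.eq_of_two hAF b1 hne a1 a1' b2 b2')
    · by_contra hne
      exact hgB p hp' (hF.eq_of_two hBF b1 hne a3 a3' b3 b3')
  · intro τ hτ
    rw [mem_filter] at hτ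
    obtain ⟨C, hCF, hAC, hBC, hτe, x, hx', y, hy', hxC, hyC, hxy⟩ := hF.tri_third hs hτ.1 hτ.2
    have hJ : Jn F x y := ⟨C, hCF, hxC, hyC⟩
    refine ⟨(x, y), ?_, ?_⟩
    · rw [corners, mem_filter, mem_product]
      exact ⟨⟨hx', hy'⟩, hJ⟩
    · obtain ⟨b1, b2, b3⟩ := hg (x, y) hJ
      have : g (x, y) = C := hF.eq_of_two b1 hCF hxy b2 b3 hxC hyC
      simp only [this, hτe]

/-- an angle in four triangles has all its corners joined -/
lemma tn_joined (hF : Lin F) {s : Finset (Finset V)} (hs : s ∈ angles F) (h4 : 4 ≤ tn F s)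
    {A B : Finset V} (hA : A ∈ s) (hB : B ∈ s) {x y : V} (hx : x ∈ A) (hxB : x ∉ B) (hy : y ∈ B)
    (hyA : y ∉ A) : ∃ n ∈ F, x ∈ n ∧ y ∈ n := by
  have hne : A ≠ B := by rintro rfl; exact hxB hx
  have hse : s = {A, B} := by
    symm
    apply eq_of_subset_of_card_le
    · intro D hD
      simp only [mem_insert, mem_singleton] at hD
      rcases hD with rfl | rfl <;> assumption
    · rw [card_pair hne, (mem_angles.1 hs).2.1]
  rw [hse] at hs h4
  rw [tn_eq hF hs] at h4
  have hs' : ({B, A} : Finset (Finset V)) ∈ angles F := by rwa [pair_comm]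
  have hcard : ((A \ B) ×ˢ (B \ A)).card = 4 := by
    rw [card_product, hF.sdiff_card hs, hF.sdiff_card hs']
  have hall : corners F A B = (A \ B) ×ˢ (B \ A) :=
    eq_of_subset_of_card_le (filter_subset _ _) (by rw [hcard]; exact h4)
  have hmem : (x, y) ∈ corners F A B := by
    rw [hall, mem_product, mem_sdiff, mem_sdiff]
    exact ⟨⟨hx, hxB⟩, hy, hyA⟩
  rw [corners, mem_filter] at hmem
  exact hmem.2

/-- every pair of lines of a triangle is an angle -/
lemma Lin.angle_of_tri (h : Lin F) {τ s : Finset (Finset V)} (hτ : τ ∈ tris F) (hs : s ⊆ τ)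
    (h2 : s.card = 2) : s ∈ angles F := by
  obtain ⟨t1, t2, t3⟩ := mem_tris.1 hτ
  obtain ⟨A, B, hAB, rfl⟩ := card_eq_two.1 h2
  have hA : A ∈ τ := hs (by simp)
  have hB : B ∈ τ := hs (by simp)
  have h4 : (τ \ {A, B}).card = 1 := by
    rw [card_sdiff_of_subset hs, t2, card_pair hAB]
  obtain ⟨C, hC⟩ := card_eq_one.1 h4
  have hCτ : C ∈ τ \ {A, B} := by rw [hC]; simp
  rw [mem_sdiff] at hCτ
  simp only [mem_insert, mem_singleton, not_or] at hCτ
  have hτe : τ = {A, B, C} := by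
    rw [← union_sdiff_of_subset hs, hC]
    ext D
    simp only [mem_union, mem_insert, mem_singleton, or_assoc]
  have hAF := t1 hA
  have hBF := t1 hB
  have hCF := t1 hCτ.1
  have hun : un ({A, B, C} : Finset (Finset V)) = (A ∪ B) ∪ C := by
    ext v; simp [un]
  rw [hτe, hun] at t3
  have g1 := card_union_add_card_inter (A ∪ B) C
  have g2 := card_union_add_card_inter A B
  have g3 : (A ∪ B) ∩ C = (A ∩ C) ∪ (B ∩ C) := union_inter_distrib_right _ _ _
  have g4 := card_union_le (A ∩ C) (B ∩ C)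
  have g5 := h.lin A hAF C hCF (fun h => hCτ.2.1 h.symm)
  have g6 := h.lin B hBF C hCF (fun h => hCτ.2.2 h.symm)
  rw [t3, g3, h.h3 C hCF] at g1
  rw [h.h3 A hAF, h.h3 B hBF] at g2
  rw [h.pair_mem_angles]
  refine ⟨hAF, hBF, hAB, ?_⟩
  obtain ⟨x, hx⟩ := card_pos.1 (show 0 < (A ∩ B).card by omega)
  rw [mem_inter] at hx
  exact ⟨x, hx.1, hx.2⟩

/-- the number of pairs (triangle of the class, angle in it) -/
lemma sum_tn_eq (hF : Lin F) (hS : S ⊆ angles F) (hcl : TriClosed F S) :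
    ∑ s ∈ S, tn F s = 3 * (trisOf F S).card := by
  have h1 : ∀ s ∈ S, tn F s = (bipartiteAbove (fun s τ => s ⊆ τ) (trisOf F S) s).card := by
    intro s hs
    unfold tn bipartiteAbove trisOf
    congr 1
    ext τ
    simp only [mem_filter]
    constructor
    · rintro ⟨a, b⟩
      exact ⟨⟨a, s, hs, b⟩, b⟩
    · rintro ⟨⟨a, -⟩, b⟩
      exact ⟨a, b⟩
  rw [sum_congr rfl h1, sum_card_bipartiteAbove_eq_sum_card_bipartiteBelow, mul_comm,
    ← smul_eq_mul]
  apply sum_eq_card_nsmul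
  intro τ hτ
  unfold trisOf at hτ
  rw [mem_filter] at hτ
  obtain ⟨hτt, s0, hs0, hs0τ⟩ := hτ
  have hτ3 : τ.card = 3 := (mem_tris.1 hτt).2.1
  have h2 : bipartiteBelow (fun s τ => s ⊆ τ) S τ = τ.powersetCard 2 := by
    ext s
    unfold bipartiteBelow
    rw [mem_filter, mem_powersetCard]
    constructor
    · rintro ⟨a, b⟩
      exact ⟨b, (mem_angles.1 (hS a)).2.1⟩
    · rintro ⟨a, b⟩
      exact ⟨hcl τ hτt s0 hs0 hs0τ s (hF.angle_of_tri hτt a b) a, a⟩
  rw [h2, card_powersetCard, hτ3]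
  rfl

/-- the faces at an angle -/
lemma fn_eq (hF : Lin F) {A B : Finset V} (hs : ({A, B} : Finset (Finset V)) ∈ angles F) :
    fn F {A, B} = ((A \ B).filter (fun x => Sees F x B)).card +
      ((B \ A).filter (fun y => Sees F y A)).card := by
  classical
  obtain ⟨hAF, hBF, hAB, -⟩ := hF.pair_mem_angles.1 hs
  have e1 : ((A \ B).filter (fun x => Sees F x B)).card =
      (((A \ B).filter (fun x => Sees F x B)).image (fun x => (x, B))).card :=
    (card_image_of_injective _ (fun a b h => (Prod.mk.inj h).1)).symm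
  have e2 : ((B \ A).filter (fun x => Sees F x A)).card =
      (((B \ A).filter (fun x => Sees F x A)).image (fun x => (x, A))).card :=
    (card_image_of_injective _ (fun a b h => (Prod.mk.inj h).1)).symm
  rw [e1, e2, ← card_union_of_disjoint]
  · unfold fn
    congr 1
    ext ⟨x, l⟩
    rw [mem_filter, mem_union, mem_image, mem_image]
    constructor
    · rintro ⟨hp1, hp2, hp3⟩
      unfold faces at hp1
      rw [mem_filter] at hp1
      obtain ⟨-, hsee⟩ := hp1
      simp only at hsee hp2 hp3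
      rw [un_pair, mem_union] at hp3
      simp only [mem_insert, mem_singleton] at hp2
      rcases hp2 with rfl | rfl
      · right
        exact ⟨x, mem_filter.2 ⟨mem_sdiff.2 ⟨hp3.resolve_left hsee.1, hsee.1⟩, hsee⟩, rfl⟩
      · left
        exact ⟨x, mem_filter.2 ⟨mem_sdiff.2 ⟨hp3.resolve_right hsee.1, hsee.1⟩, hsee⟩, rfl⟩
    · rintro (⟨x', hx', h⟩ | ⟨x', hx', h⟩)
      · obtain ⟨rfl, rfl⟩ := Prod.mk.inj h
        rw [mem_filter, mem_sdiff] at hx'
        refine ⟨?_, by simp, by rw [un_pair]; exact mem_union_left _ hx'.1.1⟩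
        unfold faces
        rw [mem_filter, mem_product]
        exact ⟨⟨mem_biUnion.2 ⟨A, hAF, hx'.1.1⟩, hBF⟩, hx'.2⟩
      · obtain ⟨rfl, rfl⟩ := Prod.mk.inj h
        rw [mem_filter, mem_sdiff] at hx'
        refine ⟨?_, by simp, by rw [un_pair]; exact mem_union_right _ hx'.1.1⟩
        unfold faces
        rw [mem_filter, mem_product]
        exact ⟨⟨mem_biUnion.2 ⟨B, hBF, hx'.1.1⟩, hAF⟩, hx'.2⟩
  · rw [disjoint_left]
    intro p hp hp'
    rw [mem_image] at hp hp'
    obtain ⟨a, -, rfl⟩ := hp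
    obtain ⟨b, -, h⟩ := hp'
    exact hAB (Prod.mk.inj h).2

/-- for `x` on `A`, `x` sees `B` iff it is joined to the two points of `B` not on `A` -/
lemma sees_iff (hF : Lin F) {A B : Finset V} (hs : ({A, B} : Finset (Finset V)) ∈ angles F)
    {x : V} (hx : x ∈ A \ B) : Sees F x B ↔ ∀ y ∈ B \ A, Jn F x y := by
  rw [mem_sdiff] at hx
  constructor
  · intro h y hy
    exact h.2 y (mem_sdiff.1 hy).1
  · intro h
    refine ⟨hx.2, fun y hy => ?_⟩
    by_cases hyA : y ∈ A
    · exact ⟨A, (hF.pair_mem_angles.1 hs).1, hx.1, hyA⟩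
    · exact h y (mem_sdiff.2 ⟨hy, hyA⟩)

/-- every face of the class lies in exactly three of its angles -/
lemma sum_fn_eq (hF : Lin F) (hS : S ⊆ angles F) (hcl : TriClosed F S) :
    ∑ s ∈ S, fn F s = 3 * (facesOf F S).card := by
  classical
  refine le_antisymm ?_ (three_faces_le hF hS hcl)
  have h1 : ∀ s ∈ S, fn F s =
      (bipartiteAbove (fun (s : Finset (Finset V)) (p : V × Finset V) => p.2 ∈ s ∧ p.1 ∈ un s)
        (facesOf F S) s).card := by
    intro s hs
    unfold fn bipartiteAbove facesOf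
    congr 1
    ext p
    simp only [mem_filter]
    constructor
    · rintro ⟨a, b⟩
      exact ⟨⟨a, s, hs, b⟩, b⟩
    · rintro ⟨⟨a, -⟩, b⟩
      exact ⟨a, b⟩
  rw [sum_congr rfl h1, sum_card_bipartiteAbove_eq_sum_card_bipartiteBelow, mul_comm 3,
    ← smul_eq_mul]
  apply sum_le_card_nsmul
  rintro ⟨x, l⟩ hp
  unfold facesOf faces at hp
  simp only [mem_filter, mem_product] at hp
  obtain ⟨⟨⟨hxF, hl⟩, hxl, hsee⟩, -⟩ := hp
  -- map an angle to its vertex
  have hv : ∀ s ∈ bipartiteBelow (fun (s : Finset (Finset V)) (p : V × Finset V) =>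
      p.2 ∈ s ∧ p.1 ∈ un s) S (x, l), ∃ m ∈ F, x ∈ m ∧ s = {l, m} ∧ l ≠ m ∧ ∃ u ∈ l, u ∈ m := by
    intro s hs
    unfold bipartiteBelow at hs
    rw [mem_filter] at hs
    obtain ⟨hsS, hls, hxs⟩ := hs
    simp only at hls hxs
    obtain ⟨h1', h2', h3'⟩ := mem_angles.1 (hS hsS)
    have : (s.erase l).card = 1 := by rw [card_erase_of_mem hls, h2']
    obtain ⟨m, hm⟩ := card_eq_one.1 this
    have hms : s = {l, m} := by rw [← insert_erase hls, hm]
    rw [hms, un_pair, mem_union] at hxs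
    have := hS hsS
    rw [hms] at this
    obtain ⟨-, hmF, hlm, u, hu1, hu2⟩ := hF.pair_mem_angles.1 this
    exact ⟨m, hmF, hxs.resolve_left hxl, hms, hlm, u, hu1, hu2⟩
  have : Nonempty V := ⟨x⟩
  choose! m hmF hxm hsm hlm u hul hum using hv
  rw [← hF.h3 l hl]
  apply card_le_card_of_injOn u
  · intro s hs
    exact hul s hs
  · intro s hs t ht hst
    have hxu : x ≠ u s := by
      rintro h
      exact hxl (h ▸ hul s hs)
    have hmm : m s = m t := hF.eq_of_two (hmF s hs) (hmF t ht) hxu (hxm s hs) (hum s hs)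
      (hxm t ht) (by rw [hst]; exact hum t ht)
    rw [hsm s hs, hsm t ht, hmm]

end Pool.Agent.Helper74K9.BES
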