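import Pool.Agent.Helper74K9.BES.APP
import Pool.Agent.Helper74K9.BES.K4b

/-!
# The application to nearly complete linear triple systems, different sizes for the two colours
-/

set_option autoImplicit false
set_option linter.unusedSectionVars false

namespace Pool.Agent.Helper74K9.BES

open Finset Pool.Agent.W848.TreeAvg

section Counts

variable {V : Type*} [DecidableEq V]

/-- every angle lies in at most four triangles -/
lemma Lin.three_tris_le {F : Finset (Finset V)} (hF : Lin F) :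
    3 * (tris F).card ≤ 4 * (angles F).card := by
  have hcl : TriClosed F (angles F) := fun τ _ s _ _ s' hs' _ => hs'
  have h1 := sum_tn_eq hF (Subset.refl (angles F)) hcl
  have h2 : trisOf F (angles F) = tris F := by
    unfold trisOf
    apply filter_true_of_mem
    intro τ hτ
    obtain ⟨-, h3, -⟩ := mem_tris.1 hτ
    obtain ⟨s, hs, hs2⟩ := exists_subset_card_eq (show 2 ≤ τ.card by omega)
    exact ⟨s, hF.angle_of_tri hτ hs hs2, hs⟩
  rw [h2] at h1
  rw [← h1, mul_comm, ← smul_eq_mul]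
  apply sum_le_card_nsmul
  intro s hs
  obtain ⟨-, hs2, -⟩ := mem_angles.1 hs
  obtain ⟨A, B, hAB, rfl⟩ := card_eq_two.1 hs2
  rw [tn_eq hF hs]
  refine (card_filter_le _ _).trans ?_
  rw [card_product, hF.sdiff_card hs, hF.sdiff_card (by rwa [pair_comm])]

/-- changing the constants in the angle inequality -/
lemma weaken {F : Finset (Finset V)} (hF : Lin F) {K₁ C₁ K C : ℕ} (hK : K₁ ≤ K)
    (hC : (2 * K + 1) * C₁ ≤ C)
    (h : 3 * K₁ * (tris F).card + (angles F).card ≤ 2 * K₁ * (angles F).card + C₁ * F.card) :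
    3 * K * (tris F).card + (angles F).card ≤ 2 * K * (angles F).card + C * F.card := by
  have h4 := hF.three_tris_le
  zify at h h4 hC ⊢
  set T : ℤ := ((tris F).card : ℤ)
  set A : ℤ := ((angles F).card : ℤ)
  set m : ℤ := (F.card : ℤ)
  have hT : 0 ≤ T := by positivity
  have hA : 0 ≤ A := by positivity
  have hm : 0 ≤ m := by positivity
  have hC1 : (0 : ℤ) ≤ C₁ := by positivity
  have hKz : (K₁ : ℤ) ≤ K := by exact_mod_cast hK
  have hC1m : 0 ≤ (C₁ : ℤ) * m := mul_nonneg hC1 hm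
  have hX : - (2 * (C₁ * m)) ≤ 2 * A - 3 * T := by
    rcases Nat.eq_zero_or_pos K₁ with h0 | h0
    · rw [h0] at h
      simp only [Nat.cast_zero, mul_zero, zero_mul, zero_add] at h
      linarith
    · have h1 : (1 : ℤ) ≤ K₁ := by exact_mod_cast h0
      by_contra hcon
      push Not at hcon
      have h2 : (K₁ : ℤ) * (2 * A - 3 * T) ≤ 1 * (2 * A - 3 * T) := by
        nlinarith
      nlinarith
  have hfin : (K - K₁ : ℤ) * (2 * A - 3 * T) ≥ (K - K₁ : ℤ) * (- (2 * (C₁ * m))) :=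
    mul_le_mul_of_nonneg_left hX (by linarith)
  have hCm : ((2 * K + 1) * C₁ : ℤ) * m ≤ C * m := mul_le_mul_of_nonneg_right hC hm
  have hKC : 0 ≤ (K₁ : ℤ) * (C₁ * m) := mul_nonneg (by positivity) hC1m
  nlinarith

variable [Fintype V]

lemma count_nc' {H : Finset (Finset V)} (hl : Lin H) (x : V) :
    (Fintype.card V - 1) * (Fintype.card V - 3) ≤ ∑ y, ∑ z, ind (NC H x y z) := by
  have h1 : ∀ y ∈ univ.erase x, Fintype.card V - 3 ≤ ∑ z, ind (NC H x y z) := by
    intro y hy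
    have hxy : x ≠ y := (mem_erase.1 hy).1.symm
    rw [sum_ind]
    by_cases hj : ∃ l ∈ H, x ∈ l ∧ y ∈ l
    · obtain ⟨l, hlH, hxl, hyl⟩ := hj
      have hsub : univ \ l ⊆ univ.filter (fun z => NC H x y z) := by
        intro z hz
        have hzl := (mem_sdiff.1 hz).2
        refine mem_filter.2 ⟨mem_univ _, hxy, ?_, ?_, ?_⟩
        · rintro rfl; exact hzl hyl
        · rintro rfl; exact hzl hxl
        · rintro m hm ⟨h4, h5, h6⟩
          have := hl.eq_of_two hm hlH hxy h4 h5 hxl hyl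
          rw [this] at h6
          exact hzl h6
      have h2 := card_le_card hsub
      rw [card_sdiff_of_subset (subset_univ _), card_univ, hl.h3 l hlH] at h2
      exact h2
    · have hsub : univ \ {x, y} ⊆ univ.filter (fun z => NC H x y z) := by
        intro z hz
        have hzl := (mem_sdiff.1 hz).2
        simp only [mem_insert, mem_singleton, not_or] at hzl
        refine mem_filter.2 ⟨mem_univ _, hxy, ?_, ?_, ?_⟩
        · exact fun h => hzl.2 h.symm
        · exact fun h => hzl.1 h.symm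
        · rintro m hm ⟨h4, h5, h6⟩
          exact hj ⟨m, hm, h4, h5⟩
      have h2 := card_le_card hsub
      rw [card_sdiff_of_subset (subset_univ _), card_univ, card_pair hxy] at h2
      exact le_trans (by omega : Fintype.card V - 3 ≤ Fintype.card V - 2) h2
  calc (Fintype.card V - 1) * (Fintype.card V - 3)
      = ∑ y ∈ univ.erase x, (Fintype.card V - 3) := by
        rw [sum_const, smul_eq_mul, card_erase_of_mem (mem_univ _), card_univ]
    _ ≤ ∑ y ∈ univ.erase x, ∑ z, ind (NC H x y z) := sum_le_sum h1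
    _ ≤ ∑ y, ∑ z, ind (NC H x y z) := sum_le_sum_of_subset (erase_subset _ _)

/-- the indicator of an unjoined pair -/
def uj (H : Finset (Finset V)) (x y : V) : ℕ := ind (x ≠ y ∧ ¬ Adj H x y)

lemma sum_uj {H : Finset (Finset V)} (hl : Lin H) (x : V) :
    ∑ y, uj H x y + 2 * dg H x = Fintype.card V - 1 := by
  unfold uj
  rw [sum_ind, ← hl.card_nb, ← card_univ, ← card_erase_of_mem (mem_univ x),
    ← card_union_of_disjoint]
  · congr 1
    ext y
    simp only [mem_union, mem_filter, mem_univ, true_and, mem_nb, mem_erase, and_true]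
    constructor
    · rintro (⟨h1, -⟩ | h)
      · exact h1.symm
      · exact h.1.symm
    · intro h
      by_cases hA : Adj H x y
      · exact Or.inr hA
      · exact Or.inl ⟨h.symm, hA⟩
  · rw [disjoint_left]
    intro y hy hy'
    exact (mem_filter.1 hy).2.2 (mem_nb.1 hy')

/-- the pointwise inequality, with unjoined pairs -/
lemma pointwise' {H R Q : Finset (Finset V)} (hRQ : ∀ l ∈ H, l ∈ R ∨ l ∈ Q)
    (L M : Finset V) (x y z : V) :
    2 * ind (NC H x y z) ≤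
      2 * ind (NC H x y z ∧ Adj R x y ∧ Adj R y z ∧ Adj R x z ∧ x ∉ L ∧ y ∉ L ∧ z ∉ L) +
      2 * ind (NC H x y z ∧ Adj Q x y ∧ Adj Q y z ∧ Adj Q x z ∧ x ∉ M ∧ y ∉ M ∧ z ∉ M) +
      ((ind (Adj R x y ∧ Adj Q x z) + ind (Adj Q x y ∧ Adj R x z)) +
       (ind (Adj R y x ∧ Adj Q y z) + ind (Adj Q y x ∧ Adj R y z)) +
       (ind (Adj R z x ∧ Adj Q z y) + ind (Adj Q z x ∧ Adj R z y))) +
      2 * (ind (x ∈ L) * ind (NC H x y z ∧ Adj R x y ∧ Adj R x z) +
        ind (y ∈ L) * ind (NC H y x z ∧ Adj R y x ∧ Adj R y z) +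
        ind (z ∈ L) * ind (NC H z x y ∧ Adj R z x ∧ Adj R z y)) +
      2 * (ind (x ∈ M) * ind (NC H x y z ∧ Adj Q x y ∧ Adj Q x z) +
        ind (y ∈ M) * ind (NC H y x z ∧ Adj Q y x ∧ Adj Q y z) +
        ind (z ∈ M) * ind (NC H z x y ∧ Adj Q z x ∧ Adj Q z y)) +
      2 * (uj H x y + uj H y z + uj H x z) := by
  by_cases hnc : NC H x y z
  swap
  · rw [ind_neg hnc, mul_zero]; exact Nat.zero_le _
  rw [ind_pos hnc]
  by_cases j1 : Adj H x y
  swap
  · have : uj H x y = 1 := ind_pos ⟨hnc.1, j1⟩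
    rw [this]; omega
  by_cases j2 : Adj H y z
  swap
  · have : uj H y z = 1 := ind_pos ⟨hnc.2.1, j2⟩
    rw [this]; omega
  by_cases j3 : Adj H x z
  swap
  · have : uj H x z = 1 := ind_pos ⟨hnc.2.2.1, j3⟩
    rw [this]; omega
  refine le_trans ?_ (Nat.le_add_right _ _)
  have col : ∀ u v : V, Adj H u v → Adj R u v ∨ Adj Q u v := by
    rintro u v ⟨huv, l, hl, h1, h2⟩
    rcases hRQ l hl with h | h
    · exact Or.inl ⟨huv, l, h, h1, h2⟩
    · exact Or.inr ⟨huv, l, h, h1, h2⟩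
  rcases col x y j1 with h1 | h1 <;> rcases col y z j2 with h2 | h2 <;>
    rcases col x z j3 with h3 | h3
  · by_cases hx : x ∈ L
    · have e1 := ind_pos hx
      have e2 := ind_pos (p := NC H x y z ∧ Adj R x y ∧ Adj R x z) ⟨hnc, h1, h3⟩
      rw [e1, e2]; omega
    by_cases hy : y ∈ L
    · have e1 := ind_pos hy
      have e2 := ind_pos (p := NC H y x z ∧ Adj R y x ∧ Adj R y z) ⟨hnc.swap, h1.symm, h2⟩
      rw [e1, e2]; omega
    by_cases hz : z ∈ L
    · have e1 := ind_pos hz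
      have e2 := ind_pos (p := NC H z x y ∧ Adj R z x ∧ Adj R z y) ⟨hnc.rot, h3.symm, h2.symm⟩
      rw [e1, e2]; omega
    have e1 := ind_pos (p := NC H x y z ∧ Adj R x y ∧ Adj R y z ∧ Adj R x z ∧ x ∉ L ∧ y ∉ L ∧ z ∉ L)
      ⟨hnc, h1, h2, h3, hx, hy, hz⟩
    rw [e1]; omega
  · have e1 := ind_pos (p := Adj R x y ∧ Adj Q x z) ⟨h1, h3⟩
    have e2 := ind_pos (p := Adj Q z x ∧ Adj R z y) ⟨h3.symm, h2.symm⟩
    rw [e1, e2]; omega
  · have e1 := ind_pos (p := Adj R y x ∧ Adj Q y z) ⟨h1.symm, h2⟩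
    have e2 := ind_pos (p := Adj R z x ∧ Adj Q z y) ⟨h3.symm, h2.symm⟩
    rw [e1, e2]; omega
  · have e1 := ind_pos (p := Adj R x y ∧ Adj Q x z) ⟨h1, h3⟩
    have e2 := ind_pos (p := Adj R y x ∧ Adj Q y z) ⟨h1.symm, h2⟩
    rw [e1, e2]; omega
  · have e1 := ind_pos (p := Adj Q x y ∧ Adj R x z) ⟨h1, h3⟩
    have e2 := ind_pos (p := Adj Q y x ∧ Adj R y z) ⟨h1.symm, h2⟩
    rw [e1, e2]; omega
  · have e1 := ind_pos (p := Adj Q y x ∧ Adj R y z) ⟨h1.symm, h2⟩
    have e2 := ind_pos (p := Adj Q z x ∧ Adj R z y) ⟨h3.symm, h2.symm⟩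
    rw [e1, e2]; omega
  · have e1 := ind_pos (p := Adj Q x y ∧ Adj R x z) ⟨h1, h3⟩
    have e2 := ind_pos (p := Adj R z x ∧ Adj Q z y) ⟨h3.symm, h2.symm⟩
    rw [e1, e2]; omega
  · by_cases hx : x ∈ M
    · have e1 := ind_pos hx
      have e2 := ind_pos (p := NC H x y z ∧ Adj Q x y ∧ Adj Q x z) ⟨hnc, h1, h3⟩
      rw [e1, e2]; omega
    by_cases hy : y ∈ M
    · have e1 := ind_pos hy
      have e2 := ind_pos (p := NC H y x z ∧ Adj Q y x ∧ Adj Q y z) ⟨hnc.swap, h1.symm, h2⟩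
      rw [e1, e2]; omega
    by_cases hz : z ∈ M
    · have e1 := ind_pos hz
      have e2 := ind_pos (p := NC H z x y ∧ Adj Q z x ∧ Adj Q z y) ⟨hnc.rot, h3.symm, h2.symm⟩
      rw [e1, e2]; omega
    have e1 := ind_pos (p := NC H x y z ∧ Adj Q x y ∧ Adj Q y z ∧ Adj Q x z ∧ x ∉ M ∧ y ∉ M ∧ z ∉ M)
      ⟨hnc, h1, h2, h3, hx, hy, hz⟩
    rw [e1]; omega

theorem goodman' {H R Q : Finset (Finset V)} (hRH : R ⊆ H) (hQH : Q ⊆ H)
    (hRQ : ∀ l ∈ H, l ∈ R ∨ l ∈ Q) (hlin : Lin H) (L M : Finset V) :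
    2 * (Fintype.card V * ((Fintype.card V - 1) * (Fintype.card V - 3))) ≤
      2 * (6 * (tris (Det L R)).card) + 2 * (6 * (tris (Det M Q)).card) +
      24 * ∑ x, dg R x * dg Q x +
      6 * (∑ x, ind (x ∈ L) * (2 * dg R x * (2 * dg R x - 2))) +
      6 * (∑ x, ind (x ∈ M) * (2 * dg Q x * (2 * dg Q x - 2))) +
      6 * (Fintype.card V * ∑ x, ∑ y, uj H x y) := by
  have hR : Lin R := hlin.mono hRH
  have hQ : Lin Q := hlin.mono hQH
  set D : V → V → V → ℕ := fun x y z =>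
    ind (Adj R x y ∧ Adj Q x z) + ind (Adj Q x y ∧ Adj R x z) with hD
  set E : V → V → V → ℕ := fun x y z =>
    ind (x ∈ L) * ind (NC H x y z ∧ Adj R x y ∧ Adj R x z) with hE
  set F : V → V → V → ℕ := fun x y z =>
    ind (x ∈ M) * ind (NC H x y z ∧ Adj Q x y ∧ Adj Q x z) with hF
  have h1 : ∑ x, ∑ y, ∑ z, 2 * ind (NC H x y z) ≤ ∑ x, ∑ y, ∑ z,
      (2 * ind (NC H x y z ∧ Adj R x y ∧ Adj R y z ∧ Adj R x z ∧ x ∉ L ∧ y ∉ L ∧ z ∉ L) +
      2 * ind (NC H x y z ∧ Adj Q x y ∧ Adj Q y z ∧ Adj Q x z ∧ x ∉ M ∧ y ∉ M ∧ z ∉ M) +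
      (D x y z + D y x z + D z x y) +
      2 * (E x y z + E y x z + E z x y) + 2 * (F x y z + F y x z + F z x y) +
      2 * (uj H x y + uj H y z + uj H x z)) := by
    refine sum_le_sum fun x _ => sum_le_sum fun y _ => sum_le_sum fun z _ => ?_
    exact pointwise' hRQ L M x y z
  simp only [sum_add_distrib, ← mul_sum] at h1
  rw [sum_swap D, sum_rot D, sum_swap E, sum_rot E, sum_swap F, sum_rot F] at h1
  have h2 := count_tri hRH hR L
  have h3 := count_tri hQH hQ M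
  have h4 : ∑ x, ∑ y, ∑ z, D x y z = 8 * ∑ x, dg R x * dg Q x := by
    rw [mul_sum]
    refine sum_congr rfl fun x _ => ?_
    simp only [hD, sum_add_distrib]
    rw [count_diff hR hQ, count_diff hQ hR]
    ring
  have h5 : ∑ x, ∑ y, ∑ z, E x y z ≤ ∑ x, ind (x ∈ L) * (2 * dg R x * (2 * dg R x - 2)) := by
    refine sum_le_sum fun x _ => ?_
    simp only [hE, ← mul_sum]
    exact Nat.mul_le_mul_left _ (count_same hlin hRH x)
  have h6 : ∑ x, ∑ y, ∑ z, F x y z ≤ ∑ x, ind (x ∈ M) * (2 * dg Q x * (2 * dg Q x - 2)) := by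
    refine sum_le_sum fun x _ => ?_
    simp only [hF, ← mul_sum]
    exact Nat.mul_le_mul_left _ (count_same hlin hQH x)
  have h7 : Fintype.card V * ((Fintype.card V - 1) * (Fintype.card V - 3)) ≤
      ∑ x, ∑ y, ∑ z, ind (NC H x y z) := by
    calc Fintype.card V * ((Fintype.card V - 1) * (Fintype.card V - 3))
        = ∑ x : V, ((Fintype.card V - 1) * (Fintype.card V - 3)) := by
          rw [sum_const, smul_eq_mul, card_univ]
      _ ≤ _ := sum_le_sum fun x _ => count_nc' hlin x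
  set U : ℕ := ∑ x, ∑ y, uj H x y with hU
  have u1 : ∑ x : V, ∑ y : V, ∑ z : V, uj H x y = Fintype.card V * U := by
    rw [hU, mul_sum]
    refine sum_congr rfl fun x _ => ?_
    rw [mul_sum]
    refine sum_congr rfl fun y _ => ?_
    rw [sum_const, smul_eq_mul, card_univ]
  have u2 : ∑ x : V, ∑ y : V, ∑ z : V, uj H y z = Fintype.card V * U := by
    rw [sum_const, smul_eq_mul, card_univ]
  have u3 : ∑ x : V, ∑ y : V, ∑ z : V, uj H x z = Fintype.card V * U := by
    rw [hU, mul_sum]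
    refine sum_congr rfl fun x _ => ?_
    rw [sum_const, smul_eq_mul, card_univ]
  rw [h4, u1, u2, u3] at h1
  omega

end Counts

/-- the inequality at a vertex -/
lemma vertex' (e n r b : ℤ) (he : 3 ≤ e) (hn : 200 * e ≤ n) (hr : 0 ≤ r) (hb : 0 ≤ b)
    (hrb : 2 * (r + b) ≤ n - 1) (i j : ℤ)
    (hi : i = 0 ∨ (i = 1 ∧ 9 * r < n + 3 * e))
    (hj : j = 0 ∨ (j = 1 ∧ 9 * b < n + 3 * e)) :
    2 * ((1 - i) * (r * (r - 1)) + (1 - j) * (b * (b - 1))) + 12 * (r * b) +
      12 * (i * (r * (r - 1)) + j * (b * (b - 1))) ≤ (n - 1) * (n - 2) := by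
  rcases hi with rfl | ⟨rfl, hi⟩ <;> rcases hj with rfl | ⟨rfl, hj⟩
  · nlinarith [sq_nonneg (r - b), mul_nonneg (by linarith : (0:ℤ) ≤ n - 1 - 2 * (r + b))
      (by linarith : (0:ℤ) ≤ n - 1 + 2 * (r + b) - 1)]
  · have h1 : 0 ≤ n - 1 - 2 * (r + b) := by linarith
    have h2 : 8 * b ≤ n := by linarith
    nlinarith [mul_nonneg h1 (by linarith : (0:ℤ) ≤ n - 1 + 2 * (r + b)), mul_nonneg h1 hb,
      mul_nonneg hb (by linarith : (0:ℤ) ≤ n - 8 * b),
      mul_nonneg (by linarith : (0:ℤ) ≤ n + 3 * e - 9 * b) (by linarith : (0:ℤ) ≤ n)]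
  · have h1 : 0 ≤ n - 1 - 2 * (r + b) := by linarith
    have h2 : 8 * r ≤ n := by linarith
    nlinarith [mul_nonneg h1 (by linarith : (0:ℤ) ≤ n - 1 + 2 * (r + b)), mul_nonneg h1 hr,
      mul_nonneg hr (by linarith : (0:ℤ) ≤ n - 8 * r),
      mul_nonneg (by linarith : (0:ℤ) ≤ n + 3 * e - 9 * r) (by linarith : (0:ℤ) ≤ n)]
  · have h1 : 8 * b ≤ n := by linarith
    have h2 : 8 * r ≤ n := by linarith
    nlinarith [mul_nonneg hr hb, mul_nonneg hr (by linarith : (0:ℤ) ≤ n - 8 * r),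
      mul_nonneg hb (by linarith : (0:ℤ) ≤ n - 8 * b),
      mul_nonneg hr (by linarith : (0:ℤ) ≤ n - 8 * b),
      mul_nonneg (by linarith : (0:ℤ) ≤ n) (by linarith : (0:ℤ) ≤ n - 8 * b),
      mul_nonneg (by linarith : (0:ℤ) ≤ n) (by linarith : (0:ℤ) ≤ n - 8 * r)]

lemma vertex_low' (e n r b : ℤ) (he : 3 ≤ e) (hn : 200 * e ≤ n) (hr : 0 ≤ r) (hb : 0 ≤ b)
    (hrb : 2 * (r + b) ≤ n - 1) (i j : ℤ)
    (hi : i = 0 ∨ (i = 1 ∧ 9 * r < n + 3 * e))
    (hj : j = 0 ∨ (j = 1 ∧ 9 * b < n + 3 * e)) :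
    (n - 1) * (n - 1) - 2 * (n - 1) * (n - 1 - 2 * (r + b)) ≤
      128 * ((1 - i) * (r * (r - 1)) + (1 - j) * (b * (b - 1))) := by
  have hr' : 0 ≤ r * (r - 1) := by
    rcases hr.eq_or_lt with h | h
    · rw [← h]; simp
    · exact mul_nonneg hr (by linarith)
  have hb' : 0 ≤ b * (b - 1) := by
    rcases hb.eq_or_lt with h | h
    · rw [← h]; simp
    · exact mul_nonneg hb (by linarith)
  have hi0 : 0 ≤ (1 - i) * (r * (r - 1)) := by
    rcases hi with rfl | ⟨rfl, -⟩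
    · simpa using hr'
    · simp
  have hj0 : 0 ≤ (1 - j) * (b * (b - 1)) := by
    rcases hj with rfl | ⟨rfl, -⟩
    · simpa using hb'
    · simp
  rcases le_or_gt (n - 1) (2 * (n - 1 - 2 * (r + b))) with h | h
  · -- many missing
    have : (n - 1) * (n - 1) - 2 * (n - 1) * (n - 1 - 2 * (r + b)) ≤ 0 := by nlinarith
    linarith
  · -- `4 (r + b) > n - 1`
    have h5 : (n - 1) * (n - 1) - 2 * (n - 1) * (n - 1 - 2 * (r + b)) ≤ (n - 1) * (n - 1) := by
      have : 0 ≤ 2 * (n - 1) * (n - 1 - 2 * (r + b)) :=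
        mul_nonneg (by linarith) (by linarith)
      linarith
    rcases le_total b r with hbr | hbr
    · have h8 : n - 1 < 8 * r := by linarith
      have hi1 : i = 0 := by
        rcases hi with h' | ⟨-, h'⟩
        · exact h'
        · exfalso; linarith
      subst hi1
      have h9 : (n - 1) * (n - 1) ≤ 128 * (r * (r - 1)) := by nlinarith
      linarith
    · have h8 : n - 1 < 8 * b := by linarith
      have hj1 : j = 0 := by
        rcases hj with h' | ⟨-, h'⟩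
        · exact h'
        · exfalso; linarith
      subst hj1
      have h9 : (n - 1) * (n - 1) ≤ 128 * (b * (b - 1)) := by nlinarith
      linarith

lemma final_arith (n K C U : ℤ) (hK : 0 ≤ K) (hC : 0 ≤ C) (hU : 0 ≤ U)
    (hn : 1000 * (K + C) + 1000 ≤ n) (hUM : 10000 * (K + 1) * U ≤ 6 * n ^ 2)
    (h : n * ((n - 1) * (n - 1)) - 2 * (n - 1) * U ≤
      128 * (K * (n * (n - 1) + 3 * (n * U)) + C * (n * (n - 1)))) : False := by
  have hn0 : 0 ≤ n := by linarith
  have hn1 : 0 ≤ n - 1 := by linarith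
  have g1 : 10000 * (384 * (K * (n * U))) ≤ 2304 * n ^ 3 := by
    have h1 := mul_le_mul_of_nonneg_left hUM (by linarith : (0:ℤ) ≤ 384 * n)
    have h2 : 0 ≤ n * U := mul_nonneg hn0 hU
    nlinarith
  have g2 : 10000 * (2 * (n - 1) * U) ≤ 12 * n ^ 3 := by
    have h1 := mul_le_mul_of_nonneg_left hUM (by linarith : (0:ℤ) ≤ 2 * n)
    have h2 : 0 ≤ K * (n * U) := mul_nonneg hK (mul_nonneg hn0 hU)
    nlinarith
  have g3 : 1000 * (128 * ((K + C) * (n * (n - 1)))) ≤ 128 * n ^ 3 := by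
    have h0 : 0 ≤ n * (n - 1) := mul_nonneg hn0 hn1
    have h1 : 1000 * (K + C) ≤ n := by linarith
    have h2 := mul_le_mul_of_nonneg_right h1 h0
    have h3 : n * (n * (n - 1)) ≤ n ^ 3 := by nlinarith [mul_nonneg hn0 hn0]
    nlinarith
  have g4 : 10000 * (n * ((n - 1) * (n - 1))) ≤ 3596 * n ^ 3 := by nlinarith
  have g5 : 0 < n ^ 2 * (6404 * n - 20000) := by
    apply mul_pos
    · have : 0 < n := by linarith
      positivity
    · linarith
  nlinarith

theorem application2 (e₁ e₂ K₁ K₂ C₁ C₂ : ℕ) (he₁ : 3 ≤ e₁) (he₂ : 3 ≤ e₂)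
    (hB₁ : ∀ (V : Type) [DecidableEq V] (H : Finset (Finset V)), Lin H → Free e₁ H →
      Cond8 e₁ H → 3 * K₁ * (tris H).card + (angles H).card ≤
        2 * K₁ * (angles H).card + C₁ * H.card)
    (hB₂ : ∀ (V : Type) [DecidableEq V] (H : Finset (Finset V)), Lin H → Free e₂ H →
      Cond8 e₂ H → 3 * K₂ * (tris H).card + (angles H).card ≤
        2 * K₂ * (angles H).card + C₂ * H.card) :
    ∃ M N : ℕ, 0 < M ∧ ∀ n ≥ N, ∀ H : Finset (Finset (Fin n)), Lin H →
      M * n ^ 2 ≤ 6 * M * H.card + 6 * n ^ 2 → ∀ R ⊆ H,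
      (∃ S ⊆ R, S.card = e₁ ∧ (un S).card ≤ e₁ + 3) ∨
        (∃ S ⊆ H \ R, S.card = e₂ ∧ (un S).card ≤ e₂ + 3) := by
  set K := K₁ + K₂ with hK
  set C := (2 * K + 1) * (C₁ + C₂) with hC
  set e := e₁ + e₂ with he
  refine ⟨10000 * (K + 1), 1000 * (K + C) + 200 * e + 1000, by positivity, ?_⟩
  intro n hn H hlin hcardH R hR
  by_contra hcon
  push Not at hcon
  obtain ⟨hfR, hfQ⟩ := hcon
  set Q := H \ R with hQdef
  have hQ : Q ⊆ H := sdiff_subset
  have hlR := hlin.mono hR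
  have hlQ := hlin.mono hQ
  set L : Finset (Fin n) := univ.filter (fun v => 9 * dg R v < n + 3 * e) with hL
  set M : Finset (Fin n) := univ.filter (fun v => 9 * dg Q v < n + 3 * e) with hM
  have hcR : Cond8 e₁ (Det L R) := by
    refine Cond8.Det he₁ hlR hfR L ?_
    intro v hv
    rw [Fintype.card_fin]
    by_contra h
    exact hv (mem_filter.2 ⟨mem_univ _, by omega⟩)
  have hcQ : Cond8 e₂ (Det M Q) := by
    refine Cond8.Det he₂ hlQ hfQ M ?_
    intro v hv
    rw [Fintype.card_fin]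
    by_contra h
    exact hv (mem_filter.2 ⟨mem_univ _, by omega⟩)
  have bR := weaken (hlR.Det L) (K := K) (C := C) (by omega)
    (by rw [hC]; exact Nat.mul_le_mul_left _ (Nat.le_add_right _ _))
    (hB₁ _ (Det L R) (hlR.Det L) (Free.Det hfR L) hcR)
  have bQ := weaken (hlQ.Det M) (K := K) (C := C) (by omega)
    (by rw [hC]; exact Nat.mul_le_mul_left _ (Nat.le_add_left _ _))
    (hB₂ _ (Det M Q) (hlQ.Det M) (Free.Det hfQ M) hcQ)
  rw [card_Det] at bR bQ
  have gm := goodman' hR hQ (by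
    intro l hl
    by_cases h : l ∈ R
    · exact Or.inl h
    · exact Or.inr (mem_sdiff.2 ⟨hl, h⟩)) hlin L M
  rw [Fintype.card_fin] at gm
  -- degrees
  have hdH : ∀ x, dg H x = dg R x + dg Q x := by
    intro x
    unfold dg
    rw [← card_union_of_disjoint]
    · congr 1
      rw [← filter_union, hQdef, union_sdiff_of_subset hR]
    · exact disjoint_filter_filter disjoint_sdiff
  have hdeg : ∀ x, ∑ y, uj H x y + 2 * (dg R x + dg Q x) = n - 1 := by
    intro x
    have h1 := sum_uj hlin x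
    rw [hdH, Fintype.card_fin] at h1
    exact h1
  have hn0 : 1 ≤ n := by omega
  have hcn : ((n - 1 : ℕ) : ℤ) = n - 1 := by push_cast [Nat.cast_sub hn0]; ring
  have hcn3 : ((n - 3 : ℕ) : ℤ) = n - 3 := by
    rw [Nat.cast_sub (by omega)]; norm_num
  have hdegz : ∀ x, (∑ y, (uj H x y : ℤ)) = n - 1 - 2 * (dg R x + dg Q x) := by
    intro x
    have h1 := hdeg x
    have h2 : ((∑ y, uj H x y + 2 * (dg R x + dg Q x) : ℕ) : ℤ) = ((n - 1 : ℕ) : ℤ) := by
      rw [h1]
    rw [hcn] at h2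
    push_cast at h2
    linarith
  have hdle : ∀ x, 2 * ((dg R x : ℤ) + dg Q x) ≤ n - 1 := by
    intro x
    have h1 := hdegz x
    have h2 : (0 : ℤ) ≤ ∑ y, (uj H x y : ℤ) := sum_nonneg fun y _ => by positivity
    linarith
  -- numbers of lines
  have h3H : ∑ x, (dg R x + dg Q x) = 3 * H.card := by
    rw [← sum_dg hlin.h3]
    exact sum_congr rfl fun x _ => (hdH x).symm
  have h3Hz : ∑ x, ((dg R x : ℤ) + dg Q x) = 3 * H.card := by exact_mod_cast h3H
  have hnz : (0 : ℤ) ≤ n := by positivity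
  have hcard : 6 * (H.card : ℤ) ≤ n * (n - 1) := by
    have h2 : ∑ x : Fin n, 2 * ((dg R x : ℤ) + dg Q x) ≤ ∑ x : Fin n, ((n : ℤ) - 1) :=
      sum_le_sum fun x _ => hdle x
    rw [← mul_sum, h3Hz, sum_const, card_univ, Fintype.card_fin, nsmul_eq_mul] at h2
    linarith
  have hRQc : (R.card + Q.card : ℤ) = H.card := by
    have := card_sdiff_add_card_eq_card hR
    rw [← hQdef] at this
    have h' : (Q.card : ℤ) + R.card = H.card := by exact_mod_cast this
    linarith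
  -- the missing pairs
  set U : ℤ := ∑ x, ∑ y, (uj H x y : ℤ) with hU
  have hU0 : 0 ≤ U := sum_nonneg fun x _ => sum_nonneg fun y _ => by positivity
  have hUe : U = n * (n - 1) - 6 * H.card := by
    rw [hU]
    simp only [hdegz]
    rw [sum_sub_distrib, ← mul_sum, h3Hz, sum_const, card_univ, Fintype.card_fin, nsmul_eq_mul]
    ring
  have hUM : (10000 * (K + 1) : ℤ) * U ≤ 6 * n ^ 2 := by
    have h1 : ((10000 * (K + 1) * n ^ 2 : ℕ) : ℤ) ≤
        ((6 * (10000 * (K + 1)) * H.card + 6 * n ^ 2 : ℕ) : ℤ) := by exact_mod_cast hcardH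
    push_cast at h1
    rw [hUe]
    have h2 : (0 : ℤ) ≤ 10000 * (K + 1) * n := by positivity
    nlinarith
  -- the two vertex inequalities summed
  set iR : Fin n → ℤ := fun x => (ind (x ∈ L) : ℤ) with hiR
  set iQ : Fin n → ℤ := fun x => (ind (x ∈ M) : ℤ) with hiQ
  have hiR' : ∀ x, iR x = 0 ∨ (iR x = 1 ∧ 9 * (dg R x : ℤ) < n + 3 * e) := by
    intro x
    by_cases hx : x ∈ L
    · right
      refine ⟨by simp only [hiR]; rw [ind_pos hx]; rfl, ?_⟩
      have := (mem_filter.1 hx).2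
      exact_mod_cast this
    · left; simp only [hiR]; rw [ind_neg hx]; rfl
  have hiQ' : ∀ x, iQ x = 0 ∨ (iQ x = 1 ∧ 9 * (dg Q x : ℤ) < n + 3 * e) := by
    intro x
    by_cases hx : x ∈ M
    · right
      refine ⟨by simp only [hiQ]; rw [ind_pos hx]; rfl, ?_⟩
      have := (mem_filter.1 hx).2
      exact_mod_cast this
    · left; simp only [hiQ]; rw [ind_neg hx]; rfl
  have he' : (3 : ℤ) ≤ e := by
    have : 3 ≤ e := by omega
    exact_mod_cast this
  have hn' : (200 * e : ℤ) ≤ n := by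
    have : 200 * e ≤ n := by omega
    exact_mod_cast this
  have s1 : ∑ x, (2 * ((1 - iR x) * (dg R x * (dg R x - 1)) + (1 - iQ x) * (dg Q x * (dg Q x - 1)))
      + 12 * (dg R x * dg Q x : ℤ) +
      12 * (iR x * (dg R x * (dg R x - 1)) + iQ x * (dg Q x * (dg Q x - 1))))
       ≤ ∑ x : Fin n, (((n : ℤ) - 1) * (n - 2)) := by
    refine sum_le_sum fun x _ => ?_
    exact vertex' e n (dg R x) (dg Q x) he' hn' (by positivity) (by positivity)
      (hdle x) (iR x) (iQ x) (hiR' x) (hiQ' x)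
  have s2 : ∑ x : Fin n, (((n : ℤ) - 1) * (n - 1) - 2 * (n - 1) * (∑ y, (uj H x y : ℤ))) ≤
      ∑ x, 128 * ((1 - iR x) * (dg R x * (dg R x - 1)) +
      (1 - iQ x) * (dg Q x * (dg Q x - 1))) := by
    refine sum_le_sum fun x _ => ?_
    rw [hdegz]
    exact vertex_low' e n (dg R x) (dg Q x) he' hn' (by positivity) (by positivity)
      (hdle x) (iR x) (iQ x) (hiR' x) (hiQ' x)
  have aR := angles_Det hlR L
  have aQ := angles_Det hlQ M
  set AR : ℤ := ∑ x, (1 - iR x) * (dg R x * (dg R x - 1)) with hAR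
  set AQ : ℤ := ∑ x, (1 - iQ x) * (dg Q x * (dg Q x - 1)) with hAQ
  set P : ℤ := ∑ x, (dg R x * dg Q x : ℤ) with hP
  set BR : ℤ := ∑ x, iR x * (dg R x * (dg R x - 1)) with hBR
  set BQ : ℤ := ∑ x, iQ x * (dg Q x * (dg Q x - 1)) with hBQ
  simp only [sum_sub_distrib, sum_add_distrib, ← mul_sum, sum_const, card_univ, Fintype.card_fin,
    nsmul_eq_mul] at s1 s2
  rw [← hAR, ← hAQ, ← hBR, ← hBQ, ← hP] at s1
  rw [← hAR, ← hAQ, ← hU] at s2
  -- Goodman in the integers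
  have gz : 2 * ((n : ℤ) * ((n - 1) * (n - 3))) ≤
      2 * (6 * ((tris (Det L R)).card : ℤ)) + 2 * (6 * ((tris (Det M Q)).card : ℤ)) +
      24 * P + 6 * (4 * BR) + 6 * (4 * BQ) + 6 * (n * U) := by
    have c1 : ((∑ x, ind (x ∈ L) * (2 * dg R x * (2 * dg R x - 2)) : ℕ) : ℤ) = 4 * BR := by
      rw [hBR, mul_sum]
      push_cast [Nat.cast_sum]
      refine sum_congr rfl fun x _ => ?_
      have := cast_dd (dg R x)
      push_cast at this
      simp only [hiR]
      rw [this]; ring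
    have c2 : ((∑ x, ind (x ∈ M) * (2 * dg Q x * (2 * dg Q x - 2)) : ℕ) : ℤ) = 4 * BQ := by
      rw [hBQ, mul_sum]
      push_cast [Nat.cast_sum]
      refine sum_congr rfl fun x _ => ?_
      have := cast_dd (dg Q x)
      push_cast at this
      simp only [hiQ]
      rw [this]; ring
    have c3 : ((∑ x, dg R x * dg Q x : ℕ) : ℤ) = P := by
      rw [hP]; push_cast; rfl
    have c4 : ((∑ x, ∑ y, uj H x y : ℕ) : ℤ) = U := by
      rw [hU]; push_cast; rfl
    have gm' : ((2 * (n * ((n - 1) * (n - 3))) : ℕ) : ℤ) ≤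
      ((2 * (6 * (tris (Det L R)).card) + 2 * (6 * (tris (Det M Q)).card) +
      24 * ∑ x, dg R x * dg Q x +
      6 * (∑ x, ind (x ∈ L) * (2 * dg R x * (2 * dg R x - 2))) +
      6 * (∑ x, ind (x ∈ M) * (2 * dg Q x * (2 * dg Q x - 2))) +
      6 * (n * ∑ x, ∑ y, uj H x y) : ℕ) : ℤ) := by
      exact_mod_cast gm
    rw [Nat.cast_add, Nat.cast_add, Nat.cast_add, Nat.cast_add, Nat.cast_add, Nat.cast_mul 6,
      Nat.cast_mul 6, Nat.cast_mul 6 (n * _), Nat.cast_mul n, Nat.cast_mul 24, c1, c2, c3, c4]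
      at gm'
    rw [Nat.cast_mul, Nat.cast_mul, Nat.cast_mul, hcn, hcn3] at gm'
    push_cast at gm'
    linarith
  have bR' : (3 * K * ((tris (Det L R)).card : ℤ) + (angles (Det L R)).card ≤
      2 * K * (angles (Det L R)).card + C * R.card) := by exact_mod_cast bR
  have bQ' : (3 * K * ((tris (Det M Q)).card : ℤ) + (angles (Det M Q)).card ≤
      2 * K * (angles (Det M Q)).card + C * Q.card) := by exact_mod_cast bQ
  set tR : ℤ := ((tris (Det L R)).card : ℤ) with htR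
  set tQ : ℤ := ((tris (Det M Q)).card : ℤ) with htQ
  set gR : ℤ := ((angles (Det L R)).card : ℤ) with hgR
  set gQ : ℤ := ((angles (Det M Q)).card : ℤ) with hgQ
  -- final
  have f1 : 2 * (AR + AQ) - 6 * tR - 6 * tQ ≤ n * (n - 1) + 3 * (n * U) := by
    have : (n : ℤ) * ((n - 1) * (n - 2)) - n * ((n - 1) * (n - 3)) = n * (n - 1) := by ring
    linarith
  have hKz : (0 : ℤ) ≤ K := by positivity
  have hCz : (0 : ℤ) ≤ C := by positivity
  have f2 : AR + AQ ≤ K * (2 * (AR + AQ) - 6 * tR - 6 * tQ) + 2 * C * H.card := by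
    rw [← aR, ← aQ, ← hRQc]
    linarith
  have f3 : AR + AQ ≤ K * (n * (n - 1) + 3 * (n * U)) + C * (n * (n - 1)) := by
    have h1 := mul_le_mul_of_nonneg_left f1 hKz
    have h2 := mul_le_mul_of_nonneg_left hcard hCz
    have h3 : (0 : ℤ) ≤ C * H.card := by positivity
    linarith
  have f4 : (n : ℤ) * ((n - 1) * (n - 1)) - 2 * (n - 1) * U ≤
      128 * (K * (n * (n - 1) + 3 * (n * U)) + C * (n * (n - 1))) := by
    linarith
  have hnK : (1000 * (K + C) + 1000 : ℤ) ≤ n := by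
    have : 1000 * (K + C) + 1000 ≤ n := by omega
    exact_mod_cast this
  exact final_arith n K C U hKz hCz hU0 hnK hUM f4

end Pool.Agent.Helper74K9.BES
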