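import Pool.Agent.Helper74K9.BES.APP2

/-!
# The application with explicit constants
-/

set_option autoImplicit false
set_option linter.unusedSectionVars false

namespace Pool.Agent.Helper74K9.BES

open Finset Pool.Agent.W848.TreeAvg

/-- the application with explicit constants -/
theorem application3 (e₁ e₂ K₁ K₂ C₁ C₂ : ℕ) (he₁ : 3 ≤ e₁) (he₂ : 3 ≤ e₂)
    (hB₁ : ∀ (V : Type) [DecidableEq V] (H : Finset (Finset V)), Lin H → Free e₁ H →
      Cond8 e₁ H → 3 * K₁ * (tris H).card + (angles H).card ≤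
        2 * K₁ * (angles H).card + C₁ * H.card)
    (hB₂ : ∀ (V : Type) [DecidableEq V] (H : Finset (Finset V)), Lin H → Free e₂ H →
      Cond8 e₂ H → 3 * K₂ * (tris H).card + (angles H).card ≤
        2 * K₂ * (angles H).card + C₂ * H.card) :
    ∀ n ≥ 1000 * ((K₁ + K₂) + (2 * (K₁ + K₂) + 1) * (C₁ + C₂)) + 200 * (e₁ + e₂) + 1000,
      ∀ H : Finset (Finset (Fin n)), Lin H →
      10000 * ((K₁ + K₂) + 1) * n ^ 2 ≤
        6 * (10000 * ((K₁ + K₂) + 1)) * H.card + 6 * n ^ 2 → ∀ R ⊆ H,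
      (∃ S ⊆ R, S.card = e₁ ∧ (un S).card ≤ e₁ + 3) ∨
        (∃ S ⊆ H \ R, S.card = e₂ ∧ (un S).card ≤ e₂ + 3) := by
  set K := K₁ + K₂ with hK
  set C := (2 * K + 1) * (C₁ + C₂) with hC
  set e := e₁ + e₂ with he
  intro n hn H hlin hcardH R hR
  by_contra hcon
  push Not at hcon
  obtain ⟨hfR, hfQ⟩ := hcon
  set Q := H \ R with hQdef
  have hQ : Q ⊆ H := sdiff_subset
  have hlR := hlin.mono hR
  have hlQ := hlin.mono hQ
  set L : Finset (Fin n) := univ.filter (fun v => 9 * dg R v < n + 3 * e) with hL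
  set M : Finset (Fin n) := univ.filter (fun v => 9 * dg Q v < n + 3 * e) with hM
  have hcR : Cond8 e₁ (Det L R) := by
    refine Cond8.Det he₁ hlR hfR L ?_
    intro v hv
    rw [Fintype.card_fin]
    by_contra h
    exact hv (mem_filter.2 ⟨mem_univ _, by omega⟩)
  have hcQ : Cond8 e₂ (Det M Q) := by
    refine Cond8.Det he₂ hlQ hfQ M ?_
    intro v hv
    rw [Fintype.card_fin]
    by_contra h
    exact hv (mem_filter.2 ⟨mem_univ _, by omega⟩)
  have bR := weaken (hlR.Det L) (K := K) (C := C) (by omega)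
    (by rw [hC]; exact Nat.mul_le_mul_left _ (Nat.le_add_right _ _))
    (hB₁ _ (Det L R) (hlR.Det L) (Free.Det hfR L) hcR)
  have bQ := weaken (hlQ.Det M) (K := K) (C := C) (by omega)
    (by rw [hC]; exact Nat.mul_le_mul_left _ (Nat.le_add_left _ _))
    (hB₂ _ (Det M Q) (hlQ.Det M) (Free.Det hfQ M) hcQ)
  rw [card_Det] at bR bQ
  have gm := goodman' hR hQ (by
    intro l hl
    by_cases h : l ∈ R
    · exact Or.inl h
    · exact Or.inr (mem_sdiff.2 ⟨hl, h⟩)) hlin L M
  rw [Fintype.card_fin] at gm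
  -- degrees
  have hdH : ∀ x, dg H x = dg R x + dg Q x := by
    intro x
    unfold dg
    rw [← card_union_of_disjoint]
    · congr 1
      rw [← filter_union, hQdef, union_sdiff_of_subset hR]
    · exact disjoint_filter_filter disjoint_sdiff
  have hdeg : ∀ x, ∑ y, uj H x y + 2 * (dg R x + dg Q x) = n - 1 := by
    intro x
    have h1 := sum_uj hlin x
    rw [hdH, Fintype.card_fin] at h1
    exact h1
  have hn0 : 1 ≤ n := by omega
  have hcn : ((n - 1 : ℕ) : ℤ) = n - 1 := by push_cast [Nat.cast_sub hn0]; ring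
  have hcn3 : ((n - 3 : ℕ) : ℤ) = n - 3 := by
    rw [Nat.cast_sub (by omega)]; norm_num
  have hdegz : ∀ x, (∑ y, (uj H x y : ℤ)) = n - 1 - 2 * (dg R x + dg Q x) := by
    intro x
    have h1 := hdeg x
    have h2 : ((∑ y, uj H x y + 2 * (dg R x + dg Q x) : ℕ) : ℤ) = ((n - 1 : ℕ) : ℤ) := by
      rw [h1]
    rw [hcn] at h2
    push_cast at h2
    linarith
  have hdle : ∀ x, 2 * ((dg R x : ℤ) + dg Q x) ≤ n - 1 := by
    intro x
    have h1 := hdegz x
    have h2 : (0 : ℤ) ≤ ∑ y, (uj H x y : ℤ) := sum_nonneg fun y _ => by positivity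
    linarith
  -- numbers of lines
  have h3H : ∑ x, (dg R x + dg Q x) = 3 * H.card := by
    rw [← sum_dg hlin.h3]
    exact sum_congr rfl fun x _ => (hdH x).symm
  have h3Hz : ∑ x, ((dg R x : ℤ) + dg Q x) = 3 * H.card := by exact_mod_cast h3H
  have hnz : (0 : ℤ) ≤ n := by positivity
  have hcard : 6 * (H.card : ℤ) ≤ n * (n - 1) := by
    have h2 : ∑ x : Fin n, 2 * ((dg R x : ℤ) + dg Q x) ≤ ∑ x : Fin n, ((n : ℤ) - 1) :=
      sum_le_sum fun x _ => hdle x
    rw [← mul_sum, h3Hz, sum_const, card_univ, Fintype.card_fin, nsmul_eq_mul] at h2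
    linarith
  have hRQc : (R.card + Q.card : ℤ) = H.card := by
    have := card_sdiff_add_card_eq_card hR
    rw [← hQdef] at this
    have h' : (Q.card : ℤ) + R.card = H.card := by exact_mod_cast this
    linarith
  -- the missing pairs
  set U : ℤ := ∑ x, ∑ y, (uj H x y : ℤ) with hU
  have hU0 : 0 ≤ U := sum_nonneg fun x _ => sum_nonneg fun y _ => by positivity
  have hUe : U = n * (n - 1) - 6 * H.card := by
    rw [hU]
    simp only [hdegz]
    rw [sum_sub_distrib, ← mul_sum, h3Hz, sum_const, card_univ, Fintype.card_fin, nsmul_eq_mul]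
    ring
  have hUM : (10000 * (K + 1) : ℤ) * U ≤ 6 * n ^ 2 := by
    have h1 : ((10000 * (K + 1) * n ^ 2 : ℕ) : ℤ) ≤
        ((6 * (10000 * (K + 1)) * H.card + 6 * n ^ 2 : ℕ) : ℤ) := by exact_mod_cast hcardH
    push_cast at h1
    rw [hUe]
    have h2 : (0 : ℤ) ≤ 10000 * (K + 1) * n := by positivity
    nlinarith
  -- the two vertex inequalities summed
  set iR : Fin n → ℤ := fun x => (ind (x ∈ L) : ℤ) with hiR
  set iQ : Fin n → ℤ := fun x => (ind (x ∈ M) : ℤ) with hiQ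
  have hiR' : ∀ x, iR x = 0 ∨ (iR x = 1 ∧ 9 * (dg R x : ℤ) < n + 3 * e) := by
    intro x
    by_cases hx : x ∈ L
    · right
      refine ⟨by simp only [hiR]; rw [ind_pos hx]; rfl, ?_⟩
      have := (mem_filter.1 hx).2
      exact_mod_cast this
    · left; simp only [hiR]; rw [ind_neg hx]; rfl
  have hiQ' : ∀ x, iQ x = 0 ∨ (iQ x = 1 ∧ 9 * (dg Q x : ℤ) < n + 3 * e) := by
    intro x
    by_cases hx : x ∈ M
    · right
      refine ⟨by simp only [hiQ]; rw [ind_pos hx]; rfl, ?_⟩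
      have := (mem_filter.1 hx).2
      exact_mod_cast this
    · left; simp only [hiQ]; rw [ind_neg hx]; rfl
  have he' : (3 : ℤ) ≤ e := by
    have : 3 ≤ e := by omega
    exact_mod_cast this
  have hn' : (200 * e : ℤ) ≤ n := by
    have : 200 * e ≤ n := by omega
    exact_mod_cast this
  have s1 : ∑ x, (2 * ((1 - iR x) * (dg R x * (dg R x - 1)) + (1 - iQ x) * (dg Q x * (dg Q x - 1)))
      + 12 * (dg R x * dg Q x : ℤ) +
      12 * (iR x * (dg R x * (dg R x - 1)) + iQ x * (dg Q x * (dg Q x - 1))))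
       ≤ ∑ x : Fin n, (((n : ℤ) - 1) * (n - 2)) := by
    refine sum_le_sum fun x _ => ?_
    exact vertex' e n (dg R x) (dg Q x) he' hn' (by positivity) (by positivity)
      (hdle x) (iR x) (iQ x) (hiR' x) (hiQ' x)
  have s2 : ∑ x : Fin n, (((n : ℤ) - 1) * (n - 1) - 2 * (n - 1) * (∑ y, (uj H x y : ℤ))) ≤
      ∑ x, 128 * ((1 - iR x) * (dg R x * (dg R x - 1)) +
      (1 - iQ x) * (dg Q x * (dg Q x - 1))) := by
    refine sum_le_sum fun x _ => ?_
    rw [hdegz]
    exact vertex_low' e n (dg R x) (dg Q x) he' hn' (by positivity) (by positivity)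
      (hdle x) (iR x) (iQ x) (hiR' x) (hiQ' x)
  have aR := angles_Det hlR L
  have aQ := angles_Det hlQ M
  set AR : ℤ := ∑ x, (1 - iR x) * (dg R x * (dg R x - 1)) with hAR
  set AQ : ℤ := ∑ x, (1 - iQ x) * (dg Q x * (dg Q x - 1)) with hAQ
  set P : ℤ := ∑ x, (dg R x * dg Q x : ℤ) with hP
  set BR : ℤ := ∑ x, iR x * (dg R x * (dg R x - 1)) with hBR
  set BQ : ℤ := ∑ x, iQ x * (dg Q x * (dg Q x - 1)) with hBQ
  simp only [sum_sub_distrib, sum_add_distrib, ← mul_sum, sum_const, card_univ, Fintype.card_fin,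
    nsmul_eq_mul] at s1 s2
  rw [← hAR, ← hAQ, ← hBR, ← hBQ, ← hP] at s1
  rw [← hAR, ← hAQ, ← hU] at s2
  -- Goodman in the integers
  have gz : 2 * ((n : ℤ) * ((n - 1) * (n - 3))) ≤
      2 * (6 * ((tris (Det L R)).card : ℤ)) + 2 * (6 * ((tris (Det M Q)).card : ℤ)) +
      24 * P + 6 * (4 * BR) + 6 * (4 * BQ) + 6 * (n * U) := by
    have c1 : ((∑ x, ind (x ∈ L) * (2 * dg R x * (2 * dg R x - 2)) : ℕ) : ℤ) = 4 * BR := by
      rw [hBR, mul_sum]
      push_cast [Nat.cast_sum]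
      refine sum_congr rfl fun x _ => ?_
      have := cast_dd (dg R x)
      push_cast at this
      simp only [hiR]
      rw [this]; ring
    have c2 : ((∑ x, ind (x ∈ M) * (2 * dg Q x * (2 * dg Q x - 2)) : ℕ) : ℤ) = 4 * BQ := by
      rw [hBQ, mul_sum]
      push_cast [Nat.cast_sum]
      refine sum_congr rfl fun x _ => ?_
      have := cast_dd (dg Q x)
      push_cast at this
      simp only [hiQ]
      rw [this]; ring
    have c3 : ((∑ x, dg R x * dg Q x : ℕ) : ℤ) = P := by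
      rw [hP]; push_cast; rfl
    have c4 : ((∑ x, ∑ y, uj H x y : ℕ) : ℤ) = U := by
      rw [hU]; push_cast; rfl
    have gm' : ((2 * (n * ((n - 1) * (n - 3))) : ℕ) : ℤ) ≤
      ((2 * (6 * (tris (Det L R)).card) + 2 * (6 * (tris (Det M Q)).card) +
      24 * ∑ x, dg R x * dg Q x +
      6 * (∑ x, ind (x ∈ L) * (2 * dg R x * (2 * dg R x - 2))) +
      6 * (∑ x, ind (x ∈ M) * (2 * dg Q x * (2 * dg Q x - 2))) +
      6 * (n * ∑ x, ∑ y, uj H x y) : ℕ) : ℤ) := by
      exact_mod_cast gm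
    rw [Nat.cast_add, Nat.cast_add, Nat.cast_add, Nat.cast_add, Nat.cast_add, Nat.cast_mul 6,
      Nat.cast_mul 6, Nat.cast_mul 6 (n * _), Nat.cast_mul n, Nat.cast_mul 24, c1, c2, c3, c4]
      at gm'
    rw [Nat.cast_mul, Nat.cast_mul, Nat.cast_mul, hcn, hcn3] at gm'
    push_cast at gm'
    linarith
  have bR' : (3 * K * ((tris (Det L R)).card : ℤ) + (angles (Det L R)).card ≤
      2 * K * (angles (Det L R)).card + C * R.card) := by exact_mod_cast bR
  have bQ' : (3 * K * ((tris (Det M Q)).card : ℤ) + (angles (Det M Q)).card ≤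
      2 * K * (angles (Det M Q)).card + C * Q.card) := by exact_mod_cast bQ
  set tR : ℤ := ((tris (Det L R)).card : ℤ) with htR
  set tQ : ℤ := ((tris (Det M Q)).card : ℤ) with htQ
  set gR : ℤ := ((angles (Det L R)).card : ℤ) with hgR
  set gQ : ℤ := ((angles (Det M Q)).card : ℤ) with hgQ
  -- final
  have f1 : 2 * (AR + AQ) - 6 * tR - 6 * tQ ≤ n * (n - 1) + 3 * (n * U) := by
    have : (n : ℤ) * ((n - 1) * (n - 2)) - n * ((n - 1) * (n - 3)) = n * (n - 1) := by ring
    linarith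
  have hKz : (0 : ℤ) ≤ K := by positivity
  have hCz : (0 : ℤ) ≤ C := by positivity
  have f2 : AR + AQ ≤ K * (2 * (AR + AQ) - 6 * tR - 6 * tQ) + 2 * C * H.card := by
    rw [← aR, ← aQ, ← hRQc]
    linarith
  have f3 : AR + AQ ≤ K * (n * (n - 1) + 3 * (n * U)) + C * (n * (n - 1)) := by
    have h1 := mul_le_mul_of_nonneg_left f1 hKz
    have h2 := mul_le_mul_of_nonneg_left hcard hCz
    have h3 : (0 : ℤ) ≤ C * H.card := by positivity
    linarith
  have f4 : (n : ℤ) * ((n - 1) * (n - 1)) - 2 * (n - 1) * U ≤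
      128 * (K * (n * (n - 1) + 3 * (n * U)) + C * (n * (n - 1))) := by
    linarith
  have hnK : (1000 * (K + C) + 1000 : ℤ) ≤ n := by
    have : 1000 * (K + C) + 1000 ≤ n := by omega
    exact_mod_cast this
  exact final_arith n K C U hKz hCz hU0 hnK hUM f4

end Pool.Agent.Helper74K9.BES
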