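import Pool.Agent.Helper74K9.BES.Defs

/-!
# From the angle inequality to Steiner triple systems
-/

set_option autoImplicit false

namespace Pool.Agent.Helper74K9.BES

open Finset Pool.Agent.W848.TreeAvg

variable {V : Type*} [DecidableEq V]

/-- the number of lines through a point -/
def dg (H : Finset (Finset V)) (x : V) : ℕ := (H.filter (fun l => x ∈ l)).card

theorem Lin.card_angles [Fintype V] {H : Finset (Finset V)} (h : Lin H) :
    (angles H).card = ∑ x : V, (dg H x).choose 2 := by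
  have e : angles H = univ.biUnion (fun x => (H.filter (fun l => x ∈ l)).powersetCard 2) := by
    ext s
    rw [mem_biUnion]
    constructor
    · intro hs
      obtain ⟨hsH, hs2, hs5⟩ := mem_angles.1 hs
      obtain ⟨A, B, hAB, rfl⟩ := card_eq_two.1 hs2
      obtain ⟨hA, hB, -, w, hwA, hwB⟩ := h.pair_mem_angles.1 hs
      refine ⟨w, mem_univ _, mem_powersetCard.2 ⟨?_, card_pair hAB⟩⟩
      intro C hC
      rw [mem_insert, mem_singleton] at hC
      rcases hC with rfl | rfl
      · exact mem_filter.2 ⟨hA, hwA⟩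
      · exact mem_filter.2 ⟨hB, hwB⟩
    · rintro ⟨x, -, hx⟩
      obtain ⟨h1, h2⟩ := mem_powersetCard.1 hx
      obtain ⟨A, B, hAB, rfl⟩ := card_eq_two.1 h2
      have hA := mem_filter.1 (h1 (show A ∈ ({A, B} : Finset (Finset V)) by simp))
      have hB := mem_filter.1 (h1 (show B ∈ ({A, B} : Finset (Finset V)) by simp))
      exact h.pair_mem_angles.2 ⟨hA.1, hB.1, hAB, x, hA.2, hB.2⟩
  rw [e, card_biUnion]
  · refine sum_congr rfl fun x _ => ?_
    rw [card_powersetCard]; rfl
  · intro x _ y _ hxy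
    refine disjoint_left.2 ?_
    intro s hs1 hs2
    obtain ⟨h1, h2⟩ := mem_powersetCard.1 hs1
    obtain ⟨h3, -⟩ := mem_powersetCard.1 hs2
    obtain ⟨A, B, hAB, rfl⟩ := card_eq_two.1 h2
    have hA := mem_filter.1 (h1 (show A ∈ ({A, B} : Finset (Finset V)) by simp))
    have hB := mem_filter.1 (h1 (show B ∈ ({A, B} : Finset (Finset V)) by simp))
    have hA' := mem_filter.1 (h3 (show A ∈ ({A, B} : Finset (Finset V)) by simp))
    have hB' := mem_filter.1 (h3 (show B ∈ ({A, B} : Finset (Finset V)) by simp))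
    exact hAB (h.eq_of_two hA.1 hB.1 hxy hA.2 hA'.2 hB.2 hB'.2)

/-! ### ordered triangles -/

theorem Lin.tri_mem_app {H : Finset (Finset V)} (h : Lin H) {a b c : Finset V} {x y z : V}
    (ha : a ∈ H) (hb : b ∈ H) (hc : c ∈ H) (hxa : x ∈ a) (hya : y ∈ a) (hza : z ∉ a)
    (hyb : y ∈ b) (hzb : z ∈ b) (hxb : x ∉ b) (hzc : z ∈ c) (hxc : x ∈ c) (hyc : y ∉ c) :
    ({a, b, c} : Finset (Finset V)) ∈ tris H := by
  have hab : a ≠ b := by rintro rfl; exact hza hzb
  have hac : a ≠ c := by rintro rfl; exact hza hzc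
  have hbc : b ≠ c := by rintro rfl; exact hxb hxc
  have hxy : x ≠ y := by rintro rfl; exact hxb hyb
  have hxz : x ≠ z := by rintro rfl; exact hza hxa
  have hyz : y ≠ z := by rintro rfl; exact hza hya
  rw [mem_tris]
  refine ⟨?_, ?_, ?_⟩
  · intro l hl
    simp only [mem_insert, mem_singleton] at hl
    rcases hl with rfl | rfl | rfl <;> assumption
  · rw [card_insert_of_notMem, card_pair hbc]
    simp [hab, hac]
  · have e1 : un ({a, b, c} : Finset (Finset V)) = (a ∪ b) ∪ c := by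
      simp [un, union_assoc]
    have e2 : a ∩ b = {y} := by
      have h1 := h.lin a ha b hb hab
      exact (eq_singleton_iff_unique_mem.2 ⟨mem_inter.2 ⟨hya, hyb⟩, fun w hw =>
        card_le_one.1 h1 w hw y (mem_inter.2 ⟨hya, hyb⟩)⟩)
    have e3 : (a ∪ b) ∩ c = {x, z} := by
      ext w
      simp only [mem_inter, mem_union, mem_insert, mem_singleton]
      constructor
      · rintro ⟨hw | hw, hwc⟩
        · left
          by_contra hne
          exact hac (h.eq_of_two ha hc hne hw hxa hwc hxc)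
        · right
          by_contra hne
          exact hbc (h.eq_of_two hb hc hne hw hzb hwc hzc)
      · rintro (rfl | rfl)
        · exact ⟨Or.inl hxa, hxc⟩
        · exact ⟨Or.inr hzb, hzc⟩
    have h1 := card_union_add_card_inter a b
    have h2 := card_union_add_card_inter (a ∪ b) c
    rw [e2, card_singleton, h.h3 a ha, h.h3 b hb] at h1
    rw [e3, card_pair hxz, h.h3 c hc] at h2
    rw [e1]
    omega

/-- ordered non-collinear triples of points whose three lines are in `H` -/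
def otr [Fintype V] (H : Finset (Finset V)) : Finset (V × V × V) :=
  univ.filter (fun p => (∃ a ∈ H, p.1 ∈ a ∧ p.2.1 ∈ a ∧ p.2.2 ∉ a) ∧
    (∃ b ∈ H, p.2.1 ∈ b ∧ p.2.2 ∈ b ∧ p.1 ∉ b) ∧
     (∃ c ∈ H, p.2.2 ∈ c ∧ p.1 ∈ c ∧ p.2.1 ∉ c))

/-- the lines through two of three points -/
def sides (H : Finset (Finset V)) (p : V × V × V) : Finset (Finset V) :=
  H.filter (fun l => (p.1 ∈ l ∧ p.2.1 ∈ l) ∨ (p.2.1 ∈ l ∧ p.2.2 ∈ l) ∨ (p.2.2 ∈ l ∧ p.1 ∈ l))

theorem Lin.sides_eq {H : Finset (Finset V)} (h : Lin H) {a b c : Finset V} {x y z : V}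
    (ha : a ∈ H) (hb : b ∈ H) (hc : c ∈ H) (hxa : x ∈ a) (hya : y ∈ a) (hza : z ∉ a)
    (hyb : y ∈ b) (hzb : z ∈ b) (hxb : x ∉ b) (hzc : z ∈ c) (hxc : x ∈ c) :
    sides H (x, y, z) = {a, b, c} := by
  have hxy : x ≠ y := by rintro rfl; exact hxb hyb
  have hxz : x ≠ z := by rintro rfl; exact hza hxa
  have hyz : y ≠ z := by rintro rfl; exact hza hya
  ext l
  simp only [sides, mem_filter, mem_insert, mem_singleton]
  constructor
  · rintro ⟨hl, ⟨h1, h2⟩ | ⟨h1, h2⟩ | ⟨h1, h2⟩⟩
    · left; exact h.eq_of_two hl ha hxy h1 h2 hxa hya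
    · right; left; exact h.eq_of_two hl hb hyz h1 h2 hyb hzb
    · right; right; exact h.eq_of_two hl hc hxz h2 h1 hxc hzc
  · rintro (rfl | rfl | rfl)
    · exact ⟨ha, Or.inl ⟨hxa, hya⟩⟩
    · exact ⟨hb, Or.inr (Or.inl ⟨hyb, hzb⟩)⟩
    · exact ⟨hc, Or.inr (Or.inr ⟨hzc, hxc⟩)⟩

theorem Lin.otr_card [Fintype V] {H : Finset (Finset V)} (h : Lin H) :
    (otr H).card ≤ 6 * (tris H).card := by
  refine card_le_mul_card_image_of_maps_to (f := sides H) ?_ 6 ?_
  · rintro ⟨x, y, z⟩ hp
    obtain ⟨-, ⟨a, ha, hxa, hya, hza⟩, ⟨b, hb, hyb, hzb, hxb⟩, ⟨c, hc, hzc, hxc, hyc⟩⟩ :=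
      mem_filter.1 hp
    rw [h.sides_eq ha hb hc hxa hya hza hyb hzb hxb hzc hxc]
    exact h.tri_mem_app ha hb hc hxa hya hza hyb hzb hxb hzc hxc hyc
  · intro τ _
    rcases (filter (fun p => sides H p = τ) (otr H)).eq_empty_or_nonempty with he | ⟨⟨x, y, z⟩, hp⟩
    · rw [he]; simp
    obtain ⟨hp1, hp2⟩ := mem_filter.1 hp
    obtain ⟨-, ⟨a, ha, hxa, hya, hza⟩, ⟨b, hb, hyb, hzb, hxb⟩, ⟨c, hc, hzc, hxc, hyc⟩⟩ :=
      mem_filter.1 hp1
    simp only at hxa hya hza hyb hzb hxb hzc hxc hyc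
    have hτ : τ = {a, b, c} := by
      rw [← hp2]; exact h.sides_eq ha hb hc hxa hya hza hyb hzb hxb hzc hxc
    have key : ∀ w : V, ∀ l ∈ τ, ∀ m ∈ τ, l ≠ m → w ∈ l → w ∈ m → w = x ∨ w = y ∨ w = z := by
      intro w l hl m hm hlm hwl hwm
      have hab : a ≠ b := by rintro rfl; exact hza hzb
      have hac : a ≠ c := by rintro rfl; exact hza hzc
      have hbc : b ≠ c := by rintro rfl; exact hxb hxc
      have u1 : w ∈ a → w ∈ b → w = y := by
        intro h1 h2; by_contra hne; exact hab (h.eq_of_two ha hb hne h1 hya h2 hyb)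
      have u2 : w ∈ a → w ∈ c → w = x := by
        intro h1 h2; by_contra hne; exact hac (h.eq_of_two ha hc hne h1 hxa h2 hxc)
      have u3 : w ∈ b → w ∈ c → w = z := by
        intro h1 h2; by_contra hne; exact hbc (h.eq_of_two hb hc hne h1 hzb h2 hzc)
      rw [hτ] at hl hm
      simp only [mem_insert, mem_singleton] at hl hm
      rcases hl with rfl | rfl | rfl <;> rcases hm with rfl | rfl | rfl
      · exact absurd rfl hlm
      · exact Or.inr (Or.inl (u1 hwl hwm))
      · exact Or.inl (u2 hwl hwm)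
      · exact Or.inr (Or.inl (u1 hwm hwl))
      · exact absurd rfl hlm
      · exact Or.inr (Or.inr (u3 hwl hwm))
      · exact Or.inl (u2 hwm hwl)
      · exact Or.inr (Or.inr (u3 hwm hwl))
      · exact absurd rfl hlm
    have hsub : filter (fun p => sides H p = τ) (otr H) ⊆
        ({(x, y, z), (x, z, y), (y, x, z), (y, z, x), (z, x, y), (z, y, x)} :
          Finset (V × V × V)) := by
      rintro ⟨x', y', z'⟩ hq
      obtain ⟨hq1, hq2⟩ := mem_filter.1 hq
      obtain ⟨-, ⟨a', ha', hxa', hya', hza'⟩, ⟨b', hb', hyb', hzb', hxb'⟩,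
        ⟨c', hc', hzc', hxc', hyc'⟩⟩ := mem_filter.1 hq1
      simp only at hxa' hya' hza' hyb' hzb' hxb' hzc' hxc' hyc'
      have hτ' : τ = {a', b', c'} := by
        rw [← hq2]; exact h.sides_eq ha' hb' hc' hxa' hya' hza' hyb' hzb' hxb' hzc' hxc'
      have hab : a' ≠ b' := by rintro rfl; exact hza' hzb'
      have hac : a' ≠ c' := by rintro rfl; exact hza' hzc'
      have hbc : b' ≠ c' := by rintro rfl; exact hxb' hxc'
      have hma : a' ∈ τ := by rw [hτ']; simp
      have hmb : b' ∈ τ := by rw [hτ']; simp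
      have hmc : c' ∈ τ := by rw [hτ']; simp
      have kx := key x' a' hma c' hmc hac hxa' hxc'
      have ky := key y' a' hma b' hmb hab hya' hyb'
      have kz := key z' b' hmb c' hmc hbc hzb' hzc'
      have hxy : x' ≠ y' := by rintro rfl; exact hxb' hyb'
      have hxz : x' ≠ z' := by rintro rfl; exact hza' hxa'
      have hyz : y' ≠ z' := by rintro rfl; exact hza' hya'
      simp only [mem_insert, mem_singleton, Prod.mk.injEq]
      rcases kx with rfl | rfl | rfl <;> rcases ky with rfl | rfl | rfl <;>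
        rcases kz with rfl | rfl | rfl <;> simp_all
    exact (card_le_card hsub).trans card_le_six

end Pool.Agent.Helper74K9.BES
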