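import Pool.Agent.Helper74K9.BES.APPa

/-!
# Detaching lines at points
-/

set_option autoImplicit false

namespace Pool.Agent.Helper74K9.BES

open Finset Pool.Agent.W848.TreeAvg

variable {V : Type*} [DecidableEq V]

/-- the point of the detached line -/
def dpt (L : Finset V) (l : Finset V) (v : V) : V ⊕ (V × Finset V) :=
  if v ∈ L then Sum.inr (v, l) else Sum.inl v

/-- projection to the old points -/
def prj : V ⊕ (V × Finset V) → V := Sum.elim id Prod.fst

/-- a line detached at the points of `L` -/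
def det (L : Finset V) (l : Finset V) : Finset (V ⊕ (V × Finset V)) := l.image (dpt L l)

/-- a family of lines detached at the points of `L` -/
def Det (L : Finset V) (C : Finset (Finset V)) : Finset (Finset (V ⊕ (V × Finset V))) :=
  C.image (det L)

lemma prj_dpt (L l : Finset V) (v : V) : prj (dpt L l v) = v := by
  unfold prj dpt
  split_ifs <;> rfl

lemma prj_det (L l : Finset V) : (det L l).image prj = l := by
  unfold det
  rw [image_image]
  have : (prj ∘ dpt L l) = id := by
    funext v
    simp [prj_dpt]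
  rw [this, image_id]

lemma dpt_inj (L l : Finset V) : Function.Injective (dpt L l) :=
  Function.LeftInverse.injective (g := prj) (prj_dpt L l)

lemma det_inj (L : Finset V) : Function.Injective (det L) := by
  intro l m h
  rw [← prj_det L l, h, prj_det]

lemma card_det (L l : Finset V) : (det L l).card = l.card :=
  card_image_of_injective _ (dpt_inj L l)

lemma card_Det (L : Finset V) (C : Finset (Finset V)) : (Det L C).card = C.card :=
  card_image_of_injective _ (det_inj L)

lemma mem_det_inl {L l : Finset V} {v : V} : Sum.inl v ∈ det L l ↔ v ∈ l ∧ v ∉ L := by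
  unfold det dpt
  rw [mem_image]
  constructor
  · rintro ⟨w, hw, h⟩
    split_ifs at h with h'
    rw [Sum.inl.injEq] at h
    subst h
    exact ⟨hw, h'⟩
  · rintro ⟨h1, h2⟩
    exact ⟨v, h1, by rw [if_neg h2]⟩

lemma mem_det_inr {L l m : Finset V} {v : V} :
    Sum.inr (v, m) ∈ det L l ↔ m = l ∧ v ∈ l ∧ v ∈ L := by
  unfold det dpt
  rw [mem_image]
  constructor
  · rintro ⟨w, hw, h⟩
    split_ifs at h with h'
    rw [Sum.inr.injEq, Prod.mk.injEq] at h
    obtain ⟨rfl, rfl⟩ := h
    exact ⟨rfl, hw, h'⟩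
  · rintro ⟨rfl, h1, h2⟩
    exact ⟨v, h1, by rw [if_pos h2]⟩

lemma Lin.Det {C : Finset (Finset V)} (h : Lin C) (L : Finset V) : Lin (Det L C) := by
  refine ⟨?_, ?_⟩
  · intro A hA
    obtain ⟨l, hl, rfl⟩ := mem_image.1 hA
    rw [card_det, h.h3 l hl]
  · intro A hA B hB hAB
    obtain ⟨l, hl, rfl⟩ := mem_image.1 hA
    obtain ⟨m, hm, rfl⟩ := mem_image.1 hB
    have hlm : l ≠ m := by rintro rfl; exact hAB rfl
    have h1 : det L l ∩ det L m ⊆ (l ∩ m).image Sum.inl := by
      intro p hp
      obtain ⟨h1, h2⟩ := mem_inter.1 hp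
      rcases p with v | ⟨v, k⟩
      · exact mem_image.2 ⟨v, mem_inter.2 ⟨(mem_det_inl.1 h1).1, (mem_det_inl.1 h2).1⟩, rfl⟩
      · exact absurd ((mem_det_inr.1 h1).1.symm.trans (mem_det_inr.1 h2).1) hlm
    exact (card_le_card h1).trans (card_image_le.trans (h.lin l hl m hm hlm))

/-- a subfamily of the detached family comes from a subfamily -/
lemma sub_Det {L : Finset V} {C : Finset (Finset V)} {S : Finset (Finset (V ⊕ (V × Finset V)))}
    (hS : S ⊆ Pool.Agent.Helper74K9.BES.Det L C) :
    ∃ T ⊆ C, S = Pool.Agent.Helper74K9.BES.Det L T ∧ T.card = S.card ∧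
      (un T).card ≤ (un S).card := by
  obtain ⟨T, hT, rfl⟩ := subset_image_iff.1 hS
  refine ⟨T, by exact_mod_cast hT, rfl, (card_Det L T).symm, ?_⟩
  have : (un T) = (un (T.image (det L))).image prj := by
    ext v
    simp only [un, mem_biUnion, mem_image, id]
    constructor
    · rintro ⟨l, hl, hv⟩
      exact ⟨dpt L l v, ⟨det L l, ⟨l, hl, rfl⟩, mem_image_of_mem _ hv⟩, prj_dpt L l v⟩
    · rintro ⟨p, ⟨_, ⟨l, hl, rfl⟩, hp⟩, rfl⟩
      refine ⟨l, hl, ?_⟩
      have := mem_image_of_mem prj hp
      rwa [prj_det] at this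
  rw [this]
  exact card_image_le

lemma Free.Det {e : ℕ} {C : Finset (Finset V)} (h : Free e C) (L : Finset V) :
    Free e (Pool.Agent.Helper74K9.BES.Det L C) := by
  intro S hS hSe
  obtain ⟨T, hT, -, h2, h3⟩ := sub_Det hS
  exact lt_of_lt_of_le (h T hT (h2.trans hSe)) h3

lemma dg_Det_inl (L : Finset V) (C : Finset (Finset V)) (v : V) :
    dg (Det L C) (Sum.inl v) = if v ∈ L then 0 else dg C v := by
  unfold dg Pool.Agent.Helper74K9.BES.Det
  rw [filter_image, card_image_of_injective _ (det_inj L)]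
  split_ifs with h
  · rw [card_eq_zero, filter_eq_empty_iff]
    intro l _ hl
    exact (mem_det_inl.1 hl).2 h
  · congr 1
    apply filter_congr
    intro l _
    rw [mem_det_inl]
    exact ⟨fun h => h.1, fun h' => ⟨h', h⟩⟩

lemma dg_Det_inr (L : Finset V) (C : Finset (Finset V)) (v : V) (m : Finset V) :
    dg (Det L C) (Sum.inr (v, m)) ≤ 1 := by
  unfold dg Pool.Agent.Helper74K9.BES.Det
  rw [filter_image, card_image_of_injective _ (det_inj L), card_le_one]
  intro a ha b hb
  rw [mem_filter, mem_det_inr] at ha hb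
  exact ha.2.1.symm.trans hb.2.1

lemma Cond8.Det [Fintype V] {e : ℕ} (he : 3 ≤ e) {C : Finset (Finset V)} (h : Lin C)
    (hf : Free e C) (L : Finset V)
    (hL : ∀ v, v ∉ L → Fintype.card V + 3 * e ≤ 9 * dg C v) :
    Cond8 e (Pool.Agent.Helper74K9.BES.Det L C) := by
  intro F hF hFe hFu
  obtain ⟨T, hT, rfl, h2, h3⟩ := sub_Det hF
  by_contra hcon
  push Not at hcon
  -- the set of multiple points
  set M : Finset V := (un T).filter (fun v => v ∉ L) with hM
  have hsub : multi (Pool.Agent.Helper74K9.BES.Det L T) ⊆ M.image Sum.inl := by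
    intro p hp
    obtain ⟨hp1, hp2⟩ := mem_filter.1 hp
    rcases p with v | ⟨v, k⟩
    · have h4 := dg_Det_inl L T v
      unfold dg at h4
      rw [h4] at hp2
      split_ifs at hp2 with h5
      · omega
      · refine mem_image.2 ⟨v, mem_filter.2 ⟨?_, h5⟩, rfl⟩
        have : (T.filter (fun l => v ∈ l)).Nonempty := by
          rw [← card_pos]; omega
        obtain ⟨l, hl⟩ := this
        exact mem_biUnion.2 ⟨l, (mem_filter.1 hl).1, (mem_filter.1 hl).2⟩
    · have h4 := dg_Det_inr L T v k
      unfold dg at h4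
      omega
  have hM9 : 9 ≤ M.card := by
    have := (card_le_card hsub).trans card_image_le
    omega
  have hTne : T.Nonempty := by
    rw [nonempty_iff_ne_empty]
    rintro rfl
    simp [hM] at hM9
  have hg := Pool.Agent.W848.Growth.growth 3 e (by norm_num) C T univ (subset_univ _) h.h3
    (by intro S hS hSe; have := hf S hS hSe; simpa using this) hT hTne (by omega)
    (by omega)
  have hsum : 9 * (Fintype.card V + 3 * e) ≤ 9 * ∑ x ∈ un T, (C.filter (fun g => x ∈ g)).card := by
    calc 9 * (Fintype.card V + 3 * e) ≤ M.card * (Fintype.card V + 3 * e) :=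
          Nat.mul_le_mul_right _ hM9
      _ = ∑ x ∈ M, (Fintype.card V + 3 * e) := by rw [sum_const, smul_eq_mul]
      _ ≤ ∑ x ∈ M, 9 * dg C x := sum_le_sum fun x hx => hL x (mem_filter.1 hx).2
      _ ≤ ∑ x ∈ un T, 9 * dg C x := sum_le_sum_of_subset (filter_subset _ _)
      _ = 9 * ∑ x ∈ un T, (C.filter (fun g => x ∈ g)).card := by
          rw [mul_sum]; rfl
  rw [card_univ] at hg
  obtain ⟨k, rfl⟩ : ∃ k, e = k + 2 := ⟨e - 2, by omega⟩
  simp only [Nat.add_sub_cancel, show k + 2 - 1 = k + 1 by omega, show 3 - 2 = 1 by norm_num,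
    one_mul] at hg
  have h5 : Fintype.card V + 3 * (k + 2) ≤ ∑ x ∈ un T, (C.filter (fun g => x ∈ g)).card := by
    omega
  have h6 : (k + 1) * (Fintype.card V + 3 * (k + 2)) ≤
      k * Fintype.card V + (k + 1) * (3 * (k + 1)) :=
    (Nat.mul_le_mul_left _ h5).trans hg
  nlinarith

end Pool.Agent.Helper74K9.BES
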