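import Pool.Agent.Helper74K9.BES.APPb

/-!
# Counting in Steiner triple systems
-/

set_option autoImplicit false
set_option linter.unusedSectionVars false

namespace Pool.Agent.Helper74K9.BES

open Finset Pool.Agent.W848.TreeAvg

variable {V : Type*} [DecidableEq V]

/-- the indicator of a proposition -/
def ind (p : Prop) [Decidable p] : ℕ := if p then 1 else 0

lemma ind_pos {p : Prop} [Decidable p] (h : p) : ind p = 1 := if_pos h

lemma ind_neg {p : Prop} [Decidable p] (h : ¬ p) : ind p = 0 := if_neg h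

/-- joined by a line of `C` -/
def Adj (C : Finset (Finset V)) (x y : V) : Prop := x ≠ y ∧ ∃ l ∈ C, x ∈ l ∧ y ∈ l

instance (C : Finset (Finset V)) (x y : V) : Decidable (Adj C x y) := by
  unfold Adj; infer_instance

lemma Adj.symm {C : Finset (Finset V)} {x y : V} (h : Adj C x y) : Adj C y x := by
  obtain ⟨h1, l, hl, h2, h3⟩ := h
  exact ⟨h1.symm, l, hl, h3, h2⟩

/-- distinct and not on a line of `H` -/
def NC (H : Finset (Finset V)) (x y z : V) : Prop :=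
  x ≠ y ∧ y ≠ z ∧ x ≠ z ∧ ∀ l ∈ H, ¬ (x ∈ l ∧ y ∈ l ∧ z ∈ l)

instance (C : Finset (Finset V)) (x y z : V) : Decidable (NC C x y z) := by
  unfold NC; infer_instance

lemma NC.swap {H : Finset (Finset V)} {x y z : V} (h : NC H x y z) : NC H y x z :=
  ⟨h.1.symm, h.2.2.1, h.2.1, fun l hl h' => h.2.2.2 l hl ⟨h'.2.1, h'.1, h'.2.2⟩⟩

lemma NC.rot {H : Finset (Finset V)} {x y z : V} (h : NC H x y z) : NC H z x y :=
  ⟨h.2.2.1.symm, h.1, h.2.1.symm, fun l hl h' => h.2.2.2 l hl ⟨h'.2.1, h'.2.2, h'.1⟩⟩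

section Counts

variable [Fintype V]

/-- neighbours -/
def nb (C : Finset (Finset V)) (x : V) : Finset V := univ.filter (fun y => Adj C x y)

lemma mem_nb {C : Finset (Finset V)} {x y : V} : y ∈ nb C x ↔ Adj C x y := by
  simp [nb]

lemma Lin.card_nb {C : Finset (Finset V)} (h : Lin C) (x : V) :
    (nb C x).card = 2 * dg C x := by
  have e : nb C x = (C.filter (fun l => x ∈ l)).biUnion (fun l => l.erase x) := by
    ext y
    rw [mem_nb, mem_biUnion]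
    constructor
    · rintro ⟨h1, l, hl, h2, h3⟩
      exact ⟨l, mem_filter.2 ⟨hl, h2⟩, mem_erase.2 ⟨h1.symm, h3⟩⟩
    · rintro ⟨l, hl, hy⟩
      obtain ⟨h1, h2⟩ := mem_filter.1 hl
      obtain ⟨h3, h4⟩ := mem_erase.1 hy
      exact ⟨h3.symm, l, h1, h2, h4⟩
  rw [e, card_biUnion]
  · rw [sum_congr rfl (g := fun _ => 2), sum_const, smul_eq_mul, mul_comm]; rfl
    intro l hl
    obtain ⟨h1, h2⟩ := mem_filter.1 hl
    rw [card_erase_of_mem h2, h.h3 l h1]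
  · intro l hl m hm hlm
    refine disjoint_left.2 ?_
    intro y hy1 hy2
    obtain ⟨h1, h2⟩ := mem_filter.1 hl
    obtain ⟨h1', h2'⟩ := mem_filter.1 hm
    obtain ⟨h3, h4⟩ := mem_erase.1 hy1
    obtain ⟨h3', h4'⟩ := mem_erase.1 hy2
    exact hlm (h.eq_of_two h1 h1' h3 h4 h2 h4' h2')

lemma sum_ind (p : V → Prop) [DecidablePred p] : ∑ x, ind (p x) = (univ.filter p).card := by
  unfold ind
  rw [card_filter]

lemma count_same {H C : Finset (Finset V)} (h : Lin H) (hC : C ⊆ H) (x : V) :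
    ∑ y, ∑ z, ind (NC H x y z ∧ Adj C x y ∧ Adj C x z) ≤ 2 * dg C x * (2 * dg C x - 2) := by
  have h1 : ∀ y, ∑ z, ind (NC H x y z ∧ Adj C x y ∧ Adj C x z) ≤
      ind (Adj C x y) * (2 * dg C x - 2) := by
    intro y
    by_cases hy : Adj C x y
    · rw [ind_pos hy, one_mul, sum_ind]
      obtain ⟨hxy, l, hl, hxl, hyl⟩ := hy
      have hsub : univ.filter (fun z => NC H x y z ∧ Adj C x y ∧ Adj C x z) ⊆
          nb C x \ l.erase x := by
        intro z hz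
        obtain ⟨-, h1, h2, h3⟩ := mem_filter.1 hz
        refine mem_sdiff.2 ⟨mem_nb.2 h3, ?_⟩
        intro hzl
        exact h1.2.2.2 l (hC hl) ⟨hxl, hyl, (mem_erase.1 hzl).2⟩
      have hsub2 : l.erase x ⊆ nb C x := by
        intro z hz
        obtain ⟨h1, h2⟩ := mem_erase.1 hz
        exact mem_nb.2 ⟨h1.symm, l, hl, hxl, h2⟩
      have h2 := card_le_card hsub
      rw [card_sdiff_of_subset hsub2, (h.mono hC).card_nb, card_erase_of_mem hxl,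
        h.h3 l (hC hl)] at h2
      exact h2
    · rw [ind_neg hy, zero_mul]
      refine le_of_eq (sum_eq_zero fun z _ => ind_neg ?_)
      exact fun h => hy h.2.1
  calc ∑ y, ∑ z, ind (NC H x y z ∧ Adj C x y ∧ Adj C x z)
      ≤ ∑ y, ind (Adj C x y) * (2 * dg C x - 2) := sum_le_sum fun y _ => h1 y
    _ = (∑ y, ind (Adj C x y)) * (2 * dg C x - 2) := by rw [sum_mul]
    _ = 2 * dg C x * (2 * dg C x - 2) := by
        rw [sum_ind, ← (h.mono hC).card_nb]; rfl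

lemma count_diff {R Q : Finset (Finset V)} (hR : Lin R) (hQ : Lin Q) (x : V) :
    ∑ y, ∑ z, ind (Adj R x y ∧ Adj Q x z) = (2 * dg R x) * (2 * dg Q x) := by
  have h1 : ∀ y z, ind (Adj R x y ∧ Adj Q x z) = ind (Adj R x y) * ind (Adj Q x z) := by
    intro y z
    by_cases h1 : Adj R x y
    · by_cases h2 : Adj Q x z
      · rw [ind_pos h1, ind_pos h2, ind_pos ⟨h1, h2⟩]
      · rw [ind_pos h1, ind_neg h2, ind_neg (fun h => h2 h.2)]
    · rw [ind_neg h1, ind_neg (fun h => h1 h.1), zero_mul]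
  simp_rw [h1]
  rw [← sum_mul_sum, sum_ind, sum_ind, ← hR.card_nb, ← hQ.card_nb]
  rfl

lemma count_nc {H : Finset (Finset V)} (h3 : ∀ l ∈ H, l.card = 3)
    (hH : ∀ x y : V, x ≠ y → ∃! l, l ∈ H ∧ x ∈ l ∧ y ∈ l) (x : V) :
    (Fintype.card V - 1) * (Fintype.card V - 3) ≤ ∑ y, ∑ z, ind (NC H x y z) := by
  have h1 : ∀ y ∈ univ.erase x, Fintype.card V - 3 ≤ ∑ z, ind (NC H x y z) := by
    intro y hy
    have hxy : x ≠ y := (mem_erase.1 hy).1.symm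
    obtain ⟨l, ⟨hl, hxl, hyl⟩, huniq⟩ := hH x y hxy
    rw [sum_ind]
    have hsub : univ \ l ⊆ univ.filter (fun z => NC H x y z) := by
      intro z hz
      have hzl := (mem_sdiff.1 hz).2
      refine mem_filter.2 ⟨mem_univ _, hxy, ?_, ?_, ?_⟩
      · rintro rfl; exact hzl hyl
      · rintro rfl; exact hzl hxl
      · rintro m hm ⟨h4, h5, h6⟩
        have := huniq m ⟨hm, h4, h5⟩
        rw [this] at h6
        exact hzl h6
    have h2 := card_le_card hsub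
    rw [card_sdiff_of_subset (subset_univ _), card_univ, h3 l hl] at h2
    exact h2
  calc (Fintype.card V - 1) * (Fintype.card V - 3)
      = ∑ y ∈ univ.erase x, (Fintype.card V - 3) := by
        rw [sum_const, smul_eq_mul, card_erase_of_mem (mem_univ _), card_univ]
    _ ≤ ∑ y ∈ univ.erase x, ∑ z, ind (NC H x y z) := sum_le_sum h1
    _ ≤ ∑ y, ∑ z, ind (NC H x y z) := sum_le_sum_of_subset (erase_subset _ _)

lemma mem_otr {H : Finset (Finset V)} {x y z : V} : (x, y, z) ∈ otr H ↔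
    (∃ a ∈ H, x ∈ a ∧ y ∈ a ∧ z ∉ a) ∧ (∃ b ∈ H, y ∈ b ∧ z ∈ b ∧ x ∉ b) ∧
     (∃ c ∈ H, z ∈ c ∧ x ∈ c ∧ y ∉ c) := by
  unfold otr
  simp only [mem_filter, mem_univ, true_and]

lemma count_tri {H C : Finset (Finset V)} (hC : C ⊆ H) (hl : Lin C) (L : Finset V) :
    ∑ x, ∑ y, ∑ z, ind (NC H x y z ∧ Adj C x y ∧ Adj C y z ∧ Adj C x z ∧
      x ∉ L ∧ y ∉ L ∧ z ∉ L) ≤ 6 * (tris (Det L C)).card := by
  refine le_trans ?_ (hl.Det L).otr_card
  have e : ∑ x, ∑ y, ∑ z, ind (NC H x y z ∧ Adj C x y ∧ Adj C y z ∧ Adj C x z ∧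
      x ∉ L ∧ y ∉ L ∧ z ∉ L) = (univ.filter (fun p : V × V × V => NC H p.1 p.2.1 p.2.2 ∧
        Adj C p.1 p.2.1 ∧ Adj C p.2.1 p.2.2 ∧ Adj C p.1 p.2.2 ∧
      p.1 ∉ L ∧ p.2.1 ∉ L ∧ p.2.2 ∉ L)).card := by
    rw [← sum_ind, Fintype.sum_prod_type]
    refine sum_congr rfl fun x _ => ?_
    rw [Fintype.sum_prod_type]
  rw [e]
  refine card_le_card_of_injOn
    (fun p => (Sum.inl p.1, Sum.inl p.2.1, Sum.inl p.2.2)) ?_ ?_
  · rintro ⟨x, y, z⟩ hp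
    obtain ⟨-, h1, ⟨-, a, ha, hxa, hya⟩, ⟨-, b, hb, hyb, hzb⟩, ⟨-, c, hc, hxc, hzc⟩, hx, hy, hz⟩ :=
      mem_filter.1 hp
    simp only at hxa hya hyb hzb hxc hzc hx hy hz h1
    refine mem_coe.2 (mem_otr.2 ?_)
    refine ⟨⟨det L a, mem_image_of_mem _ ha, ?_, ?_, ?_⟩,
      ⟨det L b, mem_image_of_mem _ hb, ?_, ?_, ?_⟩, ⟨det L c, mem_image_of_mem _ hc, ?_, ?_, ?_⟩⟩
    · exact mem_det_inl.2 ⟨hxa, hx⟩
    · exact mem_det_inl.2 ⟨hya, hy⟩
    · exact fun h => h1.2.2.2 a (hC ha) ⟨hxa, hya, (mem_det_inl.1 h).1⟩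
    · exact mem_det_inl.2 ⟨hyb, hy⟩
    · exact mem_det_inl.2 ⟨hzb, hz⟩
    · exact fun h => h1.2.2.2 b (hC hb) ⟨(mem_det_inl.1 h).1, hyb, hzb⟩
    · exact mem_det_inl.2 ⟨hzc, hz⟩
    · exact mem_det_inl.2 ⟨hxc, hx⟩
    · exact fun h => h1.2.2.2 c (hC hc) ⟨hxc, (mem_det_inl.1 h).1, hzc⟩
  · rintro ⟨x, y, z⟩ _ ⟨x', y', z'⟩ _ h
    simp only [Prod.mk.injEq, Sum.inl.injEq] at h ⊢
    exact h

lemma sum_swap (F : V → V → V → ℕ) :
    ∑ x, ∑ y, ∑ z, F y x z = ∑ x, ∑ y, ∑ z, F x y z := by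
  rw [sum_comm]

lemma sum_rot (F : V → V → V → ℕ) :
    ∑ x, ∑ y, ∑ z, F z x y = ∑ x, ∑ y, ∑ z, F x y z := by
  have h1 : ∀ x, ∑ y, ∑ z, F z x y = ∑ z, ∑ y, F z x y := fun x => sum_comm
  simp_rw [h1]
  rw [sum_comm]

/-- the pointwise inequality -/
lemma pointwise {H R Q : Finset (Finset V)} (hRQ : ∀ l ∈ H, l ∈ R ∨ l ∈ Q)
    (hH : ∀ x y : V, x ≠ y → ∃! l, l ∈ H ∧ x ∈ l ∧ y ∈ l) (L M : Finset V) (x y z : V) :
    2 * ind (NC H x y z) ≤
      2 * ind (NC H x y z ∧ Adj R x y ∧ Adj R y z ∧ Adj R x z ∧ x ∉ L ∧ y ∉ L ∧ z ∉ L) +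
      2 * ind (NC H x y z ∧ Adj Q x y ∧ Adj Q y z ∧ Adj Q x z ∧ x ∉ M ∧ y ∉ M ∧ z ∉ M) +
      ((ind (Adj R x y ∧ Adj Q x z) + ind (Adj Q x y ∧ Adj R x z)) +
       (ind (Adj R y x ∧ Adj Q y z) + ind (Adj Q y x ∧ Adj R y z)) +
       (ind (Adj R z x ∧ Adj Q z y) + ind (Adj Q z x ∧ Adj R z y))) +
      2 * (ind (x ∈ L) * ind (NC H x y z ∧ Adj R x y ∧ Adj R x z) +
        ind (y ∈ L) * ind (NC H y x z ∧ Adj R y x ∧ Adj R y z) +
        ind (z ∈ L) * ind (NC H z x y ∧ Adj R z x ∧ Adj R z y)) +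
      2 * (ind (x ∈ M) * ind (NC H x y z ∧ Adj Q x y ∧ Adj Q x z) +
        ind (y ∈ M) * ind (NC H y x z ∧ Adj Q y x ∧ Adj Q y z) +
        ind (z ∈ M) * ind (NC H z x y ∧ Adj Q z x ∧ Adj Q z y)) := by
  by_cases hnc : NC H x y z
  swap
  · rw [ind_neg hnc, mul_zero]; exact Nat.zero_le _
  rw [ind_pos hnc]
  have col : ∀ u v : V, u ≠ v → Adj R u v ∨ Adj Q u v := by
    intro u v huv
    obtain ⟨l, ⟨hl, h1, h2⟩, -⟩ := hH u v huv
    rcases hRQ l hl with h | h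
    · exact Or.inl ⟨huv, l, h, h1, h2⟩
    · exact Or.inr ⟨huv, l, h, h1, h2⟩
  rcases col x y hnc.1 with h1 | h1 <;> rcases col y z hnc.2.1 with h2 | h2 <;>
    rcases col x z hnc.2.2.1 with h3 | h3
  · by_cases hx : x ∈ L
    · have e1 := ind_pos hx
      have e2 := ind_pos (p := NC H x y z ∧ Adj R x y ∧ Adj R x z) ⟨hnc, h1, h3⟩
      rw [e1, e2]; omega
    by_cases hy : y ∈ L
    · have e1 := ind_pos hy
      have e2 := ind_pos (p := NC H y x z ∧ Adj R y x ∧ Adj R y z) ⟨hnc.swap, h1.symm, h2⟩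
      rw [e1, e2]; omega
    by_cases hz : z ∈ L
    · have e1 := ind_pos hz
      have e2 := ind_pos (p := NC H z x y ∧ Adj R z x ∧ Adj R z y) ⟨hnc.rot, h3.symm, h2.symm⟩
      rw [e1, e2]; omega
    have e1 := ind_pos (p := NC H x y z ∧ Adj R x y ∧ Adj R y z ∧ Adj R x z ∧ x ∉ L ∧ y ∉ L ∧ z ∉ L)
      ⟨hnc, h1, h2, h3, hx, hy, hz⟩
    rw [e1]; omega
  · have e1 := ind_pos (p := Adj R x y ∧ Adj Q x z) ⟨h1, h3⟩
    have e2 := ind_pos (p := Adj Q z x ∧ Adj R z y) ⟨h3.symm, h2.symm⟩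
    rw [e1, e2]; omega
  · have e1 := ind_pos (p := Adj R y x ∧ Adj Q y z) ⟨h1.symm, h2⟩
    have e2 := ind_pos (p := Adj R z x ∧ Adj Q z y) ⟨h3.symm, h2.symm⟩
    rw [e1, e2]; omega
  · have e1 := ind_pos (p := Adj R x y ∧ Adj Q x z) ⟨h1, h3⟩
    have e2 := ind_pos (p := Adj R y x ∧ Adj Q y z) ⟨h1.symm, h2⟩
    rw [e1, e2]; omega
  · have e1 := ind_pos (p := Adj Q x y ∧ Adj R x z) ⟨h1, h3⟩
    have e2 := ind_pos (p := Adj Q y x ∧ Adj R y z) ⟨h1.symm, h2⟩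
    rw [e1, e2]; omega
  · have e1 := ind_pos (p := Adj Q y x ∧ Adj R y z) ⟨h1.symm, h2⟩
    have e2 := ind_pos (p := Adj Q z x ∧ Adj R z y) ⟨h3.symm, h2.symm⟩
    rw [e1, e2]; omega
  · have e1 := ind_pos (p := Adj Q x y ∧ Adj R x z) ⟨h1, h3⟩
    have e2 := ind_pos (p := Adj R z x ∧ Adj Q z y) ⟨h3.symm, h2.symm⟩
    rw [e1, e2]; omega
  · by_cases hx : x ∈ M
    · have e1 := ind_pos hx
      have e2 := ind_pos (p := NC H x y z ∧ Adj Q x y ∧ Adj Q x z) ⟨hnc, h1, h3⟩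
      rw [e1, e2]; omega
    by_cases hy : y ∈ M
    · have e1 := ind_pos hy
      have e2 := ind_pos (p := NC H y x z ∧ Adj Q y x ∧ Adj Q y z) ⟨hnc.swap, h1.symm, h2⟩
      rw [e1, e2]; omega
    by_cases hz : z ∈ M
    · have e1 := ind_pos hz
      have e2 := ind_pos (p := NC H z x y ∧ Adj Q z x ∧ Adj Q z y) ⟨hnc.rot, h3.symm, h2.symm⟩
      rw [e1, e2]; omega
    have e1 := ind_pos (p := NC H x y z ∧ Adj Q x y ∧ Adj Q y z ∧ Adj Q x z ∧ x ∉ M ∧ y ∉ M ∧ z ∉ M)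
      ⟨hnc, h1, h2, h3, hx, hy, hz⟩
    rw [e1]; omega

theorem goodman {H R Q : Finset (Finset V)} (hRH : R ⊆ H) (hQH : Q ⊆ H)
    (hRQ : ∀ l ∈ H, l ∈ R ∨ l ∈ Q) (hlin : Lin H)
    (hH : ∀ x y : V, x ≠ y → ∃! l, l ∈ H ∧ x ∈ l ∧ y ∈ l) (L M : Finset V) :
    2 * (Fintype.card V * ((Fintype.card V - 1) * (Fintype.card V - 3))) ≤
      2 * (6 * (tris (Det L R)).card) + 2 * (6 * (tris (Det M Q)).card) +
      24 * ∑ x, dg R x * dg Q x +
      6 * (∑ x, ind (x ∈ L) * (2 * dg R x * (2 * dg R x - 2))) +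
      6 * (∑ x, ind (x ∈ M) * (2 * dg Q x * (2 * dg Q x - 2))) := by
  have hR : Lin R := hlin.mono hRH
  have hQ : Lin Q := hlin.mono hQH
  set D : V → V → V → ℕ := fun x y z =>
    ind (Adj R x y ∧ Adj Q x z) + ind (Adj Q x y ∧ Adj R x z) with hD
  set E : V → V → V → ℕ := fun x y z =>
    ind (x ∈ L) * ind (NC H x y z ∧ Adj R x y ∧ Adj R x z) with hE
  set F : V → V → V → ℕ := fun x y z =>
    ind (x ∈ M) * ind (NC H x y z ∧ Adj Q x y ∧ Adj Q x z) with hF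
  have h1 : ∑ x, ∑ y, ∑ z, 2 * ind (NC H x y z) ≤ ∑ x, ∑ y, ∑ z,
      (2 * ind (NC H x y z ∧ Adj R x y ∧ Adj R y z ∧ Adj R x z ∧ x ∉ L ∧ y ∉ L ∧ z ∉ L) +
      2 * ind (NC H x y z ∧ Adj Q x y ∧ Adj Q y z ∧ Adj Q x z ∧ x ∉ M ∧ y ∉ M ∧ z ∉ M) +
      (D x y z + D y x z + D z x y) +
      2 * (E x y z + E y x z + E z x y) + 2 * (F x y z + F y x z + F z x y)) := by
    refine sum_le_sum fun x _ => sum_le_sum fun y _ => sum_le_sum fun z _ => ?_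
    exact pointwise hRQ hH L M x y z
  simp only [sum_add_distrib, ← mul_sum] at h1
  rw [sum_swap D, sum_rot D, sum_swap E, sum_rot E, sum_swap F, sum_rot F] at h1
  have h2 := count_tri hRH hR L
  have h3 := count_tri hQH hQ M
  have h4 : ∑ x, ∑ y, ∑ z, D x y z = 8 * ∑ x, dg R x * dg Q x := by
    rw [mul_sum]
    refine sum_congr rfl fun x _ => ?_
    simp only [hD, sum_add_distrib]
    rw [count_diff hR hQ, count_diff hQ hR]
    ring
  have h5 : ∑ x, ∑ y, ∑ z, E x y z ≤ ∑ x, ind (x ∈ L) * (2 * dg R x * (2 * dg R x - 2)) := by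
    refine sum_le_sum fun x _ => ?_
    simp only [hE, ← mul_sum]
    exact Nat.mul_le_mul_left _ (count_same hlin hRH x)
  have h6 : ∑ x, ∑ y, ∑ z, F x y z ≤ ∑ x, ind (x ∈ M) * (2 * dg Q x * (2 * dg Q x - 2)) := by
    refine sum_le_sum fun x _ => ?_
    simp only [hF, ← mul_sum]
    exact Nat.mul_le_mul_left _ (count_same hlin hQH x)
  have h7 : Fintype.card V * ((Fintype.card V - 1) * (Fintype.card V - 3)) ≤
      ∑ x, ∑ y, ∑ z, ind (NC H x y z) := by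
    calc Fintype.card V * ((Fintype.card V - 1) * (Fintype.card V - 3))
        = ∑ x : V, ((Fintype.card V - 1) * (Fintype.card V - 3)) := by
          rw [sum_const, smul_eq_mul, card_univ]
      _ ≤ _ := sum_le_sum fun x _ => count_nc hlin.h3 hH x
  rw [h4] at h1
  omega

end Counts

end Pool.Agent.Helper74K9.BES
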