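import Pool.Agent.Helper74K9.BES.Nodes

/-!
# Bad classes
-/

set_option autoImplicit false

namespace Pool.Agent.Helper74K9.BES

open Finset Pool.Agent.W848 Pool.Agent.W848.TreeAvg

variable {V : Type*} [DecidableEq V]

variable {H X Y : Finset (Finset V)} {τ a b s : Finset (Finset V)}

/-- the five points of an angle in four triangles have degree at least two in every closed family
containing the angle -/
lemma K4_multi (h : Lin H) (hs : s ∈ angles H) (h4 : 4 ≤ tn H s) (hc : Closed H X)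
    (hsX : s ⊆ X) : un s ⊆ multi X := by
  obtain ⟨hsH, hs2, hs5⟩ := mem_angles.1 hs
  obtain ⟨A, B, hAB, rfl⟩ := card_eq_two.1 hs2
  -- it is enough to treat the points of one line
  have key : ∀ A B : Finset V, A ≠ B → A ∈ H → B ∈ H → A ∈ X → B ∈ X →
      ({A, B} : Finset (Finset V)) ∈ angles H → 4 ≤ tn H {A, B} → ∀ x ∈ A, x ∈ multi X := by
    intro A B hAB hA hB hAX hBX hs h4 x hx
    rw [mem_multi']
    by_cases hxB : x ∈ B
    · exact ⟨A, hAX, B, hBX, hAB, hx, hxB⟩
    · -- a point of `B` not on `A`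
      obtain ⟨y, hy⟩ := card_pos.1 (show 0 < (B \ A).card by
        have h1 := card_sdiff_add_card_inter B A
        have h2 := h.lin B hB A hA hAB.symm
        have h3 := h.h3 B hB
        omega)
      rw [mem_sdiff] at hy
      obtain ⟨n, hn, hxn, hyn⟩ := tn_joined h hs h4 (A := A) (B := B) (by simp) (by simp) hx hxB
        hy.1 hy.2
      have hnX : n ∈ X := hc.two hn (x := x) (y := y) (by rintro rfl; exact hy.2 hx) hxn hyn
        (subset_un hAX hx) (subset_un hBX hy.1)
      exact ⟨A, hAX, n, hnX, by rintro rfl; exact hy.2 hyn, hx, hxn⟩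
  have hA : A ∈ H := hsH (by simp)
  have hB : B ∈ H := hsH (by simp)
  have hAX : A ∈ X := hsX (by simp)
  have hBX : B ∈ X := hsX (by simp)
  intro x hx
  rw [un_pair, mem_union] at hx
  rcases hx with hx | hx
  · exact key A B hAB hA hB hAX hBX hs h4 x hx
  · exact key B A hAB.symm hB hA hBX hAX (by rw [pair_comm]; exact hs)
      (by rw [pair_comm]; exact h4) x hx

/-- different angles have different sets of points -/
lemma angle_un_inj (h : Lin H) {s₁ s₂ : Finset (Finset V)} (h1 : s₁ ∈ angles H)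
    (h2 : s₂ ∈ angles H) (hun : un s₁ = un s₂) : s₁ = s₂ := by
  obtain ⟨k1, k2, k3⟩ := mem_angles.1 h1
  obtain ⟨g1, g2, g3⟩ := mem_angles.1 h2
  obtain ⟨A, B, hAB, rfl⟩ := card_eq_two.1 k2
  have hA : A ∈ H := k1 (by simp)
  have hB : B ∈ H := k1 (by simp)
  have hsub : s₂ ⊆ {A, B} := by
    intro C hC
    have hCH := g1 hC
    by_contra hn
    simp only [mem_insert, mem_singleton, not_or] at hn
    have e1 := h.lin C hCH A hA hn.1
    have e2 := h.lin C hCH B hB hn.2
    have e3 : C ⊆ A ∪ B := by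
      rw [← un_pair, hun]; exact subset_un hC
    have e4 : C = (C ∩ A) ∪ (C ∩ B) := by
      rw [← inter_union_distrib_left, inter_eq_left.2 e3]
    have e5 := card_union_le (C ∩ A) (C ∩ B)
    rw [← e4, h.h3 C hCH] at e5
    omega
  exact (eq_of_subset_of_card_le hsub (by rw [k2, g2])).symm

lemma six_multi (h : Lin H) {c : Finset (Finset (Finset V))} (hc : c ∈ nodes H) (hb : Bad H c)
    (hX : Closed H X) (hcX : clo H c ⊆ X) : 6 ≤ (multi X).card := by
  obtain ⟨s₁, h1, s₂, h2, hne, t1, t2⟩ := bad_K4 h hc hb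
  obtain ⟨k1, k2, k3, k4⟩ := node_mem h hc h1
  obtain ⟨g1, g2, g3, g4⟩ := node_mem h hc h2
  have hs1 : s₁ ⊆ X := (subset_cl (mem_angles.1 k1).1).trans (k4 ▸ hcX)
  have hs2 : s₂ ⊆ X := (subset_cl (mem_angles.1 g1).1).trans (g4 ▸ hcX)
  have m1 := K4_multi h k1 t1 hX hs1
  have m2 := K4_multi h g1 t2 hX hs2
  have e1 : un s₁ ∪ un s₂ ⊆ multi X := union_subset m1 m2
  have e2 := card_le_card e1
  have c1 := (mem_angles.1 k1).2.2
  have c2 := (mem_angles.1 g1).2.2
  have e3 : (un s₁).card < (un s₁ ∪ un s₂).card := by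
    refine card_lt_card ⟨subset_union_left, fun hh => hne ?_⟩
    refine angle_un_inj h k1 g1 (eq_of_subset_of_card_le ?_ (by rw [c1, c2])).symm
    exact subset_union_right.trans hh
  omega

/-- a closed family that does not contain an angle in four triangles misses five lines of the
closure of the angle -/
lemma miss_five (h : Lin H) (hs : s ∈ angles H) (h4 : 4 ≤ tn H s) (hc : Closed H X)
    (hsX : ¬ s ⊆ X) : 5 ≤ (cl H s \ X).card := by
  obtain ⟨hsH, hs2, hs5⟩ := mem_angles.1 hs
  set T := (tris H).filter (fun τ => s ⊆ τ) with hT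
  have hT4 : 4 ≤ T.card := h4
  set K := T.biUnion id with hK
  have hKs : s ⊆ K := by
    obtain ⟨τ, hτ⟩ := card_pos.1 (show 0 < T.card by omega)
    intro A hA
    exact mem_biUnion.2 ⟨τ, hτ, (mem_filter.1 hτ).2 hA⟩
  have hKcl : K ⊆ cl H s := by
    intro A hA
    obtain ⟨τ, hτ, hAτ⟩ := mem_biUnion.1 hA
    rw [hT, mem_filter] at hτ
    exact h.tri_sub_cl hτ.1 hs hτ.2 hAτ
  -- at least six lines
  have hK6 : 6 ≤ K.card := by
    have e1 : K \ s = T.biUnion (fun τ => τ \ s) := by
      ext A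
      simp only [hK, mem_sdiff, mem_biUnion, id]
      constructor
      · rintro ⟨⟨τ, hτ, hA⟩, hn⟩; exact ⟨τ, hτ, hA, hn⟩
      · rintro ⟨τ, hτ, hA, hn⟩; exact ⟨⟨τ, hτ, hA⟩, hn⟩
    have e2 : ∀ τ ∈ T, (τ \ s).card = 1 := by
      intro τ hτ
      rw [hT, mem_filter] at hτ
      have := card_sdiff_add_card_eq_card hτ.2
      rw [(mem_tris.1 hτ.1).2.1, hs2] at this
      omega
    have e3 : (T.biUnion (fun τ => τ \ s)).card = ∑ τ ∈ T, (τ \ s).card := by
      refine card_biUnion ?_
      intro τ₁ h1 τ₂ h2 hne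
      change Disjoint (τ₁ \ s) (τ₂ \ s)
      rw [disjoint_left]
      intro A hA1 hA2
      apply hne
      have f : ∀ τ ∈ T, A ∈ τ \ s → τ = insert A s := by
        intro τ hτ hA
        rw [hT, mem_filter] at hτ
        rw [mem_sdiff] at hA
        refine (eq_of_subset_of_card_le (insert_subset hA.1 hτ.2) ?_).symm
        rw [card_insert_of_notMem hA.2, (mem_tris.1 hτ.1).2.1, hs2]
      rw [f τ₁ h1 hA1, f τ₂ h2 hA2]
    rw [sum_congr rfl e2, sum_const, smul_eq_mul, mul_one] at e3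
    have e4 := card_sdiff_add_card_eq_card hKs
    rw [e1, e3] at e4
    omega
  -- each of the lines has two points on the lines of the angle
  have hK2 : ∀ A ∈ K, A ∈ H ∧ 2 ≤ (A ∩ un s).card := by
    intro A hA
    obtain ⟨τ, hτ, hAτ⟩ := mem_biUnion.1 hA
    rw [hT, mem_filter] at hτ
    obtain ⟨hτ1, hsτ⟩ := hτ
    have hAH := (mem_tris.1 hτ1).1 hAτ
    refine ⟨hAH, ?_⟩
    by_cases hAs : A ∈ s
    · rw [inter_eq_left.2 (subset_un hAs), h.h3 A hAH]
      norm_num
    · have hins : insert A s = τ := by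
        refine eq_of_subset_of_card_le (insert_subset hAτ hsτ) ?_
        rw [card_insert_of_notMem hAs, (mem_tris.1 hτ1).2.1, hs2]
      have h7 := h.un_insert_card (Y := s) hAH
      rw [hins, (mem_tris.1 hτ1).2.2, hs5] at h7
      omega
  -- at most one of them is in `X`
  have hKX : (K ∩ X).card ≤ 1 := by
    by_contra hcon
    obtain ⟨C, hC, D, hD, hCD⟩ := one_lt_card.1 (not_le.1 hcon)
    rw [mem_inter] at hC hD
    obtain ⟨hCH, hC2⟩ := hK2 C hC.1
    obtain ⟨hDH, hD2⟩ := hK2 D hD.1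
    apply hsX
    obtain ⟨A, B, hAB, rfl⟩ := card_eq_two.1 hs2
    obtain ⟨hA, hB, -, w, hwA, hwB⟩ := h.pair_mem_angles.1 hs
    -- three points of the angle are covered
    have e1 : 3 ≤ (un X ∩ un ({A, B} : Finset (Finset V))).card := by
      have f1 : (C ∩ un ({A, B} : Finset (Finset V))) ∪ (D ∩ un ({A, B} : Finset (Finset V))) ⊆
          un X ∩ un ({A, B} : Finset (Finset V)) :=
        union_subset (inter_subset_inter_right (subset_un hC.2))
          (inter_subset_inter_right (subset_un hD.2))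
      have f2 := card_le_card f1
      have f3 := card_union_add_card_inter (C ∩ un ({A, B} : Finset (Finset V)))
        (D ∩ un ({A, B} : Finset (Finset V)))
      have f4 : (C ∩ un ({A, B} : Finset (Finset V))) ∩ (D ∩ un ({A, B} : Finset (Finset V))) ⊆
          C ∩ D := by
        intro x hx
        simp only [mem_inter] at hx ⊢
        exact ⟨hx.1.1, hx.2.1⟩
      have f5 := card_le_card f4
      have f6 := h.lin C hCH D hDH hCD
      omega
    -- one of the two lines is in `X`
    have one : A ∈ X ∨ B ∈ X := by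
      have f1 : un X ∩ un ({A, B} : Finset (Finset V)) ⊆ (A ∩ un X) ∪ (B ∩ un X) := by
        intro x hx
        rw [mem_inter, un_pair, mem_union] at hx
        rw [mem_union, mem_inter, mem_inter]
        tauto
      have f2 := (card_le_card f1).trans (card_union_le _ _)
      rcases Nat.lt_or_ge (A ∩ un X).card 2 with hlt | hge
      · right; exact hc B hB (by omega)
      · left; exact hc A hA hge
    -- then so is the other
    have other : ∀ A B : Finset V, A ∈ H → B ∈ H → w ∈ A → w ∈ B → A ∈ X →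
        (∀ E ∈ K, 2 ≤ (E ∩ (A ∪ B)).card) → B ∈ X := by
      intro A B hA hB hwA hwB hAX hKK
      -- one of `C`, `D` is different from `A`
      have : ∃ E ∈ K, E ∈ X ∧ E ≠ A ∧ E ∈ H := by
        by_cases hCA : C = A
        · exact ⟨D, hD.1, hD.2, fun hh => hCD (hCA.trans hh.symm), hDH⟩
        · exact ⟨C, hC.1, hC.2, hCA, hCH⟩
      obtain ⟨E, hEK, hEX, hEA, hEH⟩ := this
      have f1 := hKK E hEK
      have f2 := h.lin E hEH A hA hEA
      obtain ⟨p, hp⟩ := card_pos.1 (show 0 < ((E ∩ (A ∪ B)) \ (E ∩ A)).card by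
        have := le_card_sdiff (E ∩ A) (E ∩ (A ∪ B))
        omega)
      simp only [mem_sdiff, mem_inter, mem_union, not_and] at hp
      have hpA : p ∉ A := hp.2 hp.1.1
      have hpB : p ∈ B := hp.1.2.resolve_left hpA
      exact hc.two hB (x := w) (y := p) (by rintro rfl; exact hpA hwA) hwB hpB
        (subset_un hAX hwA) (subset_un hEX hp.1.1)
    intro L hL
    simp only [mem_insert, mem_singleton] at hL
    rcases one with hAX | hBX
    · have hBX := other A B hA hB hwA hwB hAX (fun E hE => by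
        rw [← un_pair]; exact (hK2 E hE).2)
      rcases hL with rfl | rfl <;> assumption
    · have hAX := other B A hB hA hwB hwA hBX (fun E hE => by
        rw [union_comm, ← un_pair]; exact (hK2 E hE).2)
      rcases hL with rfl | rfl <;> assumption
  have e1 : K \ X ⊆ cl H s \ X := sdiff_subset_sdiff hKcl (Subset.refl _)
  have e2 := card_le_card e1
  have e3 := card_sdiff_add_card_inter K X
  omega

lemma bad_miss (h : Lin H) {c : Finset (Finset (Finset V))} (hc : c ∈ nodes H) (hb : Bad H c)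
    (hX : Closed H X) (hXH : X ⊆ H) (hcX : ¬ clo H c ⊆ X) : 5 ≤ (clo H c \ X).card := by
  obtain ⟨s₁, h1, -, -, -, t1, -⟩ := bad_K4 h hc hb
  obtain ⟨k1, k2, k3, k4⟩ := node_mem h hc h1
  rw [k4] at hcX ⊢
  refine miss_five h k1 t1 hX ?_
  intro hh
  exact hcX (cl_min hXH hh hX)

/-- a line through the two outer points of two lines of a triangle has none of its vertices -/
lemma outer_disjoint (h : Lin H) (hτ : τ ∈ tris H) (hsτ : s ⊆ τ) (hs2 : s.card = 2)
    {n : Finset V} (hn : n ∈ H) (hsn : un s \ multi τ ⊆ n) : Disjoint n (multi τ) := by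
  have hτH := (mem_tris.1 hτ).1
  -- every line of the triangle has an outer point
  have out : ∀ A ∈ τ, ∃ u ∈ A, u ∉ multi τ := by
    obtain ⟨y, z, c, u, v, d, t⟩ := h.tri_coords hτ
    intro A hA
    rw [t.eq] at hA
    rw [t.multi_eq]
    simp only [mem_insert, mem_singleton] at hA
    rcases hA with rfl | rfl | rfl
    · exact ⟨u, by simp, by simp [t.yu.symm, t.zu.symm, t.cu.symm]⟩
    · exact ⟨v, by simp, by simp [t.yv.symm, t.zv.symm, t.cv.symm]⟩
    · exact ⟨d, by simp, by simp [t.yd.symm, t.zd.symm, t.cd.symm]⟩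
  obtain ⟨A, B, hAB, rfl⟩ := card_eq_two.1 hs2
  have hA : A ∈ τ := hsτ (by simp)
  have hB : B ∈ τ := hsτ (by simp)
  have key : ∀ A B : Finset V, A ≠ B → A ∈ τ → B ∈ τ → (∀ p, p ∈ A ∪ B → p ∉ multi τ → p ∈ n) →
      ∀ x ∈ n, x ∈ multi τ → x ∈ A → False := by
    intro A B hAB hA hB hh x hxn hxm hxA
    obtain ⟨u, huA, hum⟩ := out A hA
    obtain ⟨v, hvB, hvm⟩ := out B hB
    have hun := hh u (mem_union_left _ huA) hum
    have hvn := hh v (mem_union_right _ hvB) hvm
    have e : n = A := h.eq_of_two hn (hτH hA) (x := x) (y := u)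
      (by rintro rfl; exact hum hxm) hxn hun hxA huA
    rw [e] at hvn
    exact hvm (mem_multi'.2 ⟨A, hA, B, hB, hAB, hvn, hvB⟩)
  rw [disjoint_left]
  intro x hxn hxm
  have := h.tri_inner_two hτ hA hB hAB hxm
  rw [mem_union] at this
  rcases this with hxA | hxB
  · exact key A B hAB hA hB (fun p hp1 hp2 => hsn (by rw [un_pair, mem_sdiff]; exact ⟨hp1, hp2⟩))
      x hxn hxm hxA
  · exact key B A hAB.symm hB hA (fun p hp1 hp2 => hsn (by
      rw [un_pair, mem_sdiff, union_comm]; exact ⟨hp1, hp2⟩)) x hxn hxm hxB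

/-- **closing angles** -/
lemma closing (h : Lin H) (hτ : τ ∈ tris H) (ha : a ∈ angles H) (haτ : a ⊆ τ) (hnd : Nd H a)
    (hdl : 2 ≤ dl H τ) : ∃ a' ∈ angles H, Nd H a' ∧ un τ \ multi τ ⊆ un a' ∧
      cl H a' ⊆ cl H a ∧ ¬ τ ⊆ cl H a' := by
  obtain ⟨hτH, hτ3, hτ6⟩ := mem_tris.1 hτ
  have hτF := h.tri_sub_cl hτ ha haτ
  have hsp := (hnd.ug h ha).sparse h ha
  unfold dl at hdl
  obtain ⟨s₁, h1, s₂, h2, hne⟩ := one_lt_card.1 (show 1 < _ from hdl)
  rw [mem_filter, mem_powersetCard] at h1 h2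
  obtain ⟨⟨h1τ, h1c⟩, n₁, hn1, hs1⟩ := h1
  obtain ⟨⟨h2τ, h2c⟩, n₂, hn2, hs2⟩ := h2
  have d1 := outer_disjoint h hτ h1τ h1c hn1 hs1
  have d2 := outer_disjoint h hτ h2τ h2c hn2 hs2
  have hO : (un τ \ multi τ).card = 3 := by
    have := card_sdiff_add_card_eq_card (multi_sub_un (F := τ))
    rw [h.tri_multi_card hτ, hτ6] at this
    omega
  -- the two pairs cover the triangle
  have hs12 : s₁ ∪ s₂ = τ := by
    refine eq_of_subset_of_card_le (union_subset h1τ h2τ) ?_
    by_contra hcon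
    have e1 : (s₁ ∪ s₂).card ≤ s₁.card := by omega
    have e2 := eq_of_subset_of_card_le (subset_union_left : s₁ ⊆ s₁ ∪ s₂) e1
    have e3 : s₂ ⊆ s₁ := by rw [e2]; exact subset_union_right
    exact hne (eq_of_subset_of_card_le e3 (by omega)).symm
  have hcov : un τ \ multi τ ⊆ n₁ ∪ n₂ := by
    intro x hx
    rw [mem_sdiff, ← hs12, un_union, mem_union] at hx
    rw [mem_union]
    rcases hx.1 with hh | hh
    · exact Or.inl (hs1 (mem_sdiff.2 ⟨hh, by rw [hs12] at hx; exact hx.2⟩))
    · exact Or.inr (hs2 (mem_sdiff.2 ⟨hh, by rw [hs12] at hx; exact hx.2⟩))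
  -- each pair has exactly two outer points
  have hout2 : ∀ s, s ⊆ τ → s.card = 2 → (un s \ multi τ).card = 2 := by
    intro s hsτ hsc
    have e0 : multi τ ⊆ un s := by
      obtain ⟨A, B, hAB, rfl⟩ := card_eq_two.1 hsc
      rw [un_pair]
      exact h.tri_inner_two hτ (hsτ (by simp)) (hsτ (by simp)) hAB
    have e1 := card_sdiff_add_card_eq_card e0
    rw [h.tri_multi_card hτ, (mem_angles.1 (h.tri_pair hτ hsτ hsc)).2.2] at e1
    omega
  have o1 := hout2 s₁ h1τ h1c
  have o2 := hout2 s₂ h2τ h2c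
  have hcom : ∃ p, p ∈ n₁ ∧ p ∈ n₂ := by
    have e1 : (un s₁ \ multi τ) ∪ (un s₂ \ multi τ) ⊆ un τ \ multi τ :=
      union_subset (sdiff_subset_sdiff (un_mono h1τ) (Subset.refl _))
        (sdiff_subset_sdiff (un_mono h2τ) (Subset.refl _))
    have e2 := card_le_card e1
    have e3 := card_union_add_card_inter (un s₁ \ multi τ) (un s₂ \ multi τ)
    obtain ⟨p, hp⟩ := card_pos.1 (show 0 < ((un s₁ \ multi τ) ∩ (un s₂ \ multi τ)).card by omega)
    rw [mem_inter] at hp
    exact ⟨p, hs1 hp.1, hs2 hp.2⟩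
  have hn12 : n₁ ≠ n₂ := by
    rintro rfl
    rw [union_self] at hcov
    have e1 : un τ \ multi τ = n₁ := eq_of_subset_of_card_le hcov (by rw [hO, h.h3 _ hn1])
    have e2 : n₁ ⊆ un τ := by rw [← e1]; exact sdiff_subset
    have e3 : n₁ ∉ τ := by
      intro hh
      have := h.tri_inner_one hτ hh
      rw [disjoint_iff_inter_eq_empty.1 d1] at this
      simp at this
    have e4 : n₁ ∈ cl H a := by
      refine cl_closed _ hn1 ?_
      rw [inter_eq_left.2 (e2.trans (un_mono hτF)), h.h3 _ hn1]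
      norm_num
    have e5 := hsp (insert n₁ τ) (insert_subset e4 hτF) (by
      rw [card_insert_of_notMem e3]; omega)
    rw [un_insert, union_eq_right.2 e2, card_insert_of_notMem e3] at e5
    omega
  have ha' : ({n₁, n₂} : Finset (Finset V)) ∈ angles H := by
    obtain ⟨p, hp1, hp2⟩ := hcom
    exact h.pair_mem_angles.2 ⟨hn1, hn2, hn12, p, hp1, hp2⟩
  have hnF : ∀ n ∈ H, ∀ s, s ⊆ τ → s.card = 2 → un s \ multi τ ⊆ n → n ∈ cl H a := by
    intro n hn s hsτ hsc hsn
    refine cl_closed _ hn ?_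
    rw [← hout2 s hsτ hsc]
    refine card_le_card ?_
    intro x hx
    exact mem_inter.2 ⟨hsn hx, un_mono hτF (un_mono hsτ (mem_sdiff.1 hx).1)⟩
  have hsubF : ({n₁, n₂} : Finset (Finset V)) ⊆ cl H a := by
    intro n hn
    simp only [mem_insert, mem_singleton] at hn
    rcases hn with rfl | rfl
    · exact hnF _ hn1 s₁ h1τ h1c hs1
    · exact hnF _ hn2 s₂ h2τ h2c hs2
  have hcl : cl H ({n₁, n₂} : Finset (Finset V)) ⊆ cl H a := cl_cl_subset hsubF
  have hnd' : Nd H ({n₁, n₂} : Finset (Finset V)) := by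
    unfold Nd
    refine hsp _ hcl ?_
    have := card_le_card (subset_cl (mem_angles.1 ha').1)
    rw [card_pair hn12] at this
    exact this
  refine ⟨_, ha', hnd', by rw [un_pair]; exact hcov, hcl, ?_⟩
  intro hτa
  have hdis : Disjoint (multi τ) (un ({n₁, n₂} : Finset (Finset V))) := by
    rw [un_pair, disjoint_union_right]
    exact ⟨d1.symm, d2.symm⟩
  obtain ⟨x, hx⟩ := card_pos.1 (show 0 < (multi τ).card by rw [h.tri_multi_card hτ]; norm_num)
  have := h.absorb (X := ({n₁, n₂} : Finset (Finset V))) (k := 3) (mem_angles.1 ha').1 hτ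
    (by rw [un_pair]; exact hcov) hdis ⟨x, hx, un_mono hτa (multi_sub_un hx)⟩
    (by rw [(mem_angles.1 ha').2.2, (mem_angles.1 ha').2.1])
  unfold Nd at hnd'
  omega

end Pool.Agent.Helper74K9.BES
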