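import Pool.Agent.Helper74K9.BES.Defs

/-!
# Closed families of lines and unit growth
-/

set_option autoImplicit false

namespace Pool.Agent.Helper74K9.BES

open Finset Pool.Agent.W848.TreeAvg

variable {V : Type*} [DecidableEq V]

/-- closed families -/
def Closed (H X : Finset (Finset V)) : Prop := ∀ A ∈ H, 2 ≤ (A ∩ un X).card → A ∈ X

instance (H X : Finset (Finset V)) : Decidable (Closed H X) := by
  unfold Closed; infer_instance

/-- closure -/
def cl (H X : Finset (Finset V)) : Finset (Finset V) :=
  H.filter (fun A => ∀ Y ∈ H.powerset, X ⊆ Y → Closed H Y → A ∈ Y)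

variable {H X Y : Finset (Finset V)}

lemma cl_subset : cl H X ⊆ H := filter_subset _ _

lemma subset_cl (hX : X ⊆ H) : X ⊆ cl H X := by
  intro A hA
  exact mem_filter.2 ⟨hX hA, fun Y _ hXY _ => hXY hA⟩

lemma cl_min (hY : Y ⊆ H) (hXY : X ⊆ Y) (hc : Closed H Y) : cl H X ⊆ Y := by
  intro A hA
  exact (mem_filter.1 hA).2 Y (mem_powerset.2 hY) hXY hc

lemma un_mono (h : X ⊆ Y) : un X ⊆ un Y := biUnion_subset_biUnion_of_subset_left _ h

lemma mem_un {x : V} {X : Finset (Finset V)} : x ∈ un X ↔ ∃ A ∈ X, x ∈ A := by
  simp [un]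

lemma subset_un {A : Finset V} {X : Finset (Finset V)} (hA : A ∈ X) : A ⊆ un X :=
  fun x hx => mem_un.2 ⟨A, hA, hx⟩

lemma cl_closed : Closed H (cl H X) := by
  intro A hA h2
  refine mem_filter.2 ⟨hA, fun Y hY hXY hc => hc A hA (h2.trans (card_le_card ?_))⟩
  exact inter_subset_inter_left (un_mono (cl_min (mem_powerset.1 hY) hXY hc))

lemma cl_mono (hY : Y ⊆ H) (hXY : X ⊆ Y) : cl H X ⊆ cl H Y :=
  cl_min cl_subset (hXY.trans (subset_cl hY)) cl_closed

lemma cl_cl_subset (hXY : X ⊆ cl H Y) : cl H X ⊆ cl H Y :=
  cl_min cl_subset hXY cl_closed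

lemma Closed.two (hc : Closed H X) {A : Finset V} (hA : A ∈ H) {x y : V} (hxy : x ≠ y)
    (hx : x ∈ A) (hy : y ∈ A) (hxX : x ∈ un X) (hyX : y ∈ un X) : A ∈ X :=
  hc A hA (one_lt_card.2 ⟨x, mem_inter.2 ⟨hx, hxX⟩, y, mem_inter.2 ⟨hy, hyX⟩, hxy⟩)

/-- induction along unit growth -/
lemma cl_ind (hX : X ⊆ H) (P : Finset (Finset V) → Prop) (h0 : P X)
    (hs : ∀ Y n, X ⊆ Y → Y ⊆ cl H X → P Y → n ∈ cl H X → n ∉ Y → 2 ≤ (n ∩ un Y).card →
      P (insert n Y)) : P (cl H X) := by
  classical
  obtain ⟨Y, hY, hmax⟩ := exists_max_image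
    ((cl H X).powerset.filter (fun Y => X ⊆ Y ∧ P Y)) (fun Y => Y.card)
    ⟨X, mem_filter.2 ⟨mem_powerset.2 (subset_cl hX), Subset.refl _, h0⟩⟩
  rw [mem_filter, mem_powerset] at hY
  obtain ⟨hYc, hXY, hPY⟩ := hY
  have hcl : Closed H Y := by
    intro A hA h2
    by_contra hAY
    have hAc : A ∈ cl H X := cl_closed A hA (h2.trans (card_le_card
      (inter_subset_inter_left (un_mono hYc))))
    have h1 := hmax (insert A Y) (mem_filter.2 ⟨mem_powerset.2 (insert_subset hAc hYc),
      hXY.trans (subset_insert _ _), hs Y A hXY hYc hPY hAc hAY h2⟩)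
    rw [card_insert_of_notMem hAY] at h1
    omega
  have := cl_min (hYc.trans cl_subset) hXY hcl
  rw [Subset.antisymm hYc this] at hPY
  exact hPY

lemma Lin.un_insert_card (h : Lin H) {n : Finset V} (hn : n ∈ H) :
    (un (insert n Y)).card + (n ∩ un Y).card = (un Y).card + 3 := by
  rw [un_insert]
  have := card_union_add_card_inter n (un Y)
  rw [h.h3 n hn] at this
  omega

/-- the defect does not increase -/
lemma Lin.cl_def (h : Lin H) (hX : X ⊆ H) {k : ℕ} (hk : (un X).card ≤ X.card + k) :
    (un (cl H X)).card ≤ (cl H X).card + k := by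
  refine cl_ind hX (fun Y => (un Y).card ≤ Y.card + k) hk ?_
  intro Y n _ _ hY hn hnY h2
  have := h.un_insert_card (Y := Y) (cl_subset hn)
  rw [card_insert_of_notMem hnY]
  omega

/-- families with less than `e` lines and defect at most three -/
def Good (e : ℕ) (X : Finset (Finset V)) : Prop := X.card + 1 ≤ e ∧ (un X).card ≤ X.card + 3

lemma Lin.cl_good {e : ℕ} (h : Lin H) (hf : Free e H) (hX : X ⊆ H) (hg : Good e X) :
    Good e (cl H X) := by
  refine cl_ind hX (fun Y => Good e Y) hg ?_
  intro Y n _ hYc hY hn hnY h2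
  have := h.un_insert_card (Y := Y) (cl_subset hn)
  obtain ⟨h3, h4⟩ := hY
  have hc : (insert n Y).card = Y.card + 1 := card_insert_of_notMem hnY
  have hle : (un (insert n Y)).card ≤ (insert n Y).card + 3 := by omega
  refine ⟨?_, hle⟩
  by_contra hcon
  have heq : (insert n Y).card = e := by omega
  have := hf (insert n Y) (insert_subset (cl_subset hn) (hYc.trans cl_subset)) heq
  omega

lemma Good.of_angle {e : ℕ} (he : 3 ≤ e) {a : Finset (Finset V)} (ha : a ∈ angles H) :
    Good e a := by
  rw [mem_angles] at ha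
  exact ⟨by omega, by omega⟩

/-- two distinct lines span at least five points -/
lemma Lin.five (h : Lin H) {I : Finset (Finset V)} (hI : I ⊆ H) (h2 : 2 ≤ I.card) :
    5 ≤ (un I).card := by
  obtain ⟨A, hA, B, hB, hAB⟩ := one_lt_card.1 (show 1 < I.card by omega)
  have h1 := card_union_add_card_inter A B
  have h5 := h.lin A (hI hA) B (hI hB) hAB
  have h6 : A ∪ B ⊆ un I := union_subset (subset_un hA) (subset_un hB)
  have h7 := card_le_card h6
  have h8 := h.h3 A (hI hA)
  have h9 := h.h3 B (hI hB)
  omega

/-- families grown from `a` by lines with exactly one new point -/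
inductive UG (H a : Finset (Finset V)) : Finset (Finset V) → Prop
  | base : UG H a a
  | step {D : Finset (Finset V)} {n : Finset V} :
      UG H a D → n ∈ H → n ∉ D → (n ∩ un D).card = 2 → UG H a (insert n D)

variable {a D : Finset (Finset V)}

lemma UG.sub (hD : UG H a D) (ha : a ⊆ H) : a ⊆ D ∧ D ⊆ H := by
  induction hD with
  | base => exact ⟨Subset.refl _, ha⟩
  | step _ hn _ _ ih => exact ⟨ih.1.trans (subset_insert _ _), insert_subset hn ih.2⟩

lemma UG.le_cl (hD : UG H a D) (ha : a ⊆ H) : D ⊆ cl H a := by
  induction hD with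
  | base => exact subset_cl ha
  | step _ hn _ h2 ih =>
    refine insert_subset (cl_closed _ hn ?_) ih
    rw [← h2]
    exact card_le_card (inter_subset_inter_left (un_mono ih))

lemma UG.card (h : Lin H) (ha : a ∈ angles H) (hD : UG H a D) :
    (un D).card = D.card + 3 := by
  induction hD with
  | base => rw [mem_angles] at ha; omega
  | step hD hn hnD h2 ih =>
    rename_i D n
    have := h.un_insert_card (Y := D) hn
    rw [card_insert_of_notMem hnD]
    omega

lemma exists_new (h : Lin H) {n : Finset V} (hn : n ∈ H) (h2 : (n ∩ un D).card = 2) :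
    ∃ p ∈ n, p ∉ un D := by
  by_contra hcon
  push Not at hcon
  have : n ∩ un D = n := inter_eq_left.2 hcon
  rw [this, h.h3 n hn] at h2
  omega

lemma UG.sparse (h : Lin H) (ha : a ∈ angles H) (hD : UG H a D) :
    ∀ I ⊆ D, 2 ≤ I.card → I.card + 3 ≤ (un I).card := by
  have haH := (mem_angles.1 ha).1
  induction hD with
  | base =>
    intro I hI h2
    have := card_le_card hI
    have h5 := h.five (hI.trans haH) h2
    rw [mem_angles] at ha
    omega
  | step hD hn hnD h2 ih =>
    rename_i D n
    intro I hI hI2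
    have hDH := (hD.sub haH).2
    by_cases hnI : n ∈ I
    · obtain ⟨p, hpn, hpD⟩ := exists_new h hn h2
      have hI' : I.erase n ⊆ D := by
        intro A hA
        rw [mem_erase] at hA
        exact (mem_insert.1 (hI hA.2)).resolve_left hA.1
      have hc : (I.erase n).card + 1 = I.card := card_erase_add_one hnI
      rcases Nat.lt_or_ge (I.erase n).card 2 with hlt | hge
      · have h5 := h.five (hI.trans (insert_subset hn hDH)) hI2
        omega
      · have h3 := ih (I.erase n) hI' hge
        have h4 : insert p (un (I.erase n)) ⊆ un I := by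
          intro x hx
          rw [mem_insert] at hx
          rcases hx with rfl | hx
          · exact subset_un hnI hpn
          · exact un_mono (erase_subset _ _) hx
        have h5 := card_le_card h4
        rw [card_insert_of_notMem (fun hh => hpD (un_mono hI' hh))] at h5
        omega
    · exact ih I (fun A hA => (mem_insert.1 (hI hA)).resolve_left
        (fun hh => hnI (hh ▸ hA))) hI2

lemma Grown.of_angle (h : Lin H) (ha : a ∈ angles H) : Grown a := by
  obtain ⟨haH, ha2, ha5⟩ := mem_angles.1 ha
  obtain ⟨A, B, hAB, rfl⟩ := card_eq_two.1 ha2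
  have hA : A ∈ H := haH (by simp)
  have hB : B ∈ H := haH (by simp)
  have e1 : un ({B} : Finset (Finset V)) = B := by simp [un]
  have g1 : Grown ({B} : Finset (Finset V)) := by
    have := Grown.step (F := (∅ : Finset (Finset V))) (n := B) Grown.empty (by
      have : un (∅ : Finset (Finset V)) = ∅ := by simp [un]
      rw [this, sdiff_empty, ← card_pos, h.h3 B hB]; norm_num)
    simpa using this
  refine Grown.step g1 ?_
  rw [e1, sdiff_nonempty]
  intro hsub
  exact hAB (eq_of_subset_of_card_le hsub (by rw [h.h3 A hA, h.h3 B hB]))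

lemma UG.grown (h : Lin H) (ha : a ∈ angles H) (hD : UG H a D) : Grown D := by
  induction hD with
  | base => exact Grown.of_angle h ha
  | step hD hn hnD h2 ih =>
    obtain ⟨p, hp, hpD⟩ := exists_new h hn h2
    exact Grown.step ih ⟨p, mem_sdiff.2 ⟨hp, hpD⟩⟩

/-- nondegenerate angles -/
def Nd (H a : Finset (Finset V)) : Prop := (cl H a).card + 3 ≤ (un (cl H a)).card

instance (H a : Finset (Finset V)) : Decidable (Nd H a) := by unfold Nd; infer_instance

/-- either the closure is unit-grown or there is a unit-grown family with a dependent line -/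
lemma UG.dichotomy (h : Lin H) (ha : a ∈ angles H) :
    UG H a (cl H a) ∨ ∃ D n, UG H a D ∧ n ∈ H ∧ n ∉ D ∧ n ⊆ un D := by
  classical
  have haH := (mem_angles.1 ha).1
  obtain ⟨D, hD, hmax⟩ := exists_max_image
    ((cl H a).powerset.filter (fun D => UG H a D)) (fun D => D.card)
    ⟨a, mem_filter.2 ⟨mem_powerset.2 (subset_cl haH), UG.base⟩⟩
  rw [mem_filter, mem_powerset] at hD
  by_cases hc : Closed H D
  · left
    have := cl_min (hD.1.trans cl_subset) (hD.2.sub haH).1 hc
    rw [Subset.antisymm this hD.1]
    exact hD.2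
  · right
    unfold Closed at hc
    push Not at hc
    obtain ⟨n, hn, h2, hnD⟩ := hc
    refine ⟨D, n, hD.2, hn, hnD, ?_⟩
    have hle : (n ∩ un D).card ≤ 3 := by
      rw [← h.h3 n hn]; exact card_le_card inter_subset_left
    rcases Nat.lt_or_ge (n ∩ un D).card 3 with hlt | hge
    · have hUG := hD.2.step hn hnD (by omega)
      have := hmax (insert n D) (mem_filter.2 ⟨mem_powerset.2 (hUG.le_cl haH), hUG⟩)
      rw [card_insert_of_notMem hnD] at this
      omega
    · have := eq_of_subset_of_card_le (inter_subset_left : n ∩ un D ⊆ n)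
        (by rw [h.h3 n hn]; exact hge)
      exact inter_eq_left.1 this

/-- a unit-grown family with a dependent line has defect two, all its nonempty subfamilies have
defect at least two -/
lemma UG.drop (h : Lin H) (ha : a ∈ angles H) {n : Finset V} (hD : UG H a D) (hn : n ∈ H)
    (hnD : n ∉ D) (hnu : n ⊆ un D) :
    (un (insert n D)).card = (insert n D).card + 2 ∧
      ∀ I ⊆ insert n D, I.Nonempty → I.card + 2 ≤ (un I).card := by
  have haH := (mem_angles.1 ha).1
  have hDH := (hD.sub haH).2
  constructor
  · rw [un_insert, union_eq_right.2 hnu, card_insert_of_notMem hnD, hD.card h ha]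
  · intro I hI hne
    have hIH : I ⊆ H := hI.trans (insert_subset hn hDH)
    rcases Nat.lt_or_ge I.card 3 with hlt | hge
    · have h1 := card_pos.2 hne
      rcases Nat.lt_or_ge I.card 2 with hlt' | hge'
      · obtain ⟨A, hA⟩ := card_eq_one.1 (show I.card = 1 by omega)
        subst hA
        have : un ({A} : Finset (Finset V)) = A := by simp [un]
        rw [this, h.h3 A (hIH (by simp))]
        omega
      · have := h.five hIH hge'
        omega
    · have hI' : I.erase n ⊆ D := by
        intro A hA
        rw [mem_erase] at hA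
        exact (mem_insert.1 (hI hA.2)).resolve_left hA.1
      have hc : I.card - 1 ≤ (I.erase n).card := pred_card_le_card_erase
      have h3 := hD.sparse h ha (I.erase n) hI' (by omega)
      have h4 := card_le_card (un_mono (erase_subset n I))
      omega

lemma Nd.ug (h : Lin H) (ha : a ∈ angles H) (hnd : Nd H a) : UG H a (cl H a) := by
  rcases UG.dichotomy h ha with h1 | ⟨D, n, hD, hn, hnD, hnu⟩
  · exact h1
  · exfalso
    have haH := (mem_angles.1 ha).1
    have h2 := (hD.drop h ha hn hnD hnu).1
    have hDH := (hD.sub haH).2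
    have hsub : insert n D ⊆ cl H a := by
      refine insert_subset (cl_closed _ hn ?_) (hD.le_cl haH)
      rw [inter_eq_left.2 (hnu.trans (un_mono (hD.le_cl haH))), h.h3 n hn]
      norm_num
    have h3 := h.cl_def (X := insert n D) (k := 2) (insert_subset hn hDH) (by omega)
    have h4 : cl H (insert n D) = cl H a := by
      refine Subset.antisymm (cl_cl_subset hsub) (cl_mono (insert_subset hn hDH) ?_)
      exact (hD.sub haH).1.trans (subset_insert _ _)
    rw [h4] at h3
    unfold Nd at hnd
    omega

/-- **Few degenerate angles.** -/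
lemma Lin.degenerate (h : Lin H) {e : ℕ} (he : 3 ≤ e) (hf : Free e H) {l : Finset V}
    (hl : l ∈ H) :
    (H.filter (fun m => ({l, m} : Finset (Finset V)) ∈ angles H ∧
      ¬ Nd H ({l, m} : Finset (Finset V)))).card ≤ e - 2 := by
  classical
  -- families of defect at most two through `l`
  set P := H.powerset.filter (fun X => l ∈ X ∧ X.card + 1 ≤ e ∧ (un X).card ≤ X.card + 2) with hP
  have hP0 : {l} ∈ P := by
    rw [hP, mem_filter, mem_powerset]
    have : un ({l} : Finset (Finset V)) = l := by simp [un]
    refine ⟨singleton_subset_iff.2 hl, mem_singleton_self _, by rw [card_singleton]; omega, ?_⟩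
    rw [this, h.h3 l hl, card_singleton]
  obtain ⟨X, hX, hmax⟩ := exists_max_image P (fun X => X.card) ⟨_, hP0⟩
  rw [hP, mem_filter, mem_powerset] at hX
  obtain ⟨hXH, hlX, hXe, hXd⟩ := hX
  have hsub : H.filter (fun m => ({l, m} : Finset (Finset V)) ∈ angles H ∧
      ¬ Nd H ({l, m} : Finset (Finset V))) ⊆ X.erase l := by
    intro m hm
    rw [mem_filter] at hm
    obtain ⟨hmH, hang, hnd⟩ := hm
    obtain ⟨-, -, hlm, w, hwl, hwm⟩ := h.pair_mem_angles.1 hang
    rw [mem_erase]
    refine ⟨hlm.symm, ?_⟩
    by_contra hmX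
    -- the first drop
    have hD : ∃ D, ({l, m} : Finset (Finset V)) ⊆ D ∧ D ⊆ cl H {l, m} ∧
        (un D).card = D.card + 2 ∧ ∀ I ⊆ D, I.Nonempty → I.card + 2 ≤ (un I).card := by
      rcases UG.dichotomy h hang with h1 | ⟨D, n, hD, hn, hnD, hnu⟩
      · exfalso
        apply hnd
        unfold Nd
        rw [h1.card h hang]
      · have h2 := hD.drop h hang hn hnD hnu
        have haH := (mem_angles.1 hang).1
        refine ⟨insert n D, (hD.sub haH).1.trans (subset_insert _ _), ?_, h2.1, h2.2⟩
        refine insert_subset (cl_closed _ hn ?_) (hD.le_cl haH)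
        rw [inter_eq_left.2 (hnu.trans (un_mono (hD.le_cl haH))), h.h3 n hn]
        norm_num
    obtain ⟨D, haD, hDcl, hDc, hDs⟩ := hD
    have hlD : l ∈ D := haD (by simp)
    have hmD : m ∈ D := haD (by simp)
    -- add `m` to `X`
    have hmXH : insert m X ⊆ H := insert_subset hmH hXH
    have hc1 : (insert m X).card = X.card + 1 := card_insert_of_notMem hmX
    have hu1 : (un (insert m X)).card ≤ (insert m X).card + 3 := by
      have h1 := h.un_insert_card (Y := X) hmH
      have h2 : 1 ≤ (m ∩ un X).card :=
        card_pos.2 ⟨w, mem_inter.2 ⟨hwm, subset_un hlX hwl⟩⟩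
      omega
    have hg1 : Good e (insert m X) := by
      refine ⟨?_, hu1⟩
      by_contra hcon
      have := hf (insert m X) hmXH (by omega)
      omega
    have hg2 := h.cl_good hf hmXH hg1
    -- the union with `D`
    have hDsub : D ⊆ cl H (insert m X) := by
      refine hDcl.trans (cl_mono hmXH ?_)
      intro A hA
      rw [mem_insert, mem_singleton] at hA
      rcases hA with rfl | rfl
      · exact mem_insert_of_mem hlX
      · exact mem_insert_self _ _
    have hXsub : X ⊆ cl H (insert m X) := (subset_insert _ _).trans (subset_cl hmXH)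
    have hXD : X ∪ D ⊆ cl H (insert m X) := union_subset hXsub hDsub
    have hc2 := card_le_card hXD
    have hc3 := card_union_add_card_inter X D
    have hu3 := card_union_add_card_inter (un X) (un D)
    rw [← un_union] at hu3
    have hI := hDs (X ∩ D) inter_subset_right ⟨l, mem_inter.2 ⟨hlX, hlD⟩⟩
    have hI2 : un (X ∩ D) ⊆ un X ∩ un D :=
      subset_inter (un_mono inter_subset_left) (un_mono inter_subset_right)
    have hI3 := card_le_card hI2
    have hfin := hmax (X ∪ D) (by
      rw [hP, mem_filter, mem_powerset]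
      refine ⟨hXD.trans cl_subset, mem_union_left _ hlX, ?_, ?_⟩
      · have := hg2.1
        omega
      · omega)
    have hlt : X.card < (X ∪ D).card :=
      card_lt_card ⟨subset_union_left, fun hh => hmX (hh (mem_union_right _ hmD))⟩
    omega
  have := card_le_card hsub
  rw [card_erase_of_mem hlX] at this
  omega

end Pool.Agent.Helper74K9.BES
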