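import Mathlib

/-!
# A connected finite graph has at least as many edges as vertices, minus one
-/

set_option autoImplicit false

namespace Pool.Agent.Helper74K9.BES

theorem conn_count {W I : Type*} [Fintype W] [Fintype I] (a b : I → W)
    (hc : ∀ x y : W, Relation.EqvGen (fun x y => ∃ i, a i = x ∧ b i = y) x y) :
    Fintype.card W ≤ Fintype.card I + 1 := by
  classical
  rcases isEmpty_or_nonempty W with hW | hW
  · rw [Fintype.card_eq_zero]; exact Nat.zero_le _
  obtain ⟨G, hG⟩ : ∃ G : SimpleGraph W,
      G = SimpleGraph.fromEdgeSet (Set.range (fun i => s(a i, b i))) := ⟨_, rfl⟩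
  have hreach : ∀ x y, Relation.EqvGen (fun x y => ∃ i, a i = x ∧ b i = y) x y →
      G.Reachable x y := by
    intro x y h
    induction h with
    | rel x y h =>
      obtain ⟨i, rfl, rfl⟩ := h
      by_cases hab : a i = b i
      · rw [hab]
      · refine SimpleGraph.Adj.reachable ?_
        rw [hG, SimpleGraph.fromEdgeSet_adj]
        exact ⟨⟨i, rfl⟩, hab⟩
    | refl x => exact SimpleGraph.Reachable.refl x
    | symm x y _ ih => exact ih.symm
    | trans x y z _ _ ih1 ih2 => exact ih1.trans ih2
  have hconn : G.Connected := ⟨fun x y => hreach x y (hc x y)⟩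
  have h1 := hconn.card_vert_le_card_edgeSet_add_one
  have h2 : Nat.card G.edgeSet ≤ Nat.card (Set.range (fun i => s(a i, b i))) := by
    apply Nat.card_mono (Set.toFinite _)
    rw [hG, SimpleGraph.edgeSet_fromEdgeSet]
    exact Set.sdiff_subset
  have h3 : Nat.card (Set.range (fun i => s(a i, b i))) ≤ Nat.card I :=
    Nat.card_le_card_of_surjective (Set.rangeFactorization _) Set.rangeFactorization_surjective
  rw [Nat.card_eq_fintype_card (α := W)] at h1
  rw [Nat.card_eq_fintype_card (α := I)] at h3
  omega

end Pool.Agent.Helper74K9.BES
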