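import Pool.Agent.W848.Growth

/-!
# Angles, triangles and faces of linear triple systems: definitions
-/

set_option autoImplicit false

namespace Pool.Agent.Helper74K9.BES

open Finset Pool.Agent.W848.TreeAvg

variable {V : Type*} [DecidableEq V]

/-- linear triple systems -/
structure Lin (H : Finset (Finset V)) : Prop where
  h3 : ∀ A ∈ H, A.card = 3
  lin : ∀ A ∈ H, ∀ B ∈ H, A ≠ B → (A ∩ B).card ≤ 1

/-- no `e` lines have a union of at most `e + 3` points -/
def Free (e : ℕ) (H : Finset (Finset V)) : Prop :=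
  ∀ S ⊆ H, S.card = e → e + 3 < (un S).card

/-- the points on at least two lines -/
def multi (F : Finset (Finset V)) : Finset V :=
  (un F).filter (fun x => 2 ≤ (F.filter (fun A => x ∈ A)).card)

/-- every family of at most `e - 1` lines whose union has at most two points more than there
are lines has at most eight points on two or more of its lines -/
def Cond8 (e : ℕ) (H : Finset (Finset V)) : Prop :=
  ∀ F ⊆ H, F.card + 1 ≤ e → (un F).card ≤ F.card + 2 → (multi F).card ≤ 8

/-- angles: pairs of lines that meet -/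
def angles (H : Finset (Finset V)) : Finset (Finset (Finset V)) :=
  (H.powersetCard 2).filter (fun s => (un s).card = 5)

/-- triangles: triples of lines that pairwise meet and have no common point -/
def tris (H : Finset (Finset V)) : Finset (Finset (Finset V)) :=
  (H.powersetCard 3).filter (fun s => (un s).card = 6)

variable {H : Finset (Finset V)}

lemma Lin.mono (h : Lin H) {F : Finset (Finset V)} (hF : F ⊆ H) : Lin F :=
  ⟨fun A hA => h.h3 A (hF hA), fun A hA B hB => h.lin A (hF hA) B (hF hB)⟩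

lemma Lin.eq_of_two (h : Lin H) {A B : Finset V} (hA : A ∈ H) (hB : B ∈ H) {x y : V}
    (hxy : x ≠ y) (h1 : x ∈ A) (h2 : y ∈ A) (h3 : x ∈ B) (h4 : y ∈ B) : A = B := by
  by_contra hne
  have := h.lin A hA B hB hne
  exact absurd this (not_le.2 (one_lt_card.2 ⟨x, mem_inter.2 ⟨h1, h3⟩, y, mem_inter.2 ⟨h2, h4⟩, hxy⟩))

lemma un_pair (A B : Finset V) : un ({A, B} : Finset (Finset V)) = A ∪ B := by
  simp [un]

lemma mem_angles {s : Finset (Finset V)} :
    s ∈ angles H ↔ s ⊆ H ∧ s.card = 2 ∧ (un s).card = 5 := by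
  rw [angles, mem_filter, mem_powersetCard, and_assoc]

lemma mem_tris {s : Finset (Finset V)} :
    s ∈ tris H ↔ s ⊆ H ∧ s.card = 3 ∧ (un s).card = 6 := by
  rw [tris, mem_filter, mem_powersetCard, and_assoc]

/-- a pair of lines is an angle iff they are distinct and have a common point -/
lemma Lin.pair_mem_angles (h : Lin H) {A B : Finset V} :
    ({A, B} : Finset (Finset V)) ∈ angles H ↔ A ∈ H ∧ B ∈ H ∧ A ≠ B ∧ ∃ x, x ∈ A ∧ x ∈ B := by
  rw [mem_angles, un_pair]
  constructor
  · rintro ⟨h1, h2, h3⟩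
    have hA : A ∈ H := h1 (by simp)
    have hB : B ∈ H := h1 (by simp)
    have hAB : A ≠ B := by
      rintro rfl
      simp at h2
    refine ⟨hA, hB, hAB, ?_⟩
    have h4 := card_union_add_card_inter A B
    rw [h.h3 A hA, h.h3 B hB, h3] at h4
    obtain ⟨x, hx⟩ := card_pos.1 (show 0 < (A ∩ B).card by omega)
    exact ⟨x, (mem_inter.1 hx).1, (mem_inter.1 hx).2⟩
  · rintro ⟨hA, hB, hAB, x, hx1, hx2⟩
    refine ⟨?_, card_pair hAB, ?_⟩
    · intro C hC
      rw [mem_insert, mem_singleton] at hC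
      rcases hC with rfl | rfl <;> assumption
    · have h4 := card_union_add_card_inter A B
      have h5 := h.lin A hA B hB hAB
      have h6 : 0 < (A ∩ B).card := card_pos.2 ⟨x, mem_inter.2 ⟨hx1, hx2⟩⟩
      rw [h.h3 A hA, h.h3 B hB] at h4
      omega

/-- every angle consists of two lines `{w, x₁, x₂}`, `{w, y₁, y₂}` -/
lemma Lin.angle_pts (h : Lin H) {s : Finset (Finset V)} (hs : s ∈ angles H) :
    ∃ w x₁ x₂ y₁ y₂ : V, w ≠ x₁ ∧ w ≠ x₂ ∧ x₁ ≠ x₂ ∧ w ≠ y₁ ∧ w ≠ y₂ ∧ y₁ ≠ y₂ ∧
      x₁ ≠ y₁ ∧ x₁ ≠ y₂ ∧ x₂ ≠ y₁ ∧ x₂ ≠ y₂ ∧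
      s = {({w, x₁, x₂} : Finset V), {w, y₁, y₂}} := by
  obtain ⟨hsH, hs2, hs5⟩ := mem_angles.1 hs
  obtain ⟨A, B, hAB, rfl⟩ := card_eq_two.1 hs2
  obtain ⟨hA, hB, -, w, hwA, hwB⟩ := h.pair_mem_angles.1 hs
  have hA2 : (A.erase w).card = 2 := by rw [card_erase_of_mem hwA, h.h3 A hA]
  have hB2 : (B.erase w).card = 2 := by rw [card_erase_of_mem hwB, h.h3 B hB]
  obtain ⟨x₁, x₂, hx, hx'⟩ := card_eq_two.1 hA2
  obtain ⟨y₁, y₂, hy, hy'⟩ := card_eq_two.1 hB2
  have hAe : A = {w, x₁, x₂} := by rw [← insert_erase hwA, hx']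
  have hBe : B = {w, y₁, y₂} := by rw [← insert_erase hwB, hy']
  have hx1 : x₁ ∈ A.erase w := by rw [hx']; simp
  have hx2 : x₂ ∈ A.erase w := by rw [hx']; simp
  have hy1 : y₁ ∈ B.erase w := by rw [hy']; simp
  have hy2 : y₂ ∈ B.erase w := by rw [hy']; simp
  rw [mem_erase] at hx1 hx2 hy1 hy2
  refine ⟨w, x₁, x₂, y₁, y₂, hx1.1.symm, hx2.1.symm, hx, hy1.1.symm, hy2.1.symm, hy, ?_, ?_, ?_, ?_,
    by rw [← hAe, ← hBe]⟩
  · rintro rfl; exact hAB (h.eq_of_two hA hB hx1.1.symm hwA hx1.2 hwB hy1.2)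
  · rintro rfl; exact hAB (h.eq_of_two hA hB hx1.1.symm hwA hx1.2 hwB hy2.2)
  · rintro rfl; exact hAB (h.eq_of_two hA hB hx2.1.symm hwA hx2.2 hwB hy1.2)
  · rintro rfl; exact hAB (h.eq_of_two hA hB hx2.1.symm hwA hx2.2 hwB hy2.2)

/-- families whose lines can be ordered so that each line has a point on none of the previous
ones -/
inductive Grown : Finset (Finset V) → Prop
  | empty : Grown ∅
  | step {F : Finset (Finset V)} {n : Finset V} :
      Grown F → (n \ un F).Nonempty → Grown (insert n F)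

/-- the point `x` sees the line `l`: it is not on `l` and joined to all points of `l` -/
def Sees (F : Finset (Finset V)) (x : V) (l : Finset V) : Prop :=
  x ∉ l ∧ ∀ y ∈ l, ∃ m ∈ F, x ∈ m ∧ y ∈ m

instance (F : Finset (Finset V)) (x : V) (l : Finset V) : Decidable (Sees F x l) := by
  unfold Sees; infer_instance

/-- faces: a point and a line that it sees -/
def faces (F : Finset (Finset V)) : Finset (V × Finset V) :=
  (un F ×ˢ F).filter (fun p => Sees F p.1 p.2)

/-- the triangles containing an angle of `S` -/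
def trisOf (F : Finset (Finset V)) (S : Finset (Finset (Finset V))) :
    Finset (Finset (Finset V)) :=
  (tris F).filter (fun τ => ∃ s ∈ S, s ⊆ τ)

/-- the faces `(x, l)` with an angle `{l, m}` in `S`, `x` on `m` -/
def facesOf (F : Finset (Finset V)) (S : Finset (Finset (Finset V))) : Finset (V × Finset V) :=
  (faces F).filter (fun p => ∃ s ∈ S, p.2 ∈ s ∧ p.1 ∈ un s)

/-- if `S` contains an angle of a triangle it contains all its angles -/
def TriClosed (F : Finset (Finset V)) (S : Finset (Finset (Finset V))) : Prop :=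
  ∀ τ ∈ tris F, ∀ s ∈ S, s ⊆ τ → ∀ s' ∈ angles F, s' ⊆ τ → s' ∈ S

/-- two angles of a triangle -/
def TA (F : Finset (Finset V)) (a b : Finset (Finset V)) : Prop :=
  a ∈ angles F ∧ b ∈ angles F ∧ ∃ τ ∈ tris F, a ⊆ τ ∧ b ⊆ τ

/-- any two angles of `S` are linked by a chain of triangles -/
def TriConn (F : Finset (Finset V)) (S : Finset (Finset (Finset V))) : Prop :=
  ∀ a ∈ S, ∀ b ∈ S, Relation.ReflTransGen (TA F) a b

/-- For a triangle `τ` (with vertices `multi τ`), the number of pairs `s` of its lines such that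
the two points of `un s` that are not vertices of `τ` are joined by a line of `F` -/
def dl (F : Finset (Finset V)) (τ : Finset (Finset V)) : ℕ :=
  ((τ.powersetCard 2).filter (fun s => ∃ n ∈ F, un s \ multi τ ⊆ n)).card

/-- the number of triangles containing the angle `s` -/
def tn (F : Finset (Finset V)) (s : Finset (Finset V)) : ℕ :=
  ((tris F).filter (fun τ => s ⊆ τ)).card

end Pool.Agent.Helper74K9.BES
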