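import Pool.Agent.Helper74K9.BES.Hit

/-!
# Components with a degenerate walk are few
-/

set_option autoImplicit false

namespace Pool.Agent.Helper74K9.BES

open Finset Pool.Agent.W848 Pool.Agent.W848.TreeAvg

variable {V : Type*} [DecidableEq V]

variable {e : ℕ} {H X Y J D : Finset (Finset V)} {τ a b s : Finset (Finset V)}
  {x y : Finset (Finset (Finset V))} {l : Finset V}

/-- a line that joins two outer points of a triangle forms an angle of its class -/
lemma join_tri (h : Lin H) (hτ : τ ∈ tris H) {A B : Finset V} (hA : A ∈ τ) (hB : B ∈ τ)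
    (hAB : A ≠ B) (hl : l ∈ H) {p q : V} (hpA : p ∈ A) (hpm : p ∉ multi τ) (hpl : p ∈ l)
    (hqB : q ∈ B) (hqm : q ∉ multi τ) (hql : q ∈ l) :
    ({A, B, l} : Finset (Finset V)) ∈ tris H ∧ A ≠ l := by
  have hτH := (mem_tris.1 hτ).1
  obtain ⟨-, -, -, w, hwA, hwB⟩ := h.pair_mem_angles.1 (h.tri_pair hτ (s := {A, B})
    (by intro D hD; simp only [mem_insert, mem_singleton] at hD
        rcases hD with rfl | rfl <;> assumption) (card_pair hAB))
  have hwm : w ∈ multi τ := mem_multi'.2 ⟨A, hA, B, hB, hAB, hwA, hwB⟩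
  have hpB : p ∉ B := fun hh => hpm (mem_multi'.2 ⟨A, hA, B, hB, hAB, hpA, hh⟩)
  have hqA : q ∉ A := fun hh => hqm (mem_multi'.2 ⟨A, hA, B, hB, hAB, hh, hqB⟩)
  have hAl : A ≠ l := by rintro rfl; exact hqA hql
  have hBl : B ≠ l := by rintro rfl; exact hpB hpl
  have hwp : w ≠ p := by rintro rfl; exact hpm hwm
  have hwl : w ∉ l := fun hh => hAl (h.eq_of_two (hτH hA) hl hwp hwA hpA hh hpl)
  exact ⟨h.tri_mem (hτH hA) (hτH hB) hl hAB hAl hBl hwA hwB hwl hqB hql hpA hpl, hAl⟩

/-- one of the two lines of a closing angle forms an angle of the parent class -/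
lemma Link.line (h : Lin H) (lk : Link H x y τ) :
    ∃ a ∈ x, ∃ l ∈ a, ∃ A, A ≠ l ∧ ({A, l} : Finset (Finset V)) ∈ y := by
  obtain ⟨a, ha, hao⟩ := lk.chi
  obtain ⟨g1, g2, g3, g4⟩ := node_mem h lk.hx ha
  obtain ⟨haH, ha2, ha5⟩ := mem_angles.1 g1
  obtain ⟨hτH, h3, h6⟩ := mem_tris.1 lk.tri
  have hO : (un τ \ multi τ).card = 3 := by
    have := card_sdiff_add_card_eq_card (multi_sub_un (F := τ))
    rw [h.tri_multi_card lk.tri, h6] at this
    omega
  obtain ⟨n₁, n₂, hn12, rfl⟩ := card_eq_two.1 ha2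
  -- one of the lines has two outer points
  have hex : ∃ l ∈ ({n₁, n₂} : Finset (Finset V)), 2 ≤ (l ∩ (un τ \ multi τ)).card := by
    by_contra hcon
    push Not at hcon
    have k1 := hcon n₁ (by simp)
    have k2 := hcon n₂ (by simp)
    have k3 : un τ \ multi τ ⊆ (n₁ ∩ (un τ \ multi τ)) ∪ (n₂ ∩ (un τ \ multi τ)) := by
      intro p hp
      have := hao hp
      rw [un_pair, mem_union] at this
      rw [mem_union, mem_inter, mem_inter]
      tauto
    have k4 := (card_le_card k3).trans (card_union_le _ _)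
    omega
  obtain ⟨l, hl, hl2⟩ := hex
  refine ⟨_, ha, l, hl, ?_⟩
  have hlH := haH hl
  obtain ⟨p, hp, q, hq, hpq⟩ := one_lt_card.1 (show 1 < (l ∩ (un τ \ multi τ)).card by omega)
  rw [mem_inter, mem_sdiff] at hp hq
  obtain ⟨A, hA, hpA⟩ := mem_un.1 hp.2.1
  obtain ⟨B, hB, hqB⟩ := mem_un.1 hq.2.1
  have hAB : A ≠ B := by
    rintro rfl
    -- `A` would have four points
    have k1 := h.tri_inner_one lk.tri hA
    have k2 : ({p, q} : Finset V) ∪ (A ∩ multi τ) ⊆ A := by
      refine union_subset ?_ inter_subset_left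
      intro r hr
      simp only [mem_insert, mem_singleton] at hr
      rcases hr with rfl | rfl <;> assumption
    have k3 : Disjoint ({p, q} : Finset V) (A ∩ multi τ) := by
      rw [disjoint_left]
      intro r hr hr'
      rw [mem_inter] at hr'
      simp only [mem_insert, mem_singleton] at hr
      rcases hr with rfl | rfl
      · exact hp.2.2 hr'.2
      · exact hq.2.2 hr'.2
    have k4 := card_le_card k2
    rw [card_union_of_disjoint k3, card_pair hpq, h.h3 A (hτH hA)] at k4
    omega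
  obtain ⟨ht, hAl⟩ := join_tri h lk.tri hA hB hAB hlH hpA hp.2.2 hp.1 hqB hq.2.2 hq.1
  refine ⟨A, hAl, ?_⟩
  -- `{A, B}` is an angle of the class of `τ`
  obtain ⟨a₀, ha₀, ha₀τ⟩ := lk.par
  have hABτ : ({A, B} : Finset (Finset V)) ⊆ τ := by
    intro D hD
    simp only [mem_insert, mem_singleton] at hD
    rcases hD with rfl | rfl <;> assumption
  have m1 : ({A, B} : Finset (Finset V)) ∈ y := node_tri h lk.hy lk.tri ha₀ ha₀τ
    (h.tri_pair lk.tri hABτ (card_pair hAB)) hABτ
  exact node_tri h lk.hy ht m1 (by intro D hD; simp only [mem_insert, mem_singleton] at hD ⊢; tauto)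
    (h.tri_pair ht (by intro D hD; simp only [mem_insert, mem_singleton] at hD ⊢; tauto)
      (card_pair hAl)) (by intro D hD; simp only [mem_insert, mem_singleton] at hD ⊢; tauto)

variable {bot top : Finset (Finset V) → Finset (Finset (Finset V))}

/-- the closure of a walk to the child of `τ`, together with `τ` -/
def Jr (H : Finset (Finset V)) (τ : Finset (Finset V)) {x y : Nd' H}
    (r : (LG H bot top).Walk x y) : Finset (Finset V) := cl H (UW H r ∪ τ)

lemma Jr_nil (h : Lin H) {v : Nd' H} (lk : Link H (v.1) y τ) :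
    Jr H τ (SimpleGraph.Walk.nil : (LG H bot top).Walk v v) = clo H y := by
  unfold Jr
  rw [UW_nil]
  have hτH := (mem_tris.1 lk.tri).1
  refine Subset.antisymm (cl_min clo_subset (union_subset lk.sub (lk.tri_sub h)) clo_closed) ?_
  exact lk.clo_sub h cl_closed cl_subset
    (subset_union_right.trans (subset_cl (union_subset clo_subset hτH)))

/-- a step of the chain -/
lemma Jr_cons (h : Lin H) (hl : ∀ τ ∈ EE H, Link H (bot τ) (top τ) τ) (hτH : τ ⊆ H)
    {x x' v : Nd' H} (hadj : (LG H bot top).Adj x x') (r : (LG H bot top).Walk x' v) :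
    Jr H τ (SimpleGraph.Walk.cons hadj r) = Jr H τ r ∨
      ∃ σ ∈ EE H, x'.1 = bot σ ∧ x.1 = top σ ∧ ¬ σ ⊆ Jr H τ r ∧
        Jr H τ (SimpleGraph.Walk.cons hadj r) = cl H (Jr H τ r ∪ σ) := by
  unfold Jr
  rcases step_cases h hl hadj r with h1 | ⟨σ, hσ, hx', hx, hns, h1⟩
  · left; rw [h1]
  · have hσH := (mem_tris.1 (hl σ hσ).tri).1
    have hU := UW_sub r
    have e1 : cl H (cl H (UW H r ∪ σ) ∪ τ) = cl H (cl H (UW H r ∪ τ) ∪ σ) := by
      apply Subset.antisymm
      · refine cl_cl_subset (union_subset (cl_cl_subset (union_subset ?_ ?_)) ?_)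
        · exact (subset_union_left.trans (subset_cl (union_subset hU hτH))).trans
            (subset_union_left.trans (subset_cl (union_subset cl_subset hσH)))
        · exact subset_union_right.trans (subset_cl (union_subset cl_subset hσH))
        · exact (subset_union_right.trans (subset_cl (union_subset hU hτH))).trans
            (subset_union_left.trans (subset_cl (union_subset cl_subset hσH)))
      · refine cl_cl_subset (union_subset (cl_cl_subset (union_subset ?_ ?_)) ?_)
        · exact (subset_union_left.trans (subset_cl (union_subset hU hσH))).trans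
            (subset_union_left.trans (subset_cl (union_subset cl_subset hτH)))
        · exact subset_union_right.trans (subset_cl (union_subset cl_subset hτH))
        · exact (subset_union_right.trans (subset_cl (union_subset hU hσH))).trans
            (subset_union_left.trans (subset_cl (union_subset cl_subset hτH)))
    by_cases hs : σ ⊆ cl H (UW H r ∪ τ)
    · left
      rw [h1, e1, union_eq_left.2 hs]
      exact Subset.antisymm (cl_min cl_subset (Subset.refl _) cl_closed) (subset_cl cl_subset)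
    · right
      exact ⟨σ, hσ, hx', hx, hs, by rw [h1, e1]⟩

/-- the common part of the two lemmas below: a medial step over `Jr r` -/
lemma medial_step (he : 3 ≤ e) (h : Lin H) (hf : Free e H)
    (hl : ∀ τ ∈ EE H, Link H (bot τ) (top τ) τ) (hτ : τ ∈ EE H) {x v : Nd' H}
    (r : (LG H bot top).Walk x v) (hv : v.1 = bot τ) (hav : ¬ τ ⊆ UW H r)
    (ha : a ∈ bot τ) (hla : l ∈ a) (hX : D2 e H l X) (hs : Sparse (Jr H τ r))
    (hg : (un (Jr H τ r)).card ≤ (Jr H τ r).card + 3) (hh : (X ∪ Jr H τ r).card + 1 ≤ e)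
    {σ : Finset (Finset V)} (hσ : σ ∈ EE H) (hxσ : x.1 = bot σ) (hns : ¬ σ ⊆ Jr H τ r) :
    Sparse (Jr H τ r ∪ σ) ∧ (X ∪ (Jr H τ r ∪ σ)).card + 1 ≤ e ∧
      (un (Jr H τ r ∪ σ)).card ≤ (Jr H τ r ∪ σ).card + 3 := by
  have lk := hl τ hτ
  have lσ := hl σ hσ
  have hτH := (mem_tris.1 lk.tri).1
  have hσH := (mem_tris.1 lσ.tri).1
  have hJH : Jr H τ r ⊆ H := cl_subset
  have hJc : Closed H (Jr H τ r) := cl_closed
  have hUJ : UW H r ⊆ Jr H τ r := subset_union_left.trans (subset_cl (union_subset (UW_sub r) hτH))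
  have hxU : clo H (bot σ) ⊆ UW H r := by
    rw [← hxσ]; exact clo_sub_UW r (SimpleGraph.Walk.start_mem_support r)
  have hvU : clo H (bot τ) ⊆ UW H r := by
    rw [← hv]; exact clo_sub_UW r (SimpleGraph.Walk.end_mem_support r)
  have ho := lσ.outer h (hxU.trans hUJ)
  obtain ⟨m1, m2⟩ := hJc.medial h lσ.tri ho hns
  obtain ⟨a1, a2⟩ := h.add_medial hJc lσ.tri ho hns
  have hsp := hs.medial h hJH lσ.tri m2 (lσ.no_outer h)
  have hw := walks_WF he h hf hl _ _ _ r rfl
  rw [hv] at hw
  obtain ⟨-, hfill⟩ := up_step' he h hf lk (UW_sub r) (UW_closed r) hvU hav hw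
  have haU : a ⊆ UW H r := by
    obtain ⟨g1, g2, g3, g4⟩ := node_mem h lk.hx ha
    rw [g4] at hvU
    exact (subset_cl (mem_angles.1 g1).1).trans hvU
  have hlJ : l ∈ Jr H τ r := hUJ (haU hla)
  refine ⟨hsp, ?_, by omega⟩
  refine hit_medial h hf hX hlJ hJH hs hg hh lσ.tri ho m1 (hsp.sub2 h (union_subset hJH hσH)) ?_
  intro j hj
  obtain ⟨Z, z1, z2, z3, z4⟩ := hfill j hj
  have hUZ : UW H r ⊆ Z := subset_union_left.trans z2
  exact ⟨Z, z1, hUZ (haU hla), lσ.outer h (hxU.trans hUZ), z3, z4⟩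

/-- **the chain** -/
lemma chain (he : 3 ≤ e) (h : Lin H) (hf : Free e H)
    (hl : ∀ τ ∈ EE H, Link H (bot τ) (top τ) τ) (hτ : τ ∈ EE H) {v₀ v : Nd' H}
    (hv₀ : v₀.1 = top τ) (hv : v.1 = bot τ) (ha : a ∈ bot τ) (hla : l ∈ a) {A : Finset V}
    (hAl : ({A, l} : Finset (Finset V)) ∈ top τ) (hX : D2 e H l X) (m : ℕ)
    (hA : ∀ z : Nd' H, ∀ q : (LG H bot top).Walk z v, q.length ≤ m → ND (UW H q))
    (hJ : ∀ z : Nd' H, ∀ q : (LG H bot top).Walk z v, v₀ ∉ q.support → q.length ≤ m →
      ND (Jr H τ q))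
    {x : Nd' H} (r : (LG H bot top).Walk x v) (hr : v₀ ∉ r.support) (hrm : r.length ≤ m) :
    Sparse (Jr H τ r) ∧ (X ∪ Jr H τ r).card + 1 ≤ e ∧
      (un (Jr H τ r)).card ≤ (Jr H τ r).card + 3 := by
  have lk := hl τ hτ
  induction r with
  | nil =>
    rename_i v
    rw [Jr_nil h (by rw [hv]; exact lk)]
    obtain ⟨g1, g2, g3, g4⟩ := node_mem h lk.hy hAl
    rw [g4]
    have hUG := g2.ug h g1
    have hsp := hUG.sparse h g1
    obtain ⟨hsub, hc2, hun⟩ := mem_angles.1 g1
    have hlH : l ∈ H := hsub (by simp)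
    refine ⟨hsp, ?_, by rw [hUG.card h g1]⟩
    have hUl : ({A, l} : Finset (Finset V)) ⊆ cl H {A, l} := subset_cl hsub
    have hsub2 := Sparse.sub2 h hsp cl_subset
    have k0 : (X ∪ ({l} : Finset (Finset V))).card + 1 ≤ e := by
      rw [union_eq_left.2 (singleton_subset_iff.2 hX.mem)]
      exact hX.card
    have k1 : (X ∪ ({A, l} : Finset (Finset V))).card + 1 ≤ e :=
      hit_single hf hX (J := {l}) (mem_singleton_self l) hsub (hsub2.mono hUl) (by
        have e1 : insert A ({l} : Finset (Finset V)) = {A, l} := rfl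
        rw [e1, hc2, hun]) k0
    exact hit_UG h hf hX (J := {A, l}) (by simp) hsub (by rw [hc2, hun]) k1 hUG hsub2
  | @cons x x' v hadj q ih =>
    rw [SimpleGraph.Walk.support_cons, List.mem_cons, not_or] at hr
    rw [SimpleGraph.Walk.length_cons] at hrm
    obtain ⟨i1, i2, i3⟩ := ih hv hA hJ hr.2 (by omega)
    have hτH := (mem_tris.1 lk.tri).1
    have hnd := hJ _ (SimpleGraph.Walk.cons hadj q) (by
      rw [SimpleGraph.Walk.support_cons, List.mem_cons, not_or]; exact hr)
      (by rw [SimpleGraph.Walk.length_cons]; omega)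
    have hav : ¬ τ ⊆ UW H q := by
      refine walk_avoid' he h hf hl hτ q hv (fun z q' hq' => hA z q' (by omega)) ?_
      rintro z z' hz ⟨hz1, -⟩
      have : z = v₀ := Subtype.ext (hz1.trans hv₀.symm)
      subst this
      exact hr.2 (SimpleGraph.Walk.fst_mem_support_of_mem_edges q hz)
    rcases Jr_cons h hl hτH hadj q with h1 | ⟨σ, hσ, hx', hx, hns, h1⟩
    · rw [h1]; exact ⟨i1, i2, i3⟩
    · obtain ⟨k1, k2, k3⟩ := medial_step he h hf hl hτ q hv hav ha hla hX i1 i3 i2 hσ hx' hns
      have hσH := (mem_tris.1 (hl σ hσ).tri).1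
      have hJσ : Jr H τ q ∪ σ ⊆ H := union_subset cl_subset hσH
      rw [h1] at hnd ⊢
      have hlJ : l ∈ Jr H τ q ∪ σ := by
        refine mem_union_left _ (subset_cl (union_subset (UW_sub q) hτH) (mem_union_left _ ?_))
        refine clo_sub_UW q (SimpleGraph.Walk.end_mem_support q) ?_
        rw [hv]
        obtain ⟨g1, g2, g3, g4⟩ := node_mem h lk.hx ha
        rw [g4]
        exact subset_cl (mem_angles.1 g1).1 hla
      rcases UG.dichotomy' h hJσ with hUG | ⟨D, n, hD, hn, hnD, hnu⟩
      · have hs := hUG.sparse' h hJσ k1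
        have hc := hUG.card' h
        exact ⟨hs, hit_UG h hf hX hlJ hJσ k3 k2 hUG (hs.sub2 h cl_subset), by omega⟩
      · exfalso
        have hDH := (hD.sub hJσ).2
        have hc := hD.card' h
        have c1 : (insert n D).card = D.card + 1 := card_insert_of_notMem hnD
        have c2 : un (insert n D) = un D := by rw [un_insert, union_eq_right.2 hnu]
        have hins : insert n D ⊆ H := insert_subset hn hDH
        have h3 := h.cl_def (X := insert n D) (k := 2) hins (by rw [c2]; omega)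
        have h4 : cl H (insert n D) = cl H (Jr H τ q ∪ σ) := by
          refine Subset.antisymm (cl_cl_subset (insert_subset (cl_closed _ hn ?_)
            (hD.le_cl hJσ))) (cl_mono hins ((hD.sub hJσ).1.trans (subset_insert _ _)))
          rw [inter_eq_left.2 (hnu.trans (un_mono (hD.le_cl hJσ))), h.h3 n hn]
          norm_num
        rw [h4] at h3
        unfold ND at hnd
        omega

/-- **the first degenerate family** -/
lemma first_drop (he : 3 ≤ e) (h : Lin H) (hf : Free e H)
    (hl : ∀ τ ∈ EE H, Link H (bot τ) (top τ) τ) (hτ : τ ∈ EE H) {v₀ v : Nd' H}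
    (hv₀ : v₀.1 = top τ) (hv : v.1 = bot τ) (ha : a ∈ bot τ) (hla : l ∈ a) {A : Finset V}
    (hAl : ({A, l} : Finset (Finset V)) ∈ top τ) (hX : D2 e H l X) (m : ℕ)
    (hA : ∀ z : Nd' H, ∀ q : (LG H bot top).Walk z v, q.length ≤ m → ND (UW H q))
    (hJ : ∀ z : Nd' H, ∀ q : (LG H bot top).Walk z v, v₀ ∉ q.support → q.length < m →
      ND (Jr H τ q))
    {x : Nd' H} (r : (LG H bot top).Walk x v) (hr : v₀ ∉ r.support) (hrm : r.length = m)
    (hnd : ¬ ND (Jr H τ r)) :
    ∃ D ⊆ H, l ∈ D ∧ clo H (bot τ) ⊆ D ∧ (X ∪ D).card + 1 ≤ e ∧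
      (un (X ∪ D)).card ≤ (X ∪ D).card + 2 := by
  have lk := hl τ hτ
  cases r with
  | nil =>
    exfalso
    apply hnd
    rw [Jr_nil h (by rw [hv]; exact lk)]
    exact (node_good he h hf lk.hy).2
  | @cons _ x' _ hadj q =>
    rw [SimpleGraph.Walk.support_cons, List.mem_cons, not_or] at hr
    rw [SimpleGraph.Walk.length_cons] at hrm
    have hτH := (mem_tris.1 lk.tri).1
    have hm : 1 ≤ m := by omega
    obtain ⟨i1, i2, i3⟩ := chain he h hf hl hτ hv₀ hv ha hla hAl hX (m - 1)
      (fun z q hq => hA z q (by omega)) (fun z q h1 h2 => hJ z q h1 (by omega)) q hr.2 (by omega)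
    have hndq := hJ _ q hr.2 (by omega)
    have hav : ¬ τ ⊆ UW H q := by
      refine walk_avoid' he h hf hl hτ q hv (fun z q' hq' => hA z q' (by omega)) ?_
      rintro z z' hz ⟨hz1, -⟩
      have : z = v₀ := Subtype.ext (hz1.trans hv₀.symm)
      subst this
      exact hr.2 (SimpleGraph.Walk.fst_mem_support_of_mem_edges q hz)
    rcases Jr_cons h hl hτH hadj q with h1 | ⟨σ, hσ, hx', hx, hns, h1⟩
    · rw [h1] at hnd
      exact absurd hndq hnd
    · obtain ⟨k1, k2, k3⟩ := medial_step he h hf hl hτ q hv hav ha hla hX i1 i3 i2 hσ hx' hns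
      have hσH := (mem_tris.1 (hl σ hσ).tri).1
      have hJσ : Jr H τ q ∪ σ ⊆ H := union_subset cl_subset hσH
      have hbJ : clo H (bot τ) ⊆ Jr H τ q ∪ σ := by
        refine Subset.trans ?_ subset_union_left
        refine Subset.trans ?_ (subset_cl (union_subset (UW_sub q) hτH))
        refine Subset.trans ?_ subset_union_left
        rw [← hv]
        exact clo_sub_UW q (SimpleGraph.Walk.end_mem_support q)
      have hlb : l ∈ clo H (bot τ) := by
        obtain ⟨g1, g2, g3, g4⟩ := node_mem h lk.hx ha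
        rw [g4]
        exact subset_cl (mem_angles.1 g1).1 hla
      have hlJ : l ∈ Jr H τ q ∪ σ := hbJ hlb
      rcases UG.dichotomy' h hJσ with hUG | ⟨D, n, hD, hn, hnD, hnu⟩
      · exfalso
        have hs := hUG.sparse' h hJσ k1
        apply hnd
        rw [h1]
        refine hs _ (Subset.refl _) ?_
        have h3 := (mem_tris.1 (hl σ hσ).tri).2.1
        have h4 := card_le_card (subset_union_right.trans (subset_cl hJσ) : σ ⊆ cl H (Jr H τ q ∪ σ))
        omega
      · have hDH := (hD.sub hJσ).2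
        have hc := hD.card' h
        have hsD := hD.sparse' h hJσ k1
        have hs2 := hsD.insert_sub2 h hDH hn
        have c1 : (insert n D).card = D.card + 1 := card_insert_of_notMem hnD
        have c2 : un (insert n D) = un D := by rw [un_insert, union_eq_right.2 hnu]
        have hins : insert n D ⊆ H := insert_subset hn hDH
        have hlD : l ∈ D := (hD.sub hJσ).1 hlJ
        have e1 := hit_UG h hf hX hlJ hJσ k3 k2 hD (hsD.sub2 h hDH)
        have e2 := hit_single hf hX hlD hins hs2 (by rw [c2]; omega) e1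
        have e3 := hX.union (J := insert n D) (k := 2) (mem_insert_of_mem hlD) hs2
          (by rw [c2]; omega)
        exact ⟨insert n D, hins, mem_insert_of_mem hlD,
          (hbJ.trans (hD.sub hJσ).1).trans (subset_insert _ _), e2, e3⟩

end Pool.Agent.Helper74K9.BES
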