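import Mathlib

namespace Pool.Agent.Helper74K9.BES

open SimpleGraph

/-- A finite forest: number of edges + number of connected components ≤ number of vertices. -/
theorem forest {W : Type*} [Fintype W] (G : SimpleGraph W) (hG : G.IsAcyclic) :
    Nat.card G.edgeSet + Nat.card G.ConnectedComponent ≤ Fintype.card W := by
  classical
  obtain ⟨n, hn⟩ : ∃ n, Nat.card G.edgeSet = n := ⟨_, rfl⟩
  induction n generalizing G with
  | zero =>
    rw [hn, Nat.zero_add, ← Nat.card_eq_fintype_card]
    exact Nat.card_le_card_of_surjective G.connectedComponentMk
      (fun c => c.ind (fun v => ⟨v, rfl⟩))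
  | succ n ih =>
    have hne : Nonempty G.edgeSet := by
      have : Nat.card G.edgeSet ≠ 0 := by omega
      exact (Nat.card_ne_zero.mp this).1
    obtain ⟨⟨e, he⟩⟩ := hne
    induction e using Sym2.ind with
    | _ u v =>
    have hadj : G.Adj u v := he
    set G' := G.deleteEdges {s(u, v)} with hG'
    have hle : G' ≤ G := G.deleteEdges_le _
    have hac' : G'.IsAcyclic := hG.anti hle
    have hbr : G.IsBridge s(u, v) := (isAcyclic_iff_forall_isBridge.mp hG) he
    have hnr : ¬ G'.Reachable u v := by
      have := isBridge_iff.mp hbr
      exact this
    have hcard : Nat.card G'.edgeSet + 1 = Nat.card G.edgeSet := by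
      have h1 : G'.edgeSet = G.edgeSet \ {s(u, v)} := G.edgeSet_deleteEdges _
      have h2 : insert s(u, v) G'.edgeSet = G.edgeSet := by
        rw [h1, Set.insert_sdiff_singleton, Set.insert_eq_of_mem he]
      have h3 : s(u, v) ∉ G'.edgeSet := by rw [h1]; simp
      have := Set.ncard_insert_of_notMem h3 (Set.toFinite _)
      rw [h2] at this
      rw [Nat.card_coe_set_eq, Nat.card_coe_set_eq]
      exact this.symm
    have hn' : Nat.card G'.edgeSet = n := by omega
    have h := ih G' hac' hn'
    have hcomp : Nat.card G.ConnectedComponent < Nat.card G'.ConnectedComponent := by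
      let f : G'.ConnectedComponent → G.ConnectedComponent :=
        ConnectedComponent.map (Hom.ofLE hle)
      have hsurj : Function.Surjective f := by
        intro c
        induction c using ConnectedComponent.ind with
        | _ w => exact ⟨G'.connectedComponentMk w, rfl⟩
      have hninj : ¬ Function.Injective f := by
        intro hinj
        have : f (G'.connectedComponentMk u) = f (G'.connectedComponentMk v) := by
          show G.connectedComponentMk u = G.connectedComponentMk v
          exact ConnectedComponent.sound hadj.reachable
        exact hnr (ConnectedComponent.exact (hinj this))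
      rw [Nat.card_eq_fintype_card, Nat.card_eq_fintype_card]
      exact Fintype.card_lt_of_surjective_not_injective f hsurj hninj
    omega

end Pool.Agent.Helper74K9.BES
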