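import Pool.Agent.Helper74K9.BES.Walks2

/-!
# Families of defect two
-/

set_option autoImplicit false

namespace Pool.Agent.Helper74K9.BES

open Finset Pool.Agent.W848 Pool.Agent.W848.TreeAvg

variable {V : Type*} [DecidableEq V]

variable {e : ℕ} {H X Y J D : Finset (Finset V)} {τ a b s : Finset (Finset V)}
  {x y : Finset (Finset (Finset V))}

/-- all subfamilies with at least two lines have defect at least three -/
def Sparse (D : Finset (Finset V)) : Prop := ∀ I ⊆ D, 2 ≤ I.card → I.card + 3 ≤ (un I).card

/-- all nonempty subfamilies have defect at least two -/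
def Sub2 (D : Finset (Finset V)) : Prop := ∀ I ⊆ D, I.Nonempty → I.card + 2 ≤ (un I).card

lemma Sub2.mono (hD : Sub2 D) (hJ : J ⊆ D) : Sub2 J := fun I hI hne => hD I (hI.trans hJ) hne

lemma Lin.un_singleton (h : Lin H) {A : Finset V} (hA : A ∈ H) :
    (un ({A} : Finset (Finset V))).card = 3 := by
  have : un ({A} : Finset (Finset V)) = A := by simp [un]
  rw [this, h.h3 A hA]

lemma Sparse.sub2 (h : Lin H) (hD : Sparse D) (hDH : D ⊆ H) : Sub2 D := by
  intro I hI hne
  rcases Nat.lt_or_ge I.card 2 with hlt | hge
  · have h1 := card_pos.2 hne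
    obtain ⟨A, hA⟩ := card_eq_one.1 (show I.card = 1 by omega)
    subst hA
    rw [h.un_singleton (hDH (hI (by simp)))]
    simp
  · have := hD I hI hge
    omega

lemma UG.sparse' (h : Lin H) (hJH : J ⊆ H) (hJ : Sparse J) (hD : UG H J D) : Sparse D := by
  induction hD with
  | base => exact hJ
  | step hD hn hnD h2 ih =>
    rename_i D n
    intro I hI hI2
    have hDH := (hD.sub hJH).2
    by_cases hnI : n ∈ I
    · obtain ⟨p, hpn, hpD⟩ := exists_new h hn h2
      have hI' : I.erase n ⊆ D := by
        intro A hA
        rw [mem_erase] at hA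
        exact (mem_insert.1 (hI hA.2)).resolve_left hA.1
      have hc : (I.erase n).card + 1 = I.card := card_erase_add_one hnI
      rcases Nat.lt_or_ge (I.erase n).card 2 with hlt | hge
      · have h5 := h.five (hI.trans (insert_subset hn hDH)) hI2
        omega
      · have h3 := ih (I.erase n) hI' hge
        have h4 : insert p (un (I.erase n)) ⊆ un I := by
          intro x hx
          rw [mem_insert] at hx
          rcases hx with rfl | hx
          · exact subset_un hnI hpn
          · exact un_mono (erase_subset _ _) hx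
        have h5 := card_le_card h4
        rw [card_insert_of_notMem (fun hh => hpD (un_mono hI' hh))] at h5
        omega
    · exact ih I (fun A hA => (mem_insert.1 (hI hA)).resolve_left
        (fun hh => hnI (hh ▸ hA))) hI2

lemma UG.card' (h : Lin H) (hD : UG H J D) : (un D).card + J.card = (un J).card + D.card := by
  induction hD with
  | base => omega
  | step hD hn hnD h2 ih =>
    rename_i D n
    have := h.un_insert_card (Y := D) hn
    rw [card_insert_of_notMem hnD]
    omega

lemma UG.dichotomy' (h : Lin H) (hJH : J ⊆ H) :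
    UG H J (cl H J) ∨ ∃ D n, UG H J D ∧ n ∈ H ∧ n ∉ D ∧ n ⊆ un D := by
  classical
  obtain ⟨D, hD, hmax⟩ := exists_max_image
    ((cl H J).powerset.filter (fun D => UG H J D)) (fun D => D.card)
    ⟨J, mem_filter.2 ⟨mem_powerset.2 (subset_cl hJH), UG.base⟩⟩
  rw [mem_filter, mem_powerset] at hD
  by_cases hc : Closed H D
  · left
    have := cl_min (hD.1.trans cl_subset) (hD.2.sub hJH).1 hc
    rw [Subset.antisymm this hD.1]
    exact hD.2
  · right
    unfold Closed at hc
    push Not at hc
    obtain ⟨n, hn, h2, hnD⟩ := hc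
    refine ⟨D, n, hD.2, hn, hnD, ?_⟩
    have hle : (n ∩ un D).card ≤ 3 := by
      rw [← h.h3 n hn]; exact card_le_card inter_subset_left
    rcases Nat.lt_or_ge (n ∩ un D).card 3 with hlt | hge
    · have hUG := hD.2.step hn hnD (by omega)
      have := hmax (insert n D) (mem_filter.2 ⟨mem_powerset.2 (hUG.le_cl hJH), hUG⟩)
      rw [card_insert_of_notMem hnD] at this
      omega
    · have := eq_of_subset_of_card_le (inter_subset_left : n ∩ un D ⊆ n)
        (by rw [h.h3 n hn]; exact hge)
      exact inter_eq_left.1 this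

/-- a dependent line added to a sparse family -/
lemma Sparse.insert_sub2 (h : Lin H) (hD : Sparse D) (hDH : D ⊆ H) {n : Finset V} (hn : n ∈ H) :
    Sub2 (insert n D) := by
  intro I hI hne
  have hIH : I ⊆ H := hI.trans (insert_subset hn hDH)
  rcases Nat.lt_or_ge I.card 3 with hlt | hge
  · have h1 := card_pos.2 hne
    rcases Nat.lt_or_ge I.card 2 with hlt' | hge'
    · obtain ⟨A, hA⟩ := card_eq_one.1 (show I.card = 1 by omega)
      subst hA
      rw [h.un_singleton (hIH (by simp))]
      simp
    · have := h.five hIH hge'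
      omega
  · have hI' : I.erase n ⊆ D := by
      intro A hA
      rw [mem_erase] at hA
      exact (mem_insert.1 (hI hA.2)).resolve_left hA.1
    have hc : I.card - 1 ≤ (I.erase n).card := pred_card_le_card_erase
    have h3 := hD (I.erase n) hI' (by omega)
    have h4 := card_le_card (un_mono (erase_subset n I))
    omega

/-- adding a medial triangle to a sparse family -/
lemma Sparse.medial (h : Lin H) (hJ : Sparse J) (hJH : J ⊆ H) (hτ : τ ∈ tris H)
    (hm : Disjoint (multi τ) (un J)) (hno : ∀ n ∈ H, n ≠ un τ \ multi τ) :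
    Sparse (J ∪ τ) := by
  obtain ⟨hτH, h3, h6⟩ := mem_tris.1 hτ
  have hm3 := h.tri_multi_card hτ
  intro I hI h2
  have hIH : I ⊆ H := hI.trans (union_subset hJH hτH)
  have hsplit : I = (I ∩ J) ∪ (I ∩ τ) := by
    rw [← inter_union_distrib_left, inter_eq_left.2 hI]
  have hdis : Disjoint (I ∩ J) (I ∩ τ) := by
    rw [disjoint_left]
    intro A hA hA'
    rw [mem_inter] at hA hA'
    obtain ⟨p, hp⟩ := card_pos.1 (show 0 < (A ∩ multi τ).card by
      have := h.tri_inner_one hτ hA'.2; omega)
    rw [mem_inter] at hp
    exact disjoint_left.1 hm hp.2 (subset_un hA.2 hp.1)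
  have hcard : I.card = (I ∩ J).card + (I ∩ τ).card := by
    conv_lhs => rw [hsplit]
    exact card_union_of_disjoint hdis
  -- the new points
  have hnew : (un (I ∩ J)).card + (multi τ ∩ un (I ∩ τ)).card ≤ (un I).card := by
    rw [← card_union_of_disjoint]
    · refine card_le_card (union_subset (un_mono inter_subset_left)
        (inter_subset_right.trans (un_mono inter_subset_left)))
    · rw [disjoint_left]
      intro p hp hp'
      exact disjoint_left.1 hm (mem_inter.1 hp').1 (un_mono inter_subset_right hp)
  have hq1 : 1 ≤ (I ∩ τ).card → 2 ≤ (multi τ ∩ un (I ∩ τ)).card := by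
    intro h1
    obtain ⟨A, hA⟩ := card_pos.1 h1
    have := h.tri_inner_one hτ (mem_inter.1 hA).2
    refine this.trans (card_le_card ?_)
    intro p hp
    rw [mem_inter] at hp ⊢
    exact ⟨hp.2, subset_un hA hp.1⟩
  have hq2 : 2 ≤ (I ∩ τ).card → (multi τ ∩ un (I ∩ τ)).card = 3 := by
    intro h1
    obtain ⟨A, hA, B, hB, hAB⟩ := one_lt_card.1 (show 1 < (I ∩ τ).card by omega)
    have := h.tri_inner_two hτ (mem_inter.1 hA).2 (mem_inter.1 hB).2 hAB
    rw [inter_eq_left.2 (this.trans (union_subset (subset_un hA) (subset_un hB))), hm3]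
  have hle3 : (I ∩ τ).card ≤ 3 := by rw [← h3]; exact card_le_card inter_subset_right
  rcases Nat.lt_or_ge (I ∩ J).card 2 with hlt | hge
  · rcases Nat.lt_or_ge (I ∩ J).card 1 with hlt' | hge'
    · -- `I ⊆ τ`
      rcases Nat.lt_or_ge I.card 3 with hI3 | hI3
      · have := h.five hIH h2
        omega
      · have : I ∩ τ = τ := eq_of_subset_of_card_le inter_subset_right (by omega)
        have e1 : un τ ⊆ un I := un_mono (inter_eq_right.1 this)
        have := card_le_card e1
        omega
    · obtain ⟨n, hn⟩ := card_eq_one.1 (show (I ∩ J).card = 1 by omega)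
      have hnI : n ∈ I ∩ J := by rw [hn]; simp
      have hnH : n ∈ H := hIH (mem_inter.1 hnI).1
      have e1 : (un (I ∩ J)).card = 3 := by rw [hn]; exact h.un_singleton hnH
      rcases Nat.lt_or_ge (I ∩ τ).card 2 with hlt2 | hge2
      · have := h.five hIH h2
        omega
      · rcases Nat.lt_or_ge (I ∩ τ).card 3 with hlt3 | hge3
        · have := hq2 hge2
          omega
        · -- four lines
          have hτI : I ∩ τ = τ := eq_of_subset_of_card_le inter_subset_right (by omega)
          have e2 : (un τ \ multi τ) ∪ n ∪ multi τ ⊆ un I := by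
            refine union_subset (union_subset ?_ (subset_un (mem_inter.1 hnI).1)) ?_
            · exact sdiff_subset.trans (un_mono (inter_eq_right.1 hτI))
            · exact multi_sub_un.trans (un_mono (inter_eq_right.1 hτI))
          have e3 : Disjoint ((un τ \ multi τ) ∪ n) (multi τ) := by
            rw [disjoint_union_left]
            refine ⟨sdiff_disjoint, ?_⟩
            exact (disjoint_of_subset_right (subset_un (mem_inter.1 hnI).2) hm).symm
          have e4 := card_le_card e2
          rw [card_union_of_disjoint e3, hm3] at e4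
          have hO : (un τ \ multi τ).card = 3 := by
            have := card_sdiff_add_card_eq_card (multi_sub_un (F := τ))
            rw [hm3, h6] at this
            omega
          have e5 : 4 ≤ ((un τ \ multi τ) ∪ n).card := by
            by_contra hcon
            have e6 : (un τ \ multi τ) = (un τ \ multi τ) ∪ n :=
              eq_of_subset_of_card_le subset_union_left (by omega)
            have e7 : n ⊆ un τ \ multi τ := by rw [e6]; exact subset_union_right
            exact hno n hnH (eq_of_subset_of_card_le e7 (by rw [hO, h.h3 n hnH]))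
          omega
  · have h4 := hJ (I ∩ J) inter_subset_right hge
    rcases Nat.lt_or_ge (I ∩ τ).card 1 with h0 | h1
    · omega
    · rcases Nat.lt_or_ge (I ∩ τ).card 2 with hlt2 | hge2
      · have := hq1 h1
        omega
      · have := hq2 hge2
        omega

/-- the three outer points of a triangle of a nondegenerate class are not a line -/
lemma Link.no_outer (h : Lin H) (l : Link H x y τ) : ∀ n ∈ H, n ≠ un τ \ multi τ := by
  intro n hn hne
  obtain ⟨a, ha, haτ⟩ := l.par
  obtain ⟨g1, g2, g3, g4⟩ := node_mem h l.hy ha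
  have hsp := (g2.ug h g1).sparse h g1
  have hτF := l.tri_sub h
  rw [g4] at hτF
  obtain ⟨hτH, h3, h6⟩ := mem_tris.1 l.tri
  have e2 : n ⊆ un τ := by rw [hne]; exact sdiff_subset
  have e3 : n ∉ τ := by
    intro hh
    have := h.tri_inner_one l.tri hh
    have e4 : n ∩ multi τ = ∅ := by
      rw [hne]
      exact disjoint_iff_inter_eq_empty.1 sdiff_disjoint
    rw [e4] at this
    simp at this
  have e4 : n ∈ cl H a := by
    refine cl_closed _ hn ?_
    rw [inter_eq_left.2 (e2.trans (un_mono hτF)), h.h3 _ hn]
    norm_num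
  have e5 := hsp (insert n τ) (insert_subset e4 hτF) (by
    rw [card_insert_of_notMem e3]; omega)
  rw [un_insert, union_eq_right.2 e2, card_insert_of_notMem e3] at e5
  omega

/-- families of defect two through `l` -/
structure D2 (e : ℕ) (H : Finset (Finset V)) (l : Finset V) (X : Finset (Finset V)) : Prop where
  sub : X ⊆ H
  mem : l ∈ X
  card : X.card + 1 ≤ e
  def2 : (un X).card ≤ X.card + 2

variable {l : Finset V}

/-- submodularity -/
lemma D2.union (hX : D2 e H l X) (hlJ : l ∈ J) (hJ : Sub2 J) {k : ℕ}
    (hJd : (un J).card ≤ J.card + k) : (un (X ∪ J)).card ≤ (X ∪ J).card + k := by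
  have hc3 := card_union_add_card_inter X J
  have hu3 := card_union_add_card_inter (un X) (un J)
  rw [← un_union] at hu3
  have hI := hJ (X ∩ J) inter_subset_right ⟨l, mem_inter.2 ⟨hX.mem, hlJ⟩⟩
  have hI2 : un (X ∩ J) ⊆ un X ∩ un J :=
    subset_inter (un_mono inter_subset_left) (un_mono inter_subset_right)
  have hI3 := card_le_card hI2
  have := hX.def2
  omega

/-- submodularity when the intersection has two lines -/
lemma D2.union' (hX : D2 e H l X) (hJ : Sparse J) (h2 : 2 ≤ (X ∩ J).card) {k : ℕ}
    (hJd : (un J).card ≤ J.card + (k + 1)) : (un (X ∪ J)).card ≤ (X ∪ J).card + k := by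
  have hc3 := card_union_add_card_inter X J
  have hu3 := card_union_add_card_inter (un X) (un J)
  rw [← un_union] at hu3
  have hI := hJ (X ∩ J) inter_subset_right h2
  have hI2 : un (X ∩ J) ⊆ un X ∩ un J :=
    subset_inter (un_mono inter_subset_left) (un_mono inter_subset_right)
  have hI3 := card_le_card hI2
  have := hX.def2
  omega

lemma hit_single (hf : Free e H) (hX : D2 e H l X) {n : Finset V} (hlJ : l ∈ J)
    (hJH : insert n J ⊆ H) (hs : Sub2 (insert n J))
    (hd : (un (insert n J)).card ≤ (insert n J).card + 3) (hJ : (X ∪ J).card + 1 ≤ e) :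
    (X ∪ insert n J).card + 1 ≤ e := by
  by_contra hcon
  have h1 : (X ∪ insert n J).card ≤ (X ∪ J).card + 1 := by
    rw [union_insert]
    exact card_insert_le _ _
  have h2 := hX.union (mem_insert_of_mem hlJ) hs hd
  have h3 := hf (X ∪ insert n J) (union_subset hX.sub hJH) (by omega)
  omega

lemma hit_UG (h : Lin H) (hf : Free e H) (hX : D2 e H l X) (hlJ : l ∈ J) (hJH : J ⊆ H)
    (hJ3 : (un J).card ≤ J.card + 3) (hJ : (X ∪ J).card + 1 ≤ e) (hD : UG H J D)
    (hs : Sub2 D) : (X ∪ D).card + 1 ≤ e := by
  induction hD with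
  | base => exact hJ
  | step hD hn hnD h2 ih =>
    rename_i D n
    have ih' := ih (hs.mono (subset_insert _ _))
    have hDH := (hD.sub hJH).2
    have hlD := (hD.sub hJH).1 hlJ
    have hc := hD.card' h
    have hc2 := h.un_insert_card (Y := D) hn
    refine hit_single hf hX hlD (insert_subset hn hDH) hs ?_ ih'
    rw [card_insert_of_notMem hnD]
    omega

lemma hit_medial (h : Lin H) (hf : Free e H) (hX : D2 e H l X) (hlJ : l ∈ J) (hJH : J ⊆ H)
    (hJs : Sparse J) (hJ3 : (un J).card ≤ J.card + 3) (hJ : (X ∪ J).card + 1 ≤ e)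
    (hτ : τ ∈ tris H) (ho : un τ \ multi τ ⊆ un J) (hd : Disjoint τ J) (hs : Sub2 (J ∪ τ))
    (hfill : ∀ j ≤ 2, ∃ Z ⊆ J, l ∈ Z ∧ un τ \ multi τ ⊆ un Z ∧ Z.card + j = J.card ∧
      (un Z).card ≤ Z.card + 3) : (X ∪ (J ∪ τ)).card + 1 ≤ e := by
  obtain ⟨hτH, h3, h6⟩ := mem_tris.1 hτ
  have hm3 := h.tri_multi_card hτ
  by_contra hcon
  -- the union
  have hcov : ∀ W : Finset (Finset V), X ∪ J ⊆ W → un τ \ multi τ ⊆ un W :=
    fun W hW => ho.trans (un_mono (subset_union_right.trans hW))
  have hc0 : (X ∪ (J ∪ τ)).card ≤ (X ∪ J).card + 3 := by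
    rw [← union_assoc, ← h3]
    exact card_union_le _ _
  rcases Nat.lt_or_ge (X ∩ J).card 2 with hlt | hge
  · -- only `l` in common
    have hXJ : X ∩ J = {l} := by
      have hl : l ∈ X ∩ J := mem_inter.2 ⟨hX.mem, hlJ⟩
      refine (eq_of_subset_of_card_le (singleton_subset_iff.2 hl) ?_).symm
      rw [card_singleton]
      omega
    obtain ⟨Z, z1, z2, z3, z4, z5⟩ := hfill ((X ∪ (J ∪ τ)).card - e) (by omega)
    have hXZ : X ∩ Z = {l} := by
      refine Subset.antisymm ?_ (singleton_subset_iff.2 (mem_inter.2 ⟨hX.mem, z2⟩))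
      rw [← hXJ]
      exact inter_subset_inter_left z1
    have k1 := card_union_add_card_inter X J
    have k2 := card_union_add_card_inter X Z
    rw [hXJ, card_singleton] at k1
    rw [hXZ, card_singleton] at k2
    -- the lines of the triangle not in `X`
    have k3 : (X ∪ (J ∪ τ)).card = (X ∪ J).card + (τ \ X).card := by
      have : X ∪ (J ∪ τ) = (X ∪ J) ∪ (τ \ X) := by
        ext A
        simp only [mem_union, mem_sdiff]
        tauto
      rw [this, card_union_of_disjoint]
      rw [disjoint_union_left]
      exact ⟨disjoint_sdiff, (disjoint_of_subset_left sdiff_subset hd).symm⟩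
    have k4 : (X ∪ (Z ∪ τ)).card = (X ∪ Z).card + (τ \ X).card := by
      have : X ∪ (Z ∪ τ) = (X ∪ Z) ∪ (τ \ X) := by
        ext A
        simp only [mem_union, mem_sdiff]
        tauto
      rw [this, card_union_of_disjoint]
      rw [disjoint_union_left]
      exact ⟨disjoint_sdiff, (disjoint_of_subset_left sdiff_subset
        (disjoint_of_subset_right z1 hd)).symm⟩
    have k5 : (X ∪ (Z ∪ τ)).card = e := by omega
    have k6 : (un (Z ∪ τ)).card ≤ (Z ∪ τ).card + 3 := by
      have e1 : un (Z ∪ τ) ⊆ un Z ∪ multi τ := by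
        rw [un_union]
        refine union_subset subset_union_left ?_
        intro p hp
        rw [mem_union]
        by_cases hpm : p ∈ multi τ
        · exact Or.inr hpm
        · exact Or.inl (z3 (mem_sdiff.2 ⟨hp, hpm⟩))
      have e2 := (card_le_card e1).trans (card_union_le _ _)
      have e3 : (Z ∪ τ).card = Z.card + 3 := by
        rw [card_union_of_disjoint (disjoint_of_subset_left z1 hd.symm), h3]
      omega
    have k7 := hX.union (J := Z ∪ τ) (mem_union_left _ z2)
      (hs.mono (union_subset_union_left z1)) k6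
    have k8 := hf (X ∪ (Z ∪ τ)) (union_subset hX.sub (union_subset (z1.trans hJH) hτH)) k5
    omega
  · -- room for one more
    have hd2 := hX.union' hJs hge (k := 2) hJ3
    obtain ⟨W, w1, w2, w3⟩ := exists_subsuperset_card_eq
      (s := X ∪ J) (t := X ∪ (J ∪ τ)) (n := e)
      (union_subset_union_right subset_union_left) (by omega) (by omega)
    have hWH : W ⊆ H := w2.trans (union_subset hX.sub (union_subset hJH hτH))
    have hWc := card_sdiff_add_card_eq_card w1
    have hWτ : W \ (X ∪ J) ⊆ τ := by
      intro A hA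
      rw [mem_sdiff] at hA
      have := w2 hA.1
      simp only [mem_union] at this hA
      tauto
    have hnewp : un W ⊆ un (X ∪ J) ∪ (un (W \ (X ∪ J)) ∩ multi τ) := by
      intro p hp
      rw [mem_union]
      by_cases hpX : p ∈ un (X ∪ J)
      · exact Or.inl hpX
      · right
        obtain ⟨A, hA, hpA⟩ := mem_un.1 hp
        have hAW : A ∈ W \ (X ∪ J) := mem_sdiff.2 ⟨hA, fun hh => hpX (subset_un hh hpA)⟩
        rw [mem_inter]
        refine ⟨subset_un hAW hpA, ?_⟩
        by_contra hpm
        exact hpX (hcov _ (Subset.refl _) (mem_sdiff.2 ⟨subset_un (hWτ hAW) hpA, hpm⟩))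
    have hn1 := (card_le_card hnewp).trans (card_union_le _ _)
    have hn2 : (un (W \ (X ∪ J)) ∩ multi τ).card ≤ (W \ (X ∪ J)).card + 1 := by
      rcases Nat.lt_or_ge (W \ (X ∪ J)).card 2 with hlt | hge2
      · rcases Nat.lt_or_ge (W \ (X ∪ J)).card 1 with h0 | h1
        · omega
        · obtain ⟨A, hA⟩ := card_eq_one.1 (show (W \ (X ∪ J)).card = 1 by omega)
          have hAτ : A ∈ τ := hWτ (by rw [hA]; simp)
          rw [hA]
          have e1 : un ({A} : Finset (Finset V)) = A := by simp [un]
          rw [e1, card_singleton]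
          -- `A` has an outer point
          obtain ⟨u, hu, hum⟩ : ∃ u ∈ A, u ∉ multi τ := by
            by_contra hh
            push Not at hh
            have e2 : A = multi τ := eq_of_subset_of_card_le hh
              (by rw [hm3, h.h3 A (hτH hAτ)])
            -- another line meets `A` in two points
            obtain ⟨B, hB, hBA⟩ := exists_mem_ne (show 1 < τ.card by omega) A
            have e3 := h.tri_inner_one hτ hB
            rw [← e2] at e3
            have e4 := h.lin B (hτH hB) A (hτH hAτ) hBA
            omega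
          have e2 : A ∩ multi τ ⊆ A.erase u := by
            intro p hp
            rw [mem_inter] at hp
            exact mem_erase.2 ⟨by rintro rfl; exact hum hp.2, hp.1⟩
          have := card_le_card e2
          rw [card_erase_of_mem hu, h.h3 A (hτH hAτ)] at this
          omega
      · have : (un (W \ (X ∪ J)) ∩ multi τ).card ≤ 3 := by
          rw [← hm3]; exact card_le_card inter_subset_right
        omega
    have := hf W hWH w3
    omega

end Pool.Agent.Helper74K9.BES
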