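import Pool.Agent.Helper74K9.BES.Defs

/-!
# The local inequality when every angle of a triangle component lies in a triangle
-/

set_option autoImplicit false

namespace Pool.Agent.Helper74K9.BES

open Finset Pool.Agent.W848.TreeAvg

variable {V : Type*} [DecidableEq V] {F : Finset (Finset V)} {S : Finset (Finset (Finset V))}

/-- three pairwise meeting lines without a common point form a triangle -/
lemma Lin.tri_mem (h : Lin F) {A B C : Finset V} (hA : A ∈ F) (hB : B ∈ F) (hC : C ∈ F)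
    (hAB : A ≠ B) (hAC : A ≠ C) (hBC : B ≠ C) {x y z : V} (hxA : x ∈ A) (hxB : x ∈ B)
    (hxC : x ∉ C) (hyB : y ∈ B) (hyC : y ∈ C) (hzA : z ∈ A) (hzC : z ∈ C) :
    ({A, B, C} : Finset (Finset V)) ∈ tris F := by
  rw [mem_tris]
  have hcard : ∀ {D E : Finset V}, D ∈ F → E ∈ F → D ≠ E → ∀ u, u ∈ D → u ∈ E →
      (D ∩ E).card = 1 := by
    intro D E hD hE hDE u hu hu'
    have h5 := h.lin D hD E hE hDE
    have h6 : 0 < (D ∩ E).card := card_pos.2 ⟨u, mem_inter.2 ⟨hu, hu'⟩⟩
    omega
  refine ⟨?_, ?_, ?_⟩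
  · intro D hD
    simp only [mem_insert, mem_singleton] at hD
    rcases hD with rfl | rfl | rfl <;> assumption
  · rw [card_insert_of_notMem, card_pair hBC]
    simp [hAB, hAC]
  · have hun : un ({A, B, C} : Finset (Finset V)) = (A ∪ B) ∪ C := by
      ext v; simp [un]
    rw [hun]
    have h1 := card_union_add_card_inter (A ∪ B) C
    have h2 := card_union_add_card_inter A B
    have h3 : (A ∪ B) ∩ C = (A ∩ C) ∪ (B ∩ C) := union_inter_distrib_right _ _ _
    have h4 : Disjoint (A ∩ C) (B ∩ C) := by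
      rw [disjoint_left]
      intro v hv hv'
      rw [mem_inter] at hv hv'
      have : v = x := by
        by_contra hne
        exact hAB (h.eq_of_two hA hB hne hv.1 hxA hv'.1 hxB)
      exact hxC (this ▸ hv.2)
    rw [h3, card_union_of_disjoint h4, hcard hA hC hAC z hzA hzC, hcard hB hC hBC y hyB hyC,
      h.h3 C hC] at h1
    rw [hcard hA hB hAB x hxA hxB, h.h3 A hA, h.h3 B hB] at h2
    omega

/-- every triangle contains at most three angles of `S` -/
lemma sum_tn_le (hS : S ⊆ angles F) : ∑ s ∈ S, tn F s ≤ 3 * (trisOf F S).card := by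
  have h1 : ∀ s ∈ S, tn F s = (bipartiteAbove (fun s τ => s ⊆ τ) (trisOf F S) s).card := by
    intro s hs
    unfold tn bipartiteAbove trisOf
    congr 1
    ext τ
    simp only [mem_filter]
    constructor
    · rintro ⟨a, b⟩
      exact ⟨⟨a, s, hs, b⟩, b⟩
    · rintro ⟨⟨a, -⟩, b⟩
      exact ⟨a, b⟩
  rw [sum_congr rfl h1, sum_card_bipartiteAbove_eq_sum_card_bipartiteBelow, mul_comm,
    ← smul_eq_mul]
  apply sum_le_card_nsmul
  intro τ hτ
  have hτ3 : τ.card = 3 := by
    unfold trisOf at hτ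
    exact (mem_tris.1 (mem_filter.1 hτ).1).2.1
  have h2 : bipartiteBelow (fun s τ => s ⊆ τ) S τ ⊆ τ.powersetCard 2 := by
    intro s hs
    unfold bipartiteBelow at hs
    rw [mem_filter] at hs
    rw [mem_powersetCard]
    exact ⟨hs.2, (mem_angles.1 (hS hs.1)).2.1⟩
  calc _ ≤ (τ.powersetCard 2).card := card_le_card h2
    _ = 3 := by rw [card_powersetCard, hτ3]; rfl

/-- the number of faces belonging to an angle -/
def fn (F : Finset (Finset V)) (s : Finset (Finset V)) : ℕ :=
  ((faces F).filter (fun p => p.2 ∈ s ∧ p.1 ∈ un s)).card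

/-- every face lies in at least three angles of `S` -/
lemma three_faces_le (hF : Lin F) (hS : S ⊆ angles F) (hcl : TriClosed F S) :
    3 * (facesOf F S).card ≤ ∑ s ∈ S, fn F s := by
  classical
  have h1 : ∀ s ∈ S, fn F s =
      (bipartiteAbove (fun (s : Finset (Finset V)) (p : V × Finset V) => p.2 ∈ s ∧ p.1 ∈ un s)
        (facesOf F S) s).card := by
    intro s hs
    unfold fn bipartiteAbove facesOf
    congr 1
    ext p
    simp only [mem_filter]
    constructor
    · rintro ⟨a, b⟩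
      exact ⟨⟨a, s, hs, b⟩, b⟩
    · rintro ⟨⟨a, -⟩, b⟩
      exact ⟨a, b⟩
  rw [sum_congr rfl h1, sum_card_bipartiteAbove_eq_sum_card_bipartiteBelow, mul_comm,
    ← smul_eq_mul]
  apply card_nsmul_le_sum
  rintro ⟨x, l⟩ hp
  unfold facesOf faces at hp
  simp only [mem_filter, mem_product] at hp
  obtain ⟨⟨⟨hxF, hl⟩, hxl, hsee⟩, s0, hs0, hls0, hxs0⟩ := hp
  obtain ⟨y1, y2, y3, h12, h13, h23, rfl⟩ := card_eq_three.1 (hF.h3 l hl)
  obtain ⟨m1, hm1, hx1, hy1⟩ := hsee y1 (by simp)
  obtain ⟨m2, hm2, hx2, hy2⟩ := hsee y2 (by simp)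
  obtain ⟨m3, hm3, hx3, hy3⟩ := hsee y3 (by simp)
  set l : Finset V := {y1, y2, y3} with hldef
  have e1 : y1 ∈ l := by simp [hldef]
  have e2 : y2 ∈ l := by simp [hldef]
  have e3 : y3 ∈ l := by simp [hldef]
  have nl : ∀ m : Finset V, x ∈ m → l ≠ m := by
    rintro m hm rfl; exact hxl hm
  -- distinctness of the three lines
  have hne : ∀ {m m' : Finset V} {u u' : V}, m ∈ F → x ∈ m → u ∈ m → u' ∈ m' → u ∈ l → u' ∈ l →
      u ≠ u' → m ≠ m' := by
    rintro m m' u u' hm hxm hum hum' hul hul' huu rfl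
    exact nl m hxm (hF.eq_of_two hl hm huu hul hul' hum hum')
  have d12 : m1 ≠ m2 := hne hm1 hx1 hy1 hy2 e1 e2 h12
  have d13 : m1 ≠ m3 := hne hm1 hx1 hy1 hy3 e1 e3 h13
  have d23 : m2 ≠ m3 := hne hm2 hx2 hy2 hy3 e2 e3 h23
  -- moving from one angle to another
  have key : ∀ {m m' : Finset V} {u u' : V}, m ∈ F → m' ∈ F → x ∈ m → x ∈ m' → u ∈ m → u' ∈ m' →
      u ∈ l → u' ∈ l → u ≠ u' → ({l, m} : Finset (Finset V)) ∈ S →
      ({l, m'} : Finset (Finset V)) ∈ S := by
    intro m m' u u' hm hm' hxm hxm' hum hum' hul hul' huu hin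
    have hmm : m ≠ m' := hne hm hxm hum hum' hul hul' huu
    have hum'' : u ∉ m' := by
      intro hcon
      exact nl m' hxm' (hF.eq_of_two hl hm' huu hul hul' hcon hum')
    have htri : ({l, m, m'} : Finset (Finset V)) ∈ tris F :=
      hF.tri_mem hl hm hm' (nl m hxm) (nl m' hxm') hmm hul hum hum'' hxm hxm' hul' hum'
    refine hcl _ htri _ hin ?_ _ (hF.pair_mem_angles.2 ⟨hl, hm', nl m' hxm', u', hul', hum'⟩) ?_
    · intro D hD
      simp only [mem_insert, mem_singleton] at hD ⊢
      tauto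
    · intro D hD
      simp only [mem_insert, mem_singleton] at hD ⊢
      tauto
  -- the given angle is one of the three
  have hs0m : ∃ m ∈ F, x ∈ m ∧ s0 = {l, m} := by
    obtain ⟨h1', h2', h3'⟩ := mem_angles.1 (hS hs0)
    have : (s0.erase l).card = 1 := by rw [card_erase_of_mem hls0, h2']
    obtain ⟨m, hm⟩ := card_eq_one.1 this
    have hms : s0 = {l, m} := by rw [← insert_erase hls0, hm]
    refine ⟨m, h1' (by rw [hms]; simp), ?_, hms⟩
    rw [hms, un_pair, mem_union] at hxs0
    exact hxs0.resolve_left hxl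
  obtain ⟨m, hm, hxm, hs0e⟩ := hs0m
  rw [hs0e] at hs0
  obtain ⟨-, -, -, u, hul, hum⟩ := hF.pair_mem_angles.1 (hS hs0)
  have hall : ({l, m1} : Finset (Finset V)) ∈ S ∧ ({l, m2} : Finset (Finset V)) ∈ S ∧
      ({l, m3} : Finset (Finset V)) ∈ S := by
    have hxu : x ≠ u := by rintro rfl; exact hxl hul
    have hcase : u = y1 ∨ u = y2 ∨ u = y3 := by
      rw [hldef] at hul; simpa using hul
    rcases hcase with rfl | rfl | rfl
    · have : m = m1 := hF.eq_of_two hm hm1 hxu hxm hum hx1 hy1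
      subst this
      exact ⟨hs0, key hm1 hm2 hx1 hx2 hy1 hy2 e1 e2 h12 hs0,
        key hm1 hm3 hx1 hx3 hy1 hy3 e1 e3 h13 hs0⟩
    · have : m = m2 := hF.eq_of_two hm hm2 hxu hxm hum hx2 hy2
      subst this
      exact ⟨key hm2 hm1 hx2 hx1 hy2 hy1 e2 e1 h12.symm hs0, hs0,
        key hm2 hm3 hx2 hx3 hy2 hy3 e2 e3 h23 hs0⟩
    · have : m = m3 := hF.eq_of_two hm hm3 hxu hxm hum hx3 hy3
      subst this
      exact ⟨key hm3 hm1 hx3 hx1 hy3 hy1 e3 e1 h13.symm hs0,
        key hm3 hm2 hx3 hx2 hy3 hy2 e3 e2 h23.symm hs0, hs0⟩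
  have hpair : ∀ {a b : Finset V}, l ≠ a → a ≠ b → ({l, a} : Finset (Finset V)) ≠ {l, b} := by
    intro a b hla hab h
    have ha : a ∈ ({l, b} : Finset (Finset V)) := by rw [← h]; simp
    simp only [mem_insert, mem_singleton] at ha
    rcases ha with ha | ha
    · exact hla ha.symm
    · exact hab ha
  have hsub : ({{l, m1}, {l, m2}, {l, m3}} : Finset (Finset (Finset V))) ⊆
      bipartiteBelow (fun (s : Finset (Finset V)) (p : V × Finset V) => p.2 ∈ s ∧ p.1 ∈ un s)
        S (x, l) := by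
    intro s hs
    unfold bipartiteBelow
    rw [mem_filter]
    simp only [mem_insert, mem_singleton] at hs
    rcases hs with rfl | rfl | rfl
    · exact ⟨hall.1, by simp, by rw [un_pair]; exact mem_union_right _ hx1⟩
    · exact ⟨hall.2.1, by simp, by rw [un_pair]; exact mem_union_right _ hx2⟩
    · exact ⟨hall.2.2, by simp, by rw [un_pair]; exact mem_union_right _ hx3⟩
  have h3c : ({{l, m1}, {l, m2}, {l, m3}} : Finset (Finset (Finset V))).card = 3 := by
    rw [card_eq_three]
    exact ⟨_, _, _, hpair (nl m1 hx1) d12, hpair (nl m1 hx1) d13, hpair (nl m2 hx2) d23, rfl⟩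
  rw [← h3c]
  exact card_le_card hsub

/-- the local inequality at one angle -/
lemma fn_le (hF : Lin F) {s : Finset (Finset V)} (hs : s ∈ angles F) (ht : 1 ≤ tn F s) :
    1 + fn F s ≤ tn F s + if 4 ≤ tn F s then 1 else 0 := by
  classical
  obtain ⟨w, x1, x2, y1, y2, hwx1, hwx2, hx12, hwy1, hwy2, hy12, h11, h12, h21, h22, rfl⟩ :=
    hF.angle_pts hs
  set A : Finset V := {w, x1, x2} with hA
  set B : Finset V := {w, y1, y2} with hB
  obtain ⟨hAF, hBF, hAB, -⟩ := hF.pair_mem_angles.1 hs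
  let J : V × V → Prop := fun p => ∃ m ∈ F, p.1 ∈ m ∧ p.2 ∈ m
  let P : Finset (V × V) := (({x1, x2} : Finset V) ×ˢ ({y1, y2} : Finset V)).filter J
  -- lower bound for the number of triangles
  have hP : P.card ≤ tn F {A, B} := by
    have hch : ∀ p : V × V, ∃ m : Finset V, J p → m ∈ F ∧ p.1 ∈ m ∧ p.2 ∈ m := by
      intro p
      by_cases hp : J p
      · obtain ⟨m, h⟩ := hp
        exact ⟨m, fun _ => h⟩
      · exact ⟨∅, fun h => absurd h hp⟩
    choose g hg using hch
    have hx : ∀ p ∈ P, p.1 ∈ A ∧ p.1 ∉ B ∧ p.2 ∈ B ∧ p.2 ∉ A ∧ J p := by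
      intro p hp
      rw [mem_filter, mem_product] at hp
      simp only [mem_insert, mem_singleton] at hp
      obtain ⟨⟨ha, hb⟩, hJ⟩ := hp
      refine ⟨?_, ?_, ?_, ?_, hJ⟩
      · rw [hA]; simp only [mem_insert, mem_singleton]; tauto
      · rw [hB]; simp only [mem_insert, mem_singleton]
        rintro (h | h | h) <;> rcases ha with ha | ha <;> rw [ha] at h <;> tauto
      · rw [hB]; simp only [mem_insert, mem_singleton]; tauto
      · rw [hA]; simp only [mem_insert, mem_singleton]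
        rintro (h | h | h) <;> rcases hb with hb | hb <;> rw [hb] at h <;> first | exact hwy1 h.symm | exact hwy2 h.symm | exact h11 h.symm | exact h12 h.symm | exact h21 h.symm | exact h22 h.symm
    have hgA : ∀ p ∈ P, A ≠ g p := by
      intro p hp h
      obtain ⟨-, -, -, h4, hJ⟩ := hx p hp
      exact h4 (h ▸ (hg p hJ).2.2)
    have hgB : ∀ p ∈ P, B ≠ g p := by
      intro p hp h
      obtain ⟨-, h2, -, -, hJ⟩ := hx p hp
      exact h2 (h ▸ (hg p hJ).2.1)
    unfold tn
    apply card_le_card_of_injOn (fun p => ({A, B, g p} : Finset (Finset V)))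
    · intro p hp
      have hp' : p ∈ P := hp
      obtain ⟨a1, a2, a3, a4, hJ⟩ := hx p hp'
      obtain ⟨b1, b2, b3⟩ := hg p hJ
      have hw : w ∉ g p := by
        intro hcon
        have hne : w ≠ p.1 := by
          intro h; apply a2; rw [← h, hB]; simp
        exact hgA p hp' (hF.eq_of_two hAF b1 hne (by rw [hA]; simp) a1 hcon b2)
      rw [mem_coe, mem_filter]
      refine ⟨hF.tri_mem hAF hBF b1 hAB (hgA p hp') (hgB p hp') (x := w) (y := p.2) (z := p.1)
        (by rw [hA]; simp) (by rw [hB]; simp) hw a3 b3 a1 b2, ?_⟩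
      intro D hD
      simp only [mem_insert, mem_singleton] at hD ⊢
      tauto
    · intro p hp q hq hpq
      have hp' : p ∈ P := hp
      have hq' : q ∈ P := hq
      have hgp : g p ∈ ({A, B, g q} : Finset (Finset V)) := by
        have : g p ∈ ({A, B, g p} : Finset (Finset V)) := by simp
        have hpq' : ({A, B, g p} : Finset (Finset V)) = {A, B, g q} := hpq
        rwa [hpq'] at this
      simp only [mem_insert, mem_singleton] at hgp
      have hgpq : g p = g q := by
        rcases hgp with h | h | h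
        · exact absurd h.symm (hgA p hp')
        · exact absurd h.symm (hgB p hp')
        · exact h
      obtain ⟨a1, a2, a3, a4, hJ⟩ := hx p hp'
      obtain ⟨a1', a2', a3', a4', hJ'⟩ := hx q hq'
      obtain ⟨b1, b2, b3⟩ := hg p hJ
      obtain ⟨b1', b2', b3'⟩ := hg q hJ'
      rw [← hgpq] at b1' b2' b3'
      apply Prod.ext
      · by_contra hne
        exact hgA p hp' (hF.eq_of_two hAF b1 hne a1 a1' b2 b2')
      · by_contra hne
        exact hgB p hp' (hF.eq_of_two hBF b1 hne a3 a3' b3 b3')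
  have hPc : P.card = (if J (x1, y1) then 1 else 0) + (if J (x1, y2) then 1 else 0) +
      ((if J (x2, y1) then 1 else 0) + (if J (x2, y2) then 1 else 0)) := by
    rw [card_filter, sum_product, sum_pair hx12, sum_pair hy12, sum_pair hy12]
  -- upper bound for the number of faces
  have hfn : fn F {A, B} ≤ (if J (x1, y1) ∧ J (x1, y2) then 1 else 0) +
      (if J (x2, y1) ∧ J (x2, y2) then 1 else 0) +
      (if J (x1, y1) ∧ J (x2, y1) then 1 else 0) +
      (if J (x1, y2) ∧ J (x2, y2) then 1 else 0) := by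
    have hsub : (faces F).filter (fun p => p.2 ∈ ({A, B} : Finset (Finset V)) ∧
        p.1 ∈ un ({A, B} : Finset (Finset V))) ⊆
        (if J (x1, y1) ∧ J (x1, y2) then {(x1, B)} else ∅) ∪
        (if J (x2, y1) ∧ J (x2, y2) then {(x2, B)} else ∅) ∪
        (if J (x1, y1) ∧ J (x2, y1) then {(y1, A)} else ∅) ∪
        (if J (x1, y2) ∧ J (x2, y2) then {(y2, A)} else ∅) := by
      rintro ⟨x, l⟩ hp
      rw [mem_filter] at hp
      obtain ⟨hp1, hp2, hp3⟩ := hp
      unfold faces at hp1
      rw [mem_filter] at hp1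
      obtain ⟨-, hxl, hsee⟩ := hp1
      simp only at hxl hsee hp2 hp3
      rw [un_pair, mem_union] at hp3
      simp only [mem_insert, mem_singleton] at hp2
      rcases hp2 with rfl | rfl
      · have hxB : x ∈ B := hp3.resolve_left hxl
        have hx' : x = y1 ∨ x = y2 := by
          rw [hB] at hxB
          simp only [mem_insert, mem_singleton] at hxB
          rcases hxB with h | h | h
          · exact absurd (by rw [h, hA]; simp) hxl
          · exact Or.inl h
          · exact Or.inr h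
        obtain ⟨n1, hn1, hn1x, hn1y⟩ := hsee x1 (by rw [hA]; simp)
        obtain ⟨n2, hn2, hn2x, hn2y⟩ := hsee x2 (by rw [hA]; simp)
        rcases hx' with rfl | rfl
        · have hJ : J (x1, x) ∧ J (x2, x) := ⟨⟨n1, hn1, hn1y, hn1x⟩, ⟨n2, hn2, hn2y, hn2x⟩⟩
          simp [hJ]
        · have hJ : J (x1, x) ∧ J (x2, x) := ⟨⟨n1, hn1, hn1y, hn1x⟩, ⟨n2, hn2, hn2y, hn2x⟩⟩
          simp [hJ]
      · have hxA : x ∈ A := hp3.resolve_right hxl
        have hx' : x = x1 ∨ x = x2 := by
          rw [hA] at hxA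
          simp only [mem_insert, mem_singleton] at hxA
          rcases hxA with h | h | h
          · exact absurd (by rw [h, hB]; simp) hxl
          · exact Or.inl h
          · exact Or.inr h
        obtain ⟨n1, hn1, hn1x, hn1y⟩ := hsee y1 (by rw [hB]; simp)
        obtain ⟨n2, hn2, hn2x, hn2y⟩ := hsee y2 (by rw [hB]; simp)
        rcases hx' with rfl | rfl
        · have hJ : J (x, y1) ∧ J (x, y2) := ⟨⟨n1, hn1, hn1x, hn1y⟩, ⟨n2, hn2, hn2x, hn2y⟩⟩
          simp [hJ]
        · have hJ : J (x, y1) ∧ J (x, y2) := ⟨⟨n1, hn1, hn1x, hn1y⟩, ⟨n2, hn2, hn2x, hn2y⟩⟩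
          simp [hJ]
    have hc : ∀ (Q : Prop) [Decidable Q] (q : V × Finset V),
        (if Q then ({q} : Finset (V × Finset V)) else ∅).card = if Q then 1 else 0 := by
      intro Q _ q
      split_ifs <;> simp
    unfold fn
    refine (card_le_card hsub).trans ?_
    refine (card_union_le _ _).trans (Nat.add_le_add ((card_union_le _ _).trans
      (Nat.add_le_add ((card_union_le _ _).trans (Nat.add_le_add ?_ ?_)) ?_)) ?_)
    all_goals exact (hc _ _).le
  rw [hPc] at hP
  by_cases j11 : J (x1, y1) <;> by_cases j12 : J (x1, y2) <;> by_cases j21 : J (x2, y1) <;>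
    by_cases j22 : J (x2, y2) <;> simp [j11, j12, j21, j22] at hP hfn <;> split_ifs <;> omega

theorem K4 (hF : Lin F) (hS : S ⊆ angles F) (hcl : TriClosed F S) (ht : ∀ s ∈ S, 1 ≤ tn F s) :
    S.card + 3*(facesOf F S).card ≤
      3*(trisOf F S).card + (S.filter (fun s => 4 ≤ tn F s)).card := by
  have h1 := sum_tn_le hS
  have h2 := three_faces_le hF hS hcl
  have h3 : ∑ s ∈ S, (1 + fn F s) ≤ ∑ s ∈ S, (tn F s + if 4 ≤ tn F s then 1 else 0) :=
    sum_le_sum fun s hs => fn_le hF (hS hs) (ht s hs)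
  rw [sum_add_distrib, sum_add_distrib, ← card_filter] at h3
  simp only [sum_const, smul_eq_mul, mul_one] at h3
  omega

end Pool.Agent.Helper74K9.BES
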