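import Pool.Agent.Helper74K9.BES.BadClass

/-!
# Links between classes
-/

set_option autoImplicit false

namespace Pool.Agent.Helper74K9.BES

open Finset Pool.Agent.W848 Pool.Agent.W848.TreeAvg

variable {V : Type*} [DecidableEq V]

variable {e : ℕ} {H X Y : Finset (Finset V)} {τ a b s : Finset (Finset V)}

/-- intermediate sizes in unit growth -/
lemma Lin.fill (h : Lin H) (hX : X ⊆ H) (hX3 : (un X).card ≤ X.card + 3) :
    ∀ t, X.card ≤ t → t ≤ (cl H X).card →
      ∃ Z, X ⊆ Z ∧ Z ⊆ cl H X ∧ Z.card = t ∧ (un Z).card ≤ Z.card + 3 := by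
  refine (cl_ind hX (fun Y => (un Y).card ≤ Y.card + 3 ∧ ∀ t, X.card ≤ t → t ≤ Y.card →
    ∃ Z, X ⊆ Z ∧ Z ⊆ Y ∧ Z.card = t ∧ (un Z).card ≤ Z.card + 3) ⟨hX3, ?_⟩ ?_).2
  · intro t h1 h2
    exact ⟨X, Subset.refl _, Subset.refl _, by omega, hX3⟩
  · rintro Y n hXY hYc ⟨hY3, hY⟩ hn hnY h2
    have h3 := h.un_insert_card (Y := Y) (cl_subset hn)
    have hc : (insert n Y).card = Y.card + 1 := card_insert_of_notMem hnY
    refine ⟨by omega, ?_⟩
    intro t h1 ht
    rcases Nat.lt_or_ge Y.card t with hlt | hge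
    · exact ⟨insert n Y, hXY.trans (subset_insert _ _), Subset.refl _, by omega, by omega⟩
    · obtain ⟨Z, k1, k2, k3, k4⟩ := hY t h1 hge
      exact ⟨Z, k1, k2.trans (subset_insert _ _), k3, k4⟩

/-- `τ` links the class `x` to the bad class `y` -/
structure Link (H : Finset (Finset V)) (x y : Finset (Finset (Finset V)))
    (τ : Finset (Finset V)) : Prop where
  hx : x ∈ nodes H
  hy : y ∈ nodes H
  bad : Bad H y
  tri : τ ∈ tris H
  par : ∃ a ∈ y, a ⊆ τ
  chi : ∃ a ∈ x, un τ \ multi τ ⊆ un a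
  sub : clo H x ⊆ clo H y
  nsub : ¬ τ ⊆ clo H x

variable {x y : Finset (Finset (Finset V))}

lemma clo_subset {c : Finset (Finset (Finset V))} : clo H c ⊆ H := cl_subset

lemma clo_closed {c : Finset (Finset (Finset V))} : Closed H (clo H c) := cl_closed

lemma Link.tri_sub (h : Lin H) (l : Link H x y τ) : τ ⊆ clo H y := by
  obtain ⟨a, ha, haτ⟩ := l.par
  obtain ⟨g1, g2, g3, g4⟩ := node_mem h l.hy ha
  rw [g4]
  exact h.tri_sub_cl l.tri g1 haτ

/-- every closed family containing `τ` contains the closure of the parent -/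
lemma Link.clo_sub (h : Lin H) (l : Link H x y τ) (hc : Closed H X) (hXH : X ⊆ H) (hτ : τ ⊆ X) :
    clo H y ⊆ X := by
  obtain ⟨a, ha, haτ⟩ := l.par
  obtain ⟨g1, g2, g3, g4⟩ := node_mem h l.hy ha
  rw [g4]
  exact cl_min hXH (haτ.trans hτ) hc

lemma Link.outer (h : Lin H) (l : Link H x y τ) (hX : clo H x ⊆ X) :
    un τ \ multi τ ⊆ un X := by
  obtain ⟨a, ha, haτ⟩ := l.chi
  obtain ⟨g1, g2, g3, g4⟩ := node_mem h l.hx ha
  refine haτ.trans (un_mono ?_)
  rw [g4] at hX
  exact (subset_cl (mem_angles.1 g1).1).trans hX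

lemma node_good (he : 3 ≤ e) (h : Lin H) (hf : Free e H) {c : Finset (Finset (Finset V))}
    (hc : c ∈ nodes H) : Good e (clo H c) ∧ (clo H c).card + 3 ≤ (un (clo H c)).card := by
  obtain ⟨a, ha⟩ := node_nonempty hc
  obtain ⟨g1, g2, g3, g4⟩ := node_mem h hc ha
  rw [g4]
  exact ⟨h.cl_good hf (mem_angles.1 g1).1 (Good.of_angle he g1), g2⟩

lemma Link.six (he : 3 ≤ e) (h : Lin H) (hf : Free e H) (l : Link H x y τ) : 6 ≤ e := by
  have hcl : Closed H (∅ : Finset (Finset V)) := by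
    intro A _ h2
    simp [un] at h2
  have h1 := bad_miss h l.hy l.bad hcl (empty_subset _) (by
    intro hh
    have h2 := l.tri_sub h
    have h3 := (mem_tris.1 l.tri).2.1
    have h4 := card_le_card (h2.trans hh)
    rw [h3, card_empty] at h4
    omega)
  rw [sdiff_empty] at h1
  have := (node_good he h hf l.hy).1.1
  omega

/-- the invariant of the walks: `U` is the closure of the union of the closures of the classes on
a walk that ends in the class `y` -/
structure WG (e : ℕ) (H : Finset (Finset V)) (y : Finset (Finset (Finset V)))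
    (U : Finset (Finset V)) : Prop where
  good : Good e U
  nd : U.card + 3 ≤ (un U).card
  fill : ∀ a ∈ y, ∀ j ≤ 2, j + 2 ≤ U.card →
    ∃ Z ⊆ U, a ⊆ Z ∧ Z.card + j = U.card ∧ (un Z).card ≤ Z.card + 3

/-- the base case -/
lemma WG.base (he : 3 ≤ e) (h : Lin H) (hf : Free e H) (hy : y ∈ nodes H) :
    WG e H y (clo H y) := by
  obtain ⟨h1, h2⟩ := node_good he h hf hy
  refine ⟨h1, h2, ?_⟩
  intro a ha j hj hj2
  obtain ⟨g1, g2, g3, g4⟩ := node_mem h hy ha
  rw [g4] at hj2 ⊢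
  obtain ⟨k1, k2, k3⟩ := mem_angles.1 g1
  obtain ⟨Z, z1, z2, z3, z4⟩ := h.fill (X := a) k1 (by omega) ((cl H a).card - j) (by omega)
    (by omega)
  exact ⟨Z, z2, z1, by omega, z4⟩

/-- **the step up** -/
lemma up_step (he : 3 ≤ e) (h : Lin H) (hf : Free e H) (h8 : Cond8 e H) (l : Link H x y τ)
    (hXH : X ⊆ H) (hXc : Closed H X) (hxX : clo H x ⊆ X) (hτX : ¬ τ ⊆ X)
    (hX : WG e H x X) (hb : X = clo H x ∨ ∃ b ∈ nodes H, Bad H b ∧ clo H b ⊆ X) :
    Good e (cl H (X ∪ τ)) ∧ (cl H (X ∪ τ)).card + 3 ≤ (un (cl H (X ∪ τ))).card ∧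
      ∀ j ≤ 2, ∃ Z ⊆ cl H (X ∪ τ), X ⊆ Z ∧ Z.card + j = (cl H (X ∪ τ)).card ∧
        (un Z).card ≤ Z.card + 3 := by
  have h6 := l.six he h hf
  have ho := l.outer h hxX
  have hτH := (mem_tris.1 l.tri).1
  obtain ⟨m1, m2⟩ := hXc.medial h l.tri ho hτX
  obtain ⟨a1, a2⟩ := h.add_medial hXc l.tri ho hτX
  obtain ⟨hX1, hX2⟩ := hX.good
  -- the size of `X`
  have hsize : X.card + 4 ≤ e := by
    by_contra hcon
    obtain ⟨a, ha, haτ⟩ := l.chi
    obtain ⟨Z, z1, z2, z3, z4⟩ := hX.fill a ha (X.card - (e - 3)) (by omega) (by omega)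
    have hdis : Disjoint Z τ := disjoint_of_subset_left z1 m1.symm
    have c1 : (Z ∪ τ).card = e := by
      rw [card_union_of_disjoint hdis, (mem_tris.1 l.tri).2.1]
      omega
    have c2 : (un (Z ∪ τ)).card ≤ (un Z).card + 3 := by
      have : un (Z ∪ τ) ⊆ un Z ∪ multi τ := by
        rw [un_union]
        refine union_subset subset_union_left ?_
        intro p hp
        rw [mem_union]
        by_cases hpm : p ∈ multi τ
        · exact Or.inr hpm
        · exact Or.inl (un_mono z2 (haτ (mem_sdiff.2 ⟨hp, hpm⟩)))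
      have := (card_le_card this).trans (card_union_le _ _)
      rw [h.tri_multi_card l.tri] at this
      exact this
    have := hf (Z ∪ τ) (union_subset (z1.trans hXH) hτH) c1
    omega
  have hXτ : X ∪ τ ⊆ H := union_subset hXH hτH
  have hg : Good e (X ∪ τ) := ⟨by omega, by omega⟩
  have hU := h.cl_good hf hXτ hg
  have hyU : clo H y ⊆ cl H (X ∪ τ) :=
    l.clo_sub h cl_closed cl_subset (subset_union_right.trans (subset_cl hXτ))
  have hnd : (cl H (X ∪ τ)).card + 3 ≤ (un (cl H (X ∪ τ))).card := by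
    rcases hb with hb | ⟨b, hbn, hbb, hbX⟩
    · have : cl H (X ∪ τ) = clo H y := by
        refine Subset.antisymm (cl_min clo_subset ?_ clo_closed) hyU
        rw [hb]
        exact union_subset l.sub (l.tri_sub h)
      rw [this]
      exact (node_good he h hf l.hy).2
    · by_contra hcon
      have k1 := h8 (cl H (X ∪ τ)) cl_subset hU.1 (by omega)
      have k2 := six_multi h hbn hbb hXc hbX
      have k3 : multi X ∪ multi τ ⊆ multi (cl H (X ∪ τ)) :=
        union_subset (multi_mono (subset_union_left.trans (subset_cl hXτ)))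
          (multi_mono (subset_union_right.trans (subset_cl hXτ)))
      have k4 := card_le_card k3
      have k5 : Disjoint (multi X) (multi τ) :=
        disjoint_of_subset_left multi_sub_un m2.symm
      rw [card_union_of_disjoint k5, h.tri_multi_card l.tri] at k4
      omega
  refine ⟨hU, hnd, ?_⟩
  intro j hj
  have hmiss := bad_miss h l.hy l.bad hXc hXH (fun hh => hτX ((l.tri_sub h).trans hh))
  have hXU : X ⊆ cl H (X ∪ τ) := subset_union_left.trans (subset_cl hXτ)
  have hbig : X.card + 5 ≤ (cl H (X ∪ τ)).card := by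
    have k1 : clo H y \ X ⊆ cl H (X ∪ τ) \ X := sdiff_subset_sdiff hyU (Subset.refl _)
    have k2 := card_le_card k1
    have k3 := card_sdiff_add_card_eq_card hXU
    omega
  obtain ⟨Z, z1, z2, z3, z4⟩ := h.fill (X := X ∪ τ) hXτ (by omega) ((cl H (X ∪ τ)).card - j)
    (by omega) (by omega)
  exact ⟨Z, z2, subset_union_left.trans z1, by omega, z4⟩

/-- the edges of the graph on the classes -/
noncomputable def EE (H : Finset (Finset V)) : Finset (Finset (Finset V)) :=
  (tris H).filter (fun τ => 2 ≤ dl H τ ∧ ∃ c ∈ nodes H, Bad H c ∧ ∃ a ∈ c, a ⊆ τ)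

lemma exists_link (h : Lin H) (hτ : τ ∈ EE H) : ∃ x y, Link H x y τ := by
  rw [EE, mem_filter] at hτ
  obtain ⟨hτ, hdl, c, hc, hbad, a, ha, haτ⟩ := hτ
  obtain ⟨g1, g2, g3, g4⟩ := node_mem h hc ha
  obtain ⟨a', k1, k2, k3, k4, k5⟩ := closing h hτ g1 haτ g2 hdl
  have hx : cls H a' ∈ nodes H := mem_nodes.2 ⟨a', k1, k2, rfl⟩
  have ha' : a' ∈ cls H a' := self_mem_cls k1
  have e1 := (node_mem h hx ha').2.2.2
  exact ⟨cls H a', c, hx, hc, hbad, hτ, ⟨a, ha, haτ⟩, ⟨a', ha', k3⟩, by rw [e1, g4]; exact k4,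
    by rw [e1]; exact k5⟩

end Pool.Agent.Helper74K9.BES
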