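import Pool.Agent.Helper74K9.BES.Defs

/-!
# The inequality for closed sets of angles of a grown family
-/

set_option autoImplicit false

namespace Pool.Agent.Helper74K9.BES

open Finset Pool.Agent.W848.TreeAvg

variable {V : Type*} [DecidableEq V]

lemma x1_mem_un {H : Finset (Finset V)} {x : V} : x ∈ un H ↔ ∃ A ∈ H, x ∈ A := by
  simp [un]

lemma x1_meet {F : Finset (Finset V)} (h : Lin F) {A B C : Finset V} (hA : A ∈ F) (hB : B ∈ F)
    (hC : C ∈ F) (hAB : A ≠ B) (hAC : A ≠ C) (hBC : B ≠ C)
    (h6 : (un ({A, B, C} : Finset (Finset V))).card = 6) : ∃ x, x ∈ A ∧ x ∈ B ∧ x ∉ C := by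
  have hu : un ({A, B, C} : Finset (Finset V)) = (A ∪ B) ∪ C := by
    ext x
    simp [un]
  rw [hu] at h6
  have e1 := card_union_add_card_inter A B
  have e2 := card_union_add_card_inter (A ∪ B) C
  have e3 : (A ∪ B) ∩ C = (A ∩ C) ∪ (B ∩ C) := union_inter_distrib_right A B C
  have e4 := card_union_le (A ∩ C) (B ∩ C)
  have l1 := h.lin A hA B hB hAB
  have l2 := h.lin A hA C hC hAC
  have l3 := h.lin B hB C hC hBC
  rw [h.h3 A hA, h.h3 B hB] at e1
  rw [h6, h.h3 C hC, e3] at e2
  have hpos : 0 < (A ∩ B).card := by omega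
  obtain ⟨x, hx⟩ := card_pos.1 hpos
  rw [mem_inter] at hx
  refine ⟨x, hx.1, hx.2, fun hxC => ?_⟩
  have s1 : A ∩ C = {x} := by
    apply (eq_of_subset_of_card_le _ _).symm
    · intro y hy
      rw [mem_singleton] at hy
      subst hy
      exact mem_inter.2 ⟨hx.1, hxC⟩
    · rw [card_singleton]; exact l2
  have s2 : B ∩ C = {x} := by
    apply (eq_of_subset_of_card_le _ _).symm
    · intro y hy
      rw [mem_singleton] at hy
      subst hy
      exact mem_inter.2 ⟨hx.2, hxC⟩
    · rw [card_singleton]; exact l3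
  rw [s1, s2, union_self, card_singleton] at e2
  omega

lemma x1_third {τ : Finset (Finset V)} (h3 : τ.card = 3) {n m : Finset V} (hn : n ∈ τ)
    (hm : m ∈ τ) (hnm : n ≠ m) : ∃ l, l ∈ τ ∧ l ≠ n ∧ l ≠ m ∧ τ = {n, m, l} := by
  have h1 : ((τ.erase n).erase m).card = 1 := by
    rw [card_erase_of_mem (mem_erase.2 ⟨hnm.symm, hm⟩), card_erase_of_mem hn, h3]
  obtain ⟨l, hl⟩ := card_eq_one.1 h1
  have hl' : l ∈ (τ.erase n).erase m := by rw [hl]; simp
  rw [mem_erase, mem_erase] at hl'
  refine ⟨l, hl'.2.2, hl'.2.1, hl'.1, ?_⟩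
  rw [← insert_erase hn, ← insert_erase (mem_erase.2 ⟨hnm.symm, hm⟩), hl]

/-- Let `S` be a nonempty set of angles of a grown linear triple system that contains with one
angle of a triangle all its angles. Then twice the number of its triangles is less than the number
of its angles plus the number of its faces. -/
theorem X1 {F : Finset (Finset V)} {S : Finset (Finset (Finset V))} (hF : Lin F) (hG : Grown F)
    (hS : S ⊆ angles F) (hcl : TriClosed F S) (hne : S.Nonempty) :
    2 * (trisOf F S).card + 1 ≤ S.card + (facesOf F S).card := by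
  classical
  induction hG generalizing S with
  | empty =>
    obtain ⟨s, hs⟩ := hne
    have h1 := mem_angles.1 (hS hs)
    have h2 : s = ∅ := subset_empty.1 h1.1
    rw [h2] at h1
    simp at h1
  | @step F' n hG' hn ih =>
    obtain ⟨p, hp⟩ := hn
    rw [mem_sdiff] at hp
    have hpF : ∀ l ∈ F', p ∉ l := fun l hl hpl => hp.2 (x1_mem_un.2 ⟨l, hl, hpl⟩)
    have hnF : n ∉ F' := fun h => hpF n h hp.1
    have hF' : Lin F' := hF.mono (subset_insert _ _)
    have hnI : n ∈ insert n F' := mem_insert_self _ _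
    have hn3 : n.card = 3 := hF.h3 n hnI
    have hsub : ∀ s : Finset (Finset V), s ⊆ insert n F' → n ∉ s → s ⊆ F' := by
      intro s hs hns l hl
      rcases mem_insert.1 (hs hl) with h | h
      · subst h; exact absurd hl hns
      · exact h
    -- the pieces
    obtain ⟨S', hS'def⟩ : ∃ S', S' = S.filter (fun s => ¬ n ∈ s) := ⟨_, rfl⟩
    obtain ⟨Q, hQdef⟩ : ∃ Q, Q = S.filter (fun s => n ∈ s) := ⟨_, rfl⟩
    obtain ⟨M, hMdef⟩ : ∃ M, M = F'.filter (fun m => ({n, m} : Finset (Finset V)) ∈ S) := ⟨_, rfl⟩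
    obtain ⟨N, hNdef⟩ : ∃ N, N = (trisOf (insert n F') S).filter (fun τ => n ∈ τ) := ⟨_, rfl⟩
    have hS' : S' ⊆ angles F' := by
      intro s hs
      rw [hS'def, mem_filter] at hs
      have h1 := mem_angles.1 (hS hs.1)
      exact mem_angles.2 ⟨hsub s h1.1 hs.2, h1.2⟩
    have hanF : angles F' ⊆ angles (insert n F') := by
      intro s hs
      have h1 := mem_angles.1 hs
      exact mem_angles.2 ⟨h1.1.trans (subset_insert _ _), h1.2⟩
    have htrF : tris F' ⊆ tris (insert n F') := by
      intro s hs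
      have h1 := mem_tris.1 hs
      exact mem_tris.2 ⟨h1.1.trans (subset_insert _ _), h1.2⟩
    have hcl' : TriClosed F' S' := by
      intro τ hτ s hs hsτ s' hs' hs'τ
      rw [hS'def, mem_filter] at hs
      have h1 : s' ∈ S := hcl τ (htrF hτ) s hs.1 hsτ s' (hanF hs') hs'τ
      rw [hS'def, mem_filter]
      refine ⟨h1, fun hns => hnF ((mem_angles.1 hs').1 hns)⟩
    have hcardS : S.card = S'.card + Q.card := by
      have := card_filter_add_card_filter_not (s := S) (fun s => n ∈ s)
      rw [hS'def, hQdef]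
      omega
    have hcardQ : Q.card = M.card := by
      have h1 : Q = M.image (fun m => ({n, m} : Finset (Finset V))) := by
        ext s
        rw [hQdef, mem_filter, mem_image]
        constructor
        · rintro ⟨hs, hns⟩
          have h1 := mem_angles.1 (hS hs)
          obtain ⟨m, hm⟩ : ∃ m, s.erase n = {m} :=
            card_eq_one.1 (by rw [card_erase_of_mem hns, h1.2.1])
          have hmm : m ∈ s.erase n := by rw [hm]; simp
          rw [mem_erase] at hmm
          have hse : ({n, m} : Finset (Finset V)) = s := by rw [← hm, insert_erase hns]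
          refine ⟨m, ?_, hse⟩
          rw [hMdef, mem_filter]
          refine ⟨(mem_insert.1 (h1.1 hmm.2)).resolve_left hmm.1, ?_⟩
          rw [hse]; exact hs
        · rintro ⟨m, hm, rfl⟩
          rw [hMdef, mem_filter] at hm
          exact ⟨hm.2, by simp⟩
      rw [h1, card_image_of_injOn]
      intro a ha b hb hab
      have ha' : a ∈ F' := by
        rw [mem_coe, hMdef, mem_filter] at ha; exact ha.1
      have hane : a ≠ n := fun h => hnF (h ▸ ha')
      have h2 : a ∈ ({n, b} : Finset (Finset V)) := by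
        have : a ∈ ({n, a} : Finset (Finset V)) := by simp
        simpa [hab] using (show a ∈ (fun m => ({n, m} : Finset (Finset V))) b by
          rw [← hab]; simp)
      rw [mem_insert, mem_singleton] at h2
      exact h2.resolve_left hane
    have hT : (trisOf (insert n F') S).card ≤ (trisOf F' S').card + N.card := by
      have h1 := card_filter_add_card_filter_not (s := trisOf (insert n F') S) (fun τ => n ∈ τ)
      have h2 : ((trisOf (insert n F') S).filter (fun τ => ¬ n ∈ τ)).card ≤
          (trisOf F' S').card := by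
        apply card_le_card
        intro τ hτ
        rw [mem_filter, trisOf, mem_filter] at hτ
        obtain ⟨⟨hτ1, s, hs, hsτ⟩, hnτ⟩ := hτ
        have h3 := mem_tris.1 hτ1
        rw [trisOf, mem_filter]
        refine ⟨mem_tris.2 ⟨hsub τ h3.1 hnτ, h3.2⟩, s, ?_, hsτ⟩
        rw [hS'def, mem_filter]
        exact ⟨hs, fun h => hnτ (hsτ h)⟩
      rw [hNdef]
      omega
    -- the lines of new triangles
    have hNτ : ∀ τ ∈ N, τ ⊆ insert n F' ∧ τ.card = 3 ∧ (un τ).card = 6 ∧ n ∈ τ ∧
        ∀ m ∈ τ, m ≠ n → m ∈ M := by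
      intro τ hτ
      rw [hNdef, mem_filter, trisOf, mem_filter] at hτ
      obtain ⟨⟨hτ1, s, hs, hsτ⟩, hnτ⟩ := hτ
      have h3 := mem_tris.1 hτ1
      refine ⟨h3.1, h3.2.1, h3.2.2, hnτ, ?_⟩
      intro m hm hmn
      rw [hMdef, mem_filter]
      have hmF : m ∈ F' := (mem_insert.1 (h3.1 hm)).resolve_left hmn
      refine ⟨hmF, ?_⟩
      obtain ⟨l, hlτ, hln, hlm, hτe⟩ := x1_third h3.2.1 hnτ hm hmn.symm
      have h6 := h3.2.2
      rw [hτe] at h6
      obtain ⟨x, hx1, hx2, -⟩ := x1_meet hF hnI (h3.1 hm) (h3.1 hlτ) hmn.symm hln.symm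
        hlm.symm h6
      refine hcl τ hτ1 s hs hsτ _ (hF.pair_mem_angles.2 ⟨hnI, h3.1 hm, hmn.symm, x, hx1, hx2⟩) ?_
      intro A hA
      rw [mem_insert, mem_singleton] at hA
      rcases hA with rfl | rfl <;> assumption
    have hdouble : ∑ m ∈ M, (N.filter (fun τ => m ∈ τ)).card = 2 * N.card := by
      have h1 := sum_card_bipartiteAbove_eq_sum_card_bipartiteBelow (s := M) (t := N)
        (fun m τ => m ∈ τ)
      simp only [bipartiteAbove, bipartiteBelow] at h1
      rw [h1, mul_comm, ← smul_eq_mul, ← sum_const]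
      apply sum_congr rfl
      intro τ hτ
      obtain ⟨h2, h3, h4, h5, h6⟩ := hNτ τ hτ
      have h7 : M.filter (fun m => m ∈ τ) = τ.erase n := by
        ext m
        rw [mem_filter, mem_erase]
        constructor
        · rintro ⟨hm, hmτ⟩
          refine ⟨?_, hmτ⟩
          rintro rfl
          rw [hMdef, mem_filter] at hm
          exact hnF hm.1
        · rintro ⟨hmn, hmτ⟩
          exact ⟨h6 m hmτ hmn, hmτ⟩
      rw [h7, card_erase_of_mem h5, h3]
    -- the degree of a line
    obtain ⟨D, hDdef⟩ : ∃ D, D = M.filter (fun m => 2 ≤ (N.filter (fun τ => m ∈ τ)).card) :=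
      ⟨_, rfl⟩
    have hkey : ∀ m ∈ M, (N.filter (fun τ => m ∈ τ)).card ≤ 2 ∧
        (2 ≤ (N.filter (fun τ => m ∈ τ)).card → ∃ v, (v, m) ∈ facesOf (insert n F') S ∧
          (v, m) ∉ facesOf F' S') := by
      intro m hm
      have hmM := hm
      rw [hMdef, mem_filter] at hm
      obtain ⟨hmF, hmS⟩ := hm
      obtain ⟨-, hmI, hnm, x, hxn, hxm⟩ := hF.pair_mem_angles.1 (hS hmS)
      have hm3 : m.card = 3 := hF.h3 m hmI
      have hpx : p ≠ x := fun h => hpF m hmF (h ▸ hxm)
      obtain ⟨v, hv⟩ : ∃ v, (n.erase p).erase x = {v} := by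
        apply card_eq_one.1
        rw [card_erase_of_mem (mem_erase.2 ⟨hpx.symm, hxn⟩), card_erase_of_mem hp.1, hn3]
      have hvmem : v ∈ (n.erase p).erase x := by rw [hv]; simp
      rw [mem_erase, mem_erase] at hvmem
      obtain ⟨hvx, hvp, hvn⟩ := hvmem
      have huniq : ∀ y ∈ n, y ≠ p → y ≠ x → y = v := by
        intro y hy h1 h2
        have : y ∈ (n.erase p).erase x := mem_erase.2 ⟨h2, mem_erase.2 ⟨h1, hy⟩⟩
        rw [hv, mem_singleton] at this
        exact this
      have hvm : v ∉ m := fun h => hnm (hF.eq_of_two hnI hmI hvx hvn hxn h hxm)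
      -- description of triangles through n and m
      have hdesc : ∀ τ ∈ N.filter (fun τ => m ∈ τ), ∃ l ∈ F', τ = {n, m, l} ∧ v ∈ l ∧
          ∃ a ∈ m.erase x, a ∈ l := by
        intro τ hτ
        rw [mem_filter] at hτ
        obtain ⟨h2, h3, h4, h5, h6⟩ := hNτ τ hτ.1
        obtain ⟨l, hlτ, hln, hlm, hτe⟩ := x1_third h3 h5 hτ.2 hnm
        have hlF : l ∈ F' := (mem_insert.1 (h2 hlτ)).resolve_left hln
        have hlI := h2 hlτ
        have h4' := h4
        rw [hτe] at h4'
        have h4'' : (un ({n, l, m} : Finset (Finset V))).card = 6 := by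
          rw [← h4']; congr 2; ext y; simp only [mem_insert, mem_singleton]; tauto
        have h4''' : (un ({m, l, n} : Finset (Finset V))).card = 6 := by
          rw [← h4']; congr 2; ext y; simp only [mem_insert, mem_singleton]; tauto
        obtain ⟨y, hy1, hy2, hy3⟩ := x1_meet hF hnI hlI hmI hln.symm hnm hlm h4''
        obtain ⟨a, ha1, ha2, ha3⟩ := x1_meet hF hmI hlI hnI hlm.symm hnm.symm hln h4'''
        have hyv : y = v := by
          apply huniq y hy1
          · rintro rfl; exact hpF l hlF hy2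
          · rintro rfl; exact hy3 hxm
        refine ⟨l, hlF, hτe, hyv ▸ hy2, a, mem_erase.2 ⟨?_, ha1⟩, ha2⟩
        rintro rfl
        exact ha3 hxn
      have hmx : (m.erase x).card = 2 := by rw [card_erase_of_mem hxm, hm3]
      have hle : (N.filter (fun τ => m ∈ τ)).card ≤
          ((m.erase x).filter (fun a => ∃ l ∈ F', v ∈ l ∧ a ∈ l)).card := by
        apply card_le_card_of_forall_subsingleton
          (fun τ a => ∃ l ∈ F', τ = {n, m, l} ∧ v ∈ l ∧ a ∈ l)
        · intro τ hτ
          obtain ⟨l, hl, hτe, hvl, a, ha, hal⟩ := hdesc τ hτ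
          exact ⟨a, mem_filter.2 ⟨ha, l, hl, hvl, hal⟩, l, hl, hτe, hvl, hal⟩
        · intro a ha τ₁ h₁ τ₂ h₂
          obtain ⟨-, l₁, hl₁, hτ₁, hv₁, ha₁⟩ := h₁
          obtain ⟨-, l₂, hl₂, hτ₂, hv₂, ha₂⟩ := h₂
          have hav : a ≠ v := by
            rintro rfl
            rw [mem_filter, mem_erase] at ha
            exact hvm ha.1.2
          have : l₁ = l₂ := hF'.eq_of_two hl₁ hl₂ hav ha₁ hv₁ ha₂ hv₂
          rw [hτ₁, hτ₂, this]
      have hle2 : ((m.erase x).filter (fun a => ∃ l ∈ F', v ∈ l ∧ a ∈ l)).card ≤ 2 := by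
        rw [← hmx]; exact card_le_card (filter_subset _ _)
      refine ⟨hle.trans hle2, fun h2 => ⟨v, ?_, ?_⟩⟩
      · have heq : (m.erase x).filter (fun a => ∃ l ∈ F', v ∈ l ∧ a ∈ l) = m.erase x :=
          eq_of_subset_of_card_le (filter_subset _ _) (by rw [hmx]; exact h2.trans hle)
        rw [facesOf, mem_filter]
        refine ⟨?_, {n, m}, hmS, by simp, ?_⟩
        · rw [faces, mem_filter, mem_product]
          refine ⟨⟨x1_mem_un.2 ⟨n, hnI, hvn⟩, hmI⟩, hvm, ?_⟩
          intro y hy
          by_cases hyx : y = x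
          · subst hyx
            exact ⟨n, hnI, hvn, hxn⟩
          · have : y ∈ (m.erase x).filter (fun a => ∃ l ∈ F', v ∈ l ∧ a ∈ l) := by
              rw [heq]; exact mem_erase.2 ⟨hyx, hy⟩
            rw [mem_filter] at this
            obtain ⟨-, l, hl, hvl, hyl⟩ := this
            exact ⟨l, mem_insert_of_mem hl, hvl, hyl⟩
        · show v ∈ un ({n, m} : Finset (Finset V))
          rw [un_pair]
          exact mem_union_left _ hvn
      · intro hf
        rw [facesOf, mem_filter, faces, mem_filter] at hf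
        obtain ⟨⟨-, -, hsee⟩, -⟩ := hf
        obtain ⟨l, hl, hvl, hxl⟩ := hsee x hxm
        have : l = n := hF.eq_of_two (mem_insert_of_mem hl) hnI hvx hvl hxl hvn hxn
        exact hnF (this ▸ hl)
    have hface : (facesOf F' S').card + D.card ≤ (facesOf (insert n F') S).card := by
      have hsubf : facesOf F' S' ⊆ facesOf (insert n F') S := by
        intro q hq
        rw [facesOf, mem_filter, faces, mem_filter, mem_product] at hq
        obtain ⟨⟨⟨h1, h2⟩, h3, h4⟩, s, hs, h5, h6⟩ := hq
        rw [facesOf, mem_filter, faces, mem_filter, mem_product]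
        obtain ⟨A, hA, hqA⟩ := x1_mem_un.1 h1
        refine ⟨⟨⟨x1_mem_un.2 ⟨A, mem_insert_of_mem hA, hqA⟩, mem_insert_of_mem h2⟩, h3, ?_⟩, s,
          ?_, h5, h6⟩
        · intro y hy
          obtain ⟨l, hl, h7⟩ := h4 y hy
          exact ⟨l, mem_insert_of_mem hl, h7⟩
        · rw [hS'def, mem_filter] at hs
          exact hs.1
      have h1 : D.card ≤ (facesOf (insert n F') S \ facesOf F' S').card := by
        refine le_trans (card_le_card ?_) (card_image_le (f := Prod.snd))
        intro m hm
        rw [hDdef, mem_filter] at hm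
        obtain ⟨v, hv1, hv2⟩ := (hkey m hm.1).2 hm.2
        exact mem_image.2 ⟨(v, m), mem_sdiff.2 ⟨hv1, hv2⟩, rfl⟩
      rw [card_sdiff_of_subset hsubf] at h1
      have := card_le_card hsubf
      omega
    have hsum : 2 * N.card ≤ M.card + D.card := by
      rw [← hdouble, hDdef, card_filter, card_eq_sum_ones, ← sum_add_distrib]
      apply sum_le_sum
      intro m hm
      have h1 := (hkey m hm).1
      split_ifs with h2 <;> omega
    by_cases hS'e : S'.Nonempty
    · have := ih hF' hS' hcl' hS'e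
      omega
    · rw [not_nonempty_iff_eq_empty] at hS'e
      have hN0 : N = ∅ := by
        rw [eq_empty_iff_forall_notMem]
        intro τ hτ
        obtain ⟨h2, h3, h4, h5, h6⟩ := hNτ τ hτ
        -- the two other lines form an angle of S'
        obtain ⟨m, hm⟩ : (τ.erase n).Nonempty := by
          rw [← card_pos, card_erase_of_mem h5, h3]; norm_num
        rw [mem_erase] at hm
        obtain ⟨l, hlτ, hln, hlm, hτe⟩ := x1_third h3 h5 hm.2 hm.1.symm
        rw [hNdef, mem_filter, trisOf, mem_filter] at hτ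
        obtain ⟨⟨hτ1, s, hs, hsτ⟩, -⟩ := hτ
        have h4''' : (un ({m, l, n} : Finset (Finset V))).card = 6 := by
          rw [← h4, hτe]; congr 2; ext y; simp only [mem_insert, mem_singleton]; tauto
        obtain ⟨a, ha1, ha2, ha3⟩ := x1_meet hF (h2 hm.2) (h2 hlτ) hnI hlm.symm hm.1 hln h4'''
        have hang : ({m, l} : Finset (Finset V)) ∈ S := by
          refine hcl τ hτ1 s hs hsτ _
            (hF.pair_mem_angles.2 ⟨h2 hm.2, h2 hlτ, hlm.symm, a, ha1, ha2⟩) ?_
          intro A hA
          rw [mem_insert, mem_singleton] at hA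
          rcases hA with rfl | rfl
          · exact hm.2
          · exact hlτ
        have : ({m, l} : Finset (Finset V)) ∈ S' := by
          rw [hS'def, mem_filter]
          refine ⟨hang, ?_⟩
          rw [mem_insert, mem_singleton]
          push Not
          exact ⟨hm.1.symm, hln.symm⟩
        rw [hS'e] at this
        simp at this
      have hT' : (trisOf F' S').card = 0 := by
        rw [hS'e, trisOf, card_eq_zero, filter_eq_empty_iff]
        intro τ _ h
        obtain ⟨s, hs, _⟩ := h
        simp at hs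
      have hpos := card_pos.2 hne
      rw [hN0, card_empty] at hT
      omega

end Pool.Agent.Helper74K9.BES
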