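import Pool.Agent.Helper74K9.BES.X2b

/-!
# The inequality X2
-/

set_option autoImplicit false

namespace Pool.Agent.Helper74K9.BES

open Finset Pool.Agent.W848 Pool.Agent.W848.TreeAvg

variable {V : Type*} [DecidableEq V] {F : Finset (Finset V)} {S : Finset (Finset (Finset V))}
  {τ s : Finset (Finset V)}

lemma multi_off (h : Lin F) (hτ : τ ∈ tris F) {B : Finset V} (hB : B ∈ τ) {x x' : V}
    (hx : x ∈ multi τ) (hx' : x' ∈ multi τ) (hxB : x ∉ B) (hxB' : x' ∉ B) : x = x' := by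
  by_contra hne
  have h1 := h.tri_inner_one hτ hB
  have h2 := h.tri_multi_card hτ
  have h3 : ({x, x'} : Finset V) ∪ (B ∩ multi τ) ⊆ multi τ := by
    refine union_subset ?_ inter_subset_right
    intro p hp
    simp only [mem_insert, mem_singleton] at hp
    rcases hp with rfl | rfl <;> assumption
  have h4 : Disjoint ({x, x'} : Finset V) (B ∩ multi τ) := by
    rw [disjoint_left]
    intro p hp hpB
    simp only [mem_insert, mem_singleton] at hp
    rcases hp with rfl | rfl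
    · exact hxB (mem_inter.1 hpB).1
    · exact hxB' (mem_inter.1 hpB).1
  have h5 := card_le_card h3
  rw [card_union_of_disjoint h4, card_pair hne] at h5
  omega

lemma two_sub {A B n : Finset V} {s' : Finset (Finset V)}
    (hs : s' ∈ ({A, B, n} : Finset (Finset V)).powersetCard 2) (hB : B ∈ s') :
    s' = {A, B} ∨ s' = {B, n} := by
  rw [mem_powersetCard] at hs
  have h1 : (s'.erase B).card = 1 := by rw [card_erase_of_mem hB, hs.2]
  obtain ⟨D, hD⟩ := card_eq_one.1 h1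
  have hD' : D ∈ s'.erase B := by rw [hD]; simp
  rw [mem_erase] at hD'
  have hse : s' = {B, D} := by rw [← insert_erase hB, hD]
  have h2 := hs.1 hD'.2
  simp only [mem_insert, mem_singleton] at h2
  rcases h2 with hh | hh | hh
  · left; rw [hse, hh, pair_comm]
  · exact absurd hh hD'.1
  · right; rw [hse, hh]

lemma mem_trisOf {τ : Finset (Finset V)} :
    τ ∈ trisOf F S ↔ τ ∈ tris F ∧ ∃ s ∈ S, s ⊆ τ := by
  unfold trisOf
  rw [mem_filter]

/-- the data attached to a loose triangle -/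
def LD (F : Finset (Finset V)) (τ ρ : Finset (Finset V)) : Prop :=
  ρ ≠ τ ∧ ∃ B ∈ τ, ∃ x ∈ multi τ, Sees F x B ∧ (∀ s ∈ τ.powersetCard 2, B ∈ s → on F s = 0) ∧
    FaceT F x B ρ

/-- one half of the connectivity of a face -/
lemma half (h : Lin F) (E : Finset (Finset V) → Finset (Finset V) → Prop)
    (f : Finset (Finset V) → Finset (Finset V))
    (e1 : ∀ s ∈ S, 1 ≤ on F s → ∀ τ ∈ trisOf F S, ∀ τ' ∈ trisOf F S, s ⊆ τ → s ⊆ τ' → E τ τ')
    (e2 : ∀ τ ∈ trisOf F S, Loose F τ → E τ (f τ))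
    (hf : ∀ τ ∈ trisOf F S, Loose F τ → LD F τ (f τ)) {A B n n' : Finset V} {x : V}
    (hon : on F {A, B} = 0) (hBn : ({B, n} : Finset (Finset V)) ∈ S)
    (hsee : Sees F x B) (hxτ : x ∈ multi ({A, B, n} : Finset (Finset V)))
    (hτ : ({A, B, n} : Finset (Finset V)) ∈ trisOf F S)
    (hτ'' : ({B, n, n'} : Finset (Finset V)) ∈ trisOf F S)
    (hall : ∀ ρ, FaceT F x B ρ → ρ = {A, B, n} ∨ ρ = {A, B, n'} ∨ ρ = {B, n, n'}) :
    E {A, B, n} {B, n, n'} ∨ E {A, B, n} {A, B, n'} := by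
  by_cases hpos : 1 ≤ on F {B, n}
  · left
    refine e1 _ hBn hpos _ hτ _ hτ'' ?_ ?_
    · intro D hD; simp only [mem_insert, mem_singleton] at hD ⊢; tauto
    · intro D hD; simp only [mem_insert, mem_singleton] at hD ⊢; tauto
  · have hzero : on F {B, n} = 0 := by omega
    have hτF := (mem_trisOf.1 hτ).1
    have hloose : Loose F {A, B, n} := by
      refine ⟨B, by simp, x, hxτ, hsee, ?_⟩
      intro s' hs' hBs'
      rcases two_sub hs' hBs' with hh | hh
      · rw [hh]; exact hon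
      · rw [hh]; exact hzero
    have h1 := e2 _ hτ hloose
    obtain ⟨hne, B', hB', x', hx', hsee', hon', hface⟩ := hf _ hτ hloose
    have hBB : B' = B := by
      by_contra hBB
      have k1 := two_bases h hτF (B := B) (C := B') (by simp) hB' (Ne.symm hBB) hxτ hx' hsee hsee'
      have k2 := hon' {B, B'} (mem_powersetCard.2 ⟨by
        intro D hD
        rw [mem_insert, mem_singleton] at hD
        rcases hD with rfl | rfl
        · simp
        · exact hB', card_pair (Ne.symm hBB)⟩) (by simp)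
      omega
    subst hBB
    have hxx : x' = x := multi_off h hτF hB' hx' hxτ hsee'.1 hsee.1
    subst hxx
    rcases hall _ hface with hh | hh | hh
    · exact absurd hh hne
    · right; rw [hh] at h1; exact h1
    · left; rw [hh] at h1; exact h1

/-- triangles at a common angle are connected -/
lemma conn_step (h : Lin F) (hS : S ⊆ angles F) (hcl : TriClosed F S)
    (E : Finset (Finset V) → Finset (Finset V) → Prop) (hE : Equivalence E)
    (f : Finset (Finset V) → Finset (Finset V))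
    (e1 : ∀ s ∈ S, 1 ≤ on F s → ∀ τ ∈ trisOf F S, ∀ τ' ∈ trisOf F S, s ⊆ τ → s ⊆ τ' → E τ τ')
    (e2 : ∀ τ ∈ trisOf F S, Loose F τ → E τ (f τ))
    (hf : ∀ τ ∈ trisOf F S, Loose F τ → LD F τ (f τ)) :
    ∀ s ∈ S, ∀ τ ∈ trisOf F S, ∀ τ' ∈ trisOf F S, s ⊆ τ → s ⊆ τ' → E τ τ' := by
  intro s hs τ hτ τ' hτ' hsτ hsτ'
  by_cases hpos : 1 ≤ on F s
  · exact e1 s hs hpos τ hτ τ' hτ' hsτ hsτ'
  by_cases hne : τ = τ'
  · rw [hne]; exact hE.refl _
  have hzero : on F s = 0 := by omega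
  have hτF := (mem_trisOf.1 hτ).1
  have hτF' := (mem_trisOf.1 hτ').1
  have core : ∀ A B : Finset V, ∀ x : V, s = {A, B} → x ∈ A → Sees F x B → x ∈ multi τ →
      x ∈ multi τ' → E τ τ' := by
    intro A B x hse hxA hsee hxτ hxτ'
    subst hse
    obtain ⟨n, n', hBn, hBn', hAn, hAn', hnn, hτe, hτe', hface, hall⟩ :=
      face_struct h hxA hsee (hS hs) hτF hτF' hsτ hsτ' hne hxτ hxτ'
    subst hτe
    subst hτe'
    have m1 : ({B, n} : Finset (Finset V)) ∈ S := hcl _ hτF _ hs hsτ _ (h.tri_pair hτF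
      (by intro D hD; simp only [mem_insert, mem_singleton] at hD ⊢; tauto) (card_pair hBn))
      (by intro D hD; simp only [mem_insert, mem_singleton] at hD ⊢; tauto)
    have m2 : ({B, n'} : Finset (Finset V)) ∈ S := hcl _ hτF' _ hs hsτ' _ (h.tri_pair hτF'
      (by intro D hD; simp only [mem_insert, mem_singleton] at hD ⊢; tauto) (card_pair hBn'))
      (by intro D hD; simp only [mem_insert, mem_singleton] at hD ⊢; tauto)
    have hτ'' : ({B, n, n'} : Finset (Finset V)) ∈ trisOf F S :=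
      mem_trisOf.2 ⟨hface.1, _, m1, by
        intro D hD; simp only [mem_insert, mem_singleton] at hD ⊢; tauto⟩
    have a1 := half h E f e1 e2 hf (A := A) (B := B) (n := n) (n' := n') hzero m1 hsee hxτ hτ hτ''
      hall
    have e3 : ({B, n', n} : Finset (Finset V)) = {B, n, n'} := by rw [pair_comm n' n]
    have a2 := half h E f e1 e2 hf (A := A) (B := B) (n := n') (n' := n) hzero m2 hsee hxτ' hτ'
      (by rw [e3]; exact hτ'') (by
        intro ρ hρ
        rw [e3]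
        rcases hall ρ hρ with hh | hh | hh
        · exact Or.inr (Or.inl hh)
        · exact Or.inl hh
        · exact Or.inr (Or.inr hh))
    rw [e3] at a2
    rcases a1 with a1 | a1
    · rcases a2 with a2 | a2
      · exact hE.trans a1 (hE.symm a2)
      · exact hE.symm a2
    · exact a1
  obtain ⟨A, B, hAB, rfl⟩ := card_eq_two.1 (mem_angles.1 (hS hs)).2.1
  rcases share h (hS hs) hzero hτF hτF' hsτ hsτ' hne with ⟨x, k1, k2, k3, k4⟩ | ⟨x, k1, k2, k3, k4⟩
  · exact core A B x rfl k3 k4 k1 k2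
  · exact core B A x (pair_comm A B) k3 k4 k1 k2

/-- **X2** -/
theorem X2 (hF : Lin F) (hS : S ⊆ angles F) (hcl : TriClosed F S)
    (hconn : TriConn F S) (hne : S.Nonempty) :
    S.card + 3 * (facesOf F S).card ≤
      3 * (trisOf F S).card + 1 + ∑ τ ∈ trisOf F S, (dl F τ - 1) := by
  classical
  rcases (trisOf F S).eq_empty_or_nonempty with hT | hT
  · -- a single angle
    have hno : ∀ s ∈ S, ∀ τ ∈ tris F, ¬ s ⊆ τ := by
      intro s hs τ hτ hsτ
      have : τ ∈ trisOf F S := mem_trisOf.2 ⟨hτ, s, hs, hsτ⟩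
      rw [hT] at this
      simp at this
    have hS1 : S.card ≤ 1 := by
      rw [card_le_one]
      intro a ha b hb
      rcases Relation.ReflTransGen.cases_head (hconn a ha b hb) with rfl | ⟨c, ⟨-, -, τ, hτ, h1, -⟩, -⟩
      · rfl
      · exact absurd h1 (hno a ha τ hτ)
    have hfn : ∑ s ∈ S, fn F s = 3 * (facesOf F S).card := sum_fn_eq hF hS hcl
    have hY : (facesOf F S).card = 0 := by
      rw [card_eq_zero, eq_empty_iff_forall_notMem]
      rintro ⟨x, l⟩ hp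
      unfold facesOf faces at hp
      rw [mem_filter, mem_filter, mem_product] at hp
      obtain ⟨⟨⟨hx, hl⟩, hsee⟩, s, hs, hls, hxs⟩ := hp
      dsimp only at hx hl hsee hls hxs
      obtain ⟨A, hA, hxA⟩ := mem_un.1 hxs
      have hAl : A ≠ l := by rintro rfl; exact hsee.1 hxA
      have hsF := mem_angles.1 (hS hs)
      have hse : s = {A, l} := by
        refine (eq_of_subset_of_card_le ?_ (by rw [hsF.2.1, card_pair hAl])).symm
        intro D hD
        simp only [mem_insert, mem_singleton] at hD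
        rcases hD with rfl | rfl <;> assumption
      subst hse
      obtain ⟨w, x₁, x₂, hw⟩ := card_eq_three.1 (hF.h3 l hl)
      obtain ⟨hAF, hlF, -, y, hyA, hyl⟩ := hF.pair_mem_angles.1 (hS hs)
      -- a point of `l` off `A`
      obtain ⟨z, hz⟩ := card_pos.1 (show 0 < (l \ A).card by
        have h1 := card_sdiff_add_card_inter l A
        have h2 := hF.lin l hlF A hAF hAl.symm
        have h3 := hF.h3 l hlF
        omega)
      rw [mem_sdiff] at hz
      obtain ⟨m, hm, hxm, hzm⟩ := hsee.2 z hz.1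
      have hAm : A ≠ m := by rintro rfl; exact hz.2 hzm
      have hlm : l ≠ m := by rintro rfl; exact hsee.1 hxm
      have hxy : x ≠ y := by rintro rfl; exact hsee.1 hyl
      have hym : y ∉ m := fun hh => hAm (hF.eq_of_two hAF hm hxy hxA hyA hxm hh)
      have htri : ({A, l, m} : Finset (Finset V)) ∈ tris F :=
        hF.tri_mem hAF hlF hm hAl hAm hlm hyA hyl hym hz.1 hzm hxA hxm
      exact hno _ hs _ htri (by
        intro D hD; simp only [mem_insert, mem_singleton] at hD ⊢; tauto)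
    rw [hY]
    omega
  -- every angle is in a triangle
  have ht : ∀ s ∈ S, 1 ≤ tn F s := by
    intro s hs
    obtain ⟨τ, hτ⟩ := hT
    obtain ⟨hτF, s', hs', hs'τ⟩ := mem_trisOf.1 hτ
    unfold tn
    rcases Relation.ReflTransGen.cases_head (hconn s hs s' hs') with rfl | ⟨b, ⟨h1, h2, σ, hσ, h3, h4⟩, -⟩
    · exact card_pos.2 ⟨τ, mem_filter.2 ⟨hτF, hs'τ⟩⟩
    · exact card_pos.2 ⟨σ, mem_filter.2 ⟨hσ, h3⟩⟩
  -- choose the spare edges
  have hch : ∀ τ : Finset (Finset V), ∃ ρ, τ ∈ trisOf F S → Loose F τ →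
      LD F τ ρ ∧ ρ ∈ trisOf F S := by
    intro τ
    by_cases hτ : τ ∈ trisOf F S ∧ Loose F τ
    · obtain ⟨hτ, hl⟩ := hτ
      obtain ⟨B, hB, x, hx, hsee, hon⟩ := hl
      obtain ⟨hτF, s, hs, hsτ⟩ := mem_trisOf.1 hτ
      obtain ⟨ρ, hρ, hρτ, s', hs'τ, hs'ρ, hs'2⟩ := face_other hF hτF hB hx hsee
      refine ⟨ρ, fun _ _ => ⟨⟨hρτ, B, hB, x, hx, hsee, hon, hρ⟩, ?_⟩⟩
      exact mem_trisOf.2 ⟨hρ.1, s', hcl τ hτF s hs hsτ s' (hF.tri_pair hτF hs'τ hs'2) hs'τ, hs'ρ⟩
    · exact ⟨∅, fun h1 h2 => absurd ⟨h1, h2⟩ hτ⟩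
  choose f hf using hch
  -- the graph
  set N := S.filter (fun s => 1 ≤ on F s) with hN
  set T := trisOf F S with hTdef
  set P := (N ×ˢ T).filter (fun p => p.1 ⊆ p.2) with hP
  set L := T.filter (fun τ => Loose F τ) with hL
  let a : (P ⊕ L) → (N ⊕ T) := fun i => match i with
    | Sum.inl p => Sum.inl ⟨p.1.1, (mem_product.1 (mem_filter.1 p.2).1).1⟩
    | Sum.inr l => Sum.inr ⟨l.1, (mem_filter.1 l.2).1⟩
  let b : (P ⊕ L) → (N ⊕ T) := fun i => match i with
    | Sum.inl p => Sum.inr ⟨p.1.2, (mem_product.1 (mem_filter.1 p.2).1).2⟩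
    | Sum.inr l => Sum.inr ⟨f l.1, (hf l.1 (mem_filter.1 l.2).1 (mem_filter.1 l.2).2).2⟩
  let R : (N ⊕ T) → (N ⊕ T) → Prop := fun x y => ∃ i, a i = x ∧ b i = y
  let E : Finset (Finset V) → Finset (Finset V) → Prop := fun τ τ' =>
    τ = τ' ∨ ∃ (h1 : τ ∈ T) (h2 : τ' ∈ T), Relation.EqvGen R (Sum.inr ⟨τ, h1⟩) (Sum.inr ⟨τ', h2⟩)
  have hE : Equivalence E := by
    refine ⟨fun _ => Or.inl rfl, ?_, ?_⟩
    · rintro x y (rfl | ⟨h1, h2, h3⟩)
      · exact Or.inl rfl
      · exact Or.inr ⟨h2, h1, Relation.EqvGen.symm _ _ h3⟩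
    · rintro x y z (rfl | ⟨h1, h2, h3⟩) (rfl | ⟨k1, k2, k3⟩)
      · exact Or.inl rfl
      · exact Or.inr ⟨k1, k2, k3⟩
      · exact Or.inr ⟨h1, h2, h3⟩
      · exact Or.inr ⟨h1, k2, Relation.EqvGen.trans _ _ _ h3 k3⟩
  have hinc : ∀ (s : Finset (Finset V)) (hs : s ∈ N) (τ : Finset (Finset V)) (hτ : τ ∈ T),
      s ⊆ τ → R (Sum.inl ⟨s, hs⟩) (Sum.inr ⟨τ, hτ⟩) := by
    intro s hs τ hτ hsτ
    exact ⟨Sum.inl ⟨(s, τ), mem_filter.2 ⟨mem_product.2 ⟨hs, hτ⟩, hsτ⟩⟩, rfl, rfl⟩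
  have e1 : ∀ s ∈ S, 1 ≤ on F s → ∀ τ ∈ trisOf F S, ∀ τ' ∈ trisOf F S, s ⊆ τ → s ⊆ τ' →
      E τ τ' := by
    intro s hs hpos τ hτ τ' hτ' h1 h2
    have hsN : s ∈ N := mem_filter.2 ⟨hs, hpos⟩
    refine Or.inr ⟨hτ, hτ', ?_⟩
    exact Relation.EqvGen.trans _ _ _
      (Relation.EqvGen.symm _ _ (Relation.EqvGen.rel _ _ (hinc s hsN τ hτ h1)))
      (Relation.EqvGen.rel _ _ (hinc s hsN τ' hτ' h2))
  have e2 : ∀ τ ∈ trisOf F S, Loose F τ → E τ (f τ) := by
    intro τ hτ hl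
    refine Or.inr ⟨hτ, (hf τ hτ hl).2, Relation.EqvGen.rel _ _ ?_⟩
    exact ⟨Sum.inr ⟨τ, mem_filter.2 ⟨hτ, hl⟩⟩, rfl, rfl⟩
  have hstep := conn_step hF hS hcl E hE f e1 e2 (fun τ hτ hl => (hf τ hτ hl).1)
  -- all triangles are connected
  have hall : ∀ τ ∈ T, ∀ τ' ∈ T, E τ τ' := by
    intro τ hτ τ' hτ'
    obtain ⟨hτF, s, hs, hsτ⟩ := mem_trisOf.1 hτ
    obtain ⟨hτF', s', hs', hsτ'⟩ := mem_trisOf.1 hτ'
    have key : ∀ b, Relation.ReflTransGen (TA F) s b → b ∈ S ∧ ∀ ρ ∈ T, b ⊆ ρ → E τ ρ := by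
      intro b hb
      induction hb with
      | refl => exact ⟨hs, fun ρ hρ hsρ => hstep s hs τ hτ ρ hρ hsτ hsρ⟩
      | tail _ hstp ih =>
        obtain ⟨ih1, ih2⟩ := ih
        obtain ⟨h1, h2, σ, hσ, h3, h4⟩ := hstp
        rename_i c d _
        have hdS : d ∈ S := hcl σ hσ c ih1 h3 d h2 h4
        refine ⟨hdS, fun ρ hρ hdρ => ?_⟩
        have hσT : σ ∈ T := mem_trisOf.2 ⟨hσ, c, ih1, h3⟩
        exact hE.trans (ih2 σ hσT h3) (hstep d hdS σ hσT ρ hρ h4 hdρ)
    exact (key s' (hconn s hs s' hs')).2 τ' hτ' hsτ'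
  have hTT : ∀ (τ : Finset (Finset V)) (hτ : τ ∈ T) (τ' : Finset (Finset V)) (hτ' : τ' ∈ T),
      Relation.EqvGen R (Sum.inr ⟨τ, hτ⟩) (Sum.inr ⟨τ', hτ'⟩) := by
    intro τ hτ τ' hτ'
    rcases hall τ hτ τ' hτ' with hh | ⟨h1, h2, h3⟩
    · subst hh
      exact Relation.EqvGen.refl _
    · exact h3
  have hNT : ∀ (s : Finset (Finset V)) (hs : s ∈ N), ∃ (τ : Finset (Finset V)) (hτ : τ ∈ T),
      Relation.EqvGen R (Sum.inl ⟨s, hs⟩) (Sum.inr ⟨τ, hτ⟩) := by
    intro s hs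
    have hsS := (mem_filter.1 hs).1
    obtain ⟨τ, hτ⟩ := card_pos.1 (show 0 < ((tris F).filter (fun τ => s ⊆ τ)).card from ht s hsS)
    rw [mem_filter] at hτ
    have hτT : τ ∈ T := mem_trisOf.2 ⟨hτ.1, s, hsS, hτ.2⟩
    exact ⟨τ, hτT, Relation.EqvGen.rel _ _ (hinc s hs τ hτT hτ.2)⟩
  have hcc : ∀ x y : N ⊕ T, Relation.EqvGen R x y := by
    obtain ⟨τ0, hτ0⟩ := hT
    have : ∀ x : N ⊕ T, Relation.EqvGen R x (Sum.inr ⟨τ0, hτ0⟩) := by
      rintro (⟨s, hs⟩ | ⟨τ, hτ⟩)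
      · obtain ⟨τ, hτ, h1⟩ := hNT s hs
        exact Relation.EqvGen.trans _ _ _ h1 (hTT τ hτ τ0 hτ0)
      · exact hTT τ hτ τ0 hτ0
    intro x y
    exact Relation.EqvGen.trans _ _ _ (this x) (Relation.EqvGen.symm _ _ (this y))
  have hcount := conn_count a b hcc
  rw [Fintype.card_sum, Fintype.card_sum, Fintype.card_coe, Fintype.card_coe, Fintype.card_coe,
    Fintype.card_coe] at hcount
  -- the incidences
  have hPcard : P.card = ∑ s ∈ N, tn F s := by
    rw [hP, card_filter, sum_product]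
    refine sum_congr rfl fun s hs => ?_
    rw [← card_filter]
    unfold tn
    congr 1
    ext τ
    rw [mem_filter, mem_filter, hTdef, mem_trisOf]
    constructor
    · rintro ⟨⟨h1, -⟩, h2⟩; exact ⟨h1, h2⟩
    · rintro ⟨h1, h2⟩; exact ⟨⟨h1, s, (mem_filter.1 hs).1, h2⟩, h2⟩
  -- the loose triangles
  set Q := S.filter (fun s => 1 ≤ on F s ∧ tn F s = 2) with hQ
  have hLcard : L.card ≤ (T.filter (fun τ => dl F τ = 0)).card + 2 * Q.card := by
    have hsub : L ⊆ T.filter (fun τ => dl F τ = 0) ∪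
        Q.biUnion (fun s => (tris F).filter (fun τ => s ⊆ τ)) := by
      intro τ hτ
      rw [hL, mem_filter] at hτ
      obtain ⟨hτ, hl⟩ := hτ
      rw [mem_union]
      by_cases h0 : dl F τ = 0
      · exact Or.inl (mem_filter.2 ⟨hτ, h0⟩)
      · right
        obtain ⟨hτF, s, hs, hsτ⟩ := mem_trisOf.1 hτ
        obtain ⟨s', h1, h2, h3, h4⟩ := loose_dl hF hτF hl (by omega)
        exact mem_biUnion.2 ⟨s', mem_filter.2 ⟨hcl τ hτF s hs hsτ s' h2 h1, h3, h4⟩,
          mem_filter.2 ⟨hτF, h1⟩⟩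
    have h1 := (card_le_card hsub).trans (card_union_le _ _)
    have h2 : (Q.biUnion (fun s => (tris F).filter (fun τ => s ⊆ τ))).card ≤ 2 * Q.card := by
      calc _ ≤ ∑ s ∈ Q, ((tris F).filter (fun τ => s ⊆ τ)).card := card_biUnion_le
        _ = ∑ s ∈ Q, 2 := sum_congr rfl fun s hs => (mem_filter.1 hs).2.2
        _ = 2 * Q.card := by rw [sum_const, smul_eq_mul, mul_comm]
    omega
  -- the sum of the relations
  have hrel : S.card + ∑ s ∈ S, fn F s + ∑ s ∈ N, (tn F s - 1) + 2 * Q.card =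
      ∑ s ∈ S, tn F s + ∑ s ∈ S, on F s := by
    have h1 := sum_congr (rfl : S = S) (fun s hs => rel hF (hS hs) (ht s hs))
    rw [sum_add_distrib, sum_add_distrib, sum_add_distrib, sum_add_distrib, ← mul_sum, sum_const,
      smul_eq_mul, mul_one, ← sum_filter, ← card_filter] at h1
    exact h1
  have h3T : ∑ s ∈ S, tn F s = 3 * T.card := sum_tn_eq hF hS hcl
  have h3Y : ∑ s ∈ S, fn F s = 3 * (facesOf F S).card := sum_fn_eq hF hS hcl
  have hdl : ∑ τ ∈ T, dl F τ = ∑ s ∈ S, on F s := sum_dl hF hS hcl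
  have hNsum : ∑ s ∈ N, tn F s = ∑ s ∈ N, (tn F s - 1) + N.card := by
    rw [card_eq_sum_ones, ← sum_add_distrib]
    refine sum_congr rfl fun s hs => ?_
    have := ht s (mem_filter.1 hs).1
    omega
  have hdl1 : ∑ τ ∈ T, dl F τ + (T.filter (fun τ => dl F τ = 0)).card =
      ∑ τ ∈ T, (dl F τ - 1) + T.card := by
    rw [card_filter, card_eq_sum_ones, ← sum_add_distrib, ← sum_add_distrib]
    refine sum_congr rfl fun τ _ => ?_
    split_ifs with h0 <;> omega
  rw [hPcard, hNsum] at hcount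
  rw [h3T, h3Y, ← hdl] at hrel
  change S.card + 3 * (facesOf F S).card ≤ 3 * T.card + 1 + ∑ τ ∈ T, (dl F τ - 1)
  omega

end Pool.Agent.Helper74K9.BES
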