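import Pool.Agent.Helper74K9.BES.Tri
import Pool.Agent.Helper74K9.BES.K4b
import Pool.Agent.Helper74K9.BES.X1
import Pool.Agent.Helper74K9.BES.X2

/-!
# Classes of angles
-/

set_option autoImplicit false

namespace Pool.Agent.Helper74K9.BES

open Finset Pool.Agent.W848 Pool.Agent.W848.TreeAvg

variable {V : Type*} [DecidableEq V]

variable {H X Y : Finset (Finset V)} {τ a b : Finset (Finset V)}

/-- a triangle lies in the closure of each of its angles -/
lemma Lin.tri_sub_cl (h : Lin H) (hτ : τ ∈ tris H) (ha : a ∈ angles H) (haτ : a ⊆ τ) :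
    τ ⊆ cl H a := by
  obtain ⟨hτH, h3, h6⟩ := mem_tris.1 hτ
  obtain ⟨haH, h2, h5⟩ := mem_angles.1 ha
  intro m hm
  by_cases hma : m ∈ a
  · exact subset_cl haH hma
  · have hins : insert m a = τ := by
      refine eq_of_subset_of_card_le (insert_subset hm haτ) ?_
      rw [card_insert_of_notMem hma, h3, h2]
    have h7 := h.un_insert_card (Y := a) (hτH hm)
    rw [hins, h6, h5] at h7
    refine cl_closed m (hτH hm) ?_
    have : m ∩ un a ⊆ m ∩ un (cl H a) := inter_subset_inter_left (un_mono (subset_cl haH))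
    have := card_le_card this
    omega

lemma TA.symm (hab : TA H a b) : TA H b a := by
  obtain ⟨h1, h2, τ, hτ, h3, h4⟩ := hab
  exact ⟨h2, h1, τ, hτ, h4, h3⟩

lemma TA.cl_eq (h : Lin H) (hab : TA H a b) : cl H a = cl H b := by
  obtain ⟨h1, h2, τ, hτ, h3, h4⟩ := hab
  exact Subset.antisymm (cl_cl_subset (h3.trans (h.tri_sub_cl hτ h2 h4)))
    (cl_cl_subset (h4.trans (h.tri_sub_cl hτ h1 h3)))

lemma reach_cl (h : Lin H) (hab : Relation.ReflTransGen (TA H) a b) : cl H a = cl H b := by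
  induction hab with
  | refl => rfl
  | tail _ hs ih => exact ih.trans (hs.cl_eq h)

lemma reach_symm (hab : Relation.ReflTransGen (TA H) a b) :
    Relation.ReflTransGen (TA H) b a := by
  induction hab with
  | refl => exact Relation.ReflTransGen.refl
  | tail _ hs ih => exact (Relation.ReflTransGen.single hs.symm).trans ih

/-- chains of triangles stay in the closure -/
lemma reach_local (h : Lin H) (hab : Relation.ReflTransGen (TA H) a b) :
    Relation.ReflTransGen (TA (cl H a)) a b := by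
  induction hab with
  | refl => exact Relation.ReflTransGen.refl
  | tail hs0 hs ih =>
    refine ih.tail ?_
    have e := reach_cl h hs0
    obtain ⟨h1, h2, τ, hτ, h3, h4⟩ := hs
    have hsub := h.tri_sub_cl hτ h1 h3
    rw [← e] at hsub
    obtain ⟨hτH, hτ3, hτ6⟩ := mem_tris.1 hτ
    obtain ⟨g1, g2, g3⟩ := mem_angles.1 h1
    obtain ⟨k1, k2, k3⟩ := mem_angles.1 h2
    exact ⟨mem_angles.2 ⟨h3.trans hsub, g2, g3⟩, mem_angles.2 ⟨h4.trans hsub, k2, k3⟩, τ,
      mem_tris.2 ⟨hsub, hτ3, hτ6⟩, h3, h4⟩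

open Classical in
/-- the class of an angle -/
noncomputable def cls (H a : Finset (Finset V)) : Finset (Finset (Finset V)) :=
  (angles H).filter (fun b => Relation.ReflTransGen (TA H) a b)

lemma mem_cls : b ∈ cls H a ↔ b ∈ angles H ∧ Relation.ReflTransGen (TA H) a b := by
  simp [cls]

lemma self_mem_cls (ha : a ∈ angles H) : a ∈ cls H a :=
  mem_cls.2 ⟨ha, Relation.ReflTransGen.refl⟩

lemma cls_eq (hb : b ∈ cls H a) : cls H b = cls H a := by
  have hab := (mem_cls.1 hb).2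
  ext x
  rw [mem_cls, mem_cls]
  exact ⟨fun hx => ⟨hx.1, hab.trans hx.2⟩, fun hx => ⟨hx.1, (reach_symm hab).trans hx.2⟩⟩

/-- the nondegenerate classes -/
noncomputable def nodes (H : Finset (Finset V)) : Finset (Finset (Finset (Finset V))) :=
  ((angles H).filter (fun a => Nd H a)).image (cls H)

lemma mem_nodes {c : Finset (Finset (Finset V))} :
    c ∈ nodes H ↔ ∃ a ∈ angles H, Nd H a ∧ cls H a = c := by
  rw [nodes, mem_image]
  simp only [mem_filter, and_assoc]

/-- the closure of a class -/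
def clo (H : Finset (Finset V)) (c : Finset (Finset (Finset V))) : Finset (Finset V) :=
  cl H (c.biUnion id)

variable {c : Finset (Finset (Finset V))}

lemma node_mem (h : Lin H) (hc : c ∈ nodes H) (ha : a ∈ c) :
    a ∈ angles H ∧ Nd H a ∧ cls H a = c ∧ clo H c = cl H a := by
  obtain ⟨b, hb, hnd, rfl⟩ := mem_nodes.1 hc
  have hab := mem_cls.1 ha
  have e := reach_cl h hab.2
  refine ⟨hab.1, ?_, cls_eq ha, ?_⟩
  · unfold Nd at hnd ⊢
    rw [← e]; exact hnd
  · refine Subset.antisymm (cl_cl_subset ?_) (cl_mono ?_ ?_)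
    · intro A hA
      rw [mem_biUnion] at hA
      obtain ⟨x, hx, hAx⟩ := hA
      have hx' := mem_cls.1 hx
      rw [← e, reach_cl h hx'.2]
      exact subset_cl (mem_angles.1 hx'.1).1 hAx
    · intro A hA
      rw [mem_biUnion] at hA
      obtain ⟨x, hx, hAx⟩ := hA
      exact (mem_angles.1 (mem_cls.1 hx).1).1 hAx
    · intro A hA
      exact mem_biUnion.2 ⟨a, ha, hA⟩

lemma node_nonempty (hc : c ∈ nodes H) : ∃ a, a ∈ c := by
  obtain ⟨b, hb, hnd, rfl⟩ := mem_nodes.1 hc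
  exact ⟨b, self_mem_cls hb⟩

lemma node_eq (h : Lin H) {c' : Finset (Finset (Finset V))} (hc : c ∈ nodes H)
    (hc' : c' ∈ nodes H) (ha : a ∈ c) (ha' : a ∈ c') : c = c' :=
  ((node_mem h hc ha).2.2.1).symm.trans (node_mem h hc' ha').2.2.1

lemma node_angles (h : Lin H) (hc : c ∈ nodes H) (ha : a ∈ c) : c ⊆ angles (cl H a) := by
  intro b hb
  obtain ⟨h1, h2, h3, h4⟩ := node_mem h hc hb
  obtain ⟨g1, g2, g3, g4⟩ := node_mem h hc ha
  obtain ⟨k1, k2, k3⟩ := mem_angles.1 h1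
  refine mem_angles.2 ⟨?_, k2, k3⟩
  rw [← g4, h4]
  exact subset_cl k1

/-- the class of an angle contains the other angles of a triangle -/
lemma node_tri (h : Lin H) (hc : c ∈ nodes H) (hτ : τ ∈ tris H) (ha : a ∈ c) (haτ : a ⊆ τ)
    (hb : b ∈ angles H) (hbτ : b ⊆ τ) : b ∈ c := by
  obtain ⟨g1, g2, g3, g4⟩ := node_mem h hc ha
  rw [← g3, mem_cls]
  exact ⟨hb, Relation.ReflTransGen.single ⟨g1, hb, τ, hτ, haτ, hbτ⟩⟩

lemma tris_mono {F : Finset (Finset V)} (hF : F ⊆ H) : tris F ⊆ tris H := by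
  intro τ hτ
  rw [mem_tris] at hτ ⊢
  exact ⟨hτ.1.trans hF, hτ.2⟩

lemma angles_mono {F : Finset (Finset V)} (hF : F ⊆ H) : angles F ⊆ angles H := by
  intro τ hτ
  rw [mem_angles] at hτ ⊢
  exact ⟨hτ.1.trans hF, hτ.2⟩

lemma dl_mono {F : Finset (Finset V)} (hF : F ⊆ H) : dl F τ ≤ dl H τ := by
  unfold dl
  refine card_le_card ?_
  intro s hs
  rw [mem_filter] at hs ⊢
  obtain ⟨h1, n, hn, h2⟩ := hs
  exact ⟨h1, n, hF hn, h2⟩

lemma tn_mono {F : Finset (Finset V)} (hF : F ⊆ H) {s : Finset (Finset V)} : tn F s ≤ tn H s := by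
  unfold tn
  exact card_le_card (filter_subset_filter _ (tris_mono hF))

lemma trisOf_local (h : Lin H) (hc : c ∈ nodes H) (ha : a ∈ c) :
    trisOf (cl H a) c = trisOf H c := by
  unfold trisOf
  ext τ
  rw [mem_filter, mem_filter]
  constructor
  · rintro ⟨h1, h2⟩
    exact ⟨tris_mono cl_subset h1, h2⟩
  · rintro ⟨h1, s, hs, hsτ⟩
    refine ⟨?_, s, hs, hsτ⟩
    obtain ⟨k1, k2, k3, k4⟩ := node_mem h hc hs
    obtain ⟨g1, g2, g3, g4⟩ := node_mem h hc ha
    have := h.tri_sub_cl h1 k1 hsτ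
    rw [← k4, g4] at this
    rw [mem_tris] at h1 ⊢
    exact ⟨this, h1.2⟩

lemma node_closed (h : Lin H) (hc : c ∈ nodes H) : TriClosed (cl H a) c := by
  intro τ hτ s hs hsτ s' hs' hs'τ
  exact node_tri h hc (tris_mono cl_subset hτ) hs hsτ (angles_mono cl_subset hs') hs'τ

lemma node_conn (h : Lin H) (hc : c ∈ nodes H) (ha : a ∈ c) : TriConn (cl H a) c := by
  intro x hx y hy
  obtain ⟨k1, k2, k3, k4⟩ := node_mem h hc hx
  obtain ⟨g1, g2, g3, g4⟩ := node_mem h hc ha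
  rw [← g4, k4]
  refine reach_local h ?_
  rw [← k3, mem_cls] at hy
  exact hy.2

lemma dl_le (τ : Finset (Finset V)) (hτ : τ ∈ tris H) : dl H τ ≤ 3 := by
  unfold dl
  refine (card_filter_le _ _).trans ?_
  rw [card_powersetCard, (mem_tris.1 hτ).2.1]
  decide

/-- **the local inequality** -/
theorem local_ineq (h : Lin H) (hc : c ∈ nodes H) :
    3 * (trisOf H c).card + 2 ≤
      2 * c.card + 2 * ((trisOf H c).filter (fun τ => 2 ≤ dl H τ)).card := by
  obtain ⟨a, ha⟩ := node_nonempty hc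
  obtain ⟨g1, g2, g3, g4⟩ := node_mem h hc ha
  have hF : Lin (cl H a) := h.mono cl_subset
  have hUG := g2.ug h g1
  have e1 := X1 hF (hUG.grown h g1) (node_angles h hc ha) (node_closed h hc) ⟨a, ha⟩
  have e2 := X2 hF (node_angles h hc ha) (node_closed h hc) (node_conn h hc ha) ⟨a, ha⟩
  rw [trisOf_local h hc ha] at e1 e2
  have e3 : ∑ τ ∈ trisOf H c, (dl (cl H a) τ - 1) ≤
      2 * ((trisOf H c).filter (fun τ => 2 ≤ dl H τ)).card := by
    rw [card_filter, mul_sum]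
    refine sum_le_sum fun τ hτ => ?_
    have h1 : dl (cl H a) τ ≤ dl H τ := dl_mono cl_subset
    have h2 : dl H τ ≤ 3 := dl_le τ (mem_filter.1 hτ).1
    split_ifs with h3 <;> omega
  omega

/-- bad classes -/
def Bad (H : Finset (Finset V)) (c : Finset (Finset (Finset V))) : Prop :=
  2 * c.card ≤ 3 * (trisOf H c).card + 1

instance (H : Finset (Finset V)) (c : Finset (Finset (Finset V))) : Decidable (Bad H c) := by
  unfold Bad; infer_instance

theorem bad_K4 (h : Lin H) (hc : c ∈ nodes H) (hb : Bad H c) :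
    ∃ s₁ ∈ c, ∃ s₂ ∈ c, s₁ ≠ s₂ ∧ 4 ≤ tn H s₁ ∧ 4 ≤ tn H s₂ := by
  obtain ⟨a, ha⟩ := node_nonempty hc
  obtain ⟨g1, g2, g3, g4⟩ := node_mem h hc ha
  have hF : Lin (cl H a) := h.mono cl_subset
  have hUG := g2.ug h g1
  have e1 := X1 hF (hUG.grown h g1) (node_angles h hc ha) (node_closed h hc) ⟨a, ha⟩
  have hcpos : 0 < c.card := card_pos.2 ⟨a, ha⟩
  unfold Bad at hb
  have hT : 0 < (trisOf (cl H a) c).card := by
    rw [trisOf_local h hc ha]
    omega
  have ht : ∀ s ∈ c, 1 ≤ tn (cl H a) s := by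
    intro s hs
    obtain ⟨τ, hτ⟩ := card_pos.1 hT
    unfold trisOf at hτ
    rw [mem_filter] at hτ
    obtain ⟨hτF, s', hs', hs'τ⟩ := hτ
    have hr := node_conn h hc ha s hs s' hs'
    unfold tn
    rcases Relation.ReflTransGen.cases_head hr with rfl | ⟨b, ⟨h1, h2, σ, hσ, h3, h4⟩, -⟩
    · exact card_pos.2 ⟨τ, mem_filter.2 ⟨hτF, hs'τ⟩⟩
    · exact card_pos.2 ⟨σ, mem_filter.2 ⟨hσ, h3⟩⟩
  have e2 := K4 hF (node_angles h hc ha) (node_closed h hc) ht
  rw [trisOf_local h hc ha] at e1 e2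
  have hk : 2 ≤ (c.filter (fun s => 4 ≤ tn (cl H a) s)).card := by omega
  obtain ⟨s₁, h1, s₂, h2, hne⟩ := one_lt_card.1 (show 1 < _ from hk)
  rw [mem_filter] at h1 h2
  exact ⟨s₁, h1.1, s₂, h2.1, hne, h1.2.trans (tn_mono cl_subset), h2.2.trans (tn_mono cl_subset)⟩

end Pool.Agent.Helper74K9.BES
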