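import Pool.Agent.Helper74K9.BES.Walks
import Pool.Agent.Helper74K9.BES.FOREST

/-!
# The main inequality
-/

set_option autoImplicit false

namespace Pool.Agent.Helper74K9.BES

open Finset Pool.Agent.W848 Pool.Agent.W848.TreeAvg

variable {V : Type*} [DecidableEq V]

variable {e : ℕ} {H : Finset (Finset V)}

/-- a class has at most `e^2` angles -/
lemma node_card (he : 3 ≤ e) (h : Lin H) (hf : Free e H) {c : Finset (Finset (Finset V))}
    (hc : c ∈ nodes H) : c.card ≤ e ^ 2 := by
  obtain ⟨a, ha⟩ := node_nonempty hc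
  have h1 := node_angles h hc ha
  have h2 := (node_good he h hf hc).1.1
  rw [(node_mem h hc ha).2.2.2] at h2
  have h3 : angles (cl H a) ⊆ (cl H a).powersetCard 2 := filter_subset _ _
  have h4 := card_le_card (h1.trans h3)
  rw [card_powersetCard] at h4
  have h5 : ((cl H a).card).choose 2 ≤ (cl H a).card ^ 2 := Nat.choose_le_pow _ _
  have h6 : (cl H a).card ^ 2 ≤ e ^ 2 := Nat.pow_le_pow_left (by omega) 2
  omega

/-- a component of the graph has at most `e^2` vertices -/
lemma comp_card (he : 3 ≤ e) (h : Lin H) (hf : Free e H) (h8 : Cond8 e H)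
    {bot top : Finset (Finset V) → Finset (Finset (Finset V))}
    (hl : ∀ τ ∈ EE H, Link H (bot τ) (top τ) τ) (N : Finset (Nd' H))
    (hN : ∀ x ∈ N, ∀ y ∈ N, (LG H bot top).Reachable x y) : N.card ≤ e ^ 2 := by
  classical
  rcases N.eq_empty_or_nonempty with rfl | ⟨x0, hx0⟩
  · simp
  -- a walk with closure of maximal size
  have hbd : ∀ k : ℕ, (∃ y, ∃ p : (LG H bot top).Walk x0 y, (UW H p).card = k) → k ≤ e := by
    rintro k ⟨y, p, rfl⟩
    have := (walks_good he h hf h8 hl _ _ _ p rfl).good.1
    omega
  obtain ⟨k, ⟨y, p, hp⟩, hmax⟩ : ∃ k : ℕ, (∃ y, ∃ p : (LG H bot top).Walk x0 y,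
      (UW H p).card = k) ∧ ∀ k', (∃ y, ∃ p : (LG H bot top).Walk x0 y,
      (UW H p).card = k') → k' ≤ k := by
    have hne : ∃ k : ℕ, (∃ y, ∃ p : (LG H bot top).Walk x0 y, (UW H p).card = k) :=
      ⟨_, x0, SimpleGraph.Walk.nil, rfl⟩
    refine ⟨Nat.findGreatest (fun k => ∃ y, ∃ p : (LG H bot top).Walk x0 y, (UW H p).card = k) e,
      ?_, ?_⟩
    · obtain ⟨k, hk⟩ := hne
      exact Nat.findGreatest_spec (P := fun k => ∃ y, ∃ p : (LG H bot top).Walk x0 y,
        (UW H p).card = k) (hbd k hk) hk
    · intro k' hk'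
      exact Nat.le_findGreatest (hbd k' hk') hk'
  have hcl : ∀ c ∈ N, clo H c.1 ⊆ UW H p := by
    intro c hc
    obtain ⟨r⟩ := hN x0 hx0 c hc
    set q := (p.append p.reverse).append r with hq
    have h1 : UW H p ⊆ UW H q := by
      unfold UW
      refine cl_mono (sup_sub q) (biUnion_subset_biUnion_of_subset_left _ ?_)
      intro z hz
      rw [List.mem_toFinset] at hz ⊢
      rw [hq, SimpleGraph.Walk.mem_support_append_iff, SimpleGraph.Walk.mem_support_append_iff]
      exact Or.inl (Or.inl hz)
    have h2 := hmax _ ⟨c, q, rfl⟩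
    have h3 : UW H p = UW H q := eq_of_subset_of_card_le h1 (by omega)
    rw [h3]
    exact clo_sub_UW q (SimpleGraph.Walk.end_mem_support q)
  -- choose an angle of every class
  have hch : ∀ c : Nd' H, ∃ a, a ∈ c.1 := fun c => node_nonempty c.2
  choose f hf' using hch
  have h1 : N.card ≤ ((UW H p).powersetCard 2).card := by
    refine card_le_card_of_injOn f ?_ ?_
    · intro c hc
      have hm := node_mem h c.2 (hf' c)
      have ha := mem_angles.1 hm.1
      rw [mem_coe, mem_powersetCard]
      refine ⟨?_, ha.2.1⟩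
      have := hcl c hc
      rw [hm.2.2.2] at this
      exact (subset_cl ha.1).trans this
    · intro c _ c' _ hcc
      apply Subtype.ext
      have hh : f c = f c' := hcc
      exact node_eq h c.2 c'.2 (hf' c) (by rw [hh]; exact hf' c')
  rw [card_powersetCard] at h1
  have h2 := (walks_good he h hf h8 hl _ _ _ p rfl).good.1
  have h5 : ((UW H p).card).choose 2 ≤ (UW H p).card ^ 2 := Nat.choose_le_pow _ _
  have h6 : (UW H p).card ^ 2 ≤ e ^ 2 := Nat.pow_le_pow_left (by omega) 2
  omega

/-- the number of triangles of nondegenerate classes -/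
lemma nondeg_ineq (he : 3 ≤ e) (h : Lin H) (hf : Free e H) (h8 : Cond8 e H) :
    3 * e ^ 4 * ∑ c ∈ nodes H, (trisOf H c).card + 2 * ∑ c ∈ nodes H, c.card ≤
      2 * e ^ 4 * ∑ c ∈ nodes H, c.card := by
  classical
  -- choose the links
  have hch : ∀ τ : Finset (Finset V), ∃ x y, τ ∈ EE H → Link H x y τ := by
    intro τ
    by_cases hτ : τ ∈ EE H
    · obtain ⟨x, y, l⟩ := exists_link h hτ
      exact ⟨x, y, fun _ => l⟩
    · exact ⟨∅, ∅, fun hh => absurd hh hτ⟩
  choose bot top hl using hch
  -- the forest
  have hac := LG_acyclic he h hf h8 hl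
  have hfor := forest (LG H bot top) hac
  have hcardW : Fintype.card (Nd' H) = (nodes H).card := Fintype.card_coe _
  have hEle : (EE H).card ≤ Nat.card (LG H bot top).edgeSet := by
    have : Finite (LG H bot top).edgeSet := inferInstance
    let φ : {τ // τ ∈ EE H} → (LG H bot top).edgeSet := fun τ =>
      ⟨s(⟨bot τ.1, (hl τ.1 τ.2).hx⟩, ⟨top τ.1, (hl τ.1 τ.2).hy⟩), by
        rw [SimpleGraph.mem_edgeSet]
        refine ⟨?_, τ.1, τ.2, Or.inl ⟨rfl, rfl⟩⟩
        intro hh
        exact bot_ne_top h hl τ.2 (Subtype.ext_iff.1 hh)⟩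
    have hinj : Function.Injective φ := by
      intro τ σ hh
      have h1 := congrArg Subtype.val hh
      simp only [φ, Sym2.eq, Sym2.rel_iff', Prod.mk.injEq, Prod.swap_prod_mk, Subtype.mk.injEq] at h1
      exact Subtype.ext (links_inj he h hf hl τ.2 σ.2 h1)
    have := Nat.card_le_card_of_injective φ hinj
    rw [Nat.card_eq_fintype_card, Fintype.card_coe] at this
    exact this
  -- components
  have hcomp : (nodes H).card ≤ e ^ 2 * Nat.card (LG H bot top).ConnectedComponent := by
    have : Fintype (LG H bot top).ConnectedComponent := Fintype.ofFinite _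
    rw [← hcardW, Nat.card_eq_fintype_card, mul_comm]
    rw [← Finset.card_univ, ← Finset.card_univ]
    have := Finset.card_le_mul_card_image_of_maps_to (s := (univ : Finset (Nd' H)))
      (t := (univ : Finset (LG H bot top).ConnectedComponent))
      (f := (LG H bot top).connectedComponentMk) (fun _ _ => mem_univ _) (e ^ 2) (by
        intro k _
        refine comp_card he h hf h8 hl _ ?_
        intro x hx y hy
        rw [mem_filter] at hx hy
        exact SimpleGraph.ConnectedComponent.eq.1 (hx.2.trans hy.2.symm))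
    rw [mul_comm]
    exact this
  -- the sum of the local inequalities
  have hsum : 3 * ∑ c ∈ nodes H, (trisOf H c).card + 2 * (nodes H).card ≤
      2 * ∑ c ∈ nodes H, c.card + 2 * (EE H).card := by
    have e1 : ∑ c ∈ (nodes H).filter (fun c => Bad H c),
        ((trisOf H c).filter (fun τ => 2 ≤ dl H τ)).card ≤ (EE H).card := by
      rw [← card_biUnion]
      · refine card_le_card ?_
        intro τ hτ
        rw [mem_biUnion] at hτ
        obtain ⟨c, hc, hτ⟩ := hτ
        rw [mem_filter] at hc hτ
        have hτ1 := hτ.1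
        unfold trisOf at hτ1
        rw [mem_filter] at hτ1
        rw [EE, mem_filter]
        exact ⟨hτ1.1, hτ.2, c, hc.1, hc.2, hτ1.2⟩
      · intro c hc c' hc' hne
        change Disjoint _ _
        rw [disjoint_left]
        intro τ h1 h2
        apply hne
        rw [mem_filter] at h1 h2
        have k1 := h1.1
        have k2 := h2.1
        unfold trisOf at k1 k2
        rw [mem_filter] at k1 k2
        obtain ⟨k1, a, ha, haτ⟩ := k1
        obtain ⟨-, a', ha', haτ'⟩ := k2
        have c1 := (mem_filter.1 hc).1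
        have c2 := (mem_filter.1 hc').1
        have : a' ∈ c := node_tri h c1 k1 ha haτ (node_mem h c2 ha').1 haτ'
        exact node_eq h c1 c2 this ha'
    have e2 : ∀ c ∈ nodes H, 3 * (trisOf H c).card + 2 ≤ 2 * c.card +
        2 * (if Bad H c then ((trisOf H c).filter (fun τ => 2 ≤ dl H τ)).card else 0) := by
      intro c hc
      split_ifs with hb
      · exact local_ineq h hc
      · unfold Bad at hb
        omega
    have e3 := sum_le_sum e2
    rw [sum_add_distrib, sum_add_distrib, ← mul_sum, ← mul_sum, ← mul_sum, ← sum_filter,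
      sum_const, smul_eq_mul] at e3
    omega
  have hA : ∑ c ∈ nodes H, c.card ≤ e ^ 2 * (nodes H).card := by
    calc ∑ c ∈ nodes H, c.card ≤ ∑ c ∈ nodes H, e ^ 2 := sum_le_sum fun c hc => node_card he h hf hc
      _ = e ^ 2 * (nodes H).card := by rw [sum_const, smul_eq_mul, mul_comm]
  rw [hcardW] at hfor
  have h1 : 3 * ∑ c ∈ nodes H, (trisOf H c).card + 2 * Nat.card (LG H bot top).ConnectedComponent ≤
      2 * ∑ c ∈ nodes H, c.card := by omega
  have h2 : ∑ c ∈ nodes H, c.card ≤ e ^ 4 * Nat.card (LG H bot top).ConnectedComponent := by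
    calc ∑ c ∈ nodes H, c.card ≤ e ^ 2 * (nodes H).card := hA
      _ ≤ e ^ 2 * (e ^ 2 * Nat.card (LG H bot top).ConnectedComponent) :=
        Nat.mul_le_mul_left _ hcomp
      _ = e ^ 4 * Nat.card (LG H bot top).ConnectedComponent := by ring
  have h3 := Nat.mul_le_mul_left (e ^ 4) h1
  rw [mul_add] at h3
  calc 3 * e ^ 4 * ∑ c ∈ nodes H, (trisOf H c).card + 2 * ∑ c ∈ nodes H, c.card
      ≤ 3 * e ^ 4 * ∑ c ∈ nodes H, (trisOf H c).card +
        2 * (e ^ 4 * Nat.card (LG H bot top).ConnectedComponent) :=
        Nat.add_le_add_left (Nat.mul_le_mul_left _ h2) _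
    _ = e ^ 4 * (3 * ∑ c ∈ nodes H, (trisOf H c).card) +
        e ^ 4 * (2 * Nat.card (LG H bot top).ConnectedComponent) := by ring
    _ ≤ e ^ 4 * (2 * ∑ c ∈ nodes H, c.card) := h3
    _ = _ := by ring

/-- the lines that form a degenerate angle with `l` -/
def dgl (H : Finset (Finset V)) (l : Finset V) : Finset (Finset V) :=
  H.filter (fun m => ({l, m} : Finset (Finset V)) ∈ angles H ∧
    ¬ Nd H ({l, m} : Finset (Finset V)))

/-- angles are few in degenerate classes -/
lemma angles_le (he : 3 ≤ e) (h : Lin H) (hf : Free e H) :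
    (angles H).card ≤ ∑ c ∈ nodes H, c.card + e * H.card := by
  classical
  have hsub : angles H ⊆ (nodes H).biUnion id ∪
      H.biUnion (fun l => (dgl H l).image (fun m => ({l, m} : Finset (Finset V)))) := by
    intro a ha
    rw [mem_union]
    by_cases hnd : Nd H a
    · left
      exact mem_biUnion.2 ⟨cls H a, mem_nodes.2 ⟨a, ha, hnd, rfl⟩, self_mem_cls ha⟩
    · right
      obtain ⟨haH, ha2, ha5⟩ := mem_angles.1 ha
      obtain ⟨A, B, hAB, rfl⟩ := card_eq_two.1 ha2
      refine mem_biUnion.2 ⟨A, haH (by simp), mem_image.2 ⟨B, ?_, rfl⟩⟩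
      rw [dgl, mem_filter]
      exact ⟨haH (by simp), ha, hnd⟩
  have h1 := (card_le_card hsub).trans (card_union_le _ _)
  have h2 : ((nodes H).biUnion id).card ≤ ∑ c ∈ nodes H, c.card := card_biUnion_le
  have h3 : (H.biUnion (fun l => (dgl H l).image (fun m => ({l, m} : Finset (Finset V))))).card ≤
      e * H.card := by
    calc _ ≤ ∑ l ∈ H, ((dgl H l).image (fun m => ({l, m} : Finset (Finset V)))).card :=
          card_biUnion_le
      _ ≤ ∑ l ∈ H, e := by
          refine sum_le_sum fun l hl => ?_
          have k1 := h.degenerate he hf hl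
          have k2 : ((dgl H l).image (fun m => ({l, m} : Finset (Finset V)))).card ≤ (dgl H l).card :=
            card_image_le
          have k3 : (dgl H l).card ≤ e - 2 := k1
          omega
      _ = e * H.card := by rw [sum_const, smul_eq_mul, mul_comm]
  omega

/-- triangles are few in degenerate classes -/
lemma tris_le (he : 3 ≤ e) (h : Lin H) (hf : Free e H) :
    (tris H).card ≤ ∑ c ∈ nodes H, (trisOf H c).card + e ^ 2 * H.card := by
  classical
  have hsub : tris H ⊆ (nodes H).biUnion (fun c => trisOf H c) ∪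
      H.biUnion (fun l => ((dgl H l) ×ˢ (dgl H l)).image
        (fun m => ({l, m.1, m.2} : Finset (Finset V)))) := by
    intro τ hτ
    rw [mem_union]
    obtain ⟨hτH, h3, h6⟩ := mem_tris.1 hτ
    obtain ⟨A, B, C, hAB, hAC, hBC, rfl⟩ := card_eq_three.1 h3
    have a1 : ({A, B} : Finset (Finset V)) ∈ angles H := h.tri_pair hτ
      (by intro D hD; simp only [mem_insert, mem_singleton] at hD ⊢; tauto) (card_pair hAB)
    have a2 : ({A, C} : Finset (Finset V)) ∈ angles H := h.tri_pair hτ
      (by intro D hD; simp only [mem_insert, mem_singleton] at hD ⊢; tauto) (card_pair hAC)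
    have s1 : ({A, B} : Finset (Finset V)) ⊆ {A, B, C} := by
      intro D hD; simp only [mem_insert, mem_singleton] at hD ⊢; tauto
    have s2 : ({A, C} : Finset (Finset V)) ⊆ {A, B, C} := by
      intro D hD; simp only [mem_insert, mem_singleton] at hD ⊢; tauto
    by_cases hnd : Nd H ({A, B} : Finset (Finset V))
    · left
      refine mem_biUnion.2 ⟨cls H {A, B}, mem_nodes.2 ⟨_, a1, hnd, rfl⟩, ?_⟩
      unfold trisOf
      rw [mem_filter]
      exact ⟨hτ, _, self_mem_cls a1, s1⟩
    · right
      have hcl : cl H ({A, B} : Finset (Finset V)) = cl H {A, C} :=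
        TA.cl_eq h ⟨a1, a2, _, hτ, s1, s2⟩
      have hnd' : ¬ Nd H ({A, C} : Finset (Finset V)) := by
        unfold Nd at hnd ⊢
        rw [← hcl]; exact hnd
      refine mem_biUnion.2 ⟨A, hτH (by simp), mem_image.2 ⟨(B, C), ?_, rfl⟩⟩
      rw [mem_product, dgl, mem_filter, mem_filter]
      exact ⟨⟨hτH (by simp), a1, hnd⟩, ⟨hτH (by simp), a2, hnd'⟩⟩
  have h1 := (card_le_card hsub).trans (card_union_le _ _)
  have h2 : ((nodes H).biUnion (fun c => trisOf H c)).card ≤ ∑ c ∈ nodes H, (trisOf H c).card :=
    card_biUnion_le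
  have h3 : (H.biUnion (fun l => ((dgl H l) ×ˢ (dgl H l)).image
      (fun m => ({l, m.1, m.2} : Finset (Finset V))))).card ≤ e ^ 2 * H.card := by
    calc _ ≤ ∑ l ∈ H, (((dgl H l) ×ˢ (dgl H l)).image
            (fun m => ({l, m.1, m.2} : Finset (Finset V)))).card := card_biUnion_le
      _ ≤ ∑ l ∈ H, e ^ 2 := by
          refine sum_le_sum fun l hl => ?_
          have k1 := h.degenerate he hf hl
          have k2 : (((dgl H l) ×ˢ (dgl H l)).image
            (fun m => ({l, m.1, m.2} : Finset (Finset V)))).card ≤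
            ((dgl H l) ×ˢ (dgl H l)).card := card_image_le
          rw [card_product] at k2
          have k3 : (dgl H l).card ≤ e := by
            have : (dgl H l).card ≤ e - 2 := k1
            omega
          have k4 : (dgl H l).card * (dgl H l).card ≤ e ^ 2 := by
            rw [sq]; exact Nat.mul_le_mul k3 k3
          exact k2.trans k4
      _ = e ^ 2 * H.card := by rw [sum_const, smul_eq_mul, mul_comm]
  omega

/-- **Theorem B.** In a linear triple system without `e` lines on `e + 3` points that satisfies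
the condition on dense families, the number of triangles is less than two thirds of the number
of angles, up to a term linear in the number of lines. -/
theorem thmB (e : ℕ) (he : 3 ≤ e) (V : Type*) [DecidableEq V] (H : Finset (Finset V))
    (h : Lin H) (hf : Free e H) (h8 : Cond8 e H) :
    3 * e ^ 4 * (tris H).card + (angles H).card ≤
      2 * e ^ 4 * (angles H).card + (3 * e ^ 4 * e ^ 2 + e) * H.card := by
  have h1 := nondeg_ineq he h hf h8
  have h2 := angles_le he h hf
  have h3 := tris_le he h hf
  have h4 : ∑ c ∈ nodes H, c.card ≤ (angles H).card := by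
    classical
    rw [← card_biUnion]
    · refine card_le_card ?_
      intro a ha
      obtain ⟨c, hc, hac⟩ := mem_biUnion.1 ha
      exact (node_mem h hc hac).1
    · intro c hc c' hc' hne
      change Disjoint c c'
      rw [disjoint_left]
      intro a ha ha'
      exact hne (node_eq h hc hc' ha ha')
  have h5 := Nat.mul_le_mul_left (3 * e ^ 4) h3
  have h6 := Nat.mul_le_mul_left (2 * e ^ 4) h4
  rw [mul_add] at h5
  rw [add_mul]
  have h7 : 3 * e ^ 4 * (e ^ 2 * H.card) = 3 * e ^ 4 * e ^ 2 * H.card := by ring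
  omega

end Pool.Agent.Helper74K9.BES
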