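import Pool.Agent.Helper74K9.BES.Drop
import Pool.Agent.Helper74K9.BES.ThmB

/-!
# The main inequality, without any condition on dense families
-/

set_option autoImplicit false

namespace Pool.Agent.Helper74K9.BES

open Finset Pool.Agent.W848 Pool.Agent.W848.TreeAvg

variable {V : Type*} [DecidableEq V]

variable {e : ℕ} {H X Y : Finset (Finset V)} {l : Finset V}

lemma D2.singleton (he : 3 ≤ e) (h : Lin H) (hl : l ∈ H) : D2 e H l {l} := by
  refine ⟨singleton_subset_iff.2 hl, mem_singleton_self l, ?_, ?_⟩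
  · rw [card_singleton]; omega
  · rw [h.un_singleton hl, card_singleton]

/-- the largest family of defect two through `l` -/
lemma exists_M (he : 3 ≤ e) (h : Lin H) (hl : l ∈ H) :
    ∃ X, D2 e H l X ∧ ∀ Y, D2 e H l Y → X ⊆ Y → Y = X := by
  classical
  obtain ⟨X, hX, hmax⟩ := exists_max_image (H.powerset.filter (fun X => D2 e H l X))
    (fun X => X.card) ⟨{l}, mem_filter.2 ⟨mem_powerset.2 (singleton_subset_iff.2 hl),
      D2.singleton he h hl⟩⟩
  rw [mem_filter] at hX
  refine ⟨X, hX.2, ?_⟩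
  intro Y hY hXY
  have := hmax Y (mem_filter.2 ⟨mem_powerset.2 hY.sub, hY⟩)
  exact (eq_of_subset_of_card_le hXY this).symm

variable {bot top : Finset (Finset V) → Finset (Finset (Finset V))}

/-- the class `x` lies in a component of the graph of links with a walk whose closure is
degenerate -/
def Dr (H : Finset (Finset V)) (bot top : Finset (Finset V) → Finset (Finset (Finset V)))
    (x : Nd' H) : Prop :=
  ∃ y z : Nd' H, ∃ p : (LG H bot top).Walk y z, (LG H bot top).Reachable x y ∧ ¬ ND (UW H p)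

lemma Dr.reach {x y : Nd' H} (hr : (LG H bot top).Reachable x y) (hy : Dr H bot top y) :
    Dr H bot top x := by
  obtain ⟨z, w, p, h1, h2⟩ := hy
  exact ⟨z, w, p, hr.trans h1, h2⟩

lemma Jr_eq (h : Lin H) (hl : ∀ τ ∈ EE H, Link H (bot τ) (top τ) τ) {τ : Finset (Finset V)}
    (hτ : τ ∈ EE H) {v₀ v z : Nd' H} (hadj : (LG H bot top).Adj v₀ v) (hv₀ : v₀.1 = top τ)
    (_hv : v.1 = bot τ) (q : (LG H bot top).Walk z v) :
    UW H (SimpleGraph.Walk.cons hadj q.reverse) = Jr H τ q := by
  rw [UW_cons, UW_reverse]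
  unfold Jr
  have lk := hl τ hτ
  have hτH := (mem_tris.1 lk.tri).1
  have hU := UW_sub q
  apply Subset.antisymm
  · refine cl_cl_subset (union_subset ?_ ?_)
    · exact subset_union_left.trans (subset_cl (union_subset hU hτH))
    · rw [hv₀]
      exact lk.clo_sub h cl_closed cl_subset
        (subset_union_right.trans (subset_cl (union_subset hU hτH)))
  · refine cl_mono (union_subset hU clo_subset) (union_subset_union_right ?_)
    rw [hv₀]
    exact lk.tri_sub h

/-- **a component with a degenerate walk has an angle in a large family of defect two** -/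
lemma drop_angle (he : 3 ≤ e) (h : Lin H) (hf : Free e H)
    (hl : ∀ τ ∈ EE H, Link H (bot τ) (top τ) τ) (M : Finset V → Finset (Finset V))
    (hM : ∀ l ∈ H, D2 e H l (M l) ∧ ∀ Y, D2 e H l Y → M l ⊆ Y → Y = M l) {x : Nd' H}
    (hx : Dr H bot top x) :
    ∃ v : Nd' H, (LG H bot top).Reachable x v ∧ ∃ a ∈ v.1, ∃ l ∈ a, a ⊆ M l := by
  classical
  -- a walk of minimal length
  have hex : ∃ n : ℕ, ∃ y z : Nd' H, ∃ p : (LG H bot top).Walk y z,
      (LG H bot top).Reachable x y ∧ ¬ ND (UW H p) ∧ p.length = n := by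
    obtain ⟨y, z, p, h1, h2⟩ := hx
    exact ⟨p.length, y, z, p, h1, h2, rfl⟩
  obtain ⟨y, z, p, hr, hnd, hlen⟩ := Nat.find_spec hex
  have hmin : ∀ y' z' : Nd' H, ∀ p' : (LG H bot top).Walk y' z',
      (LG H bot top).Reachable x y' → p'.length < p.length → ND (UW H p') := by
    intro y' z' p' h1 h2
    by_contra hcon
    have := Nat.find_min' hex ⟨y', z', p', h1, hcon, rfl⟩
    omega
  clear hlen
  cases p with
  | nil =>
    exfalso
    apply hnd
    rw [UW_nil]
    exact (node_good he h hf y.2).2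
  | @cons _ v _ hadj p1 =>
    have hnd1 : ND (UW H p1) := hmin _ _ p1 (hr.trans hadj.reachable) (by
      rw [SimpleGraph.Walk.length_cons]; omega)
    rcases step_cases h hl hadj p1 with h1 | ⟨τ, hτ, hv, hv₀, hns, h1⟩
    · rw [h1] at hnd; exact absurd hnd1 hnd
    · have lk := hl τ hτ
      have hyp : y ∉ p1.support := by
        intro hh
        have h2 := clo_sub_UW p1 hh
        rw [hv₀] at h2
        exact hns ((lk.tri_sub h).trans h2)
      obtain ⟨a, ha, l, hla, A, hAl, hAy⟩ := lk.line h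
      have hlH : l ∈ H := (mem_angles.1 (node_mem h lk.hx ha).1).1 hla
      obtain ⟨hX, hXmax⟩ := hM l hlH
      have hxv : (LG H bot top).Reachable x v := hr.trans hadj.reachable
      obtain ⟨D, hDH, hlD, hbD, hc, hd⟩ := first_drop he h hf hl hτ hv₀ hv ha hla hAy hX
        p1.length (by
          intro z' q hq
          exact hmin _ _ q (hxv.trans q.reachable.symm) (by
            rw [SimpleGraph.Walk.length_cons]; omega))
        (by
          intro z' q _ hq
          rw [← Jr_eq h hl hτ hadj hv₀ hv q]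
          refine hmin _ _ _ hr ?_
          rw [SimpleGraph.Walk.length_cons, SimpleGraph.Walk.length_cons,
            SimpleGraph.Walk.length_reverse]
          omega) p1.reverse (by
            rw [SimpleGraph.Walk.support_reverse, List.mem_reverse]; exact hyp)
        (by rw [SimpleGraph.Walk.length_reverse]) (by
          rw [← Jr_eq h hl hτ hadj hv₀ hv p1.reverse, SimpleGraph.Walk.reverse_reverse]
          exact hnd)
      have hXD := hXmax (M l ∪ D) ⟨union_subset hX.sub hDH, mem_union_left _ hX.mem, hc, hd⟩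
        subset_union_left
      have hDM : D ⊆ M l := by rw [← hXD]; exact subset_union_right
      refine ⟨v, hxv, a, by rw [hv]; exact ha, l, hla, ?_⟩
      obtain ⟨g1, g2, g3, g4⟩ := node_mem h lk.hx ha
      rw [g4] at hbD
      exact ((subset_cl (mem_angles.1 g1).1).trans hbD).trans hDM

/-- a component of the graph has at most `e^2` vertices -/
lemma comp_card' (he : 3 ≤ e) (h : Lin H) (hf : Free e H)
    (hl : ∀ τ ∈ EE H, Link H (bot τ) (top τ) τ) (N : Finset (Nd' H))
    (hN : ∀ x ∈ N, ∀ y ∈ N, (LG H bot top).Reachable x y) : N.card ≤ e ^ 2 := by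
  classical
  rcases N.eq_empty_or_nonempty with rfl | ⟨x0, hx0⟩
  · simp
  -- a walk with closure of maximal size
  have hbd : ∀ k : ℕ, (∃ y, ∃ p : (LG H bot top).Walk x0 y, (UW H p).card = k) → k ≤ e := by
    rintro k ⟨y, p, rfl⟩
    have := (walks_WF he h hf hl _ _ _ p rfl).good.1
    omega
  obtain ⟨k, ⟨y, p, hp⟩, hmax⟩ : ∃ k : ℕ, (∃ y, ∃ p : (LG H bot top).Walk x0 y,
      (UW H p).card = k) ∧ ∀ k', (∃ y, ∃ p : (LG H bot top).Walk x0 y,
      (UW H p).card = k') → k' ≤ k := by
    have hne : ∃ k : ℕ, (∃ y, ∃ p : (LG H bot top).Walk x0 y, (UW H p).card = k) :=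
      ⟨_, x0, SimpleGraph.Walk.nil, rfl⟩
    refine ⟨Nat.findGreatest (fun k => ∃ y, ∃ p : (LG H bot top).Walk x0 y, (UW H p).card = k) e,
      ?_, ?_⟩
    · obtain ⟨k, hk⟩ := hne
      exact Nat.findGreatest_spec (P := fun k => ∃ y, ∃ p : (LG H bot top).Walk x0 y,
        (UW H p).card = k) (hbd k hk) hk
    · intro k' hk'
      exact Nat.le_findGreatest (hbd k' hk') hk'
  have hcl : ∀ c ∈ N, clo H c.1 ⊆ UW H p := by
    intro c hc
    obtain ⟨r⟩ := hN x0 hx0 c hc
    set q := (p.append p.reverse).append r with hq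
    have h1 : UW H p ⊆ UW H q := by
      unfold UW
      refine cl_mono (sup_sub q) (biUnion_subset_biUnion_of_subset_left _ ?_)
      intro z hz
      rw [List.mem_toFinset] at hz ⊢
      rw [hq, SimpleGraph.Walk.mem_support_append_iff, SimpleGraph.Walk.mem_support_append_iff]
      exact Or.inl (Or.inl hz)
    have h2 := hmax _ ⟨c, q, rfl⟩
    have h3 : UW H p = UW H q := eq_of_subset_of_card_le h1 (by omega)
    rw [h3]
    exact clo_sub_UW q (SimpleGraph.Walk.end_mem_support q)
  -- choose an angle of every class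
  have hch : ∀ c : Nd' H, ∃ a, a ∈ c.1 := fun c => node_nonempty c.2
  choose f hf' using hch
  have h1 : N.card ≤ ((UW H p).powersetCard 2).card := by
    refine card_le_card_of_injOn f ?_ ?_
    · intro c hc
      have hm := node_mem h c.2 (hf' c)
      have ha := mem_angles.1 hm.1
      rw [mem_coe, mem_powersetCard]
      refine ⟨?_, ha.2.1⟩
      have := hcl c hc
      rw [hm.2.2.2] at this
      exact (subset_cl ha.1).trans this
    · intro c _ c' _ hcc
      apply Subtype.ext
      have hh : f c = f c' := hcc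
      exact node_eq h c.2 c'.2 (hf' c) (by rw [hh]; exact hf' c')
  rw [card_powersetCard] at h1
  have h2 := (walks_WF he h hf hl _ _ _ p rfl).good.1
  have h5 : ((UW H p).card).choose 2 ≤ (UW H p).card ^ 2 := Nat.choose_le_pow _ _
  have h6 : (UW H p).card ^ 2 ≤ e ^ 2 := Nat.pow_le_pow_left (by omega) 2
  omega

open Classical in
/-- **few classes lie in components with a degenerate walk** -/
lemma drop_few (he : 3 ≤ e) (h : Lin H) (hf : Free e H)
    (hl : ∀ τ ∈ EE H, Link H (bot τ) (top τ) τ) :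
    ((univ : Finset (Nd' H)).filter (fun x => Dr H bot top x)).card ≤ e ^ 2 * (e * H.card) := by
  have hMex : ∀ l : Finset V, ∃ X, l ∈ H → (D2 e H l X ∧ ∀ Y, D2 e H l Y → X ⊆ Y → Y = X) := by
    intro l
    by_cases hl : l ∈ H
    · obtain ⟨X, hX⟩ := exists_M he h hl
      exact ⟨X, fun _ => hX⟩
    · exact ⟨∅, fun hh => absurd hh hl⟩
  choose M hM using hMex
  set S := (univ : Finset (Nd' H)).filter (fun x => Dr H bot top x) with hS
  set 𝒜 := H.biUnion (fun l => (M l).image (fun m => ({l, m} : Finset (Finset V)))) with h𝒜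
  have h𝒜c : 𝒜.card ≤ e * H.card := by
    calc 𝒜.card ≤ ∑ l ∈ H, ((M l).image (fun m => ({l, m} : Finset (Finset V)))).card :=
          card_biUnion_le
      _ ≤ ∑ l ∈ H, e := by
          refine sum_le_sum fun l hl => ?_
          have k1 := (hM l hl).1.card
          have k2 : ((M l).image (fun m => ({l, m} : Finset (Finset V)))).card ≤ (M l).card :=
            card_image_le
          omega
      _ = e * H.card := by rw [sum_const, smul_eq_mul, mul_comm]
  have hch : ∀ x : Nd' H, ∃ a, x ∈ S → (a ∈ 𝒜 ∧ ∃ v : Nd' H, (LG H bot top).Reachable x v ∧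
      a ∈ v.1) := by
    intro x
    by_cases hx : x ∈ S
    · have hx' : Dr H bot top x := (mem_filter.1 hx).2
      obtain ⟨v, hv, a, ha, l, hla, hlM⟩ := drop_angle he h hf hl M hM hx'
      refine ⟨a, fun _ => ⟨?_, v, hv, ha⟩⟩
      obtain ⟨g1, -⟩ := node_mem h v.2 ha
      obtain ⟨k1, k2, k3⟩ := mem_angles.1 g1
      obtain ⟨A, B, hAB, rfl⟩ := card_eq_two.1 k2
      rw [mem_insert, mem_singleton] at hla
      rw [h𝒜, mem_biUnion]
      rcases hla with rfl | rfl
      · exact ⟨l, k1 (by simp), mem_image.2 ⟨B, hlM (by simp), rfl⟩⟩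
      · exact ⟨l, k1 (by simp), mem_image.2 ⟨A, hlM (by simp), pair_comm _ _⟩⟩
    · exact ⟨∅, fun hh => absurd hh hx⟩
  choose f hf' using hch
  have h1 := Finset.card_le_mul_card_image_of_maps_to (s := S) (t := 𝒜) (f := f)
    (fun x hx => (hf' x hx).1) (e ^ 2) (by
      intro a _
      refine comp_card' he h hf hl _ ?_
      intro x hx y hy
      rw [mem_filter] at hx hy
      obtain ⟨-, v, hv, hav⟩ := hf' x hx.1
      obtain ⟨-, w, hw, haw⟩ := hf' y hy.1
      rw [hx.2] at hav
      rw [hy.2] at haw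
      have : v = w := Subtype.ext (node_eq h v.2 w.2 hav haw)
      subst this
      exact hv.trans hw.symm)
  exact h1.trans (Nat.mul_le_mul_left _ h𝒜c)

/-- the graph of links on the other classes -/
def LG' (H : Finset (Finset V)) (bot top : Finset (Finset V) → Finset (Finset (Finset V))) :
    SimpleGraph (Nd' H) where
  Adj x y := (LG H bot top).Adj x y ∧ ¬ Dr H bot top x
  symm := ⟨by
    rintro x y ⟨h1, h2⟩
    exact ⟨h1.symm, fun hy => h2 (Dr.reach h1.reachable hy)⟩⟩
  loopless := ⟨fun x h => (LG H bot top).loopless.irrefl x h.1⟩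

lemma LG'_le : LG' H bot top ≤ LG H bot top := fun _ _ h => h.1

/-- **the graph is a forest** -/
theorem LG'_acyclic (he : 3 ≤ e) (h : Lin H) (hf : Free e H)
    (hl : ∀ τ ∈ EE H, Link H (bot τ) (top τ) τ) : (LG' H bot top).IsAcyclic := by
  rw [SimpleGraph.isAcyclic_iff_forall_adj_isBridge]
  have key : ∀ x y : Nd' H, ∀ τ ∈ EE H, x.1 = top τ → y.1 = bot τ → ¬ Dr H bot top y →
      ¬ ((LG' H bot top).deleteEdges {s(x, y)}).Reachable x y := by
    rintro x y τ hτ hx hy hdr ⟨p⟩
    set q : (LG H bot top).Walk x y :=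
      p.mapLe ((SimpleGraph.deleteEdges_le _).trans LG'_le) with hq
    have hav := walk_avoid' he h hf hl hτ q hy (by
      intro z r _
      by_contra hcon
      exact hdr ⟨z, y, r, r.reachable.symm, hcon⟩) (by
      rintro z z' hz ⟨hz1, hz2⟩
      have e1 : z = x := Subtype.ext (hz1.trans hx.symm)
      have e2 : z' = y := Subtype.ext (hz2.trans hy.symm)
      subst e1
      subst e2
      rw [hq, SimpleGraph.Walk.edges_mapLe_eq_edges] at hz
      have := SimpleGraph.Walk.edges_subset_edgeSet p hz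
      rw [SimpleGraph.edgeSet_deleteEdges] at this
      exact this.2 rfl)
    apply hav
    refine ((hl τ hτ).tri_sub h).trans ?_
    rw [← hx]
    exact clo_sub_UW q (SimpleGraph.Walk.start_mem_support q)
  intro x y hadj
  have hdx := hadj.2
  have hdy := hadj.symm.2
  rw [SimpleGraph.isBridge_iff]
  obtain ⟨⟨-, τ, hτ, k | k⟩, -⟩ := hadj
  · intro hr
    refine key y x τ hτ k.2 k.1 hdx ?_
    rw [Sym2.eq_swap]
    exact hr.symm
  · exact key x y τ hτ k.1 k.2 hdy

/-- a class has at most `e^3` triangles -/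
lemma node_tris_card (he : 3 ≤ e) (h : Lin H) (hf : Free e H) {c : Finset (Finset (Finset V))}
    (hc : c ∈ nodes H) : (trisOf H c).card ≤ e ^ 3 := by
  obtain ⟨a, ha⟩ := node_nonempty hc
  have h2 := (node_good he h hf hc).1.1
  rw [(node_mem h hc ha).2.2.2] at h2
  rw [← trisOf_local h hc ha]
  have h3 : trisOf (cl H a) c ⊆ (cl H a).powersetCard 3 :=
    (filter_subset _ _).trans (filter_subset _ _)
  have h4 := card_le_card h3
  rw [card_powersetCard] at h4
  have h5 : ((cl H a).card).choose 3 ≤ (cl H a).card ^ 3 := Nat.choose_le_pow _ _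
  have h6 : (cl H a).card ^ 3 ≤ e ^ 3 := Nat.pow_le_pow_left (by omega) 3
  omega

open Classical in
/-- the number of triangles of nondegenerate classes -/
lemma nondeg_ineq' (he : 3 ≤ e) (h : Lin H) (hf : Free e H) :
    3 * e ^ 4 * ∑ c ∈ nodes H, (trisOf H c).card + 2 * ∑ c ∈ nodes H, c.card ≤
      2 * e ^ 4 * ∑ c ∈ nodes H, c.card +
        (3 * e ^ 7 + 2 * e ^ 4 + 2 * e ^ 2) * (e ^ 2 * (e * H.card)) := by
  -- choose the links
  have hch : ∀ τ : Finset (Finset V), ∃ x y, τ ∈ EE H → Link H x y τ := by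
    intro τ
    by_cases hτ : τ ∈ EE H
    · obtain ⟨x, y, l⟩ := exists_link h hτ
      exact ⟨x, y, fun _ => l⟩
    · exact ⟨∅, ∅, fun hh => absurd hh hτ⟩
  choose bot top hl using hch
  -- the forest
  have hac := LG'_acyclic he h hf hl
  have hfor := forest (LG' H bot top) hac
  have hcardW : Fintype.card (Nd' H) = (nodes H).card := Fintype.card_coe _
  set S := (univ : Finset (Nd' H)).filter (fun x => Dr H bot top x) with hS
  set N := (univ : Finset (Nd' H)).filter (fun x => ¬ Dr H bot top x) with hN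
  have hSc : S.card ≤ e ^ 2 * (e * H.card) := drop_few he h hf hl
  have hSN : S.card + N.card = (nodes H).card := by
    rw [← hcardW, ← card_univ, hS, hN]
    exact card_filter_add_card_filter_not _
  set E' := (EE H).filter (fun τ => ∃ hc : top τ ∈ nodes H, ¬ Dr H bot top ⟨top τ, hc⟩) with hE'
  have hEle : E'.card ≤ Nat.card (LG' H bot top).edgeSet := by
    have : Finite (LG' H bot top).edgeSet := inferInstance
    let φ : {τ // τ ∈ E'} → (LG' H bot top).edgeSet := fun τ =>
      ⟨s(⟨bot τ.1, (hl τ.1 (mem_filter.1 τ.2).1).hx⟩, ⟨top τ.1, (hl τ.1 (mem_filter.1 τ.2).1).hy⟩), by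
        rw [SimpleGraph.mem_edgeSet]
        obtain ⟨hτ, hc, hdr⟩ := mem_filter.1 τ.2
        have hadj : (LG H bot top).Adj ⟨bot τ.1, (hl τ.1 hτ).hx⟩ ⟨top τ.1, (hl τ.1 hτ).hy⟩ := by
          refine ⟨?_, τ.1, hτ, Or.inl ⟨rfl, rfl⟩⟩
          intro hh
          exact bot_ne_top h hl hτ (Subtype.ext_iff.1 hh)
        exact ⟨hadj, fun hh => hdr (Dr.reach hadj.symm.reachable hh)⟩⟩
    have hinj : Function.Injective φ := by
      intro τ σ hh
      have h1 := congrArg Subtype.val hh
      simp only [φ, Sym2.eq, Sym2.rel_iff', Prod.mk.injEq, Prod.swap_prod_mk, Subtype.mk.injEq] at h1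
      exact Subtype.ext (links_inj he h hf hl (mem_filter.1 τ.2).1 (mem_filter.1 σ.2).1 h1)
    have := Nat.card_le_card_of_injective φ hinj
    rw [Nat.card_eq_fintype_card, Fintype.card_coe] at this
    exact this
  -- components
  have hcomp : (nodes H).card ≤ e ^ 2 * Nat.card (LG' H bot top).ConnectedComponent := by
    have : Fintype (LG' H bot top).ConnectedComponent := Fintype.ofFinite _
    rw [← hcardW, Nat.card_eq_fintype_card, mul_comm]
    rw [← Finset.card_univ, ← Finset.card_univ]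
    have := Finset.card_le_mul_card_image_of_maps_to (s := (univ : Finset (Nd' H)))
      (t := (univ : Finset (LG' H bot top).ConnectedComponent))
      (f := (LG' H bot top).connectedComponentMk) (fun _ _ => mem_univ _) (e ^ 2) (by
        intro k _
        refine comp_card' he h hf hl _ ?_
        intro x hx y hy
        rw [mem_filter] at hx hy
        exact (SimpleGraph.ConnectedComponent.eq.1 (hx.2.trans hy.2.symm)).mono LG'_le)
    rw [mul_comm]
    exact this
  -- the sum of the local inequalities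
  have hsum : 3 * ∑ c ∈ N, (trisOf H c.1).card + 2 * N.card ≤
      2 * ∑ c ∈ N, c.1.card + 2 * E'.card := by
    have e1 : ∑ c ∈ N.filter (fun c => Bad H c.1),
        ((trisOf H c.1).filter (fun τ => 2 ≤ dl H τ)).card ≤ E'.card := by
      rw [← card_biUnion]
      · refine card_le_card ?_
        intro τ hτ
        rw [mem_biUnion] at hτ
        obtain ⟨c, hc, hτ⟩ := hτ
        rw [mem_filter] at hc hτ
        have hτ1 := hτ.1
        unfold trisOf at hτ1
        rw [mem_filter] at hτ1
        have hτE : τ ∈ EE H := by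
          rw [EE, mem_filter]
          exact ⟨hτ1.1, hτ.2, c.1, c.2, hc.2, hτ1.2⟩
        rw [hE', mem_filter]
        refine ⟨hτE, (hl τ hτE).hy, ?_⟩
        obtain ⟨a, ha, haτ⟩ := hτ1.2
        obtain ⟨b, hb, hbτ⟩ := (hl τ hτE).par
        have : c.1 = top τ := node_eq h c.2 (hl τ hτE).hy
          (node_tri h c.2 hτ1.1 ha haτ (node_mem h (hl τ hτE).hy hb).1 hbτ) hb
        have hc1 : (⟨top τ, (hl τ hτE).hy⟩ : Nd' H) = c := Subtype.ext this.symm
        rw [hc1]
        exact (mem_filter.1 hc.1).2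
      · intro c hc c' hc' hne
        change Disjoint _ _
        rw [disjoint_left]
        intro τ h1 h2
        apply hne
        rw [mem_filter] at h1 h2
        have k1 := h1.1
        have k2 := h2.1
        unfold trisOf at k1 k2
        rw [mem_filter] at k1 k2
        obtain ⟨k1, a, ha, haτ⟩ := k1
        obtain ⟨-, a', ha', haτ'⟩ := k2
        have : a' ∈ c.1 := node_tri h c.2 k1 ha haτ (node_mem h c'.2 ha').1 haτ'
        exact Subtype.ext (node_eq h c.2 c'.2 this ha')
    have e2 : ∀ c ∈ N, 3 * (trisOf H c.1).card + 2 ≤ 2 * c.1.card +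
        2 * (if Bad H c.1 then ((trisOf H c.1).filter (fun τ => 2 ≤ dl H τ)).card else 0) := by
      intro c _
      split_ifs with hb
      · exact local_ineq h c.2
      · unfold Bad at hb
        omega
    have e3 := sum_le_sum e2
    rw [sum_add_distrib, sum_add_distrib, ← mul_sum, ← mul_sum, ← mul_sum, ← sum_filter,
      sum_const, smul_eq_mul] at e3
    omega
  have hA : ∑ c ∈ N, c.1.card ≤ e ^ 2 * (nodes H).card := by
    calc ∑ c ∈ N, c.1.card ≤ ∑ c ∈ N, e ^ 2 := sum_le_sum fun c _ => node_card he h hf c.2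
      _ = e ^ 2 * N.card := by rw [sum_const, smul_eq_mul, mul_comm]
      _ ≤ e ^ 2 * (nodes H).card := Nat.mul_le_mul_left _ (by omega)
  have hAS : ∑ c ∈ S, c.1.card ≤ e ^ 2 * S.card := by
    calc ∑ c ∈ S, c.1.card ≤ ∑ c ∈ S, e ^ 2 := sum_le_sum fun c _ => node_card he h hf c.2
      _ = e ^ 2 * S.card := by rw [sum_const, smul_eq_mul, mul_comm]
  have hTS : ∑ c ∈ S, (trisOf H c.1).card ≤ e ^ 3 * S.card := by
    calc ∑ c ∈ S, (trisOf H c.1).card ≤ ∑ c ∈ S, e ^ 3 :=
          sum_le_sum fun c _ => node_tris_card he h hf c.2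
      _ = e ^ 3 * S.card := by rw [sum_const, smul_eq_mul, mul_comm]
  rw [hcardW] at hfor
  set κ := Nat.card (LG' H bot top).ConnectedComponent with hκ
  have h1 : 3 * ∑ c ∈ N, (trisOf H c.1).card + 2 * κ ≤
      2 * ∑ c ∈ N, c.1.card + 2 * S.card := by omega
  have h2 : ∑ c ∈ N, c.1.card ≤ e ^ 4 * κ := by
    calc ∑ c ∈ N, c.1.card ≤ e ^ 2 * (nodes H).card := hA
      _ ≤ e ^ 2 * (e ^ 2 * κ) := Nat.mul_le_mul_left _ hcomp
      _ = e ^ 4 * κ := by ring
  have h3 := Nat.mul_le_mul_left (e ^ 4) h1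
  -- split the sums
  have hsT : ∑ c ∈ nodes H, (trisOf H c).card =
      ∑ c ∈ S, (trisOf H c.1).card + ∑ c ∈ N, (trisOf H c.1).card := by
    rw [hS, hN, sum_filter_add_sum_filter_not]
    exact (Finset.sum_coe_sort (nodes H) (fun c => (trisOf H c).card)).symm
  have hsA : ∑ c ∈ nodes H, c.card = ∑ c ∈ S, c.1.card + ∑ c ∈ N, c.1.card := by
    rw [hS, hN, sum_filter_add_sum_filter_not]
    exact (Finset.sum_coe_sort (nodes H) (fun c => c.card)).symm
  rw [hsT, hsA]
  set TN := ∑ c ∈ N, (trisOf H c.1).card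
  set TS := ∑ c ∈ S, (trisOf H c.1).card
  set AN := ∑ c ∈ N, c.1.card
  set AS := ∑ c ∈ S, c.1.card
  calc 3 * e ^ 4 * (TS + TN) + 2 * (AS + AN)
      = 3 * e ^ 4 * TS + 2 * AS + (e ^ 4 * (3 * TN) + 2 * AN) := by ring
    _ ≤ 3 * e ^ 4 * (e ^ 3 * S.card) + 2 * (e ^ 2 * S.card) +
        (e ^ 4 * (3 * TN) + 2 * (e ^ 4 * κ)) := by
        refine Nat.add_le_add (Nat.add_le_add (Nat.mul_le_mul_left _ hTS)
          (Nat.mul_le_mul_left _ hAS)) (Nat.add_le_add_left (Nat.mul_le_mul_left _ h2) _)
    _ = (3 * e ^ 7 + 2 * e ^ 2) * S.card + e ^ 4 * (3 * TN + 2 * κ) := by ring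
    _ ≤ (3 * e ^ 7 + 2 * e ^ 2) * S.card + e ^ 4 * (2 * AN + 2 * S.card) :=
        Nat.add_le_add_left h3 _
    _ = 2 * e ^ 4 * AN + (3 * e ^ 7 + 2 * e ^ 4 + 2 * e ^ 2) * S.card := by ring
    _ ≤ 2 * e ^ 4 * (AS + AN) +
        (3 * e ^ 7 + 2 * e ^ 4 + 2 * e ^ 2) * (e ^ 2 * (e * H.card)) :=
        Nat.add_le_add (Nat.mul_le_mul_left _ (by omega)) (Nat.mul_le_mul_left _ hSc)

/-- **Theorem C.** In a linear triple system without `e` lines on `e + 3` points, the number of
triangles is less than two thirds of the number of angles, up to a term linear in the number of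
lines. -/
theorem thmC (e : ℕ) (he : 3 ≤ e) (V : Type*) [DecidableEq V] (H : Finset (Finset V))
    (h : Lin H) (hf : Free e H) :
    3 * e ^ 4 * (tris H).card + (angles H).card ≤
      2 * e ^ 4 * (angles H).card + 12 * e ^ 10 * H.card := by
  have h1 := nondeg_ineq' he h hf
  have h2 := angles_le he h hf
  have h3 := tris_le he h hf
  have h4 : ∑ c ∈ nodes H, c.card ≤ (angles H).card := by
    classical
    rw [← card_biUnion]
    · refine card_le_card ?_
      intro a ha
      obtain ⟨c, hc, hac⟩ := mem_biUnion.1 ha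
      exact (node_mem h hc hac).1
    · intro c hc c' hc' hne
      change Disjoint c c'
      rw [disjoint_left]
      intro a ha ha'
      exact hne (node_eq h hc hc' ha ha')
  have h5 := Nat.mul_le_mul_left (3 * e ^ 4) h3
  have h6 := Nat.mul_le_mul_left (2 * e ^ 4) h4
  rw [mul_add] at h5
  have h7 : 3 * e ^ 4 * (e ^ 2 * H.card) = 3 * e ^ 6 * H.card := by ring
  have h8 : (3 * e ^ 7 + 2 * e ^ 4 + 2 * e ^ 2) * (e ^ 2 * (e * H.card)) =
      (3 * e ^ 10 + 2 * e ^ 7 + 2 * e ^ 5) * H.card := by ring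
  have h9 : (3 * e ^ 10 + 2 * e ^ 7 + 2 * e ^ 5) * H.card + 3 * e ^ 6 * H.card + e * H.card ≤
      12 * e ^ 10 * H.card := by
    have k7 : e ^ 7 ≤ e ^ 10 := Nat.pow_le_pow_right (by omega) (by omega)
    have k5 : e ^ 5 ≤ e ^ 10 := Nat.pow_le_pow_right (by omega) (by omega)
    have k6 : e ^ 6 ≤ e ^ 10 := Nat.pow_le_pow_right (by omega) (by omega)
    have k1 : e ^ 1 ≤ e ^ 10 := Nat.pow_le_pow_right (by omega) (by omega)
    rw [pow_one] at k1
    calc (3 * e ^ 10 + 2 * e ^ 7 + 2 * e ^ 5) * H.card + 3 * e ^ 6 * H.card + e * H.card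
        = (3 * e ^ 10 + 2 * e ^ 7 + 2 * e ^ 5 + 3 * e ^ 6 + e) * H.card := by ring
      _ ≤ 12 * e ^ 10 * H.card := Nat.mul_le_mul_right _ (by omega)
  rw [h8] at h1
  rw [h7] at h5
  omega

end Pool.Agent.Helper74K9.BES
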