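import Pool.Agent.Helper74K9.BES.Closure

/-!
# Triangles over closed families
-/

set_option autoImplicit false

namespace Pool.Agent.Helper74K9.BES

open Finset Pool.Agent.W848 Pool.Agent.W848.TreeAvg

variable {V : Type*} [DecidableEq V]

variable {H X Y : Finset (Finset V)} {τ a : Finset (Finset V)}

lemma mem_multi {x : V} {F : Finset (Finset V)} :
    x ∈ multi F ↔ 2 ≤ (F.filter (fun A => x ∈ A)).card := by
  rw [multi, mem_filter]
  constructor
  · exact fun h => h.2
  · intro h
    refine ⟨?_, h⟩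
    obtain ⟨A, hA⟩ := card_pos.1 (show 0 < (F.filter (fun A => x ∈ A)).card by omega)
    rw [mem_filter] at hA
    exact subset_un hA.1 hA.2

lemma mem_multi' {x : V} {F : Finset (Finset V)} :
    x ∈ multi F ↔ ∃ A ∈ F, ∃ B ∈ F, A ≠ B ∧ x ∈ A ∧ x ∈ B := by
  rw [mem_multi]
  constructor
  · intro h
    obtain ⟨A, hA, B, hB, hAB⟩ := one_lt_card.1 (show 1 < (F.filter (fun A => x ∈ A)).card by omega)
    rw [mem_filter] at hA hB
    exact ⟨A, hA.1, B, hB.1, hAB, hA.2, hB.2⟩
  · rintro ⟨A, hA, B, hB, hAB, h1, h2⟩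
    exact one_lt_card.2 ⟨A, mem_filter.2 ⟨hA, h1⟩, B, mem_filter.2 ⟨hB, h2⟩, hAB⟩

lemma multi_mono {F F' : Finset (Finset V)} (h : F ⊆ F') : multi F ⊆ multi F' := by
  intro x hx
  rw [mem_multi'] at hx ⊢
  obtain ⟨A, hA, B, hB, hh⟩ := hx
  exact ⟨A, h hA, B, h hB, hh⟩

lemma multi_sub_un {F : Finset (Finset V)} : multi F ⊆ un F := filter_subset _ _

/-- coordinates for a triangle -/
structure TC (τ : Finset (Finset V)) (y z c u v d : V) : Prop where
  yz : y ≠ z
  yc : y ≠ c
  zc : z ≠ c
  yu : y ≠ u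
  yv : y ≠ v
  yd : y ≠ d
  zu : z ≠ u
  zv : z ≠ v
  zd : z ≠ d
  cu : c ≠ u
  cv : c ≠ v
  cd : c ≠ d
  uv : u ≠ v
  ud : u ≠ d
  vd : v ≠ d
  eq : τ = {({y, c, u} : Finset V), {y, z, v}, {z, c, d}}

/-- two points of a line other than a given one -/
lemma card3_erase {A : Finset V} (hA : A.card = 3) {x y : V} (hxy : x ≠ y) (hx : x ∈ A)
    (hy : y ∈ A) : ∃ u, u ≠ x ∧ u ≠ y ∧ A = {x, y, u} := by
  have h1 : ((A.erase x).erase y).card = 1 := by
    rw [card_erase_of_mem (mem_erase.2 ⟨hxy.symm, hy⟩), card_erase_of_mem hx, hA]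
  obtain ⟨u, hu⟩ := card_eq_one.1 h1
  have hu' : u ∈ (A.erase x).erase y := by rw [hu]; simp
  rw [mem_erase, mem_erase] at hu'
  refine ⟨u, hu'.2.1, hu'.1, ?_⟩
  rw [← insert_erase hx, ← insert_erase (mem_erase.2 ⟨hxy.symm, hy⟩ : y ∈ A.erase x), hu]

/-- any two lines of a triangle meet -/
lemma Lin.tri_pair (h : Lin H) (hτ : τ ∈ tris H) {s : Finset (Finset V)} (hs : s ⊆ τ)
    (h2 : s.card = 2) : s ∈ angles H := by
  obtain ⟨hτH, h3, h6⟩ := mem_tris.1 hτ
  rw [mem_angles]
  refine ⟨hs.trans hτH, h2, ?_⟩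
  have h5 := h.five (hs.trans hτH) h2.ge
  obtain ⟨m, hm⟩ := card_pos.1 (show 0 < (τ \ s).card by
    have := card_sdiff_add_card_eq_card hs
    omega)
  rw [mem_sdiff] at hm
  have hins : insert m s = τ := by
    refine eq_of_subset_of_card_le (insert_subset hm.1 hs) ?_
    rw [card_insert_of_notMem hm.2, h3, h2]
  have h7 := h.un_insert_card (Y := s) (hτH hm.1)
  rw [hins, h6] at h7
  -- `m` has at most two points on the lines of `s`
  obtain ⟨A, B, hAB, rfl⟩ := card_eq_two.1 h2
  have hA : A ∈ H := hτH (hs (by simp))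
  have hB : B ∈ H := hτH (hs (by simp))
  have hmA : m ≠ A := by rintro rfl; exact hm.2 (by simp)
  have hmB : m ≠ B := by rintro rfl; exact hm.2 (by simp)
  have h8 : m ∩ un ({A, B} : Finset (Finset V)) ⊆ (m ∩ A) ∪ (m ∩ B) := by
    rw [un_pair, inter_union_distrib_left]
  have h9 := (card_le_card h8).trans (card_union_le _ _)
  have h10 := h.lin m (hτH hm.1) A hA hmA
  have h11 := h.lin m (hτH hm.1) B hB hmB
  omega

lemma Lin.tri_coords (h : Lin H) (hτ : τ ∈ tris H) : ∃ y z c u v d : V, TC τ y z c u v d := by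
  obtain ⟨hτH, h3, h6⟩ := mem_tris.1 hτ
  obtain ⟨A, B, C, hAB, hAC, hBC, rfl⟩ := card_eq_three.1 h3
  have hA : A ∈ H := hτH (by simp)
  have hB : B ∈ H := hτH (by simp)
  have hC : C ∈ H := hτH (by simp)
  obtain ⟨-, -, -, y, hyA, hyB⟩ := h.pair_mem_angles.1 (h.tri_pair hτ (s := {A, B})
    (by intro D hD; simp only [mem_insert, mem_singleton] at hD ⊢; tauto) (card_pair hAB))
  obtain ⟨-, -, -, c, hcA, hcC⟩ := h.pair_mem_angles.1 (h.tri_pair hτ (s := {A, C})
    (by intro D hD; simp only [mem_insert, mem_singleton] at hD ⊢; tauto) (card_pair hAC))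
  obtain ⟨-, -, -, z, hzB, hzC⟩ := h.pair_mem_angles.1 (h.tri_pair hτ (s := {B, C})
    (by intro D hD; simp only [mem_insert, mem_singleton] at hD ⊢; tauto) (card_pair hBC))
  -- the three lines are not concurrent
  have hnc : ∀ x, x ∈ A → x ∈ B → x ∈ C → False := by
    intro x h1 h2 h3'
    have e1 : (C ∩ un ({A, B} : Finset (Finset V))) ⊆ {x} := by
      intro p hp
      rw [mem_inter, un_pair, mem_union] at hp
      rw [mem_singleton]
      by_contra hpx
      rcases hp.2 with hh | hh
      · exact hAC (h.eq_of_two hA hC hpx hh h1 hp.1 h3')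
      · exact hBC (h.eq_of_two hB hC hpx hh h2 hp.1 h3')
    have e2 := card_le_card e1
    have e3 := h.un_insert_card (Y := ({A, B} : Finset (Finset V))) hC
    have e4 : insert C ({A, B} : Finset (Finset V)) = {A, B, C} := by
      ext D; simp only [mem_insert, mem_singleton]; tauto
    have e5 := h.five (I := ({A, B} : Finset (Finset V)))
      (by intro D hD; rw [mem_insert, mem_singleton] at hD; rcases hD with rfl | rfl <;> assumption)
      (card_pair hAB).ge
    rw [e4, h6] at e3
    rw [card_singleton] at e2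
    omega
  have hyz : y ≠ z := by rintro rfl; exact hnc y hyA hyB hzC
  have hyc : y ≠ c := by rintro rfl; exact hnc y hyA hyB hcC
  have hzc : z ≠ c := by rintro rfl; exact hnc z hcA hzB hzC
  obtain ⟨u, huy, huc, hAe⟩ := card3_erase (h.h3 A hA) hyc hyA hcA
  obtain ⟨v, hvy, hvz, hBe⟩ := card3_erase (h.h3 B hB) hyz hyB hzB
  obtain ⟨d, hdz, hdc, hCe⟩ := card3_erase (h.h3 C hC) hzc hzC hcC
  have huA : u ∈ A := by rw [hAe]; simp
  have hvB : v ∈ B := by rw [hBe]; simp
  have hdC : d ∈ C := by rw [hCe]; simp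
  refine ⟨y, z, c, u, v, d, hyz, hyc, hzc, huy.symm, hvy.symm, ?_, ?_, hvz.symm, hdz.symm, huc.symm,
    ?_, hdc.symm, ?_, ?_, ?_, by rw [← hAe, ← hBe, ← hCe]⟩
  · rintro rfl; exact hnc y hyA hyB hdC
  · rintro rfl; exact hnc z huA hzB hzC
  · rintro rfl; exact hnc c hcA hvB hcC
  · rintro rfl; exact hAB (h.eq_of_two hA hB huy huA hyA hvB hyB)
  · rintro rfl; exact hAC (h.eq_of_two hA hC huc huA hcA hdC hcC)
  · rintro rfl; exact hBC (h.eq_of_two hB hC hvz hvB hzB hdC hzC)

lemma TC.multi_eq {y z c u v d : V} (t : TC τ y z c u v d) : multi τ = {y, z, c} := by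
  obtain ⟨h1, h2, h3, h4, h5, h6, h7, h8, h9, h10, h11, h12, h13, h14, h15, rfl⟩ := t
  ext x
  rw [mem_multi']
  constructor
  · rintro ⟨A, hA, B, hB, hAB, hxA, hxB⟩
    simp only [mem_insert, mem_singleton] at hA hB ⊢
    rcases hA with rfl | rfl | rfl <;> rcases hB with rfl | rfl | rfl <;>
      first
      | exact absurd rfl hAB
      | (simp only [mem_insert, mem_singleton] at hxA hxB
         rcases hxA with rfl | rfl | rfl <;> rcases hxB with hh | hh | hh <;>
          first
          | (left; rfl)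
          | (right; left; rfl)
          | (right; right; rfl)
          | (exact absurd hh (by first | assumption | (apply Ne.symm; assumption))))
  · intro hx
    simp only [mem_insert, mem_singleton] at hx
    have e1 : ({y, c, u} : Finset V) ≠ {y, z, v} := by
      intro hh
      have : c ∈ ({y, z, v} : Finset V) := by rw [← hh]; simp
      simp only [mem_insert, mem_singleton] at this
      rcases this with hh | hh | hh
      · exact h2 hh.symm
      · exact h3 hh.symm
      · exact h11 hh
    have e2 : ({y, c, u} : Finset V) ≠ {z, c, d} := by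
      intro hh
      have : y ∈ ({z, c, d} : Finset V) := by rw [← hh]; simp
      simp only [mem_insert, mem_singleton] at this
      rcases this with hh | hh | hh
      · exact h1 hh
      · exact h2 hh
      · exact h6 hh
    have e3 : ({y, z, v} : Finset V) ≠ {z, c, d} := by
      intro hh
      have : y ∈ ({z, c, d} : Finset V) := by rw [← hh]; simp
      simp only [mem_insert, mem_singleton] at this
      rcases this with hh | hh | hh
      · exact h1 hh
      · exact h2 hh
      · exact h6 hh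
    rcases hx with rfl | rfl | rfl
    · exact ⟨_, by simp, _, by simp, e1, by simp, by simp⟩
    · exact ⟨_, by simp, _, by simp, e3, by simp, by simp⟩
    · exact ⟨_, by simp, _, by simp, e2, by simp, by simp⟩

lemma TC.un_eq {y z c u v d : V} (t : TC τ y z c u v d) : un τ = {y, z, c, u, v, d} := by
  rw [t.eq]
  ext x
  simp only [TreeAvg.un, mem_biUnion, mem_insert, mem_singleton, id, exists_eq_or_imp, exists_eq_left]
  tauto

lemma TC.outer {y z c u v d : V} (t : TC τ y z c u v d) : un τ \ multi τ = {u, v, d} := by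
  rw [t.multi_eq, t.un_eq]
  obtain ⟨h1, h2, h3, h4, h5, h6, h7, h8, h9, h10, h11, h12, h13, h14, h15, -⟩ := t
  ext x
  simp only [mem_sdiff, mem_insert, mem_singleton]
  constructor
  · rintro ⟨hh, hn⟩
    tauto
  · intro hh
    rcases hh with rfl | rfl | rfl
    · exact ⟨by tauto, by rintro (hh | hh | hh) <;> [exact h4 hh.symm; exact h7 hh.symm; exact h10 hh.symm]⟩
    · exact ⟨by tauto, by rintro (hh | hh | hh) <;> [exact h5 hh.symm; exact h8 hh.symm; exact h11 hh.symm]⟩
    · exact ⟨by tauto, by rintro (hh | hh | hh) <;> [exact h6 hh.symm; exact h9 hh.symm; exact h12 hh.symm]⟩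

lemma TC.mem {y z c u v d : V} (t : TC τ y z c u v d) :
    ({y, c, u} : Finset V) ∈ τ ∧ ({y, z, v} : Finset V) ∈ τ ∧ ({z, c, d} : Finset V) ∈ τ := by
  rw [t.eq]; simp

/-- A triangle all of whose outer points are covered by a closed family not containing it is
disjoint from that family -/
lemma Closed.medial (hc : Closed H X) (h : Lin H) (hτ : τ ∈ tris H)
    (ho : un τ \ multi τ ⊆ un X) (hn : ¬ τ ⊆ X) :
    Disjoint τ X ∧ Disjoint (multi τ) (un X) := by
  obtain ⟨y, z, c, u, v, d, t⟩ := h.tri_coords hτ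
  have hτH := (mem_tris.1 hτ).1
  rw [t.outer] at ho
  have hu : u ∈ un X := ho (by simp)
  have hv : v ∈ un X := ho (by simp)
  have hd : d ∈ un X := ho (by simp)
  obtain ⟨m1, m2, m3⟩ := t.mem
  have key : ∀ x ∈ multi τ, x ∉ un X := by
    intro x hx hxX
    apply hn
    rw [t.multi_eq] at hx
    simp only [mem_insert, mem_singleton] at hx
    have g1 : x = y ∨ x = c → ({y, c, u} : Finset V) ∈ X := by
      rintro (rfl | rfl)
      · exact hc.two (hτH m1) t.yu (by simp) (by simp) hxX hu
      · exact hc.two (hτH m1) t.cu (by simp) (by simp) hxX hu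
    have g2 : x = y ∨ x = z → ({y, z, v} : Finset V) ∈ X := by
      rintro (rfl | rfl)
      · exact hc.two (hτH m2) t.yv (by simp) (by simp) hxX hv
      · exact hc.two (hτH m2) t.zv (by simp) (by simp) hxX hv
    have g3 : x = z ∨ x = c → ({z, c, d} : Finset V) ∈ X := by
      rintro (rfl | rfl)
      · exact hc.two (hτH m3) t.zd (by simp) (by simp) hxX hd
      · exact hc.two (hτH m3) t.cd (by simp) (by simp) hxX hd
    have k1 : ({y, c, u} : Finset V) ∈ X → ({y, z, v} : Finset V) ∈ X → ({z, c, d} : Finset V) ∈ X :=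
      fun a1 a2 => hc.two (hτH m3) t.zc (by simp) (by simp) (subset_un a2 (by simp))
        (subset_un a1 (by simp))
    have k2 : ({y, c, u} : Finset V) ∈ X → ({z, c, d} : Finset V) ∈ X → ({y, z, v} : Finset V) ∈ X :=
      fun a1 a2 => hc.two (hτH m2) t.yz (by simp) (by simp) (subset_un a1 (by simp))
        (subset_un a2 (by simp))
    have k3 : ({y, z, v} : Finset V) ∈ X → ({z, c, d} : Finset V) ∈ X → ({y, c, u} : Finset V) ∈ X :=
      fun a1 a2 => hc.two (hτH m1) t.yc (by simp) (by simp) (subset_un a1 (by simp))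
        (subset_un a2 (by simp))
    rw [t.eq]
    intro D hD
    simp only [mem_insert, mem_singleton] at hD
    rcases hx with hx | hx | hx
    · have a1 := g1 (Or.inl hx)
      have a2 := g2 (Or.inl hx)
      rcases hD with rfl | rfl | rfl <;> [exact a1; exact a2; exact k1 a1 a2]
    · have a1 := g2 (Or.inr hx)
      have a2 := g3 (Or.inl hx)
      rcases hD with rfl | rfl | rfl <;> [exact k3 a1 a2; exact a1; exact a2]
    · have a1 := g1 (Or.inr hx)
      have a2 := g3 (Or.inr hx)
      rcases hD with rfl | rfl | rfl <;> [exact a1; exact k2 a1 a2; exact a2]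
  refine ⟨?_, disjoint_left.2 key⟩
  rw [disjoint_left]
  intro A hA hAX
  rw [t.eq] at hA
  simp only [mem_insert, mem_singleton] at hA
  rcases hA with rfl | rfl | rfl
  · exact key y (by rw [t.multi_eq]; simp) (subset_un hAX (by simp))
  · exact key y (by rw [t.multi_eq]; simp) (subset_un hAX (by simp))
  · exact key z (by rw [t.multi_eq]; simp) (subset_un hAX (by simp))

/-- every line of a triangle has two of its vertices; two lines have all -/
lemma Lin.tri_inner_one (h : Lin H) (hτ : τ ∈ tris H) {A : Finset V} (hA : A ∈ τ) :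
    2 ≤ (A ∩ multi τ).card := by
  obtain ⟨y, z, c, u, v, d, t⟩ := h.tri_coords hτ
  rw [t.multi_eq]
  rw [t.eq] at hA
  simp only [mem_insert, mem_singleton] at hA
  rcases hA with rfl | rfl | rfl
  · exact one_lt_card.2 ⟨y, by simp, c, by simp, t.yc⟩
  · exact one_lt_card.2 ⟨y, by simp, z, by simp, t.yz⟩
  · exact one_lt_card.2 ⟨z, by simp, c, by simp, t.zc⟩

lemma Lin.tri_inner_two (h : Lin H) (hτ : τ ∈ tris H) {A B : Finset V} (hA : A ∈ τ) (hB : B ∈ τ)
    (hAB : A ≠ B) : multi τ ⊆ A ∪ B := by
  obtain ⟨y, z, c, u, v, d, t⟩ := h.tri_coords hτ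
  rw [t.multi_eq]
  rw [t.eq] at hA hB
  simp only [mem_insert, mem_singleton] at hA hB
  intro x hx
  simp only [mem_insert, mem_singleton] at hx
  rw [mem_union]
  rcases hA with rfl | rfl | rfl <;> rcases hB with rfl | rfl | rfl <;>
    first
    | exact absurd rfl hAB
    | (rcases hx with rfl | rfl | rfl <;> simp)

lemma Lin.tri_multi_card (h : Lin H) (hτ : τ ∈ tris H) : (multi τ).card = 3 := by
  obtain ⟨y, z, c, u, v, d, t⟩ := h.tri_coords hτ
  rw [t.multi_eq]
  exact card_eq_three.2 ⟨y, z, c, t.yz, t.yc, t.zc, rfl⟩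

/-- adding a triangle whose outer points and one of whose vertices are covered is a drop -/
lemma Lin.drop_tri (h : Lin H) (hτ : τ ∈ tris H)
    (ho : un τ \ multi τ ⊆ un X) (hi : ∃ x ∈ multi τ, x ∈ un X)
    (hn : ¬ τ ⊆ X) :
    (un (X ∪ τ)).card + 1 + X.card ≤ (un X).card + (X ∪ τ).card := by
  have h3 := (mem_tris.1 hτ).2.1
  have hm3 := h.tri_multi_card hτ
  -- covered vertices
  have hq : (τ ∩ X).card + 1 ≤ (multi τ ∩ un X).card := by
    rcases Nat.lt_or_ge (τ ∩ X).card 1 with h0 | h1
    · obtain ⟨x, hx, hxX⟩ := hi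
      have := card_pos.2 ⟨x, mem_inter.2 ⟨hx, hxX⟩⟩
      omega
    · rcases Nat.lt_or_ge (τ ∩ X).card 2 with h2 | h2
      · obtain ⟨A, hA⟩ := card_pos.1 (show 0 < (τ ∩ X).card by omega)
        rw [mem_inter] at hA
        have e1 := h.tri_inner_one hτ hA.1
        have e2 : A ∩ multi τ ⊆ multi τ ∩ un X := by
          intro x hx
          rw [mem_inter] at hx ⊢
          exact ⟨hx.2, subset_un hA.2 hx.1⟩
        have := card_le_card e2
        omega
      · obtain ⟨A, hA, B, hB, hAB⟩ := one_lt_card.1 (show 1 < (τ ∩ X).card by omega)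
        rw [mem_inter] at hA hB
        have e1 := h.tri_inner_two hτ hA.1 hB.1 hAB
        have e2 : multi τ ∩ un X = multi τ := by
          refine inter_eq_left.2 (e1.trans (union_subset (subset_un hA.2) (subset_un hB.2)))
        rw [e2, hm3]
        have e3 : (τ ∩ X).card < τ.card :=
          card_lt_card ⟨inter_subset_left, fun hh => hn (hh.trans inter_subset_right)⟩
        omega
  have e1 : (X ∪ τ).card + (τ ∩ X).card = X.card + 3 := by
    rw [inter_comm, card_union_add_card_inter, h3]
  have e2 : (un (X ∪ τ)).card + (multi τ ∩ un X).card ≤ (un X).card + 3 := by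
    have e3 : un (X ∪ τ) ⊆ un X ∪ (multi τ \ un X) := by
      rw [un_union]
      intro x hx
      rw [mem_union] at hx ⊢
      by_cases hxX : x ∈ un X
      · exact Or.inl hxX
      · right
        rw [mem_sdiff]
        refine ⟨?_, hxX⟩
        by_contra hxm
        exact hxX (ho (mem_sdiff.2 ⟨hx.resolve_left hxX, hxm⟩))
    have e4 := (card_le_card e3).trans (card_union_le _ _)
    have e5 := card_sdiff_add_card_inter (multi τ) (un X)
    omega
  omega

/-- absorbing a triangle by unit growth is a drop -/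
lemma Lin.absorb (h : Lin H) (hX : X ⊆ H) (hτ : τ ∈ tris H)
    (ho : un τ \ multi τ ⊆ un X) (hd : Disjoint (multi τ) (un X))
    (hi : ∃ x ∈ multi τ, x ∈ un (cl H X)) {k : ℕ}
    (hk : (un X).card ≤ X.card + k) :
    (un (cl H X)).card + 1 ≤ (cl H X).card + k := by
  have hτH := (mem_tris.1 hτ).1
  have key := cl_ind hX (fun Y => (un Y).card ≤ Y.card + k ∧
    (Disjoint (multi τ) (un Y) ∨ (un (Y ∪ τ)).card + 1 ≤ (Y ∪ τ).card + k))
    ⟨hk, Or.inl hd⟩ (by
      rintro Y n hXY hYc ⟨hYk, hY⟩ hn hnY h2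
      have hnH : n ∈ H := cl_subset hn
      have h3 := h.un_insert_card (Y := Y) hnH
      have hc : (insert n Y).card = Y.card + 1 := card_insert_of_notMem hnY
      refine ⟨by omega, ?_⟩
      rcases hY with hY | hY
      · -- `n` is not a line of the triangle
        have hnτ : n ∉ τ := by
          intro hh
          have e1 := h.tri_inner_one hτ hh
          have e2 : Disjoint (n ∩ multi τ) (n ∩ un Y) :=
            disjoint_of_subset_left inter_subset_right
              (disjoint_of_subset_right inter_subset_right hY)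
          have e3 := card_union_of_disjoint e2
          have e4 : (n ∩ multi τ) ∪ (n ∩ un Y) ⊆ n :=
            union_subset inter_subset_left inter_subset_left
          have e5 := card_le_card e4
          rw [h.h3 n hnH] at e5
          omega
        by_cases hd' : Disjoint (multi τ) (un (insert n Y))
        · exact Or.inl hd'
        · right
          rw [disjoint_left] at hd'
          push Not at hd'
          obtain ⟨x, hx1, hx2⟩ := hd'
          have hn' : ¬ τ ⊆ insert n Y := by
            intro hh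
            obtain ⟨A, hA⟩ := card_pos.1 (show 0 < τ.card by rw [(mem_tris.1 hτ).2.1]; norm_num)
            have hAn : A ≠ n := by rintro rfl; exact hnτ hA
            have hAY := (mem_insert.1 (hh hA)).resolve_left hAn
            have e1 := h.tri_inner_one hτ hA
            obtain ⟨p, hp⟩ := card_pos.1 (show 0 < (A ∩ multi τ).card by omega)
            rw [mem_inter] at hp
            exact disjoint_left.1 hY hp.2 (subset_un hAY hp.1)
          have e1 := h.drop_tri (X := insert n Y) hτ
            (ho.trans (un_mono (hXY.trans (subset_insert _ _)))) ⟨x, hx1, hx2⟩ hn'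
          omega
      · right
        by_cases hnτ : n ∈ Y ∪ τ
        · have : insert n Y ∪ τ = Y ∪ τ := by rw [insert_union, insert_eq_of_mem hnτ]
          rw [this]; exact hY
        · rw [insert_union]
          have e1 := h.un_insert_card (Y := Y ∪ τ) hnH
          have e2 : (n ∩ un Y).card ≤ (n ∩ un (Y ∪ τ)).card :=
            card_le_card (inter_subset_inter_left (un_mono subset_union_left))
          rw [card_insert_of_notMem hnτ]
          omega)
  obtain ⟨-, hd' | hd'⟩ := key
  · obtain ⟨x, hx1, hx2⟩ := hi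
    exact absurd hx2 (disjoint_left.1 hd' hx1)
  · have hsub : τ ⊆ cl H X := by
      by_contra hn
      have := (cl_closed (H := H) (X := X)).medial h hτ (ho.trans (un_mono (subset_cl hX))) hn
      obtain ⟨x, hx1, hx2⟩ := hi
      exact disjoint_left.1 this.2 hx1 hx2
    rw [union_eq_left.2 hsub] at hd'
    exact hd'

/-- sizes after adding a medial triangle -/
lemma Lin.add_medial (h : Lin H) (hc : Closed H X) (hτ : τ ∈ tris H)
    (ho : un τ \ multi τ ⊆ un X) (hn : ¬ τ ⊆ X) :
    (X ∪ τ).card = X.card + 3 ∧ (un (X ∪ τ)).card = (un X).card + 3 := by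
  obtain ⟨h1, h2⟩ := hc.medial h hτ ho hn
  constructor
  · rw [card_union_of_disjoint h1.symm, (mem_tris.1 hτ).2.1]
  · have : un (X ∪ τ) = un X ∪ multi τ := by
      rw [un_union]
      ext x
      rw [mem_union, mem_union]
      constructor
      · rintro (hx | hx)
        · exact Or.inl hx
        · by_cases hxm : x ∈ multi τ
          · exact Or.inr hxm
          · exact Or.inl (ho (mem_sdiff.2 ⟨hx, hxm⟩))
      · rintro (hx | hx)
        · exact Or.inl hx
        · exact Or.inr (multi_sub_un hx)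
    rw [this, card_union_of_disjoint h2.symm, h.tri_multi_card hτ]

/-- two distinct triangles over a closed family -/
lemma Lin.double (h : Lin H) (hX : X ⊆ H) (hc : Closed H X)
    (hX3 : (un X).card ≤ X.card + 3) {τ' : Finset (Finset V)} (hτ : τ ∈ tris H)
    (hτ' : τ' ∈ tris H) (hne : τ ≠ τ') (ho : un τ \ multi τ ⊆ un X)
    (ho' : un τ' \ multi τ' ⊆ un X) (hn : ¬ τ ⊆ X) (hn' : ¬ τ' ⊆ X)
    (hsub : τ' ⊆ cl H (X ∪ τ)) :
    (un (cl H (X ∪ τ))).card ≤ (cl H (X ∪ τ)).card + 2 := by
  have hτH := (mem_tris.1 hτ).1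
  have hτH' := (mem_tris.1 hτ').1
  obtain ⟨a1, a2⟩ := h.add_medial hc hτ ho hn
  have hXτ : X ∪ τ ⊆ H := union_subset hX hτH
  have hmτ' : ∃ x ∈ multi τ', x ∈ un (cl H (X ∪ τ)) := by
    obtain ⟨x, hx⟩ := card_pos.1 (show 0 < (multi τ').card by
      rw [h.tri_multi_card hτ']; norm_num)
    exact ⟨x, hx, un_mono hsub (multi_sub_un hx)⟩
  by_cases hd : Disjoint (multi τ') (un (X ∪ τ))
  · have := h.absorb (X := X ∪ τ) (k := 3) hXτ hτ' (ho'.trans (un_mono subset_union_left)) hd hmτ'
      (by omega)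
    omega
  · rw [disjoint_left] at hd
    push Not at hd
    obtain ⟨x, hx1, hx2⟩ := hd
    have hnn : ¬ τ' ⊆ X ∪ τ := by
      intro hh
      have hd' := (hc.medial h hτ' ho' hn').1
      have : τ' ⊆ τ := fun A hA => (mem_union.1 (hh hA)).resolve_left
        (fun hAX => disjoint_left.1 hd' hA hAX)
      exact hne (eq_of_subset_of_card_le this
        (by rw [(mem_tris.1 hτ).2.1, (mem_tris.1 hτ').2.1])).symm
    have e1 := h.drop_tri (X := X ∪ τ) hτ' (ho'.trans (un_mono subset_union_left))
      ⟨x, hx1, hx2⟩ hnn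
    have e2 : (un (X ∪ τ ∪ τ')).card ≤ (X ∪ τ ∪ τ').card + 2 := by omega
    have hXH : X ∪ τ ∪ τ' ⊆ H := union_subset hXτ hτH'
    have e3 := h.cl_def hXH e2
    have e4 : cl H (X ∪ τ ∪ τ') = cl H (X ∪ τ) := by
      refine Subset.antisymm (cl_cl_subset (union_subset (subset_cl hXτ) hsub)) ?_
      exact cl_mono hXH subset_union_left
    rw [e4] at e3
    exact e3

end Pool.Agent.Helper74K9.BES
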