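import Pool.Agent.Helper74K9.BES.Links

/-!
# The graph of links is a forest
-/

set_option autoImplicit false

namespace Pool.Agent.Helper74K9.BES

open Finset Pool.Agent.W848 Pool.Agent.W848.TreeAvg

variable {V : Type*} [DecidableEq V]

/-- the vertices of the graph -/
abbrev Nd' (H : Finset (Finset V)) := {c : Finset (Finset (Finset V)) // c ∈ nodes H}

/-- the graph of links; `bot` and `top` give the classes linked by a triangle -/
def LG (H : Finset (Finset V)) (bot top : Finset (Finset V) → Finset (Finset (Finset V))) :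
    SimpleGraph (Nd' H) where
  Adj x y := x ≠ y ∧ ∃ τ ∈ EE H, (x.1 = bot τ ∧ y.1 = top τ) ∨ (x.1 = top τ ∧ y.1 = bot τ)
  symm := ⟨by
    rintro x y ⟨h1, τ, hτ, h2⟩
    exact ⟨h1.symm, τ, hτ, h2.symm.imp (fun h => ⟨h.2, h.1⟩) (fun h => ⟨h.2, h.1⟩)⟩⟩
  loopless := ⟨fun x h => h.1 rfl⟩

variable {e : ℕ} {H : Finset (Finset V)}
  {bot top : Finset (Finset V) → Finset (Finset (Finset V))}

/-- the closure of the union of the closures of the classes of a walk -/
def UW (H : Finset (Finset V)) {bot top : Finset (Finset V) → Finset (Finset (Finset V))}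
    {x y : Nd' H} (p : (LG H bot top).Walk x y) : Finset (Finset V) :=
  cl H (p.support.toFinset.biUnion (fun c => clo H c.1))

lemma UW_nil {x : Nd' H} : UW H (SimpleGraph.Walk.nil : (LG H bot top).Walk x x) = clo H x.1 := by
  unfold UW
  simp only [SimpleGraph.Walk.support_nil, List.toFinset_cons, List.toFinset_nil,
    insert_empty_eq, singleton_biUnion]
  exact Subset.antisymm (cl_min clo_subset (Subset.refl _) clo_closed) (subset_cl clo_subset)

lemma sup_sub {x y : Nd' H} (p : (LG H bot top).Walk x y) :
    (p.support.toFinset.biUnion (fun c => clo H c.1)) ⊆ H := by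
  intro A hA
  obtain ⟨c, -, hc⟩ := mem_biUnion.1 hA
  exact clo_subset hc

lemma UW_cons {x x' y : Nd' H} (h : (LG H bot top).Adj x x') (p : (LG H bot top).Walk x' y) :
    UW H (SimpleGraph.Walk.cons h p) = cl H (UW H p ∪ clo H x.1) := by
  have e1 : (SimpleGraph.Walk.cons h p).support.toFinset.biUnion (fun c => clo H c.1) =
      clo H x.1 ∪ p.support.toFinset.biUnion (fun c => clo H c.1) := by
    rw [SimpleGraph.Walk.support_cons, List.toFinset_cons, biUnion_insert]
  unfold UW
  rw [e1]
  apply Subset.antisymm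
  · refine cl_cl_subset (union_subset ?_ ?_)
    · exact subset_union_right.trans (subset_cl (union_subset cl_subset clo_subset))
    · exact (subset_cl (sup_sub p)).trans
        (subset_union_left.trans (subset_cl (union_subset cl_subset clo_subset)))
  · refine cl_cl_subset (union_subset ?_ ?_)
    · exact cl_mono (union_subset clo_subset (sup_sub p)) subset_union_right
    · exact subset_union_left.trans (subset_cl (union_subset clo_subset (sup_sub p)))

lemma UW_reverse {x y : Nd' H} (p : (LG H bot top).Walk x y) : UW H p.reverse = UW H p := by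
  unfold UW
  rw [SimpleGraph.Walk.support_reverse, List.toFinset_reverse]

lemma clo_sub_UW {x y z : Nd' H} (p : (LG H bot top).Walk x y) (hz : z ∈ p.support) :
    clo H z.1 ⊆ UW H p := by
  refine Subset.trans ?_ (subset_cl (sup_sub p))
  intro A hA
  exact mem_biUnion.2 ⟨z, List.mem_toFinset.2 hz, hA⟩

lemma UW_sub {x y : Nd' H} (p : (LG H bot top).Walk x y) : UW H p ⊆ H := cl_subset

lemma UW_closed {x y : Nd' H} (p : (LG H bot top).Walk x y) : Closed H (UW H p) := cl_closed

/-- a step of the walk -/
lemma step_cases (h : Lin H) (hl : ∀ τ ∈ EE H, Link H (bot τ) (top τ) τ) {x x' y : Nd' H}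
    (hadj : (LG H bot top).Adj x x') (p : (LG H bot top).Walk x' y) :
    UW H (SimpleGraph.Walk.cons hadj p) = UW H p ∨
      ∃ τ ∈ EE H, x'.1 = bot τ ∧ x.1 = top τ ∧ ¬ τ ⊆ UW H p ∧
        UW H (SimpleGraph.Walk.cons hadj p) = cl H (UW H p ∪ τ) := by
  rw [UW_cons]
  have hx' : clo H x'.1 ⊆ UW H p := clo_sub_UW p (SimpleGraph.Walk.start_mem_support p)
  have same : clo H x.1 ⊆ UW H p → cl H (UW H p ∪ clo H x.1) = UW H p := by
    intro hh
    rw [union_eq_left.2 hh]
    exact Subset.antisymm (cl_min (UW_sub p) (Subset.refl _) (UW_closed p)) (subset_cl (UW_sub p))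
  obtain ⟨-, τ, hτ, h1 | h1⟩ := hadj
  · left
    apply same
    rw [h1.1]
    rw [h1.2] at hx'
    exact (hl τ hτ).sub.trans hx'
  · have l := hl τ hτ
    by_cases hsub : τ ⊆ UW H p
    · left
      apply same
      rw [h1.1]
      exact l.clo_sub h (UW_closed p) (UW_sub p) hsub
    · right
      refine ⟨τ, hτ, h1.2, h1.1, hsub, ?_⟩
      have hτH := (mem_tris.1 l.tri).1
      apply Subset.antisymm
      · refine cl_cl_subset (union_subset ?_ ?_)
        · exact subset_union_left.trans (subset_cl (union_subset (UW_sub p) hτH))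
        · rw [h1.1]
          exact l.clo_sub h cl_closed cl_subset
            (subset_union_right.trans (subset_cl (union_subset (UW_sub p) hτH)))
      · refine cl_mono (union_subset (UW_sub p) clo_subset) (union_subset_union_right ?_)
        rw [h1.1]
        exact l.tri_sub h

/-- **all walks have small closures** -/
theorem walks_good (he : 3 ≤ e) (h : Lin H) (hf : Free e H) (h8 : Cond8 e H)
    (hl : ∀ τ ∈ EE H, Link H (bot τ) (top τ) τ) :
    ∀ n : ℕ, ∀ x y : Nd' H, ∀ p : (LG H bot top).Walk x y, p.length = n → WG e H y.1 (UW H p) := by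
  intro n
  induction n with
  | zero =>
    intro x y p hp
    cases p with
    | nil => rw [UW_nil]; exact WG.base he h hf x.2
    | cons hadj q => simp at hp
  | succ n ih =>
    intro x y p hp
    cases p with
    | nil => simp at hp
    | @cons _ x' _ hadj q =>
      have hq : q.length = n := by
        rw [SimpleGraph.Walk.length_cons] at hp
        omega
      have i1 := ih x' y q hq
      have i2 := ih y x' q.reverse (by rw [SimpleGraph.Walk.length_reverse, hq])
      rw [UW_reverse] at i2
      rcases step_cases h hl hadj q with h1 | ⟨τ, hτ, hx', hx, hns, h1⟩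
      · rw [h1]; exact i1
      · rw [h1]
        have l := hl τ hτ
        have hxU : clo H (bot τ) ⊆ UW H q := by
          rw [← hx']; exact clo_sub_UW q (SimpleGraph.Walk.start_mem_support q)
        rw [hx'] at i2
        have hb : UW H q = clo H (bot τ) ∨ ∃ b ∈ nodes H, Bad H b ∧ clo H b ⊆ UW H q := by
          cases q with
          | nil => left; rw [UW_nil, hx']
          | @cons _ x'' _ hadj' q' =>
            right
            have m1 := clo_sub_UW (SimpleGraph.Walk.cons hadj' q') (z := x') (by simp)
            have m2 := clo_sub_UW (SimpleGraph.Walk.cons hadj' q') (z := x'') (by simp)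
            have hadj2 := hadj'
            obtain ⟨-, σ, hσ, k⟩ := hadj2
            refine ⟨top σ, (hl σ hσ).hy, (hl σ hσ).bad, ?_⟩
            rcases k with k | k
            · have := k.2
              rw [this] at m2
              exact m2
            · have := k.1
              intro A hA
              exact m1 (by rw [this]; exact hA)
        obtain ⟨g1, g2, g3⟩ := up_step he h hf h8 l (UW_sub q) (UW_closed q) hxU hns i2 hb
        refine ⟨g1, g2, ?_⟩
        intro a ha j hj _
        obtain ⟨Z, z1, z2, z3, z4⟩ := g3 j hj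
        refine ⟨Z, z1, Subset.trans ?_ z2, z3, z4⟩
        have hay := (node_mem h y.2 ha)
        have : a ⊆ clo H y.1 := by
          rw [hay.2.2.2]; exact subset_cl (mem_angles.1 hay.1).1
        exact this.trans (clo_sub_UW q (SimpleGraph.Walk.end_mem_support q))

/-- a walk that avoids an edge does not contain its triangle -/
theorem walk_avoid (he : 3 ≤ e) (h : Lin H) (hf : Free e H) (h8 : Cond8 e H)
    (hl : ∀ τ ∈ EE H, Link H (bot τ) (top τ) τ) {σ : Finset (Finset V)} (hσ : σ ∈ EE H)
    {x y : Nd' H} (p : (LG H bot top).Walk x y) (hy : y.1 = bot σ)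
    (hav : ∀ z z' : Nd' H, s(z, z') ∈ p.edges → ¬ (z.1 = top σ ∧ z'.1 = bot σ)) :
    ¬ σ ⊆ UW H p := by
  induction p with
  | nil => rw [UW_nil, hy]; exact (hl σ hσ).nsub
  | @cons x x' y hadj q ih =>
    have ih' := ih hy (by
      intro z z' hz
      exact hav z z' (by rw [SimpleGraph.Walk.edges_cons]; exact List.mem_cons_of_mem _ hz))
    rcases step_cases h hl hadj q with h1 | ⟨τ, hτ, hx', hx, hns, h1⟩
    · rw [h1]; exact ih'
    · have l := hl τ hτ
      have lσ := hl σ hσ
      have hne : τ ≠ σ := by
        rintro rfl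
        exact hav x x' (by simp) ⟨hx, hx'⟩
      intro hsub
      have g1 := walks_good he h hf h8 hl _ _ _ q rfl
      have g2 := walks_good he h hf h8 hl _ _ _ (SimpleGraph.Walk.cons hadj q) rfl
      rw [h1] at hsub g2
      have hxU : clo H (bot τ) ⊆ UW H q := by
        rw [← hx']; exact clo_sub_UW q (SimpleGraph.Walk.start_mem_support q)
      have hyU : clo H (bot σ) ⊆ UW H q := by
        rw [← hy]; exact clo_sub_UW q (SimpleGraph.Walk.end_mem_support q)
      have := h.double (UW_sub q) (UW_closed q) g1.good.2 l.tri lσ.tri hne (l.outer h hxU)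
        (lσ.outer h hyU) hns ih' hsub
      have := g2.nd
      omega

lemma clo_ssub (h : Lin H) {x y : Finset (Finset (Finset V))} {τ : Finset (Finset V)}
    (l : Link H x y τ) : ¬ clo H y ⊆ clo H x := fun hh => l.nsub ((l.tri_sub h).trans hh)

/-- different triangles give different edges -/
theorem links_inj (he : 3 ≤ e) (h : Lin H) (hf : Free e H)
    (hl : ∀ τ ∈ EE H, Link H (bot τ) (top τ) τ) {τ σ : Finset (Finset V)} (hτ : τ ∈ EE H)
    (hσ : σ ∈ EE H) (hbt : (bot τ = bot σ ∧ top τ = top σ) ∨ (bot τ = top σ ∧ top τ = bot σ)) :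
    τ = σ := by
  have l := hl τ hτ
  have lσ := hl σ hσ
  rcases hbt with ⟨h1, h2⟩ | ⟨h1, h2⟩
  · by_contra hne
    obtain ⟨g1, g2⟩ := node_good he h hf l.hx
    have hcl : cl H (clo H (bot τ) ∪ τ) = clo H (top τ) := by
      have hτH := (mem_tris.1 l.tri).1
      refine Subset.antisymm (cl_min clo_subset (union_subset l.sub (l.tri_sub h)) clo_closed) ?_
      exact l.clo_sub h cl_closed cl_subset
        (subset_union_right.trans (subset_cl (union_subset clo_subset hτH)))
    have := h.double (X := clo H (bot τ)) clo_subset clo_closed g1.2 l.tri lσ.tri hne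
      (l.outer h (Subset.refl _)) (lσ.outer h (by rw [h1])) l.nsub (by rw [h1]; exact lσ.nsub)
      (by rw [hcl, h2]; exact lσ.tri_sub h)
    rw [hcl] at this
    have := (node_good he h hf l.hy).2
    omega
  · exfalso
    have s1 := l.sub
    have s2 := lσ.sub
    rw [h1, h2] at s1
    exact clo_ssub h lσ s1

lemma bot_ne_top (h : Lin H) (hl : ∀ τ ∈ EE H, Link H (bot τ) (top τ) τ)
    {τ : Finset (Finset V)} (hτ : τ ∈ EE H) : bot τ ≠ top τ := by
  intro hh
  refine clo_ssub h (hl τ hτ) ?_
  rw [hh]

/-- **the graph is a forest** -/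
theorem LG_acyclic (he : 3 ≤ e) (h : Lin H) (hf : Free e H) (h8 : Cond8 e H)
    (hl : ∀ τ ∈ EE H, Link H (bot τ) (top τ) τ) : (LG H bot top).IsAcyclic := by
  rw [SimpleGraph.isAcyclic_iff_forall_adj_isBridge]
  have key : ∀ x y : Nd' H, ∀ τ ∈ EE H, x.1 = top τ → y.1 = bot τ →
      ¬ ((LG H bot top).deleteEdges {s(x, y)}).Reachable x y := by
    rintro x y τ hτ hx hy ⟨p⟩
    set q : (LG H bot top).Walk x y := p.mapLe (SimpleGraph.deleteEdges_le _) with hq
    have hav := walk_avoid he h hf h8 hl hτ q hy (by
      rintro z z' hz ⟨hz1, hz2⟩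
      have e1 : z = x := Subtype.ext (hz1.trans hx.symm)
      have e2 : z' = y := Subtype.ext (hz2.trans hy.symm)
      subst e1
      subst e2
      rw [hq, SimpleGraph.Walk.edges_mapLe_eq_edges] at hz
      have := SimpleGraph.Walk.edges_subset_edgeSet p hz
      rw [SimpleGraph.edgeSet_deleteEdges] at this
      exact this.2 rfl)
    apply hav
    refine ((hl τ hτ).tri_sub h).trans ?_
    rw [← hx]
    exact clo_sub_UW q (SimpleGraph.Walk.start_mem_support q)
  intro x y hadj
  rw [SimpleGraph.isBridge_iff]
  obtain ⟨-, τ, hτ, k | k⟩ := hadj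
  · intro hr
    refine key y x τ hτ k.2 k.1 ?_
    rw [Sym2.eq_swap]
    exact hr.symm
  · exact key x y τ hτ k.1 k.2

end Pool.Agent.Helper74K9.BES
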