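import Pool.Agent.Helper74K9.BES.Walks

/-!
# Walks without the condition on dense families
-/

set_option autoImplicit false

namespace Pool.Agent.Helper74K9.BES

open Finset Pool.Agent.W848 Pool.Agent.W848.TreeAvg

variable {V : Type*} [DecidableEq V]

variable {e : ℕ} {H X Y : Finset (Finset V)} {τ a b s : Finset (Finset V)}
  {x y : Finset (Finset (Finset V))}

/-- size and filling property of the closure of a walk that ends in the class `y` -/
structure WF (e : ℕ) (H : Finset (Finset V)) (y : Finset (Finset (Finset V)))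
    (U : Finset (Finset V)) : Prop where
  good : Good e U
  fill : ∀ a ∈ y, ∀ j ≤ 2, j + 2 ≤ U.card →
    ∃ Z ⊆ U, a ⊆ Z ∧ Z.card + j = U.card ∧ (un Z).card ≤ Z.card + 3

/-- **the step up**, without any condition -/
lemma up_step' (he : 3 ≤ e) (h : Lin H) (hf : Free e H) (l : Link H x y τ)
    (hXH : X ⊆ H) (hXc : Closed H X) (hxX : clo H x ⊆ X) (hτX : ¬ τ ⊆ X)
    (hX : WF e H x X) :
    Good e (cl H (X ∪ τ)) ∧
      ∀ j ≤ 2, ∃ Z ⊆ cl H (X ∪ τ), X ∪ τ ⊆ Z ∧ Z.card + j = (cl H (X ∪ τ)).card ∧
        (un Z).card ≤ Z.card + 3 := by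
  have h6 := l.six he h hf
  have ho := l.outer h hxX
  have hτH := (mem_tris.1 l.tri).1
  obtain ⟨m1, m2⟩ := hXc.medial h l.tri ho hτX
  obtain ⟨a1, a2⟩ := h.add_medial hXc l.tri ho hτX
  obtain ⟨hX1, hX2⟩ := hX.good
  -- the size of `X`
  have hsize : X.card + 4 ≤ e := by
    by_contra hcon
    obtain ⟨a, ha, haτ⟩ := l.chi
    obtain ⟨Z, z1, z2, z3, z4⟩ := hX.fill a ha (X.card - (e - 3)) (by omega) (by omega)
    have hdis : Disjoint Z τ := disjoint_of_subset_left z1 m1.symm
    have c1 : (Z ∪ τ).card = e := by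
      rw [card_union_of_disjoint hdis, (mem_tris.1 l.tri).2.1]
      omega
    have c2 : (un (Z ∪ τ)).card ≤ (un Z).card + 3 := by
      have : un (Z ∪ τ) ⊆ un Z ∪ multi τ := by
        rw [un_union]
        refine union_subset subset_union_left ?_
        intro p hp
        rw [mem_union]
        by_cases hpm : p ∈ multi τ
        · exact Or.inr hpm
        · exact Or.inl (un_mono z2 (haτ (mem_sdiff.2 ⟨hp, hpm⟩)))
      have := (card_le_card this).trans (card_union_le _ _)
      rw [h.tri_multi_card l.tri] at this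
      exact this
    have := hf (Z ∪ τ) (union_subset (z1.trans hXH) hτH) c1
    omega
  have hXτ : X ∪ τ ⊆ H := union_subset hXH hτH
  have hg : Good e (X ∪ τ) := ⟨by omega, by omega⟩
  have hU := h.cl_good hf hXτ hg
  have hyU : clo H y ⊆ cl H (X ∪ τ) :=
    l.clo_sub h cl_closed cl_subset (subset_union_right.trans (subset_cl hXτ))
  refine ⟨hU, ?_⟩
  intro j hj
  have hmiss := bad_miss h l.hy l.bad hXc hXH (fun hh => hτX ((l.tri_sub h).trans hh))
  have hXU : X ⊆ cl H (X ∪ τ) := subset_union_left.trans (subset_cl hXτ)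
  have hbig : X.card + 5 ≤ (cl H (X ∪ τ)).card := by
    have k1 : clo H y \ X ⊆ cl H (X ∪ τ) \ X := sdiff_subset_sdiff hyU (Subset.refl _)
    have k2 := card_le_card k1
    have k3 := card_sdiff_add_card_eq_card hXU
    omega
  obtain ⟨Z, z1, z2, z3, z4⟩ := h.fill (X := X ∪ τ) hXτ (by omega) ((cl H (X ∪ τ)).card - j)
    (by omega) (by omega)
  exact ⟨Z, z2, z1, by omega, z4⟩

lemma WF.base (he : 3 ≤ e) (h : Lin H) (hf : Free e H) (hy : y ∈ nodes H) :
    WF e H y (clo H y) :=
  ⟨(WG.base he h hf hy).good, (WG.base he h hf hy).fill⟩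

variable {bot top : Finset (Finset V) → Finset (Finset (Finset V))}

/-- all walks have small closures -/
theorem walks_WF (he : 3 ≤ e) (h : Lin H) (hf : Free e H)
    (hl : ∀ τ ∈ EE H, Link H (bot τ) (top τ) τ) :
    ∀ n : ℕ, ∀ x y : Nd' H, ∀ p : (LG H bot top).Walk x y, p.length = n → WF e H y.1 (UW H p) := by
  intro n
  induction n with
  | zero =>
    intro x y p hp
    cases p with
    | nil => rw [UW_nil]; exact WF.base he h hf x.2
    | cons hadj q => simp at hp
  | succ n ih =>
    intro x y p hp
    cases p with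
    | nil => simp at hp
    | @cons _ x' _ hadj q =>
      have hq : q.length = n := by
        rw [SimpleGraph.Walk.length_cons] at hp
        omega
      have i1 := ih x' y q hq
      have i2 := ih y x' q.reverse (by rw [SimpleGraph.Walk.length_reverse, hq])
      rw [UW_reverse] at i2
      rcases step_cases h hl hadj q with h1 | ⟨τ, hτ, hx', hx, hns, h1⟩
      · rw [h1]; exact i1
      · rw [h1]
        have l := hl τ hτ
        have hxU : clo H (bot τ) ⊆ UW H q := by
          rw [← hx']; exact clo_sub_UW q (SimpleGraph.Walk.start_mem_support q)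
        rw [hx'] at i2
        obtain ⟨g1, g3⟩ := up_step' he h hf l (UW_sub q) (UW_closed q) hxU hns i2
        refine ⟨g1, ?_⟩
        intro a ha j hj _
        obtain ⟨Z, z1, z2, z3, z4⟩ := g3 j hj
        refine ⟨Z, z1, Subset.trans ?_ z2, z3, z4⟩
        have hay := (node_mem h y.2 ha)
        have : a ⊆ clo H y.1 := by
          rw [hay.2.2.2]; exact subset_cl (mem_angles.1 hay.1).1
        exact (this.trans (clo_sub_UW q (SimpleGraph.Walk.end_mem_support q))).trans
          subset_union_left

/-- nondegenerate families -/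
def ND (U : Finset (Finset V)) : Prop := U.card + 3 ≤ (un U).card

/-- a walk that avoids an edge does not contain its triangle, if no walk of at most the same
length has a degenerate closure -/
theorem walk_avoid' (he : 3 ≤ e) (h : Lin H) (hf : Free e H)
    (hl : ∀ τ ∈ EE H, Link H (bot τ) (top τ) τ) {σ : Finset (Finset V)} (hσ : σ ∈ EE H)
    {x y : Nd' H} (p : (LG H bot top).Walk x y) (hy : y.1 = bot σ)
    (hnd : ∀ z : Nd' H, ∀ q : (LG H bot top).Walk z y, q.length ≤ p.length → ND (UW H q))
    (hav : ∀ z z' : Nd' H, s(z, z') ∈ p.edges → ¬ (z.1 = top σ ∧ z'.1 = bot σ)) :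
    ¬ σ ⊆ UW H p := by
  induction p with
  | nil => rw [UW_nil, hy]; exact (hl σ hσ).nsub
  | @cons x x' y hadj q ih =>
    have ih' := ih hy (fun z r hr => hnd z r (by
        rw [SimpleGraph.Walk.length_cons]; omega)) (by
      intro z z' hz
      exact hav z z' (by rw [SimpleGraph.Walk.edges_cons]; exact List.mem_cons_of_mem _ hz))
    rcases step_cases h hl hadj q with h1 | ⟨τ, hτ, hx', hx, hns, h1⟩
    · rw [h1]; exact ih'
    · have l := hl τ hτ
      have lσ := hl σ hσ
      have hne : τ ≠ σ := by
        rintro rfl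
        exact hav x x' (by simp) ⟨hx, hx'⟩
      intro hsub
      have g1 := walks_WF he h hf hl _ _ _ q rfl
      have g2 := hnd _ (SimpleGraph.Walk.cons hadj q) le_rfl
      rw [h1] at hsub g2
      have hxU : clo H (bot τ) ⊆ UW H q := by
        rw [← hx']; exact clo_sub_UW q (SimpleGraph.Walk.start_mem_support q)
      have hyU : clo H (bot σ) ⊆ UW H q := by
        rw [← hy]; exact clo_sub_UW q (SimpleGraph.Walk.end_mem_support q)
      have := h.double (UW_sub q) (UW_closed q) g1.good.2 l.tri lσ.tri hne (l.outer h hxU)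
        (lσ.outer h hyU) hns ih' hsub
      unfold ND at g2
      omega

end Pool.Agent.Helper74K9.BES
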