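import Pool.Agent.Helper74K9.BES.K4b

/-!
# Opposite corners
-/

set_option autoImplicit false

namespace Pool.Agent.Helper74K9.BES

open Finset Pool.Agent.W848.TreeAvg

variable {V : Type*} [DecidableEq V] {F : Finset (Finset V)} {S : Finset (Finset (Finset V))}
  {s : Finset (Finset V)}

/-- the number of triangles at `s` whose opposite corner is joined -/
def on (F : Finset (Finset V)) (s : Finset (Finset V)) : ℕ :=
  ((tris F).filter (fun τ => s ⊆ τ ∧ ∃ n ∈ F, un s \ multi τ ⊆ n)).card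

/-- the points on two or more lines of a triangle -/
lemma Lin.multi_tri (h : Lin F) {A B C : Finset V} (hA : A ∈ F) (hB : B ∈ F) (hC : C ∈ F)
    (hAB : A ≠ B) (hAC : A ≠ C) (hBC : B ≠ C) {w x y : V} (hwA : w ∈ A) (hwB : w ∈ B)
    (hxA : x ∈ A) (hxC : x ∈ C) (hyB : y ∈ B) (hyC : y ∈ C) :
    multi ({A, B, C} : Finset (Finset V)) = {w, x, y} := by
  have h2 : ∀ v (D E : Finset V), D ∈ ({A, B, C} : Finset (Finset V)) →
      E ∈ ({A, B, C} : Finset (Finset V)) → D ≠ E → v ∈ D → v ∈ E →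
      v ∈ multi ({A, B, C} : Finset (Finset V)) := by
    intro v D E hD hE hDE hvD hvE
    refine mem_filter.2 ⟨mem_biUnion.2 ⟨D, hD, hvD⟩, ?_⟩
    exact one_lt_card.2 ⟨D, mem_filter.2 ⟨hD, hvD⟩, E, mem_filter.2 ⟨hE, hvE⟩, hDE⟩
  ext v
  simp only [mem_insert, mem_singleton]
  constructor
  · intro hv
    obtain ⟨-, hv2⟩ := mem_filter.1 hv
    obtain ⟨D, hD, E, hE, hDE⟩ := one_lt_card.1 hv2
    rw [mem_filter] at hD hE
    simp only [mem_insert, mem_singleton] at hD hE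
    have u1 : v ∈ A → v ∈ B → v = w := fun a b => by
      by_contra hne; exact hAB (h.eq_of_two hA hB hne a hwA b hwB)
    have u2 : v ∈ A → v ∈ C → v = x := fun a b => by
      by_contra hne; exact hAC (h.eq_of_two hA hC hne a hxA b hxC)
    have u3 : v ∈ B → v ∈ C → v = y := fun a b => by
      by_contra hne; exact hBC (h.eq_of_two hB hC hne a hyB b hyC)
    obtain ⟨rfl | rfl | rfl, hvD⟩ := hD <;> obtain ⟨rfl | rfl | rfl, hvE⟩ := hE
    · exact absurd rfl hDE
    · exact Or.inl (u1 hvD hvE)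
    · exact Or.inr (Or.inl (u2 hvD hvE))
    · exact Or.inl (u1 hvE hvD)
    · exact absurd rfl hDE
    · exact Or.inr (Or.inr (u3 hvD hvE))
    · exact Or.inr (Or.inl (u2 hvE hvD))
    · exact Or.inr (Or.inr (u3 hvE hvD))
    · exact absurd rfl hDE
  · rintro (rfl | rfl | rfl)
    · exact h2 _ A B (by simp) (by simp) hAB hwA hwB
    · exact h2 _ A C (by simp) (by simp) hAC hxA hxC
    · exact h2 _ B C (by simp) (by simp) hBC hyB hyC

/-- the triangles at an angle with a joined opposite corner -/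
lemma on_eq (hF : Lin F) {A B : Finset V} (hs : ({A, B} : Finset (Finset V)) ∈ angles F) :
    on F {A, B} = ((corners F A B).filter
      (fun p => ∃ q ∈ corners F A B, q.1 ≠ p.1 ∧ q.2 ≠ p.2)).card := by
  classical
  obtain ⟨hAF, hBF, hAB, w, hwA, hwB⟩ := hF.pair_mem_angles.1 hs
  have hAB2 : (A \ B).card = 2 := hF.sdiff_card hs
  have hBA2 : (B \ A).card = 2 := hF.sdiff_card (by rwa [pair_comm])
  have hch : ∀ p : V × V, ∃ m : Finset V, Jn F p.1 p.2 → m ∈ F ∧ p.1 ∈ m ∧ p.2 ∈ m := by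
    intro p
    by_cases hp : Jn F p.1 p.2
    · obtain ⟨m, h⟩ := hp
      exact ⟨m, fun _ => h⟩
    · exact ⟨∅, fun h => absurd h hp⟩
  choose g hg using hch
  have hx : ∀ p ∈ corners F A B, p.1 ∈ A ∧ p.1 ∉ B ∧ p.2 ∈ B ∧ p.2 ∉ A ∧ Jn F p.1 p.2 := by
    intro p hp
    rw [corners, mem_filter, mem_product, mem_sdiff, mem_sdiff] at hp
    exact ⟨hp.1.1.1, hp.1.1.2, hp.1.2.1, hp.1.2.2, hp.2⟩
  have hgA : ∀ p ∈ corners F A B, A ≠ g p := by
    intro p hp h
    obtain ⟨-, -, -, h4, hJ⟩ := hx p hp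
    exact h4 (h ▸ (hg p hJ).2.2)
  have hgB : ∀ p ∈ corners F A B, B ≠ g p := by
    intro p hp h
    obtain ⟨-, h2, -, -, hJ⟩ := hx p hp
    exact h2 (h ▸ (hg p hJ).2.1)
  have hww : ∀ v, v ∈ A → v ∈ B → v = w := fun v a b => by
    by_contra hne; exact hAB (hF.eq_of_two hAF hBF hne a hwA b hwB)
  -- the criterion for the opposite corner
  have hopp : ∀ (x y : V) (C : Finset V), x ∈ A \ B → y ∈ B \ A → C ∈ F → A ≠ C → B ≠ C →
      x ∈ C → y ∈ C → ((∃ n ∈ F, un ({A, B} : Finset (Finset V)) \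
        multi ({A, B, C} : Finset (Finset V)) ⊆ n) ↔
        ∃ q ∈ corners F A B, q.1 ≠ x ∧ q.2 ≠ y) := by
    intro x y C hxm hym hC hAC hBC hxC hyC
    obtain ⟨hxA, hxB⟩ := mem_sdiff.1 hxm
    obtain ⟨hyB, hyA⟩ := mem_sdiff.1 hym
    rw [hF.multi_tri hAF hBF hC hAB hAC hBC hwA hwB hxA hxC hyB hyC, un_pair]
    have e1 : ((A \ B).erase x).card = 1 := by rw [card_erase_of_mem hxm, hAB2]
    have e2 : ((B \ A).erase y).card = 1 := by rw [card_erase_of_mem hym, hBA2]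
    obtain ⟨x', hx'⟩ := card_eq_one.1 e1
    obtain ⟨y', hy'⟩ := card_eq_one.1 e2
    have hx'm : x' ∈ (A \ B).erase x := by rw [hx']; simp
    have hy'm : y' ∈ (B \ A).erase y := by rw [hy']; simp
    obtain ⟨hx'x, hx'2⟩ := mem_erase.1 hx'm
    obtain ⟨hy'y, hy'2⟩ := mem_erase.1 hy'm
    obtain ⟨hx'A, hx'B⟩ := mem_sdiff.1 hx'2
    obtain ⟨hy'B, hy'A⟩ := mem_sdiff.1 hy'2
    have hset : (A ∪ B) \ {w, x, y} = {x', y'} := by
      ext v
      simp only [mem_sdiff, mem_union, mem_insert, mem_singleton, not_or]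
      constructor
      · rintro ⟨hv | hv, hvw, hvx, hvy⟩
        · left
          have : v ∈ (A \ B).erase x := mem_erase.2 ⟨hvx, mem_sdiff.2 ⟨hv, fun h =>
            hvw (hww v hv h)⟩⟩
          rw [hx'] at this
          exact mem_singleton.1 this
        · right
          have : v ∈ (B \ A).erase y := mem_erase.2 ⟨hvy, mem_sdiff.2 ⟨hv, fun h =>
            hvw (hww v h hv)⟩⟩
          rw [hy'] at this
          exact mem_singleton.1 this
      · rintro (rfl | rfl)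
        · exact ⟨Or.inl hx'A, fun h => hx'B (h ▸ hwB), hx'x, fun h => hx'B (h ▸ hyB)⟩
        · exact ⟨Or.inr hy'B, fun h => hy'A (h ▸ hwA), fun h => hy'A (h ▸ hxA), hy'y⟩
    rw [hset]
    constructor
    · rintro ⟨n, hn, hsub⟩
      refine ⟨(x', y'), ?_, hx'x, hy'y⟩
      rw [corners, mem_filter, mem_product]
      exact ⟨⟨hx'2, hy'2⟩, n, hn, hsub (by simp), hsub (by simp)⟩
    · rintro ⟨q, hq, hq1, hq2⟩
      rw [corners, mem_filter, mem_product] at hq
      obtain ⟨⟨hqA, hqB⟩, n, hn, hn1, hn2⟩ := hq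
      have f1 : q.1 = x' := by
        have : q.1 ∈ (A \ B).erase x := mem_erase.2 ⟨hq1, hqA⟩
        rw [hx'] at this
        exact mem_singleton.1 this
      have f2 : q.2 = y' := by
        have : q.2 ∈ (B \ A).erase y := mem_erase.2 ⟨hq2, hqB⟩
        rw [hy'] at this
        exact mem_singleton.1 this
      refine ⟨n, hn, ?_⟩
      intro v hv
      simp only [mem_insert, mem_singleton] at hv
      rcases hv with rfl | rfl
      · rwa [f1] at hn1
      · rwa [f2] at hn2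
  unfold on
  symm
  refine card_bij (fun p _ => ({A, B, g p} : Finset (Finset V))) ?_ ?_ ?_
  · intro p hp
    obtain ⟨hp', hpo⟩ := mem_filter.1 hp
    obtain ⟨a1, a2, a3, a4, hJ⟩ := hx p hp'
    obtain ⟨b1, b2, b3⟩ := hg p hJ
    have hw : w ∉ g p := by
      intro hcon
      have hne : w ≠ p.1 := by
        intro h; apply a2; rw [← h]; exact hwB
      exact hgA p hp' (hF.eq_of_two hAF b1 hne hwA a1 hcon b2)
    rw [mem_filter]
    refine ⟨hF.tri_mem hAF hBF b1 hAB (hgA p hp') (hgB p hp') (x := w) (y := p.2) (z := p.1)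
      hwA hwB hw a3 b3 a1 b2, ?_, ?_⟩
    · intro D hD
      simp only [mem_insert, mem_singleton] at hD ⊢
      tauto
    · exact (hopp p.1 p.2 (g p) (mem_sdiff.2 ⟨a1, a2⟩) (mem_sdiff.2 ⟨a3, a4⟩) b1 (hgA p hp')
        (hgB p hp') b2 b3).2 hpo
  · intro p hp q hq hpq
    have hp' := (mem_filter.1 hp).1
    have hq' := (mem_filter.1 hq).1
    have hgp : g p ∈ ({A, B, g q} : Finset (Finset V)) := by
      have : g p ∈ ({A, B, g p} : Finset (Finset V)) := by simp
      have hpq' : ({A, B, g p} : Finset (Finset V)) = {A, B, g q} := hpq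
      rwa [hpq'] at this
    simp only [mem_insert, mem_singleton] at hgp
    have hgpq : g p = g q := by
      rcases hgp with h | h | h
      · exact absurd h.symm (hgA p hp')
      · exact absurd h.symm (hgB p hp')
      · exact h
    obtain ⟨a1, a2, a3, a4, hJ⟩ := hx p hp'
    obtain ⟨a1', a2', a3', a4', hJ'⟩ := hx q hq'
    obtain ⟨b1, b2, b3⟩ := hg p hJ
    obtain ⟨b1', b2', b3'⟩ := hg q hJ'
    rw [← hgpq] at b1' b2' b3'
    apply Prod.ext
    · by_contra hne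
      exact hgA p hp' (hF.eq_of_two hAF b1 hne a1 a1' b2 b2')
    · by_contra hne
      exact hgB p hp' (hF.eq_of_two hBF b1 hne a3 a3' b3 b3')
  · intro τ hτ
    obtain ⟨hτ1, hτ2, hτ3⟩ := mem_filter.1 hτ
    obtain ⟨C, hCF, hAC, hBC, hτe, x, hx', y, hy', hxC, hyC, hxy⟩ := hF.tri_third hs hτ1 hτ2
    have hJ : Jn F x y := ⟨C, hCF, hxC, hyC⟩
    refine ⟨(x, y), ?_, ?_⟩
    · rw [mem_filter]
      refine ⟨?_, ?_⟩
      · rw [corners, mem_filter, mem_product]
        exact ⟨⟨hx', hy'⟩, hJ⟩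
      · rw [hτe] at hτ3
        exact (hopp x y C hx' hy' hCF hAC hBC hxC hyC).1 hτ3
    · obtain ⟨b1, b2, b3⟩ := hg (x, y) hJ
      have : g (x, y) = C := hF.eq_of_two b1 hCF hxy b2 b3 hxC hyC
      simp only [this, hτe]

theorem rel (hF : Lin F) (hs : s ∈ angles F) (ht : 1 ≤ tn F s) :
    1 + fn F s + (if 1 ≤ on F s then tn F s - 1 else 0) +
      2 * (if 1 ≤ on F s ∧ tn F s = 2 then 1 else 0) = tn F s + on F s := by
  classical
  obtain ⟨w, x1, x2, y1, y2, hwx1, hwx2, hx12, hwy1, hwy2, hy12, h11, h12, h21, h22, rfl⟩ :=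
    hF.angle_pts hs
  set A : Finset V := {w, x1, x2} with hA
  set B : Finset V := {w, y1, y2} with hB
  have hAB : A \ B = {x1, x2} := by
    ext v
    rw [hA, hB]
    simp only [mem_sdiff, mem_insert, mem_singleton, not_or]
    constructor
    · rintro ⟨rfl | rfl | rfl, h1, h2, h3⟩
      · exact absurd rfl h1
      · exact Or.inl rfl
      · exact Or.inr rfl
    · rintro (rfl | rfl)
      · exact ⟨Or.inr (Or.inl rfl), hwx1.symm, h11, h12⟩
      · exact ⟨Or.inr (Or.inr rfl), hwx2.symm, h21, h22⟩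
  have hBA : B \ A = {y1, y2} := by
    ext v
    rw [hA, hB]
    simp only [mem_sdiff, mem_insert, mem_singleton, not_or]
    constructor
    · rintro ⟨rfl | rfl | rfl, h1, h2, h3⟩
      · exact absurd rfl h1
      · exact Or.inl rfl
      · exact Or.inr rfl
    · rintro (rfl | rfl)
      · exact ⟨Or.inr (Or.inl rfl), hwy1.symm, h11.symm, h21.symm⟩
      · exact ⟨Or.inr (Or.inr rfl), hwy2.symm, h12.symm, h22.symm⟩
  have hs' : ({B, A} : Finset (Finset V)) ∈ angles F := by rwa [pair_comm]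
  have e1 : tn F {A, B} = (if Jn F x1 y1 then 1 else 0) + (if Jn F x1 y2 then 1 else 0) +
      ((if Jn F x2 y1 then 1 else 0) + (if Jn F x2 y2 then 1 else 0)) := by
    rw [tn_eq hF hs, corners, hAB, hBA, card_filter, sum_product, sum_pair hx12, sum_pair hy12,
      sum_pair hy12]
  have jsym : ∀ x y : V, Jn F x y ↔ Jn F y x := by
    intro x y
    constructor <;> rintro ⟨m, a, b, c⟩ <;> exact ⟨m, a, c, b⟩
  have e2 : fn F {A, B} = ((if Jn F x1 y1 ∧ Jn F x1 y2 then 1 else 0) +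
      (if Jn F x2 y1 ∧ Jn F x2 y2 then 1 else 0)) +
      ((if Jn F x1 y1 ∧ Jn F x2 y1 then 1 else 0) +
      (if Jn F x1 y2 ∧ Jn F x2 y2 then 1 else 0)) := by
    rw [fn_eq hF hs]
    congr 1
    · rw [card_filter, hAB, sum_pair hx12]
      have f : ∀ x ∈ A \ B, (Sees F x B ↔ Jn F x y1 ∧ Jn F x y2) := by
        intro x hx
        rw [sees_iff hF hs hx, hBA]
        simp
      rw [if_congr (f x1 (by rw [hAB]; simp)) rfl rfl, if_congr (f x2 (by rw [hAB]; simp)) rfl rfl]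
    · rw [card_filter, hBA, sum_pair hy12]
      have f : ∀ y ∈ B \ A, (Sees F y A ↔ Jn F x1 y ∧ Jn F x2 y) := by
        intro y hy
        rw [sees_iff hF hs' hy, hAB, jsym x1 y, jsym x2 y]
        simp
      rw [if_congr (f y1 (by rw [hBA]; simp)) rfl rfl, if_congr (f y2 (by rw [hBA]; simp)) rfl rfl]
  have e3 : on F {A, B} = (if Jn F x1 y1 ∧ Jn F x2 y2 then 1 else 0) +
      (if Jn F x1 y2 ∧ Jn F x2 y1 then 1 else 0) +
      ((if Jn F x2 y1 ∧ Jn F x1 y2 then 1 else 0) +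
      (if Jn F x2 y2 ∧ Jn F x1 y1 then 1 else 0)) := by
    have key : ∀ x y : V, (∃ q ∈ corners F A B, q.1 ≠ x ∧ q.2 ≠ y) ↔
        (x1 ≠ x ∧ y1 ≠ y ∧ Jn F x1 y1) ∨ (x1 ≠ x ∧ y2 ≠ y ∧ Jn F x1 y2) ∨
        (x2 ≠ x ∧ y1 ≠ y ∧ Jn F x2 y1) ∨ (x2 ≠ x ∧ y2 ≠ y ∧ Jn F x2 y2) := by
      intro x y
      rw [corners, hAB, hBA]
      constructor
      · rintro ⟨⟨q1, q2⟩, hq, h1, h2⟩
        rw [mem_filter, mem_product] at hq
        simp only [mem_insert, mem_singleton] at hq h1 h2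
        obtain ⟨⟨rfl | rfl, rfl | rfl⟩, hJ⟩ := hq <;> tauto
      · have hm : ∀ u v : V, u ∈ ({x1, x2} : Finset V) → v ∈ ({y1, y2} : Finset V) → u ≠ x →
            v ≠ y → Jn F u v → ∃ q ∈ (({x1, x2} : Finset V) ×ˢ ({y1, y2} : Finset V)).filter
              (fun p => Jn F p.1 p.2), q.1 ≠ x ∧ q.2 ≠ y := by
          intro u v hu hv h1 h2 h3
          exact ⟨(u, v), mem_filter.2 ⟨mem_product.2 ⟨hu, hv⟩, h3⟩, h1, h2⟩
        rintro (⟨a, b, c⟩ | ⟨a, b, c⟩ | ⟨a, b, c⟩ | ⟨a, b, c⟩)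
        · exact hm _ _ (by simp) (by simp) a b c
        · exact hm _ _ (by simp) (by simp) a b c
        · exact hm _ _ (by simp) (by simp) a b c
        · exact hm _ _ (by simp) (by simp) a b c
    rw [on_eq hF hs]
    simp only [key]
    rw [corners, hAB, hBA, filter_filter, card_filter, sum_product, sum_pair hx12, sum_pair hy12,
      sum_pair hy12]
    have n1 := hx12.symm
    have n2 := hy12.symm
    simp only [ne_eq, not_true_eq_false, false_and, false_or, or_false, hx12, hy12, n1, n2,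
      not_false_eq_true, true_and]
  rw [e1] at ht
  rw [e1, e2, e3]
  by_cases j11 : Jn F x1 y1 <;> by_cases j12 : Jn F x1 y2 <;> by_cases j21 : Jn F x2 y1 <;>
    by_cases j22 : Jn F x2 y2 <;> simp [j11, j12, j21, j22] at ht ⊢

theorem sum_dl (hF : Lin F) (hS : S ⊆ angles F) (hcl : TriClosed F S) :
    ∑ τ ∈ trisOf F S, dl F τ = ∑ s ∈ S, on F s := by
  classical
  have h1 : ∀ s ∈ S, on F s = (bipartiteAbove
      (fun s τ => s ⊆ τ ∧ ∃ n ∈ F, un s \ multi τ ⊆ n) (trisOf F S) s).card := by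
    intro s hs
    unfold on bipartiteAbove trisOf
    congr 1
    ext τ
    simp only [mem_filter]
    constructor
    · rintro ⟨a, b, c⟩
      exact ⟨⟨a, s, hs, b⟩, b, c⟩
    · rintro ⟨⟨a, -⟩, b⟩
      exact ⟨a, b⟩
  rw [sum_congr rfl h1, sum_card_bipartiteAbove_eq_sum_card_bipartiteBelow]
  refine sum_congr rfl fun τ hτ => ?_
  unfold trisOf at hτ
  rw [mem_filter] at hτ
  obtain ⟨hτt, s0, hs0, hs0τ⟩ := hτ
  unfold dl bipartiteBelow
  congr 1
  ext s
  rw [mem_filter, mem_filter, mem_powersetCard]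
  constructor
  · rintro ⟨⟨a, b⟩, c⟩
    exact ⟨hcl τ hτt s0 hs0 hs0τ s (hF.angle_of_tri hτt a b) a, a, c⟩
  · rintro ⟨a, b, c⟩
    exact ⟨⟨b, (mem_angles.1 (hS a)).2.1⟩, c⟩

end Pool.Agent.Helper74K9.BES
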