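import Pool.Agent.Helper74K9.BES.X2a
import Pool.Agent.Helper74K9.BES.Tri
import Pool.Agent.Helper74K9.BES.Count

/-!
# The connectivity count
-/

set_option autoImplicit false

namespace Pool.Agent.Helper74K9.BES

open Finset Pool.Agent.W848 Pool.Agent.W848.TreeAvg

variable {V : Type*} [DecidableEq V] {F : Finset (Finset V)} {S : Finset (Finset (Finset V))}
  {τ s : Finset (Finset V)}

/-- coordinates with prescribed lines -/
lemma Lin.tri_coords' (h : Lin F) {A B C : Finset V}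
    (hτ : ({A, B, C} : Finset (Finset V)) ∈ tris F) (hAB : A ≠ B) (hAC : A ≠ C) (hBC : B ≠ C) :
    ∃ y z c u v d : V, TC {A, B, C} y z c u v d ∧ A = {y, c, u} ∧ B = {y, z, v} ∧
      C = {z, c, d} := by
  obtain ⟨hτH, h3, h6⟩ := mem_tris.1 hτ
  have hA : A ∈ F := hτH (by simp)
  have hB : B ∈ F := hτH (by simp)
  have hC : C ∈ F := hτH (by simp)
  have hang : ({A, B} : Finset (Finset V)) ∈ angles F := h.tri_pair hτ
    (by intro D hD; simp only [mem_insert, mem_singleton] at hD ⊢; tauto) (card_pair hAB)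
  obtain ⟨-, -, -, y, hyA, hyB⟩ := h.pair_mem_angles.1 hang
  obtain ⟨C', hC', hAC', hBC', hτe, c, hc, z, hz, hcC, hzC, hcz⟩ := h.tri_third hang hτ
    (by intro D hD; simp only [mem_insert, mem_singleton] at hD ⊢; tauto)
  have hCC : C' = C := by
    have : C' ∈ ({A, B, C} : Finset (Finset V)) := by rw [hτe]; simp
    simp only [mem_insert, mem_singleton] at this
    rcases this with hh | hh | hh
    · exact absurd hh.symm hAC'
    · exact absurd hh.symm hBC'
    · exact hh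
  subst hCC
  rw [mem_sdiff] at hc hz
  have hyz : y ≠ z := by rintro rfl; exact hz.2 hyA
  have hyc : y ≠ c := by rintro rfl; exact hc.2 hyB
  have hyC : y ∉ C' := by
    intro hy
    exact hAC (h.eq_of_two hA hC hyc hyA hc.1 hy hcC)
  obtain ⟨u, huy, huc, hAe⟩ := card3_erase (h.h3 A hA) hyc hyA hc.1
  obtain ⟨v, hvy, hvz, hBe⟩ := card3_erase (h.h3 B hB) hyz hyB hz.1
  obtain ⟨d, hdz, hdc, hCe⟩ := card3_erase (h.h3 C' hC) hcz.symm hzC hcC
  have huA : u ∈ A := by rw [hAe]; simp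
  have hvB : v ∈ B := by rw [hBe]; simp
  have hdC : d ∈ C' := by rw [hCe]; simp
  refine ⟨y, z, c, u, v, d, ⟨hyz, hyc, hcz.symm, huy.symm, hvy.symm, ?_, ?_, hvz.symm, hdz.symm,
    huc.symm, ?_, hdc.symm, ?_, ?_, ?_, by rw [← hAe, ← hBe, ← hCe]⟩, hAe, hBe, hCe⟩
  · rintro rfl; exact hyC hdC
  · rintro rfl; exact hz.2 huA
  · rintro rfl; exact hc.2 hvB
  · rintro rfl; exact hAB (h.eq_of_two hA hB huy huA hyA hvB hyB)
  · rintro rfl; exact hAC (h.eq_of_two hA hC huc huA hc.1 hdC hcC)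
  · rintro rfl; exact hBC (h.eq_of_two hB hC hvz hvB hz.1 hdC hzC)

/-- two opposite joined corners -/
lemma on_pos (h : Lin F) {A B : Finset V} (hA : A ∈ F) (hB : B ∈ F)
    {w x₁ x₂ y₁ y₂ : V} (hAe : A = {w, x₁, x₂}) (hBe : B = {w, y₁, y₂}) (hx1 : x₁ ∉ B)
    (hx2 : x₂ ∉ B) (hy1 : y₁ ∉ A) (hy2 : y₂ ∉ A) (hxx : x₁ ≠ x₂) (hyy : y₁ ≠ y₂)
    (h1 : Jn F x₁ y₁) (h2 : Jn F x₂ y₂) : 1 ≤ on F {A, B} := by
  obtain ⟨m, hm, hx1m, hy1m⟩ := h1
  obtain ⟨m', hm', hx2m, hy2m⟩ := h2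
  have hx1A : x₁ ∈ A := by rw [hAe]; simp
  have hy1B : y₁ ∈ B := by rw [hBe]; simp
  have hwA : w ∈ A := by rw [hAe]; simp
  have hwB : w ∈ B := by rw [hBe]; simp
  have hAB : A ≠ B := by rintro rfl; exact hx1 hx1A
  have hAm : A ≠ m := by rintro rfl; exact hy1 hy1m
  have hBm : B ≠ m := by rintro rfl; exact hx1 hx1m
  have hwx : w ≠ x₁ := by rintro rfl; exact hx1 hwB
  have hwm : w ∉ m := fun hw => hAm (h.eq_of_two hA hm hwx hwA hx1A hw hx1m)
  have htri : ({A, B, m} : Finset (Finset V)) ∈ tris F :=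
    h.tri_mem hA hB hm hAB hAm hBm hwA hwB hwm hy1B hy1m hx1A hx1m
  refine card_pos.2 ⟨{A, B, m}, mem_filter.2 ⟨htri, ?_, m', hm', ?_⟩⟩
  · intro D hD; simp only [mem_insert, mem_singleton] at hD ⊢; tauto
  · intro p hp
    rw [mem_sdiff, un_pair, mem_union] at hp
    obtain ⟨hp1, hp2⟩ := hp
    have k1 : p ≠ w := by
      rintro rfl
      exact hp2 (mem_multi'.2 ⟨A, by simp, B, by simp, hAB, hwA, hwB⟩)
    have k2 : p ≠ x₁ := by
      rintro rfl
      exact hp2 (mem_multi'.2 ⟨A, by simp, m, by simp, hAm, hx1A, hx1m⟩)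
    have k3 : p ≠ y₁ := by
      rintro rfl
      exact hp2 (mem_multi'.2 ⟨B, by simp, m, by simp, hBm, hy1B, hy1m⟩)
    rw [hAe, hBe] at hp1
    simp only [mem_insert, mem_singleton] at hp1
    rcases hp1 with (hh | hh | hh) | (hh | hh | hh)
    · exact absurd hh k1
    · exact absurd hh k2
    · rw [hh]; exact hx2m
    · exact absurd hh k1
    · exact absurd hh k3
    · rw [hh]; exact hy2m

/-- if two lines of a triangle are seen by the opposite vertices, the angle they form has two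
opposite joined corners -/
lemma two_bases (h : Lin F) (hτ : τ ∈ tris F) {B C : Finset V} (hB : B ∈ τ) (hC : C ∈ τ)
    (hBC : B ≠ C) {x x' : V} (hx : x ∈ multi τ) (hx' : x' ∈ multi τ) (h1 : Sees F x B)
    (h2 : Sees F x' C) : 1 ≤ on F {B, C} := by
  obtain ⟨hτF, h3, h6⟩ := mem_tris.1 hτ
  have hang : ({B, C} : Finset (Finset V)) ∈ angles F := h.tri_pair hτ
    (by intro D hD; simp only [mem_insert, mem_singleton] at hD; rcases hD with rfl | rfl <;> assumption)
    (card_pair hBC)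
  obtain ⟨A, hA, hBA, hCA, hτe, -⟩ := h.tri_third hang hτ
    (by intro D hD; simp only [mem_insert, mem_singleton] at hD; rcases hD with rfl | rfl <;> assumption)
  subst hτe
  obtain ⟨y, z, c, u, v, d, t, hBe, hCe, hAe⟩ := h.tri_coords' hτ hBC hBA hCA
  -- `B = {y, c, u}`, `C = {y, z, v}`, `A = {z, c, d}`
  rw [t.multi_eq] at hx hx'
  simp only [mem_insert, mem_singleton] at hx hx'
  have hxz : x = z := by
    rcases hx with rfl | rfl | rfl
    · exact absurd (by rw [hBe]; simp) h1.1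
    · rfl
    · exact absurd (by rw [hBe]; simp) h1.1
  have hxc : x' = c := by
    rcases hx' with rfl | rfl | rfl
    · exact absurd (by rw [hCe]; simp) h2.1
    · exact absurd (by rw [hCe]; simp) h2.1
    · rfl
  subst hxz
  subst hxc
  have j1 : Jn F x u := h1.2 u (by rw [hBe]; simp)
  have j2 : Jn F x' v := h2.2 v (by rw [hCe]; simp)
  have j1' : Jn F u x := by
    obtain ⟨m, hm, a, b⟩ := j1
    exact ⟨m, hm, b, a⟩
  refine on_pos h (hτF (by simp)) (hτF (by simp)) (w := y) (x₁ := x') (x₂ := u) (y₁ := v) (y₂ := x)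
    hBe (by rw [hCe]; ext p; simp only [mem_insert, mem_singleton]; tauto) ?_ ?_ ?_ ?_ t.cu t.zv.symm
    j2 j1'
  · rw [hCe]; simp [t.yc.symm, t.zc.symm, t.cv]
  · rw [hCe]; simp [t.yu.symm, t.zu.symm, t.uv]
  · rw [hBe]; simp [t.yv.symm, t.cv.symm, t.uv.symm]
  · rw [hBe]; simp [t.yz.symm, t.zc, t.zu]

/-- loose triangles: the vertex `x` opposite to a line `B` sees `B`, and the two angles with the
line `B` have no two opposite joined corners -/
def Loose (F : Finset (Finset V)) (τ : Finset (Finset V)) : Prop :=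
  ∃ B ∈ τ, ∃ x ∈ multi τ, Sees F x B ∧ ∀ s ∈ τ.powersetCard 2, B ∈ s → on F s = 0

instance (F : Finset (Finset V)) (τ : Finset (Finset V)) : Decidable (Loose F τ) := by
  unfold Loose; infer_instance

lemma Jn.symm' {x y : V} (hj : Jn F x y) : Jn F y x := by
  obtain ⟨m, hm, a, b⟩ := hj
  exact ⟨m, hm, b, a⟩

/-- a loose triangle with a closing line has an angle with exactly two, opposite, joined corners -/
lemma loose_dl (h : Lin F) (hτ : τ ∈ tris F) (hl : Loose F τ) (hdl : 1 ≤ dl F τ) :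
    ∃ s ⊆ τ, s ∈ angles F ∧ 1 ≤ on F s ∧ tn F s = 2 := by
  obtain ⟨C, hC, x, hx, hsee, hon⟩ := hl
  unfold dl at hdl
  obtain ⟨s, hs⟩ := card_pos.1 hdl
  rw [mem_filter, mem_powersetCard] at hs
  obtain ⟨⟨hsτ, hs2⟩, n, hn, hsn⟩ := hs
  have hpos : 1 ≤ on F s := card_pos.2 ⟨τ, mem_filter.2 ⟨hτ, hsτ, n, hn, hsn⟩⟩
  have hCs : C ∉ s := by
    intro hCs
    have := hon s (mem_powersetCard.2 ⟨hsτ, hs2⟩) hCs
    omega
  have hang := h.tri_pair hτ hsτ hs2
  refine ⟨s, hsτ, hang, hpos, ?_⟩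
  obtain ⟨A, B, hAB, rfl⟩ := card_eq_two.1 hs2
  obtain ⟨C', hC', hAC, hBC, hτe, -⟩ := h.tri_third hang hτ hsτ
  have hCC : C = C' := by
    rw [hτe] at hC
    simp only [mem_insert, mem_singleton] at hC hCs
    rcases hC with hh | hh | hh
    · exact absurd (Or.inl hh) hCs
    · exact absurd (Or.inr hh) hCs
    · exact hh
  subst hCC
  subst hτe
  obtain ⟨hτF, h3, h6⟩ := mem_tris.1 hτ
  have hAF : A ∈ F := hτF (by simp)
  have hBF : B ∈ F := hτF (by simp)
  obtain ⟨y, z, c, u, v, d, t, hAe, hBe, hCe⟩ := h.tri_coords' hτ hAB hAC hBC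
  have hmulti := t.multi_eq
  -- `y` sees `C`
  have hyx : x = y := by
    rw [hmulti] at hx
    simp only [mem_insert, mem_singleton] at hx
    rcases hx with hh | hh | hh
    · exact hh
    · exact absurd (by rw [hh, hCe]; simp) hsee.1
    · exact absurd (by rw [hh, hCe]; simp) hsee.1
  have hcm : c ∈ multi ({A, B, C} : Finset (Finset V)) := by rw [hmulti]; simp
  have hzm : z ∈ multi ({A, B, C} : Finset (Finset V)) := by rw [hmulti]; simp
  have ncv : ¬ Jn F c v := by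
    intro hj
    have hs : Sees F c B := by
      refine ⟨by rw [hBe]; simp [t.yc.symm, t.zc.symm, t.cv], ?_⟩
      intro p hp
      rw [hBe] at hp
      simp only [mem_insert, mem_singleton] at hp
      rcases hp with rfl | rfl | rfl
      · exact ⟨A, hAF, by rw [hAe]; simp, by rw [hAe]; simp⟩
      · exact ⟨C, hC', by rw [hCe]; simp, by rw [hCe]; simp⟩
      · exact hj
    have k1 := two_bases h hτ (B := B) (C := C) (by simp) (by simp) hBC hcm hx hs hsee
    have k2 := hon {B, C} (mem_powersetCard.2 ⟨by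
      intro D hD; simp only [mem_insert, mem_singleton] at hD ⊢; tauto, card_pair hBC⟩) (by simp)
    omega
  have nuz : ¬ Jn F u z := by
    intro hj
    have hs : Sees F z A := by
      refine ⟨by rw [hAe]; simp [t.yz.symm, t.zc, t.zu], ?_⟩
      intro p hp
      rw [hAe] at hp
      simp only [mem_insert, mem_singleton] at hp
      rcases hp with rfl | rfl | rfl
      · exact ⟨B, hBF, by rw [hBe]; simp, by rw [hBe]; simp⟩
      · exact ⟨C, hC', by rw [hCe]; simp, by rw [hCe]; simp⟩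
      · exact hj.symm'
    have k1 := two_bases h hτ (B := A) (C := C) (by simp) (by simp) hAC hzm hx hs hsee
    have k2 := hon {A, C} (mem_powersetCard.2 ⟨by
      intro D hD; simp only [mem_insert, mem_singleton] at hD ⊢; tauto, card_pair hAC⟩) (by simp)
    omega
  -- the joined corners
  have hu : u ∈ n := hsn (by
    rw [un_pair, hmulti, mem_sdiff, mem_union]
    refine ⟨Or.inl (by rw [hAe]; simp), ?_⟩
    simp [t.yu.symm, t.zu.symm, t.cu.symm])
  have hv : v ∈ n := hsn (by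
    rw [un_pair, hmulti, mem_sdiff, mem_union]
    refine ⟨Or.inr (by rw [hBe]; simp), ?_⟩
    simp [t.yv.symm, t.zv.symm, t.cv.symm])
  have hcor : corners F A B = {(c, z), (u, v)} := by
    ext ⟨p, q⟩
    simp only [corners, mem_filter, mem_product, mem_sdiff, mem_insert, mem_singleton,
      Prod.mk.injEq]
    constructor
    · rintro ⟨⟨⟨hp1, hp2⟩, hq1, hq2⟩, hj⟩
      rw [hAe] at hp1 hq2
      rw [hBe] at hp2 hq1
      simp only [mem_insert, mem_singleton, not_or] at hp1 hp2 hq1 hq2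
      have hp : p = c ∨ p = u := hp1.resolve_left hp2.1
      have hq : q = z ∨ q = v := hq1.resolve_left hq2.1
      rcases hp with rfl | rfl <;> rcases hq with rfl | rfl
      · exact Or.inl ⟨rfl, rfl⟩
      · exact absurd hj ncv
      · exact absurd hj nuz
      · exact Or.inr ⟨rfl, rfl⟩
    · rintro (⟨rfl, rfl⟩ | ⟨rfl, rfl⟩)
      · refine ⟨⟨⟨by rw [hAe]; simp, by rw [hBe]; simp [t.yc.symm, t.zc.symm, t.cv]⟩,
          by rw [hBe]; simp, by rw [hAe]; simp [t.yz.symm, t.zc, t.zu]⟩, ?_⟩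
        exact ⟨C, hC', by rw [hCe]; simp, by rw [hCe]; simp⟩
      · refine ⟨⟨⟨by rw [hAe]; simp, by rw [hBe]; simp [t.yu.symm, t.zu.symm, t.uv]⟩,
          by rw [hBe]; simp, by rw [hAe]; simp [t.yv.symm, t.cv.symm, t.uv.symm]⟩, ?_⟩
        exact ⟨n, hn, hu, hv⟩
  rw [tn_eq h hang, hcor, card_pair]
  intro hh
  exact t.cu (Prod.mk.inj hh).1

/-- two triangles at an angle without opposite joined corners lie in a common face -/
lemma share (h : Lin F) {A B : Finset V} (hs : ({A, B} : Finset (Finset V)) ∈ angles F)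
    (hon : on F {A, B} = 0) {τ' : Finset (Finset V)} (hτ : τ ∈ tris F) (hτ' : τ' ∈ tris F)
    (hsτ : ({A, B} : Finset (Finset V)) ⊆ τ) (hsτ' : ({A, B} : Finset (Finset V)) ⊆ τ')
    (hne : τ ≠ τ') :
    (∃ x, x ∈ multi τ ∧ x ∈ multi τ' ∧ x ∈ A ∧ Sees F x B) ∨
      (∃ x, x ∈ multi τ ∧ x ∈ multi τ' ∧ x ∈ B ∧ Sees F x A) := by
  obtain ⟨hAF, hBF, hAB, -⟩ := h.pair_mem_angles.1 hs
  obtain ⟨C, hC, hAC, hBC, hτe, -⟩ := h.tri_third hs hτ hsτ
  obtain ⟨C', hC', hAC', hBC', hτe', c', hc', z', hz', hcC', hzC', hcz'⟩ :=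
    h.tri_third hs hτ' hsτ'
  subst hτe
  subst hτe'
  obtain ⟨y, z, c, u, v, d, t, hAe, hBe, hCe⟩ := h.tri_coords' hτ hAB hAC hBC
  have hmulti := t.multi_eq
  rw [mem_sdiff] at hc' hz'
  have hCC : C ≠ C' := by
    rintro rfl
    exact hne rfl
  have hc2 : c' = c ∨ c' = u := by
    have h1 := hc'.1
    rw [hAe] at h1
    simp only [mem_insert, mem_singleton] at h1
    exact h1.resolve_left (fun hh => hc'.2 (by rw [hh, hBe]; simp))
  have hz2 : z' = z ∨ z' = v := by
    have h1 := hz'.1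
    rw [hBe] at h1
    simp only [mem_insert, mem_singleton] at h1
    exact h1.resolve_left (fun hh => hz'.2 (by rw [hh, hAe]; simp))
  have hcC : c ∈ C := by rw [hCe]; simp
  have hzC : z ∈ C := by rw [hCe]; simp
  rcases hc2 with rfl | rfl <;> rcases hz2 with rfl | rfl
  · exact absurd (h.eq_of_two hC hC' t.zc hzC hcC hzC' hcC') hCC
  · -- `c'` sees `B`
    left
    refine ⟨c', by rw [hmulti]; simp, mem_multi'.2 ⟨A, by simp, C', by simp, hAC', hc'.1, hcC'⟩,
      hc'.1, hc'.2, ?_⟩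
    intro p hp
    rw [hBe] at hp
    simp only [mem_insert, mem_singleton] at hp
    rcases hp with rfl | rfl | rfl
    · exact ⟨A, hAF, hc'.1, by rw [hAe]; simp⟩
    · exact ⟨C, hC, hcC, hzC⟩
    · exact ⟨C', hC', hcC', hzC'⟩
  · right
    refine ⟨z', by rw [hmulti]; simp, mem_multi'.2 ⟨B, by simp, C', by simp, hBC', hz'.1, hzC'⟩,
      hz'.1, hz'.2, ?_⟩
    intro p hp
    rw [hAe] at hp
    simp only [mem_insert, mem_singleton] at hp
    rcases hp with rfl | rfl | rfl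
    · exact ⟨B, hBF, hz'.1, by rw [hBe]; simp⟩
    · exact ⟨C, hC, hzC, hcC⟩
    · exact ⟨C', hC', hzC', hcC'⟩
  · exfalso
    have := on_pos h hAF hBF hAe hBe (by rw [hBe]; simp [t.yc.symm, t.zc.symm, t.cv])
      (by rw [hBe]; simp [t.yu.symm, t.zu.symm, t.uv]) (by rw [hAe]; simp [t.yz.symm, t.zc, t.zu])
      (by rw [hAe]; simp [t.yv.symm, t.cv.symm, t.uv.symm]) t.cu t.zv
      ⟨C, hC, hcC, hzC⟩ ⟨C', hC', hcC', hzC'⟩
    omega

/-- the triangles of a face -/
def FaceT (F : Finset (Finset V)) (x : V) (B : Finset V) (τ : Finset (Finset V)) : Prop :=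
  τ ∈ tris F ∧ B ∈ τ ∧ x ∈ multi τ

/-- the structure of a face -/
lemma face_struct (h : Lin F) {A B : Finset V} {x : V} (hxA : x ∈ A) (hsee : Sees F x B)
    {τ' : Finset (Finset V)} (hs : ({A, B} : Finset (Finset V)) ∈ angles F)
    (hτ : τ ∈ tris F) (hτ' : τ' ∈ tris F) (hsτ : ({A, B} : Finset (Finset V)) ⊆ τ)
    (hsτ' : ({A, B} : Finset (Finset V)) ⊆ τ') (hne : τ ≠ τ') (hxτ : x ∈ multi τ)
    (hxτ' : x ∈ multi τ') :
    ∃ n n' : Finset V, B ≠ n ∧ B ≠ n' ∧ A ≠ n ∧ A ≠ n' ∧ n ≠ n' ∧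
      τ = {A, B, n} ∧ τ' = {A, B, n'} ∧ FaceT F x B ({B, n, n'}) ∧
      ∀ ρ, FaceT F x B ρ → ρ = τ ∨ ρ = τ' ∨ ρ = {B, n, n'} := by
  obtain ⟨hAF, hBF, hAB, y, hyA, hyB⟩ := h.pair_mem_angles.1 hs
  obtain ⟨n, hn, hAn, hBn, hτe, c, hc, z, hz, hcn, hzn, hcz⟩ := h.tri_third hs hτ hsτ
  obtain ⟨n', hn', hAn', hBn', hτe', c', hc', z', hz', hcn', hzn', hcz'⟩ :=
    h.tri_third hs hτ' hsτ'
  subst hτe
  subst hτe'
  have hxB := hsee.1
  rw [mem_sdiff] at hc hz hc' hz'
  have hnn : n ≠ n' := by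
    rintro rfl
    exact hne rfl
  -- `x` lies on `n` and on `n'`
  have hxm : ∀ m : Finset V, x ∈ multi ({A, B, m} : Finset (Finset V)) → x ∈ m := by
    intro m hm
    rw [mem_multi'] at hm
    obtain ⟨D, hD, E, hE, hDE, h1, h2⟩ := hm
    simp only [mem_insert, mem_singleton] at hD hE
    rcases hD with rfl | rfl | rfl <;> rcases hE with rfl | rfl | rfl <;>
      first | exact absurd rfl hDE | assumption | exact absurd h1 hxB | exact absurd h2 hxB
  have hxn := hxm n hxτ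
  have hxn' := hxm n' hxτ'
  have hxy : x ≠ y := by rintro rfl; exact hxB hyB
  have hxz : x ≠ z := by rintro rfl; exact hxB hz.1
  have hxz' : x ≠ z' := by rintro rfl; exact hxB hz'.1
  have hyz : y ≠ z := by rintro rfl; exact hz.2 hyA
  have hyz' : y ≠ z' := by rintro rfl; exact hz'.2 hyA
  have hzz' : z ≠ z' := by
    rintro rfl
    exact hnn (h.eq_of_two hn hn' hxz hxn hzn hxn' hzn')
  have hBe : B = {y, z, z'} := by
    refine (eq_of_subset_of_card_le ?_ ?_).symm
    · intro p hp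
      simp only [mem_insert, mem_singleton] at hp
      rcases hp with rfl | rfl | rfl
      · exact hyB
      · exact hz.1
      · exact hz'.1
    · rw [h.h3 B hBF, card_eq_three.2 ⟨y, z, z', hyz, hyz', hzz', rfl⟩]
  have hzn'' : z ∉ n' := by
    intro hh
    exact hnn (h.eq_of_two hn hn' hxz hxn hzn hxn' hh)
  have htri : ({B, n, n'} : Finset (Finset V)) ∈ tris F :=
    h.tri_mem hBF hn hn' hBn hBn' hnn hz.1 hzn hzn'' hxn hxn' hz'.1 hzn'
  have hxm'' : x ∈ multi ({B, n, n'} : Finset (Finset V)) :=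
    mem_multi'.2 ⟨n, by simp, n', by simp, hnn, hxn, hxn'⟩
  refine ⟨n, n', hBn, hBn', hAn, hAn', hnn, rfl, rfl, ⟨htri, by simp, hxm''⟩, ?_⟩
  rintro ρ ⟨hρ, hBρ, hxρ⟩
  obtain ⟨hρF, hρ3, -⟩ := mem_tris.1 hρ
  -- a line of `ρ` through `x` is one of the three
  have key : ∀ m ∈ ρ, x ∈ m → m = A ∨ m = n ∨ m = n' := by
    intro m hm hxm'
    have hmB : m ≠ B := fun hh => hxB (hh ▸ hxm')
    obtain ⟨hmF, -, -, b, hbm, hbB⟩ := h.pair_mem_angles.1 (h.tri_pair hρ (s := {m, B})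
      (by intro D hD; simp only [mem_insert, mem_singleton] at hD
          rcases hD with rfl | rfl <;> assumption) (card_pair hmB))
    rw [hBe] at hbB
    simp only [mem_insert, mem_singleton] at hbB
    rcases hbB with rfl | rfl | rfl
    · exact Or.inl (h.eq_of_two hmF hAF hxy hxm' hbm hxA hyA)
    · exact Or.inr (Or.inl (h.eq_of_two hmF hn hxz hxm' hbm hxn hzn))
    · exact Or.inr (Or.inr (h.eq_of_two hmF hn' hxz' hxm' hbm hxn' hzn'))
  rw [mem_multi'] at hxρ
  obtain ⟨m, hm, m', hm', hmm, hxm1, hxm2⟩ := hxρ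
  have hmB : B ≠ m := fun hh => hxB (hh ▸ hxm1)
  have hmB' : B ≠ m' := fun hh => hxB (hh ▸ hxm2)
  have hρe : ρ = {B, m, m'} := by
    refine (eq_of_subset_of_card_le ?_ ?_).symm
    · intro D hD
      simp only [mem_insert, mem_singleton] at hD
      rcases hD with rfl | rfl | rfl <;> assumption
    · rw [hρ3, card_eq_three.2 ⟨B, m, m', hmB, hmB', hmm, rfl⟩]
  have c1 := key m hm hxm1
  have c2 := key m' hm' hxm2
  clear key hxm
  rcases c1 with c1 | c1 | c1 <;> rcases c2 with c2 | c2 | c2 <;> rw [c1, c2] at hρe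
  · exact absurd (c1.trans c2.symm) hmm
  · left; rw [hρe, insert_comm]
  · right; left; rw [hρe, insert_comm]
  · left; rw [hρe, pair_comm, insert_comm]
  · exact absurd (c1.trans c2.symm) hmm
  · right; right; exact hρe
  · right; left; rw [hρe, pair_comm, insert_comm]
  · right; right; rw [hρe, pair_comm]
  · exact absurd (c1.trans c2.symm) hmm

/-- a face has another triangle -/
lemma face_other (h : Lin F) (hτ : τ ∈ tris F) {B : Finset V} (hB : B ∈ τ) {x : V}
    (hx : x ∈ multi τ) (hsee : Sees F x B) : ∃ ρ, FaceT F x B ρ ∧ ρ ≠ τ ∧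
      ∃ s ⊆ τ, s ⊆ ρ ∧ s.card = 2 := by
  obtain ⟨hτF, h3, h6⟩ := mem_tris.1 hτ
  have hx' := hx
  rw [mem_multi'] at hx'
  obtain ⟨A, hA, C, hC, hAC, hxA, hxC⟩ := hx'
  have hBA : B ≠ A := by rintro rfl; exact hsee.1 hxA
  have hBC : B ≠ C := by rintro rfl; exact hsee.1 hxC
  have hτe : τ = {B, A, C} := by
    refine (eq_of_subset_of_card_le ?_ ?_).symm
    · intro D hD
      simp only [mem_insert, mem_singleton] at hD
      rcases hD with rfl | rfl | rfl <;> assumption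
    · rw [h3, card_eq_three.2 ⟨B, A, C, hBA, hBC, hAC, rfl⟩]
  subst hτe
  obtain ⟨y, z, c, u, v, d, t, hBe, hAe, hCe⟩ := h.tri_coords' hτ hBA hBC hAC
  have hBF := hτF hB
  have hAF := hτF hA
  -- the third point of `B`
  obtain ⟨m, hm, hxm, hum⟩ := hsee.2 u (by rw [hBe]; simp)
  have huB : u ∈ B := by rw [hBe]; simp
  have hyB : y ∈ B := by rw [hBe]; simp
  have hyA : y ∈ A := by rw [hAe]; simp
  have hBm : B ≠ m := by rintro rfl; exact hsee.1 hxm
  have huA : u ∉ A := by rw [hAe]; simp [t.yu.symm, t.zu.symm, t.uv]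
  have huC : u ∉ C := by rw [hCe]; simp [t.zu.symm, t.cu.symm, t.ud]
  have hAm : A ≠ m := by rintro rfl; exact huA hum
  have hCm : C ≠ m := by rintro rfl; exact huC hum
  have hym : y ∉ m := fun hh => hBm (h.eq_of_two hBF hm t.yu hyB huB hh hum)
  have htri : ({B, A, m} : Finset (Finset V)) ∈ tris F :=
    h.tri_mem hBF hAF hm hBA hBm hAm hyB hyA hym hxA hxm huB hum
  refine ⟨{B, A, m}, ⟨htri, by simp, mem_multi'.2 ⟨A, by simp, m, by simp, hAm, hxA, hxm⟩⟩, ?_,
    {B, A}, ?_, ?_, card_pair hBA⟩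
  · intro hh
    have : m ∈ ({B, A, C} : Finset (Finset V)) := by rw [← hh]; simp
    simp only [mem_insert, mem_singleton] at this
    rcases this with hh | hh | hh
    · exact hBm hh.symm
    · exact hAm hh.symm
    · exact hCm hh.symm
  · intro D hD; simp only [mem_insert, mem_singleton] at hD ⊢; tauto
  · intro D hD; simp only [mem_insert, mem_singleton] at hD ⊢; tauto

end Pool.Agent.Helper74K9.BES
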